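import Pool.Agent.Lib_helper72.K8a.Ln
import Pool.Agent.Lib_helper72.K8b.Ln
import Pool.Agent.Lib_helper54.FAM.LK8b
import Pool.Agent.Lib_helper40.MC.T8b.Ix
import Pool.Agent.Lib_helper76.UE8.P12

set_option autoImplicit false
set_option linter.unusedSectionVars false

/-!
# Points of order eight: the clauses
-/

open scoped TensorProduct WithZero

namespace Pool.Agent.FK4

open Pool.Agent.MK4 WeierstrassCurve.Affine Pool.Agent.KC72 Pool.Agent.MC
open Pool.Agent.TN (Wt)

variable {k : Type*} [Field k] [DecidableEq k] [CharZero k] {W : WeierstrassCurve.Affine k}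
  {F : Type*} [Field F] [Algebra k F] {X Y : F}

/-- the second special curve with a point of order eight -/
theorem line8b (hg : Generic W X Y) {P : W.Point} (h8 : To8' P X Y) : Line P X Y := by
  have : CharZero F := charZero_of_injective_algebraMap (algebraMap k F).injective
  have hcls : N8C.c8b_cls = K8b.cls := by decide +kernel
  have hLo := L8b_ok
  have hLd := L8b_D
  have hR := L8b_res
  rw [hcls] at hLo hLd hR
  have hsc : sameC MC8b.c8b.cls K8b.cls = true := by rw [← hcls]; exact MC8b.same
  have hLL : L8b.map (fun t => (oo K8b.cls (t.c, t.s), t.u)) =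
      MC8b.c8b_l0.map (fun t => (oo MC8b.c8b.cls (t.c, t.s), t.u)) := by decide +kernel
  refine line8b_of hg h8 MC8b.c8b_ok rfl rfl hsc hLo hLd hLL hR ?_
  intro φ x y hgen htop
  have hne : ∀ z ∈ FK4R.g8b x y, z ≠ 0 := by
    rw [← ofFn_G8b]; exact K8b.G8l_ne hgen
  have hxi := xi8b_eq (x := x) (y := y) (by linear_combination K8b.Gen.eq' hgen) hne
  rw [hcls] at hxi
  rw [← hxi]
  exact K4N.rz_xi8b φ hgen htop

end Pool.Agent.FK4
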