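import Pool.Agent.Lib_helper87.FAM.Siegel

/-!
# The Siegel numbers of the multiples of a point of order nine
-/

set_option autoImplicit false
set_option linter.unusedSectionVars false
set_option linter.unusedSimpArgs false

namespace Pool.Agent.GK

open WeierstrassCurve.Affine
open K4M (dx ps pc ph)
open Pool.Agent.TN (Wt)
open Pool.Agent.UEG (P0 two_P0 three_P0 four_P0 negY_wt)

lemma prod_nine {M : Type*} [CommMonoid M] (f : Fin 9 → M) :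
    ∏ i, f i = f 0 * f 1 * f 2 * f 3 * f 4 * f 5 * f 6 * f 7 * f 8 := by
  rw [Fin.prod_univ_castSucc, Fin.prod_univ_eight]; rfl

lemma sum_nine {M : Type*} [AddCommMonoid M] (f : Fin 9 → M) :
    ∑ i, f i = f 0 + f 1 + f 2 + f 3 + f 4 + f 5 + f 6 + f 7 + f 8 := by
  rw [Fin.sum_univ_castSucc, Fin.sum_univ_eight]; rfl

variable {k : Type*} [Field k] [DecidableEq k] {b c : k}

/-- the Siegel numbers for a point of order nine -/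
lemma gam9 (hb : b ≠ 0) (hc : c ≠ 0) (hbc : b ≠ c) (hs : b - c - c ^ 2 ≠ 0) {r : k} (hr : b = r * c)
    (hr0 : r * (r - 1) ≠ 0) (hrb : b ≠ r * (r - 1)) (hrc : c ≠ r * (r - 1))
    (h9 : 2 * (r ^ 2 * (c + 1 - r)) + (1 - c) * (r * (r - 1)) - b ≠ 0)
    (hO : addOrderOf (P0 c hb) = 9) [Fintype (AddSubgroup.zmultiples (P0 c hb))] :
    gam _ (mz (P0 c hb) 9 1) = -(b ^ 4 * c ^ 2 * (r * (r - 1)) ^ 2) ∧
    gam _ (mz (P0 c hb) 9 2) = -((b * c) ^ 2 * b ^ 2 * (b - c) ^ 2 * (b - r * (r - 1)) ^ 2) ∧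
    gam _ (mz (P0 c hb) 9 3) = -((b - c - c ^ 2) ^ 2 * c ^ 2 * (b - c) ^ 2 * (c - r * (r - 1)) ^ 2) ∧
    gam _ (mz (P0 c hb) 9 4) = -((2 * (r ^ 2 * (c + 1 - r)) + (1 - c) * (r * (r - 1)) - b) ^ 2 * (r * (r - 1)) ^ 2 * (b - r * (r - 1)) ^ 2 * (c - r * (r - 1)) ^ 2) ∧
    gam _ (mz (P0 c hb) 9 5) = -((2 * (r ^ 2 * (c + 1 - r)) + (1 - c) * (r * (r - 1)) - b) ^ 2 * (r * (r - 1)) ^ 2 * (b - r * (r - 1)) ^ 2 * (c - r * (r - 1)) ^ 2) ∧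
    gam _ (mz (P0 c hb) 9 6) = -((b - c - c ^ 2) ^ 2 * c ^ 2 * (b - c) ^ 2 * (c - r * (r - 1)) ^ 2) ∧
    gam _ (mz (P0 c hb) 9 7) = -((b * c) ^ 2 * b ^ 2 * (b - c) ^ 2 * (b - r * (r - 1)) ^ 2) ∧
    gam _ (mz (P0 c hb) 9 8) = -(b ^ 4 * c ^ 2 * (r * (r - 1)) ^ 2) := by
  have q1 := m1 (c := c) hb
  have q2 := two_P0 (c := c) hb
  have q3 := three_P0 (c := c) hb
  have q4 := four_P0 hb hc hr
  obtain ⟨h5, e5⟩ := mn (x' := r * (r - 1)) (y' := -(r ^ 2 * (c + 1 - r)) - (1 - c) * (r * (r - 1)) + b) hb hO (i := 4) (j := 5) (by norm_num) q4 rfl (by ring)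
  obtain ⟨h6, e6⟩ := mn (x' := c) (y' := c ^ 2) hb hO (i := 3) (j := 6) (by norm_num) q3 rfl (by ring)
  obtain ⟨h7, e7⟩ := mn (x' := b) (y' := 0) hb hO (i := 2) (j := 7) (by norm_num) q2 rfl (by ring)
  obtain ⟨h8, e8⟩ := mn (x' := 0) (y' := b) hb hO (i := 1) (j := 8) (by norm_num) q1 rfl (by ring)
  obtain ⟨h1, e1⟩ := q1
  obtain ⟨h2, e2⟩ := q2
  obtain ⟨h3, e3⟩ := q3
  obtain ⟨h4, e4⟩ := q4
  have e0 : (0 : ℕ) • P0 c hb = 0 := zero_nsmul _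
  have p1 : pc (.some (0) (0) h1 : (Wt b c).Point) = -b := by
    rw [pc_of_ne _ (by intro h; apply hb; linear_combination -h)]; ring
  have p2 : pc (.some (b) (b * c) h2 : (Wt b c).Point) = b * c := by
    rw [pc_of_ne _ (by intro h; apply mul_ne_zero hb hc; linear_combination h)]; ring
  have p3 : pc (.some (c) (b - c) h3 : (Wt b c).Point) = b - c - c ^ 2 := by
    rw [pc_of_ne _ (by intro h; apply hs; linear_combination h)]; ring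
  have p4 : pc (.some (r * (r - 1)) (r ^ 2 * (c + 1 - r)) h4 : (Wt b c).Point) = 2 * (r ^ 2 * (c + 1 - r)) + (1 - c) * (r * (r - 1)) - b := by
    rw [pc_of_ne _ (by intro h; apply h9; linear_combination h)]
  have p5 : pc (.some (r * (r - 1)) (-(r ^ 2 * (c + 1 - r)) - (1 - c) * (r * (r - 1)) + b) h5 : (Wt b c).Point) = -(2 * (r ^ 2 * (c + 1 - r)) + (1 - c) * (r * (r - 1)) - b) := by
    rw [pc_of_ne _ (by intro h; apply h9; linear_combination -h)]; ring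
  have p6 : pc (.some (c) (c ^ 2) h6 : (Wt b c).Point) = -(b - c - c ^ 2) := by
    rw [pc_of_ne _ (by intro h; apply hs; linear_combination -h)]; ring
  have p7 : pc (.some (b) (0) h7 : (Wt b c).Point) = -(b * c) := by
    rw [pc_of_ne _ (by intro h; apply mul_ne_zero hb hc; linear_combination -h)]; ring
  have p8 : pc (.some (0) (b) h8 : (Wt b c).Point) = b := by
    rw [pc_of_ne _ (by intro h; apply hb; linear_combination h)]; ring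
  have n0 : (0 : k) ≠ b := hb.symm
  have n1 : (0 : k) ≠ c := hc.symm
  have n2 : c ≠ b := hbc.symm
  have n3 : 0 ≠ r * (r - 1) := hr0.symm
  have n4 : r * (r - 1) ≠ b := hrb.symm
  have n5 : r * (r - 1) ≠ c := hrc.symm
  refine ⟨?_, ?_, ?_, ?_, ?_, ?_, ?_, ?_⟩
  · unfold gam
    rw [prod_mz hO (by norm_num), prod_nine]
    show dl ((1 : ℕ) • P0 c hb) ((0 : ℕ) • P0 c hb) *
      dl ((1 : ℕ) • P0 c hb) ((1 : ℕ) • P0 c hb) *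
      dl ((1 : ℕ) • P0 c hb) ((2 : ℕ) • P0 c hb) *
      dl ((1 : ℕ) • P0 c hb) ((3 : ℕ) • P0 c hb) *
      dl ((1 : ℕ) • P0 c hb) ((4 : ℕ) • P0 c hb) *
      dl ((1 : ℕ) • P0 c hb) ((5 : ℕ) • P0 c hb) *
      dl ((1 : ℕ) • P0 c hb) ((6 : ℕ) • P0 c hb) *
      dl ((1 : ℕ) • P0 c hb) ((7 : ℕ) • P0 c hb) *
      dl ((1 : ℕ) • P0 c hb) ((8 : ℕ) • P0 c hb) = _
    rw [e0, e1, e2, e3, e4, e5, e6, e7, e8]
    simp only [dl_some, dl_zero, if_pos, if_neg hb, if_neg n0, if_neg hc, if_neg hbc, if_neg n1, if_neg n2, if_neg hr0, if_neg hrb, if_neg hrc, if_neg n3, if_neg n4, if_neg n5,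
      p1, p2, p3, p4, p5, p6, p7, p8]
    ring
  · unfold gam
    rw [prod_mz hO (by norm_num), prod_nine]
    show dl ((2 : ℕ) • P0 c hb) ((0 : ℕ) • P0 c hb) *
      dl ((2 : ℕ) • P0 c hb) ((1 : ℕ) • P0 c hb) *
      dl ((2 : ℕ) • P0 c hb) ((2 : ℕ) • P0 c hb) *
      dl ((2 : ℕ) • P0 c hb) ((3 : ℕ) • P0 c hb) *
      dl ((2 : ℕ) • P0 c hb) ((4 : ℕ) • P0 c hb) *
      dl ((2 : ℕ) • P0 c hb) ((5 : ℕ) • P0 c hb) *
      dl ((2 : ℕ) • P0 c hb) ((6 : ℕ) • P0 c hb) *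
      dl ((2 : ℕ) • P0 c hb) ((7 : ℕ) • P0 c hb) *
      dl ((2 : ℕ) • P0 c hb) ((8 : ℕ) • P0 c hb) = _
    rw [e0, e1, e2, e3, e4, e5, e6, e7, e8]
    simp only [dl_some, dl_zero, if_pos, if_neg hb, if_neg n0, if_neg hc, if_neg hbc, if_neg n1, if_neg n2, if_neg hr0, if_neg hrb, if_neg hrc, if_neg n3, if_neg n4, if_neg n5,
      p1, p2, p3, p4, p5, p6, p7, p8]
    ring
  · unfold gam
    rw [prod_mz hO (by norm_num), prod_nine]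
    show dl ((3 : ℕ) • P0 c hb) ((0 : ℕ) • P0 c hb) *
      dl ((3 : ℕ) • P0 c hb) ((1 : ℕ) • P0 c hb) *
      dl ((3 : ℕ) • P0 c hb) ((2 : ℕ) • P0 c hb) *
      dl ((3 : ℕ) • P0 c hb) ((3 : ℕ) • P0 c hb) *
      dl ((3 : ℕ) • P0 c hb) ((4 : ℕ) • P0 c hb) *
      dl ((3 : ℕ) • P0 c hb) ((5 : ℕ) • P0 c hb) *
      dl ((3 : ℕ) • P0 c hb) ((6 : ℕ) • P0 c hb) *
      dl ((3 : ℕ) • P0 c hb) ((7 : ℕ) • P0 c hb) *
      dl ((3 : ℕ) • P0 c hb) ((8 : ℕ) • P0 c hb) = _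
    rw [e0, e1, e2, e3, e4, e5, e6, e7, e8]
    simp only [dl_some, dl_zero, if_pos, if_neg hb, if_neg n0, if_neg hc, if_neg hbc, if_neg n1, if_neg n2, if_neg hr0, if_neg hrb, if_neg hrc, if_neg n3, if_neg n4, if_neg n5,
      p1, p2, p3, p4, p5, p6, p7, p8]
    ring
  · unfold gam
    rw [prod_mz hO (by norm_num), prod_nine]
    show dl ((4 : ℕ) • P0 c hb) ((0 : ℕ) • P0 c hb) *
      dl ((4 : ℕ) • P0 c hb) ((1 : ℕ) • P0 c hb) *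
      dl ((4 : ℕ) • P0 c hb) ((2 : ℕ) • P0 c hb) *
      dl ((4 : ℕ) • P0 c hb) ((3 : ℕ) • P0 c hb) *
      dl ((4 : ℕ) • P0 c hb) ((4 : ℕ) • P0 c hb) *
      dl ((4 : ℕ) • P0 c hb) ((5 : ℕ) • P0 c hb) *
      dl ((4 : ℕ) • P0 c hb) ((6 : ℕ) • P0 c hb) *
      dl ((4 : ℕ) • P0 c hb) ((7 : ℕ) • P0 c hb) *
      dl ((4 : ℕ) • P0 c hb) ((8 : ℕ) • P0 c hb) = _
    rw [e0, e1, e2, e3, e4, e5, e6, e7, e8]
    simp only [dl_some, dl_zero, if_pos, if_neg hb, if_neg n0, if_neg hc, if_neg hbc, if_neg n1, if_neg n2, if_neg hr0, if_neg hrb, if_neg hrc, if_neg n3, if_neg n4, if_neg n5,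
      p1, p2, p3, p4, p5, p6, p7, p8]
    ring
  · unfold gam
    rw [prod_mz hO (by norm_num), prod_nine]
    show dl ((5 : ℕ) • P0 c hb) ((0 : ℕ) • P0 c hb) *
      dl ((5 : ℕ) • P0 c hb) ((1 : ℕ) • P0 c hb) *
      dl ((5 : ℕ) • P0 c hb) ((2 : ℕ) • P0 c hb) *
      dl ((5 : ℕ) • P0 c hb) ((3 : ℕ) • P0 c hb) *
      dl ((5 : ℕ) • P0 c hb) ((4 : ℕ) • P0 c hb) *
      dl ((5 : ℕ) • P0 c hb) ((5 : ℕ) • P0 c hb) *
      dl ((5 : ℕ) • P0 c hb) ((6 : ℕ) • P0 c hb) *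
      dl ((5 : ℕ) • P0 c hb) ((7 : ℕ) • P0 c hb) *
      dl ((5 : ℕ) • P0 c hb) ((8 : ℕ) • P0 c hb) = _
    rw [e0, e1, e2, e3, e4, e5, e6, e7, e8]
    simp only [dl_some, dl_zero, if_pos, if_neg hb, if_neg n0, if_neg hc, if_neg hbc, if_neg n1, if_neg n2, if_neg hr0, if_neg hrb, if_neg hrc, if_neg n3, if_neg n4, if_neg n5,
      p1, p2, p3, p4, p5, p6, p7, p8]
    ring
  · unfold gam
    rw [prod_mz hO (by norm_num), prod_nine]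
    show dl ((6 : ℕ) • P0 c hb) ((0 : ℕ) • P0 c hb) *
      dl ((6 : ℕ) • P0 c hb) ((1 : ℕ) • P0 c hb) *
      dl ((6 : ℕ) • P0 c hb) ((2 : ℕ) • P0 c hb) *
      dl ((6 : ℕ) • P0 c hb) ((3 : ℕ) • P0 c hb) *
      dl ((6 : ℕ) • P0 c hb) ((4 : ℕ) • P0 c hb) *
      dl ((6 : ℕ) • P0 c hb) ((5 : ℕ) • P0 c hb) *
      dl ((6 : ℕ) • P0 c hb) ((6 : ℕ) • P0 c hb) *
      dl ((6 : ℕ) • P0 c hb) ((7 : ℕ) • P0 c hb) *
      dl ((6 : ℕ) • P0 c hb) ((8 : ℕ) • P0 c hb) = _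
    rw [e0, e1, e2, e3, e4, e5, e6, e7, e8]
    simp only [dl_some, dl_zero, if_pos, if_neg hb, if_neg n0, if_neg hc, if_neg hbc, if_neg n1, if_neg n2, if_neg hr0, if_neg hrb, if_neg hrc, if_neg n3, if_neg n4, if_neg n5,
      p1, p2, p3, p4, p5, p6, p7, p8]
    ring
  · unfold gam
    rw [prod_mz hO (by norm_num), prod_nine]
    show dl ((7 : ℕ) • P0 c hb) ((0 : ℕ) • P0 c hb) *
      dl ((7 : ℕ) • P0 c hb) ((1 : ℕ) • P0 c hb) *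
      dl ((7 : ℕ) • P0 c hb) ((2 : ℕ) • P0 c hb) *
      dl ((7 : ℕ) • P0 c hb) ((3 : ℕ) • P0 c hb) *
      dl ((7 : ℕ) • P0 c hb) ((4 : ℕ) • P0 c hb) *
      dl ((7 : ℕ) • P0 c hb) ((5 : ℕ) • P0 c hb) *
      dl ((7 : ℕ) • P0 c hb) ((6 : ℕ) • P0 c hb) *
      dl ((7 : ℕ) • P0 c hb) ((7 : ℕ) • P0 c hb) *
      dl ((7 : ℕ) • P0 c hb) ((8 : ℕ) • P0 c hb) = _
    rw [e0, e1, e2, e3, e4, e5, e6, e7, e8]
    simp only [dl_some, dl_zero, if_pos, if_neg hb, if_neg n0, if_neg hc, if_neg hbc, if_neg n1, if_neg n2, if_neg hr0, if_neg hrb, if_neg hrc, if_neg n3, if_neg n4, if_neg n5,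
      p1, p2, p3, p4, p5, p6, p7, p8]
    ring
  · unfold gam
    rw [prod_mz hO (by norm_num), prod_nine]
    show dl ((8 : ℕ) • P0 c hb) ((0 : ℕ) • P0 c hb) *
      dl ((8 : ℕ) • P0 c hb) ((1 : ℕ) • P0 c hb) *
      dl ((8 : ℕ) • P0 c hb) ((2 : ℕ) • P0 c hb) *
      dl ((8 : ℕ) • P0 c hb) ((3 : ℕ) • P0 c hb) *
      dl ((8 : ℕ) • P0 c hb) ((4 : ℕ) • P0 c hb) *
      dl ((8 : ℕ) • P0 c hb) ((5 : ℕ) • P0 c hb) *
      dl ((8 : ℕ) • P0 c hb) ((6 : ℕ) • P0 c hb) *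
      dl ((8 : ℕ) • P0 c hb) ((7 : ℕ) • P0 c hb) *
      dl ((8 : ℕ) • P0 c hb) ((8 : ℕ) • P0 c hb) = _
    rw [e0, e1, e2, e3, e4, e5, e6, e7, e8]
    simp only [dl_some, dl_zero, if_pos, if_neg hb, if_neg n0, if_neg hc, if_neg hbc, if_neg n1, if_neg n2, if_neg hr0, if_neg hrb, if_neg hrc, if_neg n3, if_neg n4, if_neg n5,
      p1, p2, p3, p4, p5, p6, p7, p8]
    ring

section concl

variable {t s u : k} {G₁ G₂ G₃ G₄ : k} {x₁ x₂ x₃ x₄ : ℤ} {a₁ a₂ a₃ a₄ b₁ b₂ b₃ b₄ c₁ c₂ c₃ c₄ : ℤ}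

lemma con9 (ht : t ≠ 0) (hs : s ≠ 0) (hu : u ≠ 0)
    (ep : G₁ ^ x₁ * G₂ ^ x₂ * G₃ ^ x₃ * G₄ ^ x₄ * G₄ ^ x₄ * G₃ ^ x₃ * G₂ ^ x₂ * G₁ ^ x₁ = 1)
    (h1 : G₁ * G₁ = t ^ a₁ * s ^ b₁ * u ^ c₁) (h2 : G₂ * G₂ = t ^ a₂ * s ^ b₂ * u ^ c₂)
    (h3 : G₃ * G₃ = t ^ a₃ * s ^ b₃ * u ^ c₃) (h4 : G₄ * G₄ = t ^ a₄ * s ^ b₄ * u ^ c₄) :
    t ^ (a₁ * x₁ + a₂ * x₂ + a₃ * x₃ + a₄ * x₄) * s ^ (b₁ * x₁ + b₂ * x₂ + b₃ * x₃ + b₄ * x₄) *
      u ^ (c₁ * x₁ + c₂ * x₂ + c₃ * x₃ + c₄ * x₄) = 1 := by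
  have e1 := sq3 h1 x₁
  have e2 := sq3 h2 x₂
  have e3 := sq3 h3 x₃
  have e4 := sq3 h4 x₄
  rw [zpow_add₀ ht, zpow_add₀ ht, zpow_add₀ ht, zpow_add₀ hs, zpow_add₀ hs, zpow_add₀ hs,
    zpow_add₀ hu, zpow_add₀ hu, zpow_add₀ hu]
  calc _ = (t ^ (a₁ * x₁) * s ^ (b₁ * x₁) * u ^ (c₁ * x₁)) *
        (t ^ (a₂ * x₂) * s ^ (b₂ * x₂) * u ^ (c₂ * x₂)) *
        (t ^ (a₃ * x₃) * s ^ (b₃ * x₃) * u ^ (c₃ * x₃)) *
        (t ^ (a₄ * x₄) * s ^ (b₄ * x₄) * u ^ (c₄ * x₄)) := by ring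
    _ = 1 := by rw [← e1, ← e2, ← e3, ← e4, ← ep]; ring

end concl

/-- **the Siegel numbers for a point of order nine** -/
theorem siegel9 {d : k} (hb : b ≠ 0) (ec : c = d ^ 2 * (d - 1)) (eb : b = c * (d ^ 2 - d + 1))
    (hO : addOrderOf (P0 c hb) = 9)
    (hind : ∀ l m n : ℤ, d ^ l * (d - 1) ^ m * (d ^ 2 - d + 1) ^ n = 1 → l = 0 ∧ m = 0 ∧ n = 0)
    [Fintype (AddSubgroup.zmultiples (P0 c hb))] :
    SiegelIndep (AddSubgroup.zmultiples (P0 c hb)) := by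
  intro e e0 ee es ep
  have hc : c ≠ 0 := by rintro h; apply hb; rw [eb, h, zero_mul]
  have hd : d ≠ 0 := by rintro h; apply hc; rw [ec, h]; ring
  have hs : d - 1 ≠ 0 := by intro h; apply hc; rw [ec, h]; ring
  have hr : d ^ 2 - d + 1 ≠ 0 := by intro h; apply hb; rw [eb, h, mul_zero]
  have eb1 : b = d ^ 2 * (d - 1) * (d ^ 2 - d + 1) := by rw [eb, ec]
  have er : (d ^ 2 - d + 1) * ((d ^ 2 - d + 1) - 1) = d * (d - 1) * (d ^ 2 - d + 1) := by ring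
  have ebc : b - c = d ^ 3 * (d - 1) ^ 2 := by rw [eb1, ec]; ring
  have ebs : b - c - c ^ 2 = -(d ^ 3 * (d - 1) ^ 3) := by rw [eb1, ec]; ring
  have ebr : b - d * (d - 1) * (d ^ 2 - d + 1) = d * (d - 1) ^ 2 * (d ^ 2 - d + 1) := by
    rw [eb1]; ring
  have ecr : c - d * (d - 1) * (d ^ 2 - d + 1) = -(d * (d - 1) ^ 3) := by rw [ec]; ring
  have ep4 : 2 * ((d ^ 2 - d + 1) ^ 2 * (c + 1 - (d ^ 2 - d + 1))) +
      (1 - c) * (d * (d - 1) * (d ^ 2 - d + 1)) - b = d * (d - 1) ^ 4 * (d ^ 2 - d + 1) := by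
    rw [eb1, ec]; ring
  have hd3 := mul_ne_zero (pow_ne_zero 3 hd) (pow_ne_zero 2 hs)
  have hbc : b ≠ c := by intro h; rw [h, sub_self] at ebc; exact hd3 ebc.symm
  have hbs : b - c - c ^ 2 ≠ 0 := by
    rw [ebs]; exact neg_ne_zero.mpr (mul_ne_zero (pow_ne_zero 3 hd) (pow_ne_zero 3 hs))
  have hr0 : (d ^ 2 - d + 1) * ((d ^ 2 - d + 1) - 1) ≠ 0 := by
    rw [er]; exact mul_ne_zero (mul_ne_zero hd hs) hr
  have hrb : b ≠ (d ^ 2 - d + 1) * ((d ^ 2 - d + 1) - 1) := by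
    rw [er]; intro h; rw [← h, sub_self] at ebr
    exact mul_ne_zero (mul_ne_zero hd (pow_ne_zero 2 hs)) hr ebr.symm
  have hrc : c ≠ (d ^ 2 - d + 1) * ((d ^ 2 - d + 1) - 1) := by
    rw [er]; intro h; rw [← h, sub_self] at ecr
    exact neg_ne_zero.mpr (mul_ne_zero hd (pow_ne_zero 3 hs)) ecr.symm
  have h9 : 2 * ((d ^ 2 - d + 1) ^ 2 * (c + 1 - (d ^ 2 - d + 1))) +
      (1 - c) * ((d ^ 2 - d + 1) * ((d ^ 2 - d + 1) - 1)) - b ≠ 0 := by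
    rw [er, ep4]; exact mul_ne_zero (mul_ne_zero hd (pow_ne_zero 4 hs)) hr
  obtain ⟨g1, g2, g3, g4, g5, g6, g7, g8⟩ := gam9 hb hc hbc hbs (r := d ^ 2 - d + 1)
    (by rw [eb]; ring) hr0 hrb hrc h9 hO
  rw [prod_mz hO (by norm_num), prod_nine] at ep
  rw [sum_mz hO (by norm_num), sum_nine] at es
  have v1 : e (mz _ 9 8) = e (mz _ 9 1) := even_mz hO ee (by decide)
  have v2 : e (mz _ 9 7) = e (mz _ 9 2) := even_mz hO ee (by decide)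
  have v3 : e (mz _ 9 6) = e (mz _ 9 3) := even_mz hO ee (by decide)
  have v4 : e (mz _ 9 5) = e (mz _ 9 4) := even_mz hO ee (by decide)
  have v0 : e (mz (P0 c hb) 9 0) = 0 := by rw [zero_mz, e0]
  set x1 := e (mz _ 9 1) with hx1
  set x2 := e (mz _ 9 2) with hx2
  set x3 := e (mz _ 9 3) with hx3
  set x4 := e (mz _ 9 4) with hx4
  rw [v0, v1, v2, v3, v4] at es ep
  rw [g1, g2, g3, g4, g5, g6, g7, g8, zpow_zero, one_mul] at ep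
  have h1 := con9 (t := d) (s := d - 1) (u := d ^ 2 - d + 1) (a₁ := 28) (b₁ := 16) (c₁ := 12)
    (a₂ := 40) (b₂ := 28) (c₂ := 12) (a₃ := 36) (b₃ := 36) (c₃ := 0) (a₄ := 16) (b₄ := 40)
    (c₄ := 12) hd hs hr ep
    (by rw [er, eb1, ec]; norm_cast; ring)
    (by rw [er, ebr, ebc, eb1, ec]; norm_cast; ring)
    (by rw [er, ecr, ebs, ebc, ec, zpow_zero, mul_one]; norm_cast; ring)
    (by rw [er, ep4, ebr, ecr]; norm_cast; ring)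
  obtain ⟨h2, h3, h4⟩ := hind _ _ _ h1
  have z1 : x1 = 0 := by omega
  have z2 : x2 = 0 := by omega
  have z3 : x3 = 0 := by omega
  have z4 : x4 = 0 := by omega
  funext a
  obtain ⟨i, rfl⟩ := (mz_bij hO (by norm_num)).2 a
  show e _ = 0
  fin_cases i
  · exact v0
  · exact z1
  · exact z2
  · exact z3
  · exact z4
  · exact v4.trans z4
  · exact v3.trans z3
  · exact v2.trans z2
  · exact v1.trans z1

end Pool.Agent.GK
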