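import Pool.Agent.Lib_helper87.FAM.NineS
import Pool.Agent.Lib_helper40.MC.T9.Ix
import Pool.Agent.Lib_helper60.K9.T5
import Pool.Agent.Lib_helper54.FAM.LK9
import Pool.Agent.Lib_helper76.UE9.C

set_option autoImplicit false
set_option linter.unusedSectionVars false

/-!
# Points of order nine: the clauses
-/

open scoped TensorProduct WithZero

namespace Pool.Agent.FK4

open Pool.Agent.MK4 WeierstrassCurve.Affine Pool.Agent.KC72 Pool.Agent.MC
open Pool.Agent.TN (Wt Gen)

variable {k : Type*} [Field k] [DecidableEq k] [CharZero k] {W : WeierstrassCurve.Affine k}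
  {F : Type*} [Field F] [Algebra k F] {X Y : F}

lemma ofFn_G9s (x y : F) : List.ofFn (G9s x y) = FK4R.g9 x y := rfl

lemma eq9 {x y : F} (h : Gen (12 : k) 4 x y) :
    y ^ 2 - 3 * x * y - 12 * y = x ^ 3 - 12 * x ^ 2 := by
  have h1 := h.eq
  have hb : algebraMap k F 12 = 12 := map_ofNat _ 12
  have hc : algebraMap k F 4 = 4 := map_ofNat _ 4
  rw [hb, hc] at h1
  linear_combination h1

/-- the special curve with a point of order nine -/
theorem line9c (hg : Generic W X Y) {P : W.Point} (h9 : To9 P X Y) : Line P X Y := by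
  have : CharZero F := charZero_of_injective_algebraMap (algebraMap k F).injective
  have hcls : N9C.c9_cls = K9.cls9 := by decide +kernel
  have hLo := L9_ok
  have hLd := L9_D
  rw [hcls] at hLo hLd
  have hsc : sameC MC9.c9.cls K9.cls9 = true := by rw [← hcls]; exact MC9.same
  have hLL : L9.map (fun t => (oo K9.cls9 (t.c, t.s), t.u)) =
      MC9.c9_l0.map (fun t => (oo MC9.c9.cls (t.c, t.s), t.u)) := by decide +kernel
  refine line9' hg h9 MC9.c9_ok rfl rfl hsc ?_ ?_ ?_ hLo hLd hLL ?_ ?_
  · intro x y h n s e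
    exact K9.M9_const h e
  · intro x y h
    exact K9.sols9 h
  · intro x y h f h1 h2
    exact K9.unit9 h h1 h2
  · intro x y h
    have hx := xi9_eq (eq9 h) (FK4R.g9_ne h)
    rw [hcls] at hx
    exact hx
  · intro x y h
    exact unram_xi9 (eq9 h) (FK4R.g9_ne h)

/-- **points of order nine** -/
theorem nine (hg : Generic W X Y) (P : W.Point) (h : addOrderOf P = 9) : Nine P X Y := by
  obtain ⟨d, x, y, hT, hi, h1⟩ := nine_main hg P h
  exact ⟨d, x, y, hT, hi, fun hd => line9c hg (h1 hd)⟩

end Pool.Agent.FK4
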