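import Pool.Agent.Lib_helper24.FAM.LK
import Pool.Agent.Lib_helper2.K4N.Q7X
import Pool.Agent.Lib_helper54.FAM.RC3
import Pool.Agent.Lib_helper72.K7S.Cert

/-!
# The special curve with a point of order seven: the explicit class as monomials
-/

set_option autoImplicit false
set_option linter.unusedSectionVars false
set_option linter.unusedVariables false
set_option linter.unusedTactic false
set_option linter.unusedSimpArgs false
set_option linter.unreachableTactic false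

open scoped TensorProduct

namespace Pool.Agent.FK4

open Pool.Agent.MK4 Pool.Agent.TN Pool.Agent.KC72 Pool.Agent.K4N
open Pool.Agent.K7S (c26_cls)
open Pool.Agent.FK4R (g7)

section tup

variable {F : Type*} [Field F] {x y A B C D E G : F}

/-- the six units at a point of the curve -/
structure Q7 (x y A B C D E G : F) : Prop where
  hA : x = A
  hB : x - 4 = B
  hC : x - 2 = C
  hD : y = D
  hE : y - 2 * x = E
  hG : y - x = G
  A0 : A ≠ 0
  B0 : B ≠ 0
  C0 : C ≠ 0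
  D0 : D ≠ 0
  E0 : E ≠ 0
  G0 : G ≠ 0
  eq : y ^ 2 - x * y - 4 * y = x ^ 3 - 4 * x ^ 2

lemma Q7.next [CharZero F] (h : Q7 x y A B C D E G) :
    Q7 (4 * y / x ^ 2) (4 ^ 2 * (x ^ 2 - y) / x ^ 3) (4 * D / A ^ 2) (-(4 * D * E) / (B * A ^ 2))
      (-(2 * E * G) / (C * A ^ 2)) (16 * D * E / (B * A ^ 3)) (-(8 * D * E * G) / (B * C * A ^ 3))
      (-(4 * E ^ 2 * G) / (C ^ 2 * A ^ 3)) := by
  obtain ⟨hA, hB, hC, hD, hE, hG, A0, B0, C0, D0, E0, G0, he⟩ := h
  have x0 : x ≠ 0 := by rw [hA]; exact A0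
  have n2 : (2 : F) ≠ 0 := two_ne_zero
  have n4 : (4 : F) ≠ 0 := by norm_num
  have n8 : (8 : F) ≠ 0 := by norm_num
  have n16 : (16 : F) ≠ 0 := by norm_num
  have q1 : (x ^ 2 - y) * B = D * E := by
    rw [← hB, ← hD, ← hE]; linear_combination (-1) * he
  have q2 : (2 * y - x ^ 2) * C = -(E * G) := by
    rw [← hC, ← hE, ← hG]; linear_combination he
  have q3 : (2 * x ^ 2 - 2 * y - x * y) * (B * C) = -(D * E * G) := by
    rw [← hB, ← hC, ← hD, ← hE, ← hG]; linear_combination (y + 4 - 2 * x) * he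
  have q4 : (4 * x ^ 2 - 4 * y - x * y) * C ^ 2 = -(E ^ 2 * G) := by
    rw [← hC, ← hE, ← hG]; linear_combination (y + 4 - 4 * x) * he
  refine ⟨?_, ?_, ?_, ?_, ?_, ?_, ?_, ?_, ?_, ?_, ?_, ?_, ?_⟩
  · rw [hA, hD]
  · rw [eq_div_iff (mul_ne_zero B0 (pow_ne_zero 2 A0)), ← hA]
    have : (4 * y / x ^ 2 - 4) * (B * x ^ 2) = -(4 * ((x ^ 2 - y) * B)) := by
      field_simp
      try ring
    rw [this, q1]; ring
  · rw [eq_div_iff (mul_ne_zero C0 (pow_ne_zero 2 A0)), ← hA]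
    have : (4 * y / x ^ 2 - 2) * (C * x ^ 2) = 2 * ((2 * y - x ^ 2) * C) := by
      field_simp
      try ring
    rw [this, q2]; ring
  · rw [eq_div_iff (mul_ne_zero B0 (pow_ne_zero 3 A0)), ← hA]
    have : 4 ^ 2 * (x ^ 2 - y) / x ^ 3 * (B * x ^ 3) = 16 * ((x ^ 2 - y) * B) := by
      field_simp
      try ring
    rw [this, q1]; ring
  · rw [eq_div_iff (mul_ne_zero (mul_ne_zero B0 C0) (pow_ne_zero 3 A0)), ← hA]
    have : (4 ^ 2 * (x ^ 2 - y) / x ^ 3 - 2 * (4 * y / x ^ 2)) * (B * C * x ^ 3) =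
        8 * ((2 * x ^ 2 - 2 * y - x * y) * (B * C)) := by
      field_simp
      try ring
    rw [this, q3]; ring
  · rw [eq_div_iff (mul_ne_zero (pow_ne_zero 2 C0) (pow_ne_zero 3 A0)), ← hA]
    have : (4 ^ 2 * (x ^ 2 - y) / x ^ 3 - 4 * y / x ^ 2) * (C ^ 2 * x ^ 3) =
        4 * ((4 * x ^ 2 - 4 * y - x * y) * C ^ 2) := by
      field_simp
      try ring
    rw [this, q4]; ring
  · exact div_ne_zero (mul_ne_zero n4 D0) (pow_ne_zero 2 A0)
  · exact div_ne_zero (neg_ne_zero.mpr (mul_ne_zero (mul_ne_zero n4 D0) E0))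
      (mul_ne_zero B0 (pow_ne_zero 2 A0))
  · exact div_ne_zero (neg_ne_zero.mpr (mul_ne_zero (mul_ne_zero n2 E0) G0))
      (mul_ne_zero C0 (pow_ne_zero 2 A0))
  · exact div_ne_zero (mul_ne_zero (mul_ne_zero n16 D0) E0) (mul_ne_zero B0 (pow_ne_zero 3 A0))
  · exact div_ne_zero (neg_ne_zero.mpr (mul_ne_zero (mul_ne_zero (mul_ne_zero n8 D0) E0) G0))
      (mul_ne_zero (mul_ne_zero B0 C0) (pow_ne_zero 3 A0))
  · exact div_ne_zero (neg_ne_zero.mpr (mul_ne_zero (mul_ne_zero n4 (pow_ne_zero 2 E0)) G0))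
      (mul_ne_zero (pow_ne_zero 2 C0) (pow_ne_zero 3 A0))
  · field_simp
    linear_combination (x ^ 2 - y) * he

lemma Q7.t1 [CharZero F] (h : Q7 x y A B C D E G) :
    Q7 (It (4 : F) 1 (x, y)).1 (It (4 : F) 1 (x, y)).2 (4 * D / A ^ 2) (-(4 * D * E) / (A ^ 2 * B)) (-(2 * E * G) / (A ^ 2 * C)) (16 * D * E / (A ^ 3 * B)) (-(8 * D * E * G) / (A ^ 3 * B * C)) (-(4 * E ^ 2 * G) / (A ^ 3 * C ^ 2)) := by
  have A0 := h.A0
  have B0 := h.B0
  have C0 := h.C0
  have D0 := h.D0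
  have E0 := h.E0
  have G0 := h.G0
  have h4' := Q7.next (h)
  change Q7 (It (4 : F) 1 (x, y)).1 (It (4 : F) 1 (x, y)).2 _ _ _ _ _ _ at h4'
  convert h4' using 1 <;> field_simp <;> (try norm_num)

lemma Q7.t2 [CharZero F] (h : Q7 x y A B C D E G) :
    Q7 (It (4 : F) 2 (x, y)).1 (It (4 : F) 2 (x, y)).2 (4 * A * E / (B * D)) (-(8 * E * G) / (B * C * D)) (2 * E ^ 2 * G / (B * C ^ 2 * D)) (8 * A ^ 2 * E * G / (B * C * D ^ 2)) (-(8 * A * E ^ 2 * G) / (B * C ^ 2 * D ^ 2)) (4 * A * E ^ 2 * G / (B ^ 2 * C ^ 2 * D)) := by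
  have A0 := h.A0
  have B0 := h.B0
  have C0 := h.C0
  have D0 := h.D0
  have E0 := h.E0
  have G0 := h.G0
  have h4' := Q7.next (h.t1)
  change Q7 (It (4 : F) 2 (x, y)).1 (It (4 : F) 2 (x, y)).2 _ _ _ _ _ _ at h4'
  convert h4' using 1 <;> field_simp <;> (try norm_num)

lemma Q7.t3 [CharZero F] (h : Q7 x y A B C D E G) :
    Q7 (It (4 : F) 3 (x, y)).1 (It (4 : F) 3 (x, y)).2 (2 * B * G / (C * E)) (-(2 * A * B * G) / (C ^ 2 * D)) (2 * G / C ^ 2) (2 * B ^ 2 * G / (C ^ 2 * E)) (-(2 * A * B * G) / (C ^ 2 * E)) (-(4 * B * G) / (C ^ 2 * E)) := by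
  have A0 := h.A0
  have B0 := h.B0
  have C0 := h.C0
  have D0 := h.D0
  have E0 := h.E0
  have G0 := h.G0
  have h4' := Q7.next (h.t2)
  change Q7 (It (4 : F) 3 (x, y)).1 (It (4 : F) 3 (x, y)).2 _ _ _ _ _ _ at h4'
  convert h4' using 1 <;> field_simp <;> (try norm_num)

lemma Q7.t4 [CharZero F] (h : Q7 x y A B C D E G) :
    Q7 (It (4 : F) 4 (x, y)).1 (It (4 : F) 4 (x, y)).2 (2 * E / G) (-(2 * D) / G) (-(2 * A) / G) (4 * C * D * E / (B * G ^ 2)) (4 * C * D / G ^ 2) (2 * A ^ 2 * C / G ^ 2) := by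
  have A0 := h.A0
  have B0 := h.B0
  have C0 := h.C0
  have D0 := h.D0
  have E0 := h.E0
  have G0 := h.G0
  have h4' := Q7.next (h.t3)
  change Q7 (It (4 : F) 4 (x, y)).1 (It (4 : F) 4 (x, y)).2 _ _ _ _ _ _ at h4'
  convert h4' using 1 <;> field_simp <;> (try norm_num)

lemma Q7.t5 [CharZero F] (h : Q7 x y A B C D E G) :
    Q7 (It (4 : F) 5 (x, y)).1 (It (4 : F) 5 (x, y)).2 (4 * C * D / (B * E)) (8 * C ^ 2 * D / (B * E * G)) (2 * A * C ^ 2 * D / (E ^ 2 * G)) (-(16 * C ^ 2 * D) / (B * E ^ 2)) (-(8 * A * C ^ 3 * D) / (B * E ^ 2 * G)) (-(4 * C ^ 3 * D ^ 2) / (E ^ 3 * G)) := by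
  have A0 := h.A0
  have B0 := h.B0
  have C0 := h.C0
  have D0 := h.D0
  have E0 := h.E0
  have G0 := h.G0
  have h4' := Q7.next (h.t4)
  change Q7 (It (4 : F) 5 (x, y)).1 (It (4 : F) 5 (x, y)).2 _ _ _ _ _ _ at h4'
  convert h4' using 1 <;> field_simp <;> (try norm_num)

lemma Q7.t6 [CharZero F] (h : Q7 x y A B C D E G) :
    Q7 (It (4 : F) 6 (x, y)).1 (It (4 : F) 6 (x, y)).2 (-(4 * B) / D) (-(4 * A * B * C) / (D * E)) (-(2 * B * C ^ 2) / (E * G)) (4 * A * B ^ 2 / D ^ 2) (4 * B ^ 2 * C / (D * E)) (4 * B * C ^ 2 / (D * G)) := by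
  have A0 := h.A0
  have B0 := h.B0
  have C0 := h.C0
  have D0 := h.D0
  have E0 := h.E0
  have G0 := h.G0
  have h4' := Q7.next (h.t5)
  change Q7 (It (4 : F) 6 (x, y)).1 (It (4 : F) 6 (x, y)).2 _ _ _ _ _ _ at h4'
  convert h4' using 1 <;> field_simp <;> (try norm_num)


end tup

/-- the terms of the class -/
def L7 : List Tm := [
  ⟨14, 1, [3, 0, 0, -4, 4, -2, 0]⟩,
  ⟨58, 2, [-2, 0, 2, 4, -4, 0, 0]⟩,
  ⟨40, 2, [0, 0, 0, 3, -4, 2, -2]⟩,
  ⟨46, 2, [0, 0, 2, -2, 2, -2, 2]⟩,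
  ⟨35, 3, [-3, 1, 0, -1, 3, -2, 2]⟩,
  ⟨36, 5, [2, 0, 0, 0, -2, 2, -2]⟩,
  ⟨62, 3, [4, -3, 1, 0, -1, 1, -1]⟩,
  ⟨23, 0, [-4, 2, -2, 0, 2, 0, 0]⟩,
  ⟨59, 3, [-4, 4, -2, 0, -1, 1, 1]⟩,
  ⟨44, 0, [2, -4, 0, 0, 2, 0, 0]⟩,
  ⟨49, 3, [4, -3, 1, -1, 3, -2, -2]⟩,
  ⟨38, 3, [-2, 2, -2, 0, -2, 2, 2]⟩,
  ⟨32, 4, [-4, 1, 0, 3, -4, 2, 2]⟩,
  ⟨29, 2, [4, 0, 0, -2, 2, -2, -2]⟩]

section terms

variable {F : Type*} [Field F] {x y A B C D E G : F}

lemma hk_congr7 [CharZero F] {f f' u u' : F} (hf : f = f') (hu : u = u' ∨ u = -u') :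
    hk (sy f) (lg u) = hk (sy f') (lg u') := by
  rw [hf]
  rcases hu with rfl | rfl
  · rfl
  · rw [lgneg]

lemma sum14 {M : Type*} [AddCommGroup M] {a1 a2 a3 a4 a5 a6 a7 b1 b2 b3 b4 b5 b6 b7
    c1 c2 c3 c4 c5 c6 c7 d1 d2 d3 d4 d5 d6 d7 : M}
    (h1 : a1 = c1) (k1 : b1 = d1) (h2 : a2 = c2) (k2 : b2 = d2) (h3 : a3 = c3) (k3 : b3 = d3)
    (h4 : a4 = c4) (k4 : b4 = d4) (h5 : a5 = c5) (k5 : b5 = d5) (h6 : a6 = c6) (k6 : b6 = d6)
    (h7 : a7 = c7) (k7 : b7 = d7) :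
    (a1 + b1) + (a2 + b2) + (a3 + b3) + (a4 + b4) + (a5 + b5) + (a6 + b6) + (a7 + b7) =
      c1 + (d1 + (c2 + (d2 + (c3 + (d3 + (c4 + (d4 + (c5 + (d5 + (c6 + (d6 + (c7 + (d7 + 0)))))))))))))
      := by
  subst h1 k1 h2 k2 h3 k3 h4 k4 h5 k5 h6 k6 h7 k7
  abel

/-- one seventh of the class -/
noncomputable def tm7 (A B C D E G : F) : HK F :=
  hk (sy (A / 4)) (lg (A ^ 3 * E ^ 4 / (D ^ 4 * G ^ 2))) +
    hk (sy (A / (2 * C))) (lg (D ^ 4 * C ^ 2 / (A ^ 2 * E ^ 4)))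

lemma term7_eq' [CharZero F] (h : Q7 x y A B C D E G) : term7 x y = tm7 A B C D E G := by
  obtain ⟨hA, hB, hC, hD, hE, hG, A0, B0, C0, D0, E0, G0, he⟩ := h
  unfold term7 tm7
  rw [hG, hE, hC, hD, hA]
  have e1 : D ^ 4 * C ^ 2 / (A ^ 2 * E ^ 4) = ((A * E ^ 2 / (D ^ 2 * C)) ^ 2)⁻¹ := by
    field_simp
  have hw : A * E ^ 2 / (D ^ 2 * C) ≠ 0 :=
    div_ne_zero (mul_ne_zero A0 (pow_ne_zero 2 E0)) (mul_ne_zero (pow_ne_zero 2 D0) C0)
  rw [e1, lginv, lgpow hw, hk_neg_right, hk_smul_right, sub_eq_add_neg]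
  push_cast
  rfl

/-- **the class as a combination of monomials** -/
theorem xi7_zt' [CharZero F] (h : Q7 x y A B C D E G) :
    xi7 x y = zt [A, B, C, D, E, G, 2] c26_cls L7 := by
  have o1 : oo c26_cls (14, 1) = (false, [1, 0, 0, 0, 0, 0, -2]) := by decide +kernel
  have o2 : oo c26_cls (58, 2) = (false, [1, 0, -1, 0, 0, 0, -1]) := by decide +kernel
  have o3 : oo c26_cls (40, 2) = (false, [-2, 0, 0, 1, 0, 0, 0]) := by decide +kernel
  have o4 : oo c26_cls (46, 2) = (true, [0, 0, 1, 1, -1, -1, 0]) := by decide +kernel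
  have o5 : oo c26_cls (35, 3) = (false, [1, -1, 0, -1, 1, 0, 0]) := by decide +kernel
  have o6 : oo c26_cls (36, 5) = (false, [1, 0, 2, 0, -1, -1, 0]) := by decide +kernel
  have o7 : oo c26_cls (62, 3) = (false, [0, 1, -1, 0, -1, 1, -1]) := by decide +kernel
  have o8 : oo c26_cls (23, 0) = (false, [0, 1, 1, 0, -1, 0, -1]) := by decide +kernel
  have o9 : oo c26_cls (59, 3) = (false, [0, 0, 0, 0, 1, -1, -1]) := by decide +kernel
  have o10 : oo c26_cls (44, 0) = (true, [-1, 0, 0, 0, 1, 0, -1]) := by decide +kernel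
  have o11 : oo c26_cls (49, 3) = (false, [0, -1, 1, 1, -1, 0, 0]) := by decide +kernel
  have o12 : oo c26_cls (38, 3) = (false, [-1, -1, -1, 0, 1, 1, 0]) := by decide +kernel
  have o13 : oo c26_cls (32, 4) = (true, [0, 1, 0, -1, 0, 0, 0]) := by decide +kernel
  have o14 : oo c26_cls (29, 2) = (false, [0, 0, -2, -1, 1, 1, 0]) := by decide +kernel
  have A0 := h.A0
  have B0 := h.B0
  have C0 := h.C0
  have D0 := h.D0
  have E0 := h.E0
  have G0 := h.G0
  have t2 : (2 : F) ≠ 0 := two_ne_zero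
  have r0 : term7 (It (4 : F) 0 (x, y)).1 (It (4 : F) 0 (x, y)).2 = _ := term7_eq' h
  have r1 := term7_eq' (h.t1)
  have r2 := term7_eq' (h.t2)
  have r3 := term7_eq' (h.t3)
  have r4 := term7_eq' (h.t4)
  have r5 := term7_eq' (h.t5)
  have r6 := term7_eq' (h.t6)
  rw [xi7, Fin.sum_univ_seven]
  show term7 (It (4 : F) 0 (x, y)).1 (It (4 : F) 0 (x, y)).2 +
    term7 (It (4 : F) 1 (x, y)).1 (It (4 : F) 1 (x, y)).2 +
    term7 (It (4 : F) 2 (x, y)).1 (It (4 : F) 2 (x, y)).2 +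
    term7 (It (4 : F) 3 (x, y)).1 (It (4 : F) 3 (x, y)).2 +
    term7 (It (4 : F) 4 (x, y)).1 (It (4 : F) 4 (x, y)).2 +
    term7 (It (4 : F) 5 (x, y)).1 (It (4 : F) 5 (x, y)).2 +
    term7 (It (4 : F) 6 (x, y)).1 (It (4 : F) 6 (x, y)).2 = _
  rw [r0, r1, r2, r3, r4, r5, r6]
  simp only [L7, zt, tm7]
  rw [o1, o2, o3, o4, o5, o6, o7, o8, o9, o10, o11, o12, o13, o14]
  refine sum14 ?_ ?_ ?_ ?_ ?_ ?_ ?_ ?_ ?_ ?_ ?_ ?_ ?_ ?_
  · refine hk_congr7 ?_ (Or.inl ?_)
    · simp only [ev, evl, cond_true, cond_false, zpow_one, zpow_zero, zpow_neg, zpow_ofNat,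
        mul_one, one_mul]
      field_simp
      try norm_num
    · simp only [evl, zpow_one, zpow_zero, zpow_neg, zpow_ofNat, mul_one, one_mul]
      field_simp
      try norm_num
  · refine hk_congr7 ?_ (Or.inl ?_)
    · simp only [ev, evl, cond_true, cond_false, zpow_one, zpow_zero, zpow_neg, zpow_ofNat,
        mul_one, one_mul]
      field_simp
      try norm_num
    · simp only [evl, zpow_one, zpow_zero, zpow_neg, zpow_ofNat, mul_one, one_mul]
      field_simp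
      try norm_num
  · refine hk_congr7 ?_ (Or.inl ?_)
    · simp only [ev, evl, cond_true, cond_false, zpow_one, zpow_zero, zpow_neg, zpow_ofNat,
        mul_one, one_mul]
      field_simp
      try norm_num
    · simp only [evl, zpow_one, zpow_zero, zpow_neg, zpow_ofNat, mul_one, one_mul]
      field_simp
      try norm_num
  · refine hk_congr7 ?_ (Or.inl ?_)
    · simp only [ev, evl, cond_true, cond_false, zpow_one, zpow_zero, zpow_neg, zpow_ofNat,
        mul_one, one_mul]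
      field_simp
      try norm_num
    · simp only [evl, zpow_one, zpow_zero, zpow_neg, zpow_ofNat, mul_one, one_mul]
      field_simp
      try norm_num
  · refine hk_congr7 ?_ (Or.inl ?_)
    · simp only [ev, evl, cond_true, cond_false, zpow_one, zpow_zero, zpow_neg, zpow_ofNat,
        mul_one, one_mul]
      field_simp
      try norm_num
    · simp only [evl, zpow_one, zpow_zero, zpow_neg, zpow_ofNat, mul_one, one_mul]
      field_simp
      try norm_num
  · refine hk_congr7 ?_ (Or.inl ?_)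
    · simp only [ev, evl, cond_true, cond_false, zpow_one, zpow_zero, zpow_neg, zpow_ofNat,
        mul_one, one_mul]
      field_simp
      try norm_num
    · simp only [evl, zpow_one, zpow_zero, zpow_neg, zpow_ofNat, mul_one, one_mul]
      field_simp
      try norm_num
  · refine hk_congr7 ?_ (Or.inl ?_)
    · simp only [ev, evl, cond_true, cond_false, zpow_one, zpow_zero, zpow_neg, zpow_ofNat,
        mul_one, one_mul]
      field_simp
      try norm_num
    · simp only [evl, zpow_one, zpow_zero, zpow_neg, zpow_ofNat, mul_one, one_mul]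
      field_simp
      try norm_num
  · refine hk_congr7 ?_ (Or.inl ?_)
    · simp only [ev, evl, cond_true, cond_false, zpow_one, zpow_zero, zpow_neg, zpow_ofNat,
        mul_one, one_mul]
      field_simp
      try norm_num
    · simp only [evl, zpow_one, zpow_zero, zpow_neg, zpow_ofNat, mul_one, one_mul]
      field_simp
      try norm_num
  · refine hk_congr7 ?_ (Or.inl ?_)
    · simp only [ev, evl, cond_true, cond_false, zpow_one, zpow_zero, zpow_neg, zpow_ofNat,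
        mul_one, one_mul]
      field_simp
      try norm_num
    · simp only [evl, zpow_one, zpow_zero, zpow_neg, zpow_ofNat, mul_one, one_mul]
      field_simp
      try norm_num
  · refine hk_congr7 ?_ (Or.inl ?_)
    · simp only [ev, evl, cond_true, cond_false, zpow_one, zpow_zero, zpow_neg, zpow_ofNat,
        mul_one, one_mul]
      field_simp
      try norm_num
    · simp only [evl, zpow_one, zpow_zero, zpow_neg, zpow_ofNat, mul_one, one_mul]
      field_simp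
      try norm_num
  · refine hk_congr7 ?_ (Or.inl ?_)
    · simp only [ev, evl, cond_true, cond_false, zpow_one, zpow_zero, zpow_neg, zpow_ofNat,
        mul_one, one_mul]
      field_simp
      try norm_num
    · simp only [evl, zpow_one, zpow_zero, zpow_neg, zpow_ofNat, mul_one, one_mul]
      field_simp
      try norm_num
  · refine hk_congr7 ?_ (Or.inl ?_)
    · simp only [ev, evl, cond_true, cond_false, zpow_one, zpow_zero, zpow_neg, zpow_ofNat,
        mul_one, one_mul]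
      field_simp
      try norm_num
    · simp only [evl, zpow_one, zpow_zero, zpow_neg, zpow_ofNat, mul_one, one_mul]
      field_simp
      try norm_num
  · refine hk_congr7 ?_ (Or.inr ?_)
    · simp only [ev, evl, cond_true, cond_false, zpow_one, zpow_zero, zpow_neg, zpow_ofNat,
        mul_one, one_mul]
      field_simp
      try norm_num
    · simp only [evl, zpow_one, zpow_zero, zpow_neg, zpow_ofNat, mul_one, one_mul]
      field_simp
      try norm_num
  · refine hk_congr7 ?_ (Or.inl ?_)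
    · simp only [ev, evl, cond_true, cond_false, zpow_one, zpow_zero, zpow_neg, zpow_ofNat,
        mul_one, one_mul]
      field_simp
      try norm_num
    · simp only [evl, zpow_one, zpow_zero, zpow_neg, zpow_ofNat, mul_one, one_mul]
      field_simp
      try norm_num

end terms

end Pool.Agent.FK4
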