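import Pool.Agent.Lib_helper24.FAM.LC

/-!
# The clauses of the final theorem from a certificate, up to the trivial relations
-/

set_option autoImplicit false
set_option linter.unusedSectionVars false
set_option linter.unusedVariables false

open scoped TensorProduct WithZero

namespace Pool.Agent.FK4

open Pool.Agent.MK4 WeierstrassCurve.Affine Pool.Agent.KC72

/-- `m` times the coordinates is `a` times the class of the certificate, up to the trivial
relations -/
def chkXT (C : Cert) (a m : ℤ) (lam : List ℤ) (L : List Tm) : Bool :=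
  (L.all fun t => decide ((C.rho.getD t.c default).1 = 1)) &&
    isZ (axpy (-a) C.xi (axpy m (xiv C L) (comb lam (C.T.map Prod.snd))))

section cert

variable {k : Type*} [Field k] [DecidableEq k] {W W' : WeierstrassCurve.Affine k} {F : Type*}
  [Field F] [Algebra k F] {X Y x y : F} {H : AddSubgroup W.Point} {H' : AddSubgroup W'.Point}

/-- an explicit element is a multiple of the class of the certificate -/
theorem zt_xiT [CharZero F] (C : Cert) {n : ℕ} (hn : C.n = n) {G : Fin n → F}
    (hG : ∀ i, G i ≠ 0) (hC : Ok C)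
    (hk : ∀ x ∈ (List.ofFn G).drop C.r, ∃ c : k, x = algebraMap k F c)
    (H : Sols (List.ofFn G) C.cls) {L : List Tm} (hL : okT n C.cls L = true) {a m : ℤ}
    {lam : List ℤ} (hX : chkXT C a m lam L = true) :
    (m : ℚ) • (TN.KC k F).mkQ (zt (List.ofFn G) C.cls L) =
      (a : ℚ) • pl (EB C k (List.ofFn G)) C.xi := by
  unfold chkXT at hX
  rw [Bool.and_eq_true] at hX
  obtain ⟨hX1, hX2⟩ := hX
  rw [zt_mkQ C hn hG hC.c1 hC.c2 hk H hL hX1]
  have h := pl_isZ (EB C k (List.ofFn G)) hX2
  have hT := T_zero C hn hG hC.c1 hC.c2 hC.c5 hk H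
  have hT' : pl (List.map (pl (EB C k (List.ofFn G))) (List.map Prod.snd C.T)) lam = 0 := by
    apply pl_zero
    exact hT
  rw [pl_axpy, pl_axpy, pl_comb, hT'] at h
  push_cast at h
  linear_combination (norm := module) h

variable [CharZero k]

/-- the clause `Line` from a certificate, up to the trivial relations -/
theorem line_certT (hg : Generic W X Y) {P : W.Point}
    (hS : Same (AddSubgroup.zmultiples P) X Y H' x y)
    (C : Cert) (hC : Ok C) {n r : ℕ} (hn : C.n = n) (hr : C.r = r)
    {cls : List (Mo × Mo)} (hcl : C.cls = cls) {G : Fin n → F} (hrn : r ≤ n)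
    (hsupp : ∀ i, Supp H' x y (G i))
    (hk : ∀ i : Fin n, r ≤ i.val → ∃ c : k, G i = algebraMap k F c)
    (hM : ∀ (e : Fin r → ℤ) (c : k), c ≠ 0 →
      ∏ i, G (Fin.castLE hrn i) ^ e i = algebraMap k F c → e = 0)
    (hc : ∀ e : Fin n → ℤ, (∀ i : Fin n, i.val < r → e i = 0) → ∏ i, G i ^ e i = 1 → e = 0)
    (hs : Sols (List.ofFn G) cls)
    (hU : ∀ f, Supp H' x y f → Supp H' x y (1 - f) → (∃ c : k, f = algebraMap k F c) ∨
      ∃ p ∈ cls, TN.Orb (ev (List.ofFn G) p.1) f)
    {L : List Tm} (hL : okT n cls L = true) (hD : chkD n cls L = true) {a m : ℤ} (ha : a ≠ 0)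
    (hm : m ≠ 0) {lam : List ℤ}
    (hX : chkXT C a m lam L = true) {ξ : HK F} (hξ : ξ = zt (List.ofFn G) cls L)
    (hun : Unram k ξ) (hnz : RegNonZero k X Y ξ) : Line P X Y := by
  have : CharZero F := charZero_of_injective_algebraMap (algebraMap k F).injective
  have hG : ∀ i, G i ≠ 0 := fun i => (hsupp i).1
  have hgl : ∀ z ∈ List.ofFn G, Supp H' x y z := by
    intro z hz
    rw [List.mem_ofFn] at hz
    obtain ⟨i, rfl⟩ := hz
    exact hsupp i
  refine ⟨ξ, ⟨?_, ?_, hun⟩, closedIn_line hg hun ?_, hnz⟩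
  · rw [hS.sp, hξ]
    exact zt_mem' hgl hs hL
  · rw [hξ]
    exact zt_closed hG hs hL hD
  · intro z hz hcz
    rw [hS.sp] at hz
    obtain ⟨β, hβ⟩ := closed_cert C hC hn hr hcl hrn hsupp hk hM hc hs hU hz hcz
    subst hcl
    have h1 := zt_xiT (k := k) C hn hG hC (by
      intro z hz
      rw [List.mem_drop_iff_getElem] at hz
      obtain ⟨i, hi, rfl⟩ := hz
      rw [List.getElem_ofFn]
      exact hk _ (by simp [hr])) hs hL hX
    rw [← hξ] at h1
    have ha' : (a : ℚ) ≠ 0 := by exact_mod_cast ha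
    have hm' : (m : ℚ) ≠ 0 := by exact_mod_cast hm
    refine ⟨β * m / a, ?_⟩
    have h2 : (β * m / a) • (TN.KC k F).mkQ ξ = β • pl (EB C k (List.ofFn G)) C.xi := by
      have : β * m / a = (β / a) * m := by ring
      rw [this, mul_smul, h1, smul_smul, div_mul_cancel₀ _ ha']
    rw [← TN.KC_eq, ← Submodule.ker_mkQ (TN.KC k F), LinearMap.mem_ker, map_sub, map_smul, h2,
      hβ, sub_self]

end cert

end Pool.Agent.FK4
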