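import Pool.Agent.Lib_helper87.FAM.Seven
import Pool.Agent.Lib_helper87.FAM.X7
import Pool.Agent.Lib_helper87.FAM.XT
import Pool.Agent.Lib_helper76.FAM.Conj
import Pool.Agent.Lib_helper72.K7S.T8

set_option autoImplicit false
set_option linter.unusedSectionVars false

/-!
# Points of order seven
-/

open scoped TensorProduct WithZero

namespace Pool.Agent.FK4

open Pool.Agent.MK4 WeierstrassCurve.Affine Pool.Agent.KC72
open Pool.Agent.TN (Wt)
open Pool.Agent.UEG (P0)
open Pool.Agent.K7S (c26_cls c26 c26_ok)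
open Pool.Agent.K7 (G2 G2_const sols2 unit2' M7_const)
open UE7

lemma L7_ok : okT 7 c26_cls L7 = true := by decide +kernel

lemma L7_d : chkD 7 c26_cls L7 = true := by decide +kernel

lemma L7_x : chkXT c26.toCert 1 1 [] L7 = true := by decide +kernel

lemma L7_r : FK4R.chkRes FK4R.locs7 FK4R.tab23 c26_cls L7 = true := by decide +kernel

variable {k : Type*} [Field k] [DecidableEq k] [CharZero k] {W : WeierstrassCurve.Affine k}
  {F : Type*} [Field F] [Algebra k F] {X Y : F}

lemma ofFn_G2 (x y : F) : List.ofFn (G2 k x y) = FK4R.g7 x y := by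
  have e1 : algebraMap k F (K7.bb 2) = 4 := by rw [K7.bb2, map_ofNat]
  have e2 : algebraMap k F (K7.cc 2) = 2 := by rw [K7.cc2, map_ofNat]
  have e3 : algebraMap k F (2 - 1) = 1 := by norm_num
  have e4 : algebraMap k F 2 = 2 := map_ofNat _ 2
  show [x, x - algebraMap k F (K7.bb 2), x - algebraMap k F (K7.cc 2), y,
    y - algebraMap k F (K7.cc 2) * x, y - algebraMap k F (2 - 1) * x, algebraMap k F 2] = _
  rw [e1, e2, e3, e4, one_mul]
  rfl

/-- the special curve -/
theorem line7 (hg : Generic W X Y) {P : W.Point} (h7 : To7 P X Y) : Line P X Y := by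
  obtain ⟨x, y, hG, hO, hS, htop⟩ := h7
  have : CharZero F := charZero_of_injective_algebraMap (algebraMap k F).injective
  have hgen := gen7 hG
  have hs := fun f => supp7 bb7 hO hG f
  have heq : y ^ 2 - x * y - 4 * y = x ^ 3 - 4 * x ^ 2 := by
    have := hgen.eq
    rw [K7.bb2, K7.cc2, map_ofNat, map_ofNat] at this
    linear_combination this
  have hne : ∀ z ∈ FK4R.g7 x y, z ≠ 0 := FK4R.g7_ne hgen
  have hQ : Q7 x y x (x - 4) (x - 2) y (y - 2 * x) (y - x) :=
    ⟨rfl, rfl, rfl, rfl, rfl, rfl, hne _ (by simp [FK4R.g7]), hne _ (by simp [FK4R.g7]),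
      hne _ (by simp [FK4R.g7]), hne _ (by simp [FK4R.g7]), hne _ (by simp [FK4R.g7]),
      hne _ (by simp [FK4R.g7]), heq⟩
  have hxi : K4N.xi7 x y = zt (List.ofFn (G2 k x y)) c26_cls L7 := by
    rw [ofFn_G2]
    exact xi7_zt' hQ
  refine line_certT hg hS.toSame c26.toCert c26_ok (n := 7) (r := 6) rfl rfl (cls := c26_cls) rfl
    (G := G2 k x y) (by norm_num) ?_ (fun i hi => G2_const i hi) ?_ ?_ (sols2 hgen) ?_ L7_ok L7_d
    (a := 1) (m := 1) (by norm_num) (by norm_num) L7_x hxi ?_ ?_
  · intro i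
    rw [hs]
    fin_cases i
    · exact is7_x
    · exact is7_xb
    · exact is7_xc
    · exact is7_y
    · exact is7_ycx
    · exact is7_ytx
    · exact is7_c two_ne_zero
  · intro e c _ he
    apply M7_const (t := (2 : k)) two_ne_zero (by norm_num) hgen (n := e) (s := c)
    rw [← he]
    unfold K7.M7
    refine Finset.prod_congr rfl fun j _ => ?_
    fin_cases j <;> rfl
  · intro e he hp
    have e0 := he 0 (by decide)
    have e1 := he 1 (by decide)
    have e2 := he 2 (by decide)
    have e3 := he 3 (by decide)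
    have e4 := he 4 (by decide)
    have e5 := he 5 (by decide)
    rw [Fin.prod_univ_seven, e0, e1, e2, e3, e4, e5] at hp
    simp only [zpow_zero, one_mul] at hp
    have h6 : G2 k x y 6 = algebraMap k F 2 := rfl
    rw [h6, ← map_zpow₀] at hp
    have hp2 : (2 : k) ^ e 6 = 2 ^ (0 : ℤ) := (algebraMap k F).injective (by rw [hp]; simp)
    have e6 := K7.two_inj hp2
    funext i
    fin_cases i <;> assumption
  · intro f hf hf1
    rw [hs] at hf hf1
    exact unit2' hgen hf hf1
  · rw [hxi, ofFn_G2]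
    exact FK4R.unram7 heq hne L7_r
  · intro φ ht
    refine K4N.rz_xi7 φ ?_ (htop ht)
    have := hgen
    rwa [K7.bb2, K7.cc2] at this

/-- **points of order seven** -/
theorem seven (hg : Generic W X Y) (P : W.Point) (h : addOrderOf P = 7) : Seven P X Y := by
  obtain ⟨t, x, y, hb, ht, ht1, hT, hG, hO, hS, htop, h7⟩ := tate7s hg P h
  exact ⟨t, x, y, hT, fun hind => ⟨hS.unitEqS.mpr (unitEqS7 hb hind hO hG),
    closedIn_bot hg (hS.toSame.onlyConst.mpr (onlyConst7 hb hind hO hG))⟩,
    fun hs => line7 hg (h7 hs)⟩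

end Pool.Agent.FK4
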