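import Pool.Agent.Lib_helper87.FAM.TenS
import Pool.Agent.Lib_helper72.KXa.S
import Pool.Agent.Lib_helper54.FAM.LK10a
import Pool.Agent.Lib_helper40.MC.T10a.Ix

set_option autoImplicit false
set_option linter.unusedSectionVars false

/-!
# Points of order ten: the clause for `t = 2`
-/

open scoped TensorProduct WithZero

namespace Pool.Agent.FK4

open Pool.Agent.MK4 WeierstrassCurve.Affine Pool.Agent.KC72 Pool.Agent.MC
open Pool.Agent.TN (Wt Gen)

variable {k : Type*} [Field k] [DecidableEq k] [CharZero k] {W : WeierstrassCurve.Affine k}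
  {F : Type*} [Field F] [Algebra k F] {X Y : F}

lemma ofFn_G10s (x y : F) : List.ofFn (G10s x y) = FK4R.g10a x y := rfl

lemma G10s_eq (x y : F) : G10s x y = KXa.G8 x y := rfl

lemma M10s_eq (x y : F) (n : Fin 9 → ℤ) : M10s x y n = KXa.M8 x y n := rfl

lemma eq10a {x y : F} (h : Gen (24 : k) 6 x y) :
    y ^ 2 - 5 * x * y - 24 * y = x ^ 3 - 24 * x ^ 2 := by
  have h1 := h.eq
  have hb : algebraMap k F 24 = 24 := map_ofNat _ 24
  have hc : algebraMap k F 6 = 6 := map_ofNat _ 6
  rw [hb, hc] at h1
  linear_combination h1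

/-- **the first special curve with a point of order ten** -/
theorem line10a (hg : Generic W X Y) {P : W.Point} (h10 : To10 P X Y) : Line P X Y := by
  have : CharZero F := charZero_of_injective_algebraMap (algebraMap k F).injective
  have hcls : N10C.c10a_cls = KXa.cls := by decide +kernel
  have hLo := L10a_ok
  have hLd := L10a_D
  rw [hcls] at hLo hLd
  have hsc : sameC MC10a.c10a.cls KXa.cls = true := by rw [← hcls]; exact MC10a.same
  have hLL : L10a.map (fun t => (oo KXa.cls (t.c, t.s), t.u)) =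
      MC10a.c10a_l0.map (fun t => (oo MC10a.c10a.cls (t.c, t.s), t.u)) := by decide +kernel
  refine line10a_of hg h10 MC10a.c10a_ok rfl rfl hsc ?_ ?_ hLo hLd hLL (ξ := K4N.xi10a) ?_ ?_ ?_
  · intro x y h
    rw [G10s_eq]
    exact KXa.sols8 h
  · intro x y h f h1 h2
    simp only [M10s_eq] at h1 h2
    rw [G10s_eq]
    exact KXa.unit8' h h1 h2
  · intro x y h
    have hx := xi10a_eq (eq10a h) (FK4R.g10a_ne h)
    rw [hcls] at hx
    exact hx
  · intro x y h
    exact unram_xi10a (eq10a h) (FK4R.g10a_ne h)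
  · intro x y φ h htop
    exact K4N.rz_xi10a φ h htop

end Pool.Agent.FK4
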