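import Pool.Agent.Lib_helper87.FAM.ClsC
import Pool.Agent.Lib_helper60.X10a.T5
import Pool.Agent.Lib_helper54.FAM.LK10b
import Pool.Agent.Lib_helper40.MC.T10b.Ix

set_option autoImplicit false
set_option linter.unusedSectionVars false

/-!
# Points of order ten: the special curve for `t = -1`
-/

open scoped TensorProduct WithZero

namespace Pool.Agent.FK4

open Pool.Agent.MK4 WeierstrassCurve.Affine Pool.Agent.KC72 Pool.Agent.MC
open Pool.Agent.TN (Wt Gen)

variable {k : Type*} [Field k] [DecidableEq k] [CharZero k] {W : WeierstrassCurve.Affine k}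
  {F : Type*} [Field F] [Algebra k F] {X Y : F}

lemma ofFn_G10m (x y : F) : List.ofFn (G10m x y) = FK4R.g10b x y := rfl

lemma G10m_eq (x y : F) : G10m x y = X10.Ca.G10 x y := rfl

lemma M10m_eq (x y : F) (n : Fin 9 → ℤ) : M10m x y n = X10.Ca.MU x y n := rfl

lemma eq10b {x y : F} (h : Gen (-6 / 25 : k) (6 / 5) x y) :
    y ^ 2 - 1 / 5 * x * y + 6 / 25 * y = x ^ 3 + 6 / 25 * x ^ 2 := by
  have h1 := h.eq
  have hb : algebraMap k F (-6 / 25) = -6 / 25 := by rw [map_div₀, map_neg, map_ofNat, map_ofNat]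
  have hc : algebraMap k F (6 / 5) = 6 / 5 := by rw [map_div₀, map_ofNat, map_ofNat]
  have : CharZero F := charZero_of_injective_algebraMap (algebraMap k F).injective
  rw [hb, hc] at h1
  linear_combination h1

/-- **the second special curve with a point of order ten**: the closed elements -/
theorem cls10m (hg : Generic W X Y) {P : W.Point} (h10 : To10' P X Y) :
    ∃ x y : F, Gen (-6 / 25 : k) (6 / 5) x y ∧
      (IntermediateField.adjoin k {X, Y} = ⊤ → IntermediateField.adjoin k {x, y} = ⊤) ∧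
      IsCls (AddSubgroup.zmultiples P) X Y (K4N.xi10b x y) ∧
      ClosedIn (AddSubgroup.zmultiples P) X Y (Submodule.span ℚ {K4N.xi10b x y}) := by
  have : CharZero F := charZero_of_injective_algebraMap (algebraMap k F).injective
  have hcls : N10C.c10b_cls = X10.Ca.cls10 := by decide +kernel
  have hLo := L10b_ok
  have hLd := L10b_D
  rw [hcls] at hLo hLd
  have hsc : sameC MC10b.c10b.cls X10.Ca.cls10 = true := by rw [← hcls]; exact MC10b.same
  have hLL : L10b.map (fun t => (oo X10.Ca.cls10 (t.c, t.s), t.u)) =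
      MC10b.c10b_l0.map (fun t => (oo MC10b.c10b.cls (t.c, t.s), t.u)) := by decide +kernel
  refine cls10m_of hg h10 MC10b.c10b_ok rfl rfl hsc ?_ ?_ hLo hLd hLL (ξ := K4N.xi10b) ?_ ?_
  · intro x y h
    rw [G10m_eq]
    exact X10.Ca.sols10 h
  · intro x y h f h1 h2
    simp only [M10m_eq] at h1 h2
    rw [G10m_eq]
    exact X10.Ca.unit10 h h1 h2
  · intro x y h
    have hx := xi10b_eq (eq10b h) (FK4R.g10b_ne h)
    rw [hcls] at hx
    exact hx
  · intro x y h
    exact unram_xi10b (eq10b h) (FK4R.g10b_ne h)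

/-- the clause `Line`, given the regulator -/
theorem line10m_reg (hr : ∀ {x y : F} (φ : k →+* ℝ), Gen (-6 / 25 : k) (6 / 5) x y →
      IntermediateField.adjoin k {x, y} = ⊤ → RegNe φ (K4N.xi10b x y))
    (hg : Generic W X Y) {P : W.Point} (h10 : To10' P X Y) : Line P X Y := by
  obtain ⟨x, y, hgen, htop, h1, h2⟩ := cls10m hg h10
  exact ⟨_, h1, h2, fun φ ht => hr φ hgen (htop ht)⟩

end Pool.Agent.FK4
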