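import Pool.Agent.Lib_helper87.FAM.Twelve3
import Pool.Agent.Lib_helper72.KYd.Cub
import Pool.Agent.Lib_helper54.FAM.E12
import Pool.Agent.Lib_helper54.FAM.LK12
import Pool.Agent.Lib_helper54.FAM.Q12X

set_option autoImplicit false
set_option linter.unusedSectionVars false

/-!
# Points of order twelve: the clause for `t = 2/3`
-/

open scoped TensorProduct WithZero

namespace Pool.Agent.FK4

open Pool.Agent.MK4 WeierstrassCurve.Affine Pool.Agent.KC72 Pool.Agent.MC
open Pool.Agent.TN (Wt Gen)

variable {k : Type*} [Field k] [DecidableEq k] [CharZero k] {W : WeierstrassCurve.Affine k}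
  {F : Type*} [Field F] [Algebra k F] {X Y : F}

lemma ofFn_G12s (x y : F) : List.ofFn (G12s x y) = FK4R.g12a x y := rfl

lemma G12s_eq (x y : F) : G12s x y = KYd.G8 x y := rfl

lemma M12s_eq (x y : F) (n : Fin 11 → ℤ) : M12s x y n = KYd.M8 x y n := rfl

lemma eq12a {x y : F} (h : Gen (10 / 3 : k) 2 x y) :
    y ^ 2 - x * y - 10 / 3 * y = x ^ 3 - 10 / 3 * x ^ 2 := by
  have h1 := h.eq
  have hb : algebraMap k F (10 / 3) = 10 / 3 := by rw [map_div₀, map_ofNat, map_ofNat]
  have hc : algebraMap k F 2 = 2 := map_ofNat _ 2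
  rw [hb, hc] at h1
  linear_combination h1

/-- **the special curve with a point of order twelve** -/
theorem line12a (hg : Generic W X Y) {P : W.Point} (h12 : To12t (2 / 3 : k) P X Y) :
    Line P X Y := by
  have : CharZero F := charZero_of_injective_algebraMap (algebraMap k F).injective
  have hcls : KYd.clsA = N12T.cls12_cls := by decide +kernel
  refine line12a_ofS hg h12 MC12t.c12t_ok rfl rfl c12t_sameC ?_ ?_ L12_ok L12_D L12_LL
    (ξ := K4N.xi12) ?_ ?_ ?_
  · intro x y h
    rw [← hcls, G12s_eq]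
    intro p hp
    exact KYd.sols8 h p (List.mem_of_mem_take hp)
  · intro x y h f h1 h2
    simp only [M12s_eq] at h1 h2
    rw [← hcls, G12s_eq]
    exact KYd.hUA h h1 h2
  · intro x y h
    exact xi12_eq (eq12a h) (FK4R.g12a_ne h)
  · intro x y h
    exact unram_xi12 (eq12a h) (FK4R.g12a_ne h)
  · intro x y φ h htop
    exact K4N.rz_xi12 φ h htop

end Pool.Agent.FK4
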