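import Pool.Agent.Lib_helper76.UEG.U

/-!
# Leading coefficients at infinity

`lc2 w` is the leading coefficient of the norm of `w`; it is multiplicative.
-/

set_option autoImplicit false
set_option linter.unusedSectionVars false

namespace Pool.Agent.UEG

open Polynomial WeierstrassCurve.Affine WithZero

variable {k : Type*} [Field k] {W : WeierstrassCurve.Affine k}

/-- the leading coefficient of the norm of a regular function -/
noncomputable def lcR (r : W.CoordinateRing) : k := (Nm r).leadingCoeff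

lemma lcR_mul (r s : W.CoordinateRing) : lcR (r * s) = lcR r * lcR s := by
  unfold lcR; rw [Nm_mul, leadingCoeff_mul]

lemma lcR_ne {r : W.CoordinateRing} (hr : r ≠ 0) : lcR r ≠ 0 :=
  leadingCoeff_ne_zero.mpr (Nm_ne_zero hr)

lemma lcR_iP (p : k[X]) : lcR (iP p : W.CoordinateRing) = p.leadingCoeff ^ 2 := by
  unfold lcR; rw [Nm_iP, leadingCoeff_pow]

lemma lcR_c (c : k) : lcR (cR c : W.CoordinateRing) = c ^ 2 := by
  have : (cR c : W.CoordinateRing) = iP (C c) := rfl
  rw [this, lcR_iP, leadingCoeff_C]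

lemma lcR_one : lcR (1 : W.CoordinateRing) = 1 := by
  have := lcR_c (W := W) 1
  rwa [map_one, one_pow] at this

lemma lcR_line [DecidableEq k] {x₁ y₁ x₂ y₂ : k} (h₁ : W.Equation x₁ y₁) (h₂ : W.Equation x₂ y₂)
    (hxy : ¬(x₁ = x₂ ∧ y₁ = W.negY x₂ y₂)) :
    lcR (yR - iP (ln W x₁ x₂ y₁ y₂) : W.CoordinateRing) = -1 := by
  unfold lcR
  rw [Nm_line h₁ h₂ hxy, leadingCoeff_neg, leadingCoeff_mul, leadingCoeff_mul,
    leadingCoeff_X_sub_C, leadingCoeff_X_sub_C, leadingCoeff_X_sub_C, one_mul, one_mul]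

lemma D_eq (r : W.CoordinateRing) : D r = (Nm r).degree := rfl

/-- bounds on the coefficients in the basis `1`, `y` -/
lemma deg_pq {p q : k[X]} {n : ℕ} (h : (D (iP p + iP q * yR : W.CoordinateRing)) ≤ n) :
    2 * p.natDegree ≤ n ∧ (q = 0 ∨ 2 * q.natDegree + 3 ≤ n) := by
  rw [D_eq, Nm_deg] at h
  obtain ⟨h1, h2⟩ := max_le_iff.mp h
  constructor
  · by_cases hp : p = 0
    · rw [hp]; simp
    · rw [degree_eq_natDegree hp, nsmul_eq_mul] at h1
      exact_mod_cast h1
  · by_cases hq : q = 0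
    · exact Or.inl hq
    · right
      rw [degree_eq_natDegree hq, nsmul_eq_mul] at h2
      exact_mod_cast h2

lemma natDegree_a13 : (C W.a₁ * X + C W.a₃ : k[X]).natDegree ≤ 1 := natDegree_linear_le

lemma natDegree_f3 : (X ^ 3 + C W.a₂ * X ^ 2 + C W.a₄ * X + C W.a₆ : k[X]).natDegree ≤ 3 := by
  compute_degree

/-- the mixed part of the norm -/
lemma Nm_sub (p q p' q' : k[X]) :
    Nm (iP p + iP q * yR - (iP p' + iP q' * yR) : W.CoordinateRing) =
      Nm (iP p + iP q * yR : W.CoordinateRing) -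
      ((2 * (p * p') - (p * q' * (C W.a₁ * X + C W.a₃)) - (p' * q * (C W.a₁ * X + C W.a₃)) -
        2 * (q * q' * (X ^ 3 + C W.a₂ * X ^ 2 + C W.a₄ * X + C W.a₆))) -
        Nm (iP p' + iP q' * yR : W.CoordinateRing)) := by
  have e : (iP p + iP q * yR - (iP p' + iP q' * yR) : W.CoordinateRing) =
      iP (p - p') + iP (q - q') * yR := by
    rw [map_sub, map_sub]; ring
  rw [e, Nm_pq, Nm_pq, Nm_pq]
  ring

/-- functions with the same leading term -/
lemma lcR_of_lt {r s : W.CoordinateRing} (h : D (s - r) < D s) : lcR r = lcR s := by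
  set t := s - r with ht
  have e : r = s - t := by rw [ht]; ring
  by_cases h0 : t = 0
  · rw [e, h0, sub_zero]
  have hs0 : s ≠ 0 := by
    rintro hs0
    rw [hs0, D_zero] at h
    exact not_lt_bot h
  obtain ⟨n, hn⟩ := WithBot.ne_bot_iff_exists.mp (fun h => hs0 (D_eq_bot.mp h))
  obtain ⟨m, hm⟩ := WithBot.ne_bot_iff_exists.mp (fun h => h0 (D_eq_bot.mp h))
  obtain ⟨p, q, hs⟩ := exists_pq s
  obtain ⟨p', q', ht'⟩ := exists_pq t
  have hmn : m < n := by
    rw [← hn, ← hm] at h
    exact_mod_cast h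
  obtain ⟨a1, a2⟩ := deg_pq (p := p) (q := q) (n := n) (W := W) (by rw [← hs]; exact hn.symm.le)
  obtain ⟨b1, b2⟩ := deg_pq (p := p') (q := q') (n := m) (W := W) (by rw [← ht']; exact hm.symm.le)
  have ns : (Nm s).natDegree = n := by
    have : (Nm s).degree = (n : WithBot ℕ) := hn.symm
    exact natDegree_eq_of_degree_eq_some this
  have nt : (Nm t).natDegree = m := by
    have : (Nm t).degree = (m : WithBot ℕ) := hm.symm
    exact natDegree_eq_of_degree_eq_some this
  unfold lcR
  rw [e, hs, ht', Nm_sub, ← hs, ← ht']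
  apply leadingCoeff_sub_of_degree_lt
  apply degree_lt_degree
  rw [ns]
  have k1 : (2 * (p * p') : k[X]).natDegree ≤ p.natDegree + p'.natDegree := by
    have : (2 * (p * p') : k[X]) = C 2 * (p * p') := by rw [map_ofNat]
    rw [this]
    exact (natDegree_C_mul_le _ _).trans natDegree_mul_le
  have k2 : (p * q' * (C W.a₁ * X + C W.a₃)).natDegree < n := by
    rcases b2 with rfl | b2
    · rw [mul_zero, zero_mul, natDegree_zero]; omega
    · have := natDegree_mul_le (p := p * q') (q := (C W.a₁ * X + C W.a₃))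
      have h2 := natDegree_mul_le (p := p) (q := q')
      have h3 := natDegree_a13 (W := W)
      omega
  have k3 : (p' * q * (C W.a₁ * X + C W.a₃)).natDegree < n := by
    rcases a2 with rfl | a2
    · rw [mul_zero, zero_mul, natDegree_zero]; omega
    · have := natDegree_mul_le (p := p' * q) (q := (C W.a₁ * X + C W.a₃))
      have h2 := natDegree_mul_le (p := p') (q := q)
      have h3 := natDegree_a13 (W := W)
      omega
  have k4 : (2 * (q * q' * (X ^ 3 + C W.a₂ * X ^ 2 + C W.a₄ * X + C W.a₆)) : k[X]).natDegree < n := by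
    have e2 : (2 * (q * q' * (X ^ 3 + C W.a₂ * X ^ 2 + C W.a₄ * X + C W.a₆)) : k[X]) =
      C 2 * (q * q' * (X ^ 3 + C W.a₂ * X ^ 2 + C W.a₄ * X + C W.a₆)) := by rw [map_ofNat]
    rw [e2]
    refine (natDegree_C_mul_le _ _).trans_lt ?_
    rcases a2 with rfl | a2
    · rw [zero_mul, zero_mul, natDegree_zero]; omega
    rcases b2 with rfl | b2
    · rw [mul_zero, zero_mul, natDegree_zero]; omega
    have := natDegree_mul_le (p := q * q') (q := (X ^ 3 + C W.a₂ * X ^ 2 + C W.a₄ * X + C W.a₆))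
    have h2 := natDegree_mul_le (p := q) (q := q')
    have h3 := natDegree_f3 (W := W)
    omega
  refine (natDegree_sub_le_of_le (natDegree_sub_le_of_le (natDegree_sub_le_of_le
    (natDegree_sub_le_of_le k1 le_rfl) le_rfl) le_rfl) nt.le).trans_lt ?_
  omega

/-- the leading coefficient of the norm -/
noncomputable def lc2 (w : W.FunctionField) : k :=
  lcR (IsLocalization.sec (nonZeroDivisors W.CoordinateRing) w).1 /
    lcR ((IsLocalization.sec (nonZeroDivisors W.CoordinateRing) w).2 : W.CoordinateRing)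

lemma lc2_div {r s : W.CoordinateRing} (hs : s ≠ 0) :
    lc2 (W := W) (inc r / inc s) = lcR r / lcR s := by
  unfold lc2
  set w : W.FunctionField := inc r / inc s with hw
  set a := IsLocalization.sec (nonZeroDivisors W.CoordinateRing) w with ha
  have h1 : w * inc (a.2 : W.CoordinateRing) = inc a.1 :=
    IsLocalization.sec_spec (nonZeroDivisors W.CoordinateRing) w
  have h2 : (a.2 : W.CoordinateRing) ≠ 0 := nonZeroDivisors.ne_zero a.2.2
  have hs' : inc (W := W) s ≠ 0 := by
    rw [Ne, map_eq_zero_iff _ inc_injective]; exact hs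
  rw [hw, div_mul_eq_mul_div, div_eq_iff hs', ← map_mul, ← map_mul] at h1
  have h3 := congrArg lcR (inc_injective h1)
  rw [lcR_mul, lcR_mul] at h3
  rw [div_eq_div_iff (lcR_ne h2) (lcR_ne hs), ← h3]

lemma lc2_inc (r : W.CoordinateRing) : lc2 (W := W) (inc r) = lcR r := by
  have := lc2_div (W := W) (r := r) (s := 1) one_ne_zero
  rwa [map_one, div_one, lcR_one, div_one] at this

lemma exists_div (w : W.FunctionField) : ∃ r s : W.CoordinateRing, s ≠ 0 ∧ w = inc r / inc s := by
  obtain ⟨r, s, hs, h⟩ := IsFractionRing.div_surjective (A := W.CoordinateRing) w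
  exact ⟨r, s, nonZeroDivisors.ne_zero hs, h.symm⟩

lemma inc_ne {s : W.CoordinateRing} (hs : s ≠ 0) : inc (W := W) s ≠ 0 := by
  rw [Ne, map_eq_zero_iff _ inc_injective]; exact hs

lemma lc2_mul (w w' : W.FunctionField) : lc2 (w * w') = lc2 w * lc2 w' := by
  obtain ⟨r, s, hs, rfl⟩ := exists_div w
  obtain ⟨r', s', hs', rfl⟩ := exists_div w'
  rw [div_mul_div_comm, ← map_mul, ← map_mul, lc2_div (mul_ne_zero hs hs'), lc2_div hs,
    lc2_div hs', lcR_mul, lcR_mul, div_mul_div_comm]

lemma lc2_ne {w : W.FunctionField} (hw : w ≠ 0) : lc2 w ≠ 0 := by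
  obtain ⟨r, s, hs, rfl⟩ := exists_div w
  have hr : r ≠ 0 := by
    rintro rfl
    rw [map_zero, zero_div] at hw
    exact hw rfl
  rw [lc2_div hs]
  exact div_ne_zero (lcR_ne hr) (lcR_ne hs)

lemma lc2_c (c : k) : lc2 (W := W) (cK c) = c ^ 2 := by
  have : (cK c : W.FunctionField) = inc (cR c) := rfl
  rw [this, lc2_inc, lcR_c]

lemma lc2_one : lc2 (1 : W.FunctionField) = 1 := by
  have := lc2_c (W := W) 1
  rwa [map_one, one_pow] at this

lemma lc2_inv {w : W.FunctionField} (hw : w ≠ 0) : lc2 w⁻¹ = (lc2 w)⁻¹ := by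
  apply eq_inv_of_mul_eq_one_left
  rw [← lc2_mul, inv_mul_cancel₀ hw, lc2_one]

lemma lc2_x_sub (a : k) : lc2 (W := W) (inc (iP (X - C a))) = 1 := by
  rw [lc2_inc, lcR_iP, leadingCoeff_X_sub_C, one_pow]

lemma lc2_line [DecidableEq k] {x₁ y₁ x₂ y₂ : k} (h₁ : W.Equation x₁ y₁) (h₂ : W.Equation x₂ y₂)
    (hxy : ¬(x₁ = x₂ ∧ y₁ = W.negY x₂ y₂)) :
    lc2 (W := W) (inc (yR - iP (ln W x₁ x₂ y₁ y₂))) = -1 := by
  rw [lc2_inc, lcR_line h₁ h₂ hxy]

lemma vR_lt {r s : W.CoordinateRing} (hs : s ≠ 0) (h : vR r < vR s) : D r < D s := by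
  by_cases hr : r = 0
  · rw [hr, D_zero]
    exact bot_lt_iff_ne_bot.mpr fun h => hs (D_eq_bot.mp h)
  · obtain ⟨n, h1, h2⟩ := vR_cases hs
    obtain ⟨m, h3, h4⟩ := vR_cases hr
    rw [h2, h4, exp_lt_exp] at h
    rw [h1, h3]
    exact_mod_cast h

/-- functions with value one at infinity -/
theorem lc2_eq_one {w : W.FunctionField} (h : v (W := W) (1 - w) < 1) : lc2 w = 1 := by
  obtain ⟨r, s, hs, rfl⟩ := exists_div w
  have hs' := inc_ne (W := W) hs
  have e : 1 - inc r / inc s = (inc (s - r) / inc s : W.FunctionField) := by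
    rw [map_sub, sub_div, div_self hs']
  have hv : 0 < v (W := W) (inc s) := by
    rw [zero_lt_iff]; exact (Valuation.ne_zero_iff _).mpr hs'
  rw [e, map_div₀, div_lt_one₀ hv, v_inc, v_inc] at h
  have := lcR_of_lt (vR_lt hs h)
  rw [lc2_div hs, this, div_self (lcR_ne hs)]

/-! ### the residue field -/

lemma D_lt {p q : k[X]} {n : ℕ} (h1 : 2 * p.natDegree ≤ n) (h2 : q = 0 ∨ 2 * q.natDegree + 3 ≤ n)
    (hp : ∀ i, 2 * i = n → p.coeff i = 0) (hq : ∀ i, 2 * i + 3 = n → q.coeff i = 0) :
    D (iP p + iP q * yR : W.CoordinateRing) < n := by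
  rw [D_eq, Nm_deg, max_lt_iff]
  constructor
  · by_cases h0 : p = 0
    · rw [h0, degree_zero]
      exact WithBot.bot_lt_coe n
    · rw [degree_eq_natDegree h0, nsmul_eq_mul]
      have : 2 * p.natDegree ≠ n := fun h => (leadingCoeff_ne_zero.mpr h0) (hp _ h)
      have : 2 * p.natDegree < n := by omega
      exact_mod_cast this
  · by_cases h0 : q = 0
    · rw [h0, degree_zero]
      exact WithBot.bot_lt_coe n
    · rw [degree_eq_natDegree h0, nsmul_eq_mul]
      have h3 := h2.resolve_left h0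
      have : 2 * q.natDegree + 3 ≠ n := fun h => (leadingCoeff_ne_zero.mpr h0) (hq _ h)
      have : 2 * q.natDegree + 3 < n := by omega
      exact_mod_cast this

lemma D_coeff {p q : k[X]} {n : ℕ} (h : D (iP p + iP q * yR : W.CoordinateRing) = n) :
    (∃ i, 2 * i = n ∧ p.coeff i ≠ 0) ∨ (∃ i, 2 * i + 3 = n ∧ q.coeff i ≠ 0) := by
  by_contra hc
  push Not at hc
  obtain ⟨h1, h2⟩ := deg_pq h.le
  exact absurd h (D_lt h1 h2 hc.1 hc.2).ne

/-- the residue field at infinity is the field of constants -/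
theorem exists_residue {w : W.FunctionField} (h : v (W := W) w = 1) :
    ∃ c : k, c ≠ 0 ∧ v (W := W) (w - cK c) < 1 := by
  obtain ⟨r, s, hs, rfl⟩ := exists_div w
  have hs' := inc_ne (W := W) hs
  have hv : v (W := W) (inc s) ≠ 0 := (Valuation.ne_zero_iff _).mpr hs'
  rw [map_div₀, div_eq_one_iff_eq hv, v_inc, v_inc] at h
  have hr : r ≠ 0 := by
    rintro rfl
    rw [map_zero] at h
    rw [v_inc] at hv
    exact hv h.symm
  obtain ⟨n, h1, h2⟩ := vR_cases hs
  obtain ⟨m, h3, h4⟩ := vR_cases hr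
  have hmn : m = n := by
    rw [h2, h4] at h
    exact_mod_cast exp_injective h
  subst hmn
  obtain ⟨p, q, es⟩ := exists_pq s
  obtain ⟨p', q', er⟩ := exists_pq r
  obtain ⟨a1, a2⟩ := deg_pq (p := p) (q := q) (n := m) (W := W) (by rw [← es]; exact h1.le)
  obtain ⟨b1, b2⟩ := deg_pq (p := p') (q := q') (n := m) (W := W) (by rw [← er]; exact h3.le)
  have main : ∃ c : k, c ≠ 0 ∧ D (r - cR c * s) < m := by
    have e : ∀ c : k, r - cR c * s = iP (p' - C c * p) + iP (q' - C c * q) * yR := by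
      intro c
      have : (cR c : W.CoordinateRing) = iP (C c) := rfl
      rw [es, er, this]
      simp only [map_sub, map_mul]
      ring
    have c1 : ∀ c : k, 2 * (p' - C c * p).natDegree ≤ m := by
      intro c
      have := natDegree_sub_le_of_le (m := p'.natDegree) (n := p.natDegree) le_rfl
        (natDegree_C_mul_le c p)
      omega
    have c2 : ∀ c : k, (q' - C c * q) = 0 ∨ 2 * (q' - C c * q).natDegree + 3 ≤ m := by
      intro c
      have := natDegree_sub_le_of_le (m := q'.natDegree) (n := q.natDegree) le_rfl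
        (natDegree_C_mul_le c q)
      rcases a2 with rfl | a2 <;> rcases b2 with rfl | b2
      · left; simp
      · right; rw [natDegree_zero] at this; omega
      · right; rw [natDegree_zero] at this; omega
      · right; omega
    rw [es] at h1
    rw [er] at h3
    rcases D_coeff h1 with ⟨i, hi, hpi⟩ | ⟨i, hi, hqi⟩
    · have hpi' : p'.coeff i ≠ 0 := by
        rcases D_coeff h3 with ⟨j, hj, hj'⟩ | ⟨j, hj, hj'⟩
        · obtain rfl : j = i := by omega
          exact hj'
        · omega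
      refine ⟨p'.coeff i / p.coeff i, div_ne_zero hpi' hpi, ?_⟩
      rw [e]
      refine D_lt (c1 _) (c2 _) ?_ ?_
      · intro j hj
        obtain rfl : j = i := by omega
        rw [coeff_sub, coeff_C_mul, div_mul_cancel₀ _ hpi, sub_self]
      · intro j hj; omega
    · have hqi' : q'.coeff i ≠ 0 := by
        rcases D_coeff h3 with ⟨j, hj, hj'⟩ | ⟨j, hj, hj'⟩
        · omega
        · obtain rfl : j = i := by omega
          exact hj'
      refine ⟨q'.coeff i / q.coeff i, div_ne_zero hqi' hqi, ?_⟩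
      rw [e]
      refine D_lt (c1 _) (c2 _) ?_ ?_
      · intro j hj; omega
      · intro j hj
        obtain rfl : j = i := by omega
        rw [coeff_sub, coeff_C_mul, div_mul_cancel₀ _ hqi, sub_self]
  obtain ⟨c, hc, hD⟩ := main
  refine ⟨c, hc, ?_⟩
  have e : inc r / inc s - cK c = (inc (r - cR c * s) / inc s : W.FunctionField) := by
    have e1 : (cK c : W.FunctionField) = inc (cR c) := rfl
    rw [map_sub, map_mul, sub_div, mul_div_assoc, div_self hs', mul_one, e1]
  have hv' : 0 < v (W := W) (inc s) := zero_lt_iff.mpr hv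
  rw [e, map_div₀, div_lt_one₀ hv', v_inc, v_inc, h2]
  by_cases h0 : r - cR c * s = 0
  · rw [h0, map_zero]; exact exp_pos
  · obtain ⟨l, h5, h6⟩ := vR_cases h0
    rw [h6, exp_lt_exp]
    rw [h5] at hD
    exact_mod_cast hD

/-- the roots of constants are constants -/
theorem root_const {w : W.FunctionField} {M : ℕ} (hM : (M : k) ≠ 0) {c : k} (hc : c ≠ 0)
    (h : w ^ M = cK c) : ∃ c' : k, c' ≠ 0 ∧ w = cK c' := by
  have hM0 : M ≠ 0 := by
    rintro rfl
    rw [Nat.cast_zero] at hM
    exact hM rfl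
  have hv : v (W := W) w = 1 := by
    have h1 := congrArg (v (W := W)) h
    rw [map_pow, v_c hc] at h1
    exact (pow_eq_one_iff_of_nonneg zero_le' hM0).mp h1
  obtain ⟨c', hc', h1⟩ := exists_residue hv
  refine ⟨c', hc', ?_⟩
  have hc'' : (cK c' : W.FunctionField) ≠ 0 := ne_of_v (i := 0) (by rw [v_c hc', exp_zero])
  set u : W.FunctionField := w / cK c' with hu
  have hu1 : v (W := W) (u - 1) < 1 := by
    have : u - 1 = (w - cK c') / cK c' := by rw [sub_div, div_self hc'']
    rw [this, map_div₀, v_c hc', div_one]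
    exact h1
  have hle : ∀ i : ℕ, v (W := W) (u ^ i - 1) < 1 := by
    intro i
    induction i with
    | zero => rw [pow_zero, sub_self, map_zero]; exact zero_lt_one
    | succ i ih =>
      have hvu : v (W := W) u = 1 := by rw [hu, map_div₀, hv, v_c hc', div_one]
      have : u ^ (i + 1) - 1 = u * (u ^ i - 1) + (u - 1) := by ring
      rw [this]
      refine (Valuation.map_add _ _ _).trans_lt (max_lt ?_ hu1)
      rw [map_mul, hvu, one_mul]
      exact ih
  -- `u ^ M` is a constant with value one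
  have hcc : (cK (c / c' ^ M) : W.FunctionField) = u ^ M := by
    rw [hu, div_pow, h, map_div₀, map_pow]
  have h2 : u ^ M = 1 := by
    have h3 := hle M
    rw [← hcc] at h3 ⊢
    have h4 : (cK (c / c' ^ M) : W.FunctionField) - 1 = cK (c / c' ^ M - 1) := by
      rw [map_sub, map_one]
    rw [h4] at h3
    by_cases h5 : c / c' ^ M - 1 = 0
    · rw [sub_eq_zero.mp h5, map_one]
    · rw [v_c h5] at h3
      exact absurd h3 (lt_irrefl _)
  have hS : (∑ i ∈ Finset.range M, u ^ i) * (u - 1) = 0 := by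
    rw [geom_sum_mul, h2, sub_self]
  rcases mul_eq_zero.mp hS with h3 | h3
  · exfalso
    have h4 : (∑ i ∈ Finset.range M, (u ^ i - 1)) = - cK (M : k) := by
      rw [Finset.sum_sub_distrib, h3]
      simp
    have h5 : v (W := W) (∑ i ∈ Finset.range M, (u ^ i - 1)) < 1 :=
      Valuation.map_sum_lt _ one_ne_zero fun i _ => hle i
    rw [h4, Valuation.map_neg, v_c hM] at h5
    exact absurd h5 (lt_irrefl _)
  · have h4 : u = 1 := sub_eq_zero.mp h3
    rw [hu, div_eq_one_iff_eq hc''] at h4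
    exact h4

end Pool.Agent.UEG
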