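import Pool.Agent.Lib_helper76.UEG.TQ
import Pool.Agent.Lib_helper76.UE5.U4
import Pool.Agent.Lib_helper72.K7.H

/-!
# Functions supported on the multiples of a point of order seven
-/

set_option autoImplicit false
set_option linter.unusedSectionVars false
set_option linter.unusedSimpArgs false
set_option linter.unreachableTactic false
set_option linter.unusedTactic false

namespace Pool.Agent.UE7

open WeierstrassCurve.Affine Polynomial UEG K7
open TN (Wt)

variable {k : Type*} [Field k] {F : Type*} [Field F] [Algebra k F] {t : k} {x y : F}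

/-- products of constants and of `x`, `x - b`, `x - c`, `y`, `y - c x`, `y - (t - 1) x` -/
def Is7 (t : k) (x y f : F) : Prop :=
  ∃ (c₀ : k) (n : Fin 6 → ℤ), c₀ ≠ 0 ∧ f = algebraMap k F c₀ * M7 t x y n

lemma Is7.mul (h : TN.Gen (bb t) (cc t) x y) {f g : F} (hf : Is7 t x y f) (hg : Is7 t x y g) :
    Is7 t x y (f * g) := by
  obtain ⟨c, n, hc, rfl⟩ := hf
  obtain ⟨c', n', hc', rfl⟩ := hg
  refine ⟨c * c', n + n', mul_ne_zero hc hc', ?_⟩
  have : M7 t x y (n + n') = M7 t x y n * M7 t x y n' := by
    unfold M7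
    rw [← Finset.prod_mul_distrib]
    refine Finset.prod_congr rfl fun j _ => ?_
    rw [Pi.add_apply, zpow_add₀ (uF_ne h j)]
  rw [this, map_mul]
  ring

lemma Is7.inv {f : F} (hf : Is7 t x y f) : Is7 t x y f⁻¹ := by
  obtain ⟨c, n, hc, rfl⟩ := hf
  refine ⟨c⁻¹, -n, inv_ne_zero hc, ?_⟩
  have : M7 t x y (-n) = (M7 t x y n)⁻¹ := by
    unfold M7
    rw [← Finset.prod_inv_distrib]
    refine Finset.prod_congr rfl fun j _ => ?_
    rw [Pi.neg_apply, zpow_neg]
  rw [this, map_inv₀, mul_inv]

lemma Is7.div (h : TN.Gen (bb t) (cc t) x y) {f g : F} (hf : Is7 t x y f) (hg : Is7 t x y g) :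
    Is7 t x y (f / g) := by
  rw [div_eq_mul_inv]; exact hf.mul h hg.inv

lemma is7_c {c : k} (hc : c ≠ 0) : Is7 t x y (algebraMap k F c) :=
  ⟨c, 0, hc, by simp [M7]⟩

lemma is7_one : Is7 t x y (1 : F) := by
  rw [← map_one (algebraMap k F)]; exact is7_c one_ne_zero

lemma is7_u (j : Fin 6) : Is7 t x y (uF t x y j) := by
  refine ⟨1, Pi.single j 1, one_ne_zero, ?_⟩
  unfold M7
  rw [map_one, one_mul, Finset.prod_eq_single j]
  · rw [Pi.single_eq_same, zpow_one]
  · intro i _ hi
    rw [Pi.single_eq_of_ne hi, zpow_zero]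
  · intro h; exact absurd (Finset.mem_univ _) h

lemma Is7.neg (h : TN.Gen (bb t) (cc t) x y) {f : F} (hf : Is7 t x y f) : Is7 t x y (-f) := by
  have h1 := (is7_c (F := F) (t := t) (x := x) (y := y) (c := (-1 : k))
    (neg_ne_zero.mpr one_ne_zero)).mul h hf
  rwa [map_neg, map_one, neg_one_mul] at h1

lemma Is7.pow (h : TN.Gen (bb t) (cc t) x y) {f : F} (hf : Is7 t x y f) (n : ℕ) :
    Is7 t x y (f ^ n) := by
  induction n with
  | zero => rw [pow_zero]; exact is7_one
  | succ n ih => rw [pow_succ]; exact ih.mul h hf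

lemma Is7.zpow (h : TN.Gen (bb t) (cc t) x y) {f : F} (hf : Is7 t x y f) (n : ℤ) :
    Is7 t x y (f ^ n) := by
  obtain ⟨m, rfl | rfl⟩ := Int.eq_nat_or_neg n
  · rw [zpow_natCast]; exact hf.pow h m
  · rw [zpow_neg, zpow_natCast]; exact (hf.pow h m).inv

lemma Is7.of_neg (h : TN.Gen (bb t) (cc t) x y) {f : F} (hf : Is7 t x y (-f)) : Is7 t x y f := by
  have := hf.neg h
  rwa [neg_neg] at this

lemma is7_x : Is7 t x y x := is7_u 0
lemma is7_xb : Is7 t x y (x - algebraMap k F (bb t)) := is7_u 1
lemma is7_xc : Is7 t x y (x - algebraMap k F (cc t)) := is7_u 2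
lemma is7_y : Is7 t x y y := is7_u 3
lemma is7_ycx : Is7 t x y (y - algebraMap k F (cc t) * x) := is7_u 4
lemma is7_ytx : Is7 t x y (y - algebraMap k F (t - 1) * x) := is7_u 5

lemma mbb : algebraMap k F (bb t) = algebraMap k F t ^ 2 * (algebraMap k F t - 1) := by
  unfold bb; rw [map_mul, map_pow, map_sub, map_one]

lemma mcc : algebraMap k F (cc t) = algebraMap k F t * (algebraMap k F t - 1) := by
  unfold cc; rw [map_mul, map_sub, map_one]

/-! ### the other lines -/

section lines

variable (h : TN.Gen (bb t) (cc t) x y)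

include h

lemma ne_x : x ≠ 0 := uF_ne h 0
lemma ne_xb : x - algebraMap k F (bb t) ≠ 0 := uF_ne h 1
lemma ne_xc : x - algebraMap k F (cc t) ≠ 0 := uF_ne h 2
lemma ne_y : y ≠ 0 := uF_ne h 3
lemma ne_ycx : y - algebraMap k F (cc t) * x ≠ 0 := uF_ne h 4
lemma ne_ytx : y - algebraMap k F (t - 1) * x ≠ 0 := uF_ne h 5

/-- the tangent at `-P` -/
lemma l662 : y - algebraMap k F (cc t - 1) * x - algebraMap k F (bb t) =
    x ^ 2 * (x - algebraMap k F (bb t)) / y := by
  rw [eq_div_iff (ne_y h), map_sub, map_one]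
  linear_combination h.eq

/-- the line through `3P`, `-P`, `-2P` -/
lemma l356 : y + x - algebraMap k F (bb t) =
    x * (x - algebraMap k F (bb t)) * (x - algebraMap k F (cc t)) /
      (y - algebraMap k F (cc t) * x) := by
  rw [eq_div_iff (ne_ycx h)]
  linear_combination h.eq

/-- the tangent at `-3P` -/
lemma l446 : y - algebraMap k F (cc t - t) * x - algebraMap k F (bb t) =
    x * (x - algebraMap k F (cc t)) ^ 2 / (y - algebraMap k F (t - 1) * x) := by
  rw [eq_div_iff (ne_ytx h)]
  have he := h.eq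
  simp only [map_sub, map_one, mbb, mcc] at he ⊢
  linear_combination he

/-- the tangent at `2P` -/
lemma l223 : y - algebraMap k F (t ^ 2 - 1) * x - algebraMap k F (bb t * (1 - t)) =
    (x - algebraMap k F (bb t)) * (y - algebraMap k F (cc t) * x) *
      (y - algebraMap k F (t - 1) * x) / ((x - algebraMap k F (cc t)) * y) := by
  rw [eq_div_iff (mul_ne_zero (ne_xc h) (ne_y h))]
  have he := h.eq
  simp only [map_sub, map_one, map_mul, map_pow, mbb, mcc] at he ⊢
  linear_combination (algebraMap k F t * (algebraMap k F t - 1) ^ 2) * he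

/-- the tangent at `-2P` -/
lemma l554 : y + algebraMap k F t * x - algebraMap k F (t * bb t) =
    (x - algebraMap k F (bb t)) * (x - algebraMap k F (cc t)) ^ 2 * y /
      ((y - algebraMap k F (cc t) * x) * (y - algebraMap k F (t - 1) * x)) := by
  rw [eq_div_iff (mul_ne_zero (ne_ycx h) (ne_ytx h))]
  have he := h.eq
  simp only [map_sub, map_one, map_mul, map_pow, mbb, mcc] at he ⊢
  linear_combination (y + algebraMap k F t ^ 2 * (algebraMap k F t - 1) *
    (1 - algebraMap k F t)) * he

lemma is7_662 : Is7 t x y (y - algebraMap k F (cc t - 1) * x - algebraMap k F (bb t)) := by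
  rw [l662 h]
  exact ((is7_x.pow h 2).mul h is7_xb).div h is7_y

lemma is7_356 : Is7 t x y (y + x - algebraMap k F (bb t)) := by
  rw [l356 h]
  exact ((is7_x.mul h is7_xb).mul h is7_xc).div h is7_ycx

lemma is7_446 : Is7 t x y (y - algebraMap k F (cc t - t) * x - algebraMap k F (bb t)) := by
  rw [l446 h]
  exact (is7_x.mul h (is7_xc.pow h 2)).div h is7_ytx

lemma is7_223 : Is7 t x y (y - algebraMap k F (t ^ 2 - 1) * x -
    algebraMap k F (bb t * (1 - t))) := by
  rw [l223 h]
  exact ((is7_xb.mul h is7_ycx).mul h is7_ytx).div h (is7_xc.mul h is7_y)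

lemma is7_554 : Is7 t x y (y + algebraMap k F t * x - algebraMap k F (t * bb t)) := by
  rw [l554 h]
  exact ((is7_xb.mul h (is7_xc.pow h 2)).mul h is7_y).div h (is7_ycx.mul h is7_ytx)

end lines

variable [DecidableEq k]

/-- the points -/
lemma mem7 (hb : bb t ≠ 0) (h7 : (7 : ℕ) • P0 (cc t) hb = 0) {a b : k}
    (h : inH (AddSubgroup.zmultiples (P0 (cc t) hb)) a b) :
    (a = 0 ∧ b = 0) ∨ (a = bb t ∧ b = bb t * cc t) ∨ (a = cc t ∧ b = bb t - cc t) ∨
      (a = cc t ∧ b = cc t ^ 2) ∨ (a = bb t ∧ b = 0) ∨ (a = 0 ∧ b = bb t) := by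
  obtain ⟨h1, h2⟩ := h
  obtain ⟨n, hn, hn'⟩ := mem_zm (by norm_num : 0 < 7) h7 h2
  have hneg : ∀ m n : ℕ, m + n = 7 → m • P0 (cc t) hb = -(n • P0 (cc t) hb) := by
    intro m n hmn
    rw [eq_neg_iff_add_eq_zero, ← add_nsmul, hmn]
    exact h7
  interval_cases n
  · rw [zero_nsmul] at hn'
    exact absurd hn'.symm (Point.some_ne_zero _)
  · rw [one_nsmul] at hn'
    unfold P0 at hn'
    simp only [Point.some.injEq] at hn'
    exact Or.inl ⟨hn'.1.symm, hn'.2.symm⟩
  · obtain ⟨h3, e3⟩ := two_P0 (c := cc t) hb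
    rw [e3] at hn'
    simp only [Point.some.injEq] at hn'
    exact Or.inr (Or.inl ⟨hn'.1.symm, hn'.2.symm⟩)
  · obtain ⟨h3, e3⟩ := three_P0 (c := cc t) hb
    rw [e3] at hn'
    simp only [Point.some.injEq] at hn'
    exact Or.inr (Or.inr (Or.inl ⟨hn'.1.symm, hn'.2.symm⟩))
  · obtain ⟨h3, e3⟩ := three_P0 (c := cc t) hb
    rw [hneg 4 3 rfl, e3, Point.neg_some] at hn'
    simp only [Point.some.injEq] at hn'
    rw [negY_wt] at hn'
    refine Or.inr (Or.inr (Or.inr (Or.inl ⟨hn'.1.symm, ?_⟩)))
    rw [← hn'.2]; ring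
  · obtain ⟨h3, e3⟩ := two_P0 (c := cc t) hb
    rw [hneg 5 2 rfl, e3, Point.neg_some] at hn'
    simp only [Point.some.injEq] at hn'
    rw [negY_wt] at hn'
    refine Or.inr (Or.inr (Or.inr (Or.inr (Or.inl ⟨hn'.1.symm, ?_⟩))))
    rw [← hn'.2]; ring
  · rw [hneg 6 1 rfl, one_nsmul] at hn'
    unfold P0 at hn'
    rw [Point.neg_some] at hn'
    simp only [Point.some.injEq] at hn'
    rw [negY_wt] at hn'
    refine Or.inr (Or.inr (Or.inr (Or.inr (Or.inr ⟨hn'.1.symm, ?_⟩))))
    rw [← hn'.2]; ring

theorem good7 (hb : bb t ≠ 0) (h7 : (7 : ℕ) • P0 (cc t) hb = 0)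
    (h : UEG.Gen (Wt (bb t) (cc t)) x y) :
    Good (AddSubgroup.zmultiples (P0 (cc t) hb)) (hR h) (Is7 t x y) := by
  have hg := UE4.of_UEG h
  have ht : t ≠ 0 := by
    rintro rfl; apply hb; unfold bb; ring
  have ht1 : t - 1 ≠ 0 := by
    intro h'; apply hb; unfold bb; rw [h', mul_zero]
  refine ⟨?_, ?_, ?_, ?_, ?_⟩
  · intro c hc
    rw [hR_c]
    exact is7_c hc
  · intro f g hf hg'
    exact hf.mul hg hg'
  · intro f hf
    exact hf.inv
  · intro a b hab
    rw [hR_sub]
    rcases mem7 hb h7 hab with ⟨ea, -⟩ | ⟨ea, -⟩ | ⟨ea, -⟩ | ⟨ea, -⟩ | ⟨ea, -⟩ | ⟨ea, -⟩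
    · rw [ea, map_zero, sub_zero]; exact is7_x
    · rw [ea]; exact is7_xb
    · rw [ea]; exact is7_xc
    · rw [ea]; exact is7_xc
    · rw [ea]; exact is7_xb
    · rw [ea, map_zero, sub_zero]; exact is7_x
  · intro a b a' b' hab hab' hxy
    have hc : cc t ≠ 0 := mul_ne_zero ht ht1
    have hbc : bb t ≠ cc t := by
      intro h'
      have : t * (t - 1) ^ 2 = 0 := by
        unfold bb cc at h'; linear_combination h'
      exact mul_ne_zero ht (pow_ne_zero 2 ht1) this
    have a1 : (Wt (bb t) (cc t)).a₁ = 1 - cc t := rfl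
    have a2 : (Wt (bb t) (cc t)).a₂ = -bb t := rfl
    have a4 : (Wt (bb t) (cc t)).a₄ = 0 := rfl
    -- the points are not of order two
    have n1 : bb t ≠ 0 := hb
    have n2 : bb t * cc t ≠ 0 := mul_ne_zero hb hc
    have n3 : t * (t - 1) ^ 3 ≠ 0 := mul_ne_zero ht (pow_ne_zero 3 ht1)
    -- the eight lines
    have L1 : ∀ {z : F}, z = y → Is7 t x y z := fun hz => by rw [hz]; exact is7_y
    have L2 : ∀ {z : F}, z = y - algebraMap k F (cc t) * x → Is7 t x y z :=
      fun hz => by rw [hz]; exact is7_ycx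
    have L3 : ∀ {z : F}, z = y - algebraMap k F (t - 1) * x → Is7 t x y z :=
      fun hz => by rw [hz]; exact is7_ytx
    have L4 : ∀ {z : F}, z = y - algebraMap k F (t ^ 2 - 1) * x -
        algebraMap k F (bb t * (1 - t)) → Is7 t x y z := fun hz => by rw [hz]; exact is7_223 hg
    have L5 : ∀ {z : F}, z = y - algebraMap k F (cc t - t) * x - algebraMap k F (bb t) →
        Is7 t x y z := fun hz => by rw [hz]; exact is7_446 hg
    have L6 : ∀ {z : F}, z = y + algebraMap k F t * x - algebraMap k F (t * bb t) →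
        Is7 t x y z := fun hz => by rw [hz]; exact is7_554 hg
    have L7 : ∀ {z : F}, z = y - algebraMap k F (cc t - 1) * x - algebraMap k F (bb t) →
        Is7 t x y z := fun hz => by rw [hz]; exact is7_662 hg
    have L8 : ∀ {z : F}, z = y + x - algebraMap k F (bb t) → Is7 t x y z :=
      fun hz => by rw [hz]; exact is7_356 hg
    rcases mem7 hb h7 hab with ⟨ea, eb⟩ | ⟨ea, eb⟩ | ⟨ea, eb⟩ | ⟨ea, eb⟩ | ⟨ea, eb⟩ | ⟨ea, eb⟩ <;>
      rcases mem7 hb h7 hab' with ⟨ea', eb'⟩ | ⟨ea', eb'⟩ | ⟨ea', eb'⟩ | ⟨ea', eb'⟩ |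
        ⟨ea', eb'⟩ | ⟨ea', eb'⟩ <;>
      rw [ea, eb, ea', eb'] at hxy ⊢
    · rw [line_val' h (m := 0) (by rw [negY_wt, a1, a2, a4]; first | ring1 | (simp only [bb, cc]; ring1))
        (by rw [negY_wt]; intro h'; apply n1; simp only [bb, cc] at h' ⊢; linear_combination -h')]
      apply L1
      simp only [map_zero, map_sub, map_one, map_neg, map_mul, map_pow, mbb, mcc]
      ring
    · rw [line_val h (m := cc t) (by first | ring1 | (simp only [bb, cc]; ring1)) (Ne.symm hb)]
      apply L2
      simp only [map_zero, map_sub, map_one, map_neg, map_mul, map_pow, mbb, mcc]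
      ring
    · rw [line_val h (m := t - 1) (by first | ring1 | (simp only [bb, cc]; ring1)) (Ne.symm hc)]
      apply L3
      simp only [map_zero, map_sub, map_one, map_neg, map_mul, map_pow, mbb, mcc]
      ring
    · rw [line_val h (m := cc t) (by first | ring1 | (simp only [bb, cc]; ring1)) (Ne.symm hc)]
      apply L2
      simp only [map_zero, map_sub, map_one, map_neg, map_mul, map_pow, mbb, mcc]
      ring
    · rw [line_val h (m := 0) (by first | ring1 | (simp only [bb, cc]; ring1)) (Ne.symm hb)]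
      apply L1
      simp only [map_zero, map_sub, map_one, map_neg, map_mul, map_pow, mbb, mcc]
      ring
    · exact absurd ⟨rfl, by rw [negY_wt]; ring⟩ hxy
    · rw [line_val h (m := cc t) (by first | ring1 | (simp only [bb, cc]; ring1)) hb]
      apply L2
      simp only [map_zero, map_sub, map_one, map_neg, map_mul, map_pow, mbb, mcc]
      ring
    · rw [line_val' h (m := t ^ 2 - 1) (by rw [negY_wt, a1, a2, a4]; first | ring1 | (simp only [bb, cc]; ring1))
        (by rw [negY_wt]; intro h'; apply n2; simp only [bb, cc] at h' ⊢; linear_combination h')]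
      apply L4
      simp only [map_zero, map_sub, map_one, map_neg, map_mul, map_pow, mbb, mcc]
      ring
    · rw [line_val h (m := t ^ 2 - 1) (by first | ring1 | (simp only [bb, cc]; ring1)) hbc]
      apply L4
      simp only [map_zero, map_sub, map_one, map_neg, map_mul, map_pow, mbb, mcc]
      ring
    · rw [line_val h (m := cc t) (by first | ring1 | (simp only [bb, cc]; ring1)) hbc]
      apply L2
      simp only [map_zero, map_sub, map_one, map_neg, map_mul, map_pow, mbb, mcc]
      ring
    · exact absurd ⟨rfl, by rw [negY_wt]; ring⟩ hxy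
    · rw [line_val h (m := cc t - 1) (by first | ring1 | (simp only [bb, cc]; ring1)) hb]
      apply L7
      simp only [map_zero, map_sub, map_one, map_neg, map_mul, map_pow, mbb, mcc]
      ring
    · rw [line_val h (m := t - 1) (by first | ring1 | (simp only [bb, cc]; ring1)) hc]
      apply L3
      simp only [map_zero, map_sub, map_one, map_neg, map_mul, map_pow, mbb, mcc]
      ring
    · rw [line_val h (m := t ^ 2 - 1) (by first | ring1 | (simp only [bb, cc]; ring1)) (Ne.symm hbc)]
      apply L4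
      simp only [map_zero, map_sub, map_one, map_neg, map_mul, map_pow, mbb, mcc]
      ring
    · rw [line_val' h (m := t - 1) (by rw [negY_wt, a1, a2, a4]; first | ring1 | (simp only [bb, cc]; ring1))
        (by rw [negY_wt]; intro h'; apply n3; simp only [bb, cc] at h' ⊢; linear_combination -h')]
      apply L3
      simp only [map_zero, map_sub, map_one, map_neg, map_mul, map_pow, mbb, mcc]
      ring
    · exact absurd ⟨rfl, by rw [negY_wt]; ring⟩ hxy
    · rw [line_val h (m := -1) (by first | ring1 | (simp only [bb, cc]; ring1)) (Ne.symm hbc)]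
      apply L8
      simp only [map_zero, map_sub, map_one, map_neg, map_mul, map_pow, mbb, mcc]
      ring
    · rw [line_val h (m := -1) (by first | ring1 | (simp only [bb, cc]; ring1)) hc]
      apply L8
      simp only [map_zero, map_sub, map_one, map_neg, map_mul, map_pow, mbb, mcc]
      ring
    · rw [line_val h (m := cc t) (by first | ring1 | (simp only [bb, cc]; ring1)) hc]
      apply L2
      simp only [map_zero, map_sub, map_one, map_neg, map_mul, map_pow, mbb, mcc]
      ring
    · rw [line_val h (m := cc t) (by first | ring1 | (simp only [bb, cc]; ring1)) (Ne.symm hbc)]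
      apply L2
      simp only [map_zero, map_sub, map_one, map_neg, map_mul, map_pow, mbb, mcc]
      ring
    · exact absurd ⟨rfl, by rw [negY_wt]; ring⟩ hxy
    · rw [line_val' h (m := cc t - t) (by rw [negY_wt, a1, a2, a4]; first | ring1 | (simp only [bb, cc]; ring1))
        (by rw [negY_wt]; intro h'; apply n3; simp only [bb, cc] at h' ⊢; linear_combination h')]
      apply L5
      simp only [map_zero, map_sub, map_one, map_neg, map_mul, map_pow, mbb, mcc]
      ring
    · rw [line_val h (m := -t) (by first | ring1 | (simp only [bb, cc]; ring1)) (Ne.symm hbc)]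
      apply L6
      simp only [map_zero, map_sub, map_one, map_neg, map_mul, map_pow, mbb, mcc]
      ring
    · rw [line_val h (m := cc t - t) (by first | ring1 | (simp only [bb, cc]; ring1)) hc]
      apply L5
      simp only [map_zero, map_sub, map_one, map_neg, map_mul, map_pow, mbb, mcc]
      ring
    · rw [line_val h (m := 0) (by first | ring1 | (simp only [bb, cc]; ring1)) hb]
      apply L1
      simp only [map_zero, map_sub, map_one, map_neg, map_mul, map_pow, mbb, mcc]
      ring
    · exact absurd ⟨rfl, by rw [negY_wt]; ring⟩ hxy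
    · rw [line_val h (m := -1) (by first | ring1 | (simp only [bb, cc]; ring1)) hbc]
      apply L8
      simp only [map_zero, map_sub, map_one, map_neg, map_mul, map_pow, mbb, mcc]
      ring
    · rw [line_val h (m := -t) (by first | ring1 | (simp only [bb, cc]; ring1)) hbc]
      apply L6
      simp only [map_zero, map_sub, map_one, map_neg, map_mul, map_pow, mbb, mcc]
      ring
    · rw [line_val' h (m := -t) (by rw [negY_wt, a1, a2, a4]; first | ring1 | (simp only [bb, cc]; ring1))
        (by rw [negY_wt]; intro h'; apply n2; simp only [bb, cc] at h' ⊢; linear_combination -h')]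
      apply L6
      simp only [map_zero, map_sub, map_one, map_neg, map_mul, map_pow, mbb, mcc]
      ring
    · rw [line_val h (m := -1) (by first | ring1 | (simp only [bb, cc]; ring1)) hb]
      apply L8
      simp only [map_zero, map_sub, map_one, map_neg, map_mul, map_pow, mbb, mcc]
      ring
    · exact absurd ⟨rfl, by rw [negY_wt]; ring⟩ hxy
    · rw [line_val h (m := cc t - 1) (by first | ring1 | (simp only [bb, cc]; ring1)) (Ne.symm hb)]
      apply L7
      simp only [map_zero, map_sub, map_one, map_neg, map_mul, map_pow, mbb, mcc]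
      ring
    · rw [line_val h (m := -1) (by first | ring1 | (simp only [bb, cc]; ring1)) (Ne.symm hc)]
      apply L8
      simp only [map_zero, map_sub, map_one, map_neg, map_mul, map_pow, mbb, mcc]
      ring
    · rw [line_val h (m := cc t - t) (by first | ring1 | (simp only [bb, cc]; ring1)) (Ne.symm hc)]
      apply L5
      simp only [map_zero, map_sub, map_one, map_neg, map_mul, map_pow, mbb, mcc]
      ring
    · rw [line_val h (m := -1) (by first | ring1 | (simp only [bb, cc]; ring1)) (Ne.symm hb)]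
      apply L8
      simp only [map_zero, map_sub, map_one, map_neg, map_mul, map_pow, mbb, mcc]
      ring
    · rw [line_val' h (m := cc t - 1) (by rw [negY_wt, a1, a2, a4]; first | ring1 | (simp only [bb, cc]; ring1))
        (by rw [negY_wt]; intro h'; apply n1; simp only [bb, cc] at h' ⊢; linear_combination h')]
      apply L7
      simp only [map_zero, map_sub, map_one, map_neg, map_mul, map_pow, mbb, mcc]
      ring

/-- **the functions supported on the multiples of a point of order seven** -/
theorem isUn7 (hb : bb t ≠ 0) (h7 : (7 : ℕ) • P0 (cc t) hb = 0)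
    (h : UEG.Gen (Wt (bb t) (cc t)) x y) (f : F) :
    IsUn (AddSubgroup.zmultiples (P0 (cc t) hb)) x y f ↔ Is7 t x y f := by
  constructor
  · exact units_ind h (good7 hb h7 h)
  · rintro ⟨c, n, hc, rfl⟩
    have ht : t ≠ 0 := by
      rintro rfl; apply hb; unfold bb; ring
    have ht1 : t - 1 ≠ 0 := by
      intro h'; apply hb; unfold bb; rw [h', mul_zero]
    have hc' : cc t ≠ 0 := mul_ne_zero ht ht1
    set H := AddSubgroup.zmultiples (P0 (cc t) hb) with hH
    have hG := good_IsUn (H := H) h
    have m1 : inH H 0 0 := ⟨ns0 hb, AddSubgroup.mem_zmultiples _⟩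
    have m2 : inH H (bb t) (bb t * cc t) := by
      obtain ⟨h3, e3⟩ := two_P0 (c := cc t) hb
      exact ⟨h3, by rw [← e3]; exact AddSubgroup.nsmul_mem_zmultiples _ _⟩
    have m3 : inH H (cc t) (bb t - cc t) := by
      obtain ⟨h3, e3⟩ := three_P0 (c := cc t) hb
      exact ⟨h3, by rw [← e3]; exact AddSubgroup.nsmul_mem_zmultiples _ _⟩
    have a1 : (Wt (bb t) (cc t)).a₁ = 1 - cc t := rfl
    have a2 : (Wt (bb t) (cc t)).a₂ = -bb t := rfl
    have a4 : (Wt (bb t) (cc t)).a₄ = 0 := rfl
    have key : ∀ j, IsUn H x y (uF t x y j) := by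
      intro j
      fin_cases j
      · have := hG.hx 0 0 m1
        rwa [hR_sub, map_zero, sub_zero] at this
      · have := hG.hx _ _ m2
        rwa [hR_sub] at this
      · have := hG.hx _ _ m3
        rwa [hR_sub] at this
      · have hb' : (0 : k) ≠ (Wt (bb t) (cc t)).negY 0 0 := by
          rw [negY_wt]; intro h'; apply hb; linear_combination -h'
        have := hG.hl 0 0 0 0 m1 m1 (fun h' => hb' h'.2)
        rw [line_val' h (m := 0) (by rw [negY_wt, a1, a2, a4]; ring) hb'] at this
        simpa [uF] using this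
      · have := hG.hl 0 0 _ _ m1 m2 (fun h' => hb h'.1.symm)
        rw [line_val h (m := cc t) (by ring) (Ne.symm hb)] at this
        simpa [uF] using this
      · have := hG.hl 0 0 _ _ m1 m3 (fun h' => hc' h'.1.symm)
        rw [line_val h (m := t - 1) (by unfold bb cc; ring) (Ne.symm hc')] at this
        simpa [uF] using this
    have uc : IsUn H x y (algebraMap k F c) := by
      have := hG.hc c hc
      rwa [hR_c] at this
    have one : IsUn H x y (1 : F) := by
      have := hG.hc 1 one_ne_zero
      rwa [map_one, map_one] at this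
    have pw : ∀ {f : F}, IsUn H x y f → ∀ n : ℤ, IsUn H x y (f ^ n) := by
      intro f hf n
      have h2 : ∀ m : ℕ, IsUn H x y (f ^ m) := by
        intro m
        induction m with
        | zero => rw [pow_zero]; exact one
        | succ m ih => rw [pow_succ]; exact hG.hm _ _ ih hf
      obtain ⟨m, rfl | rfl⟩ := Int.eq_nat_or_neg n
      · rw [zpow_natCast]; exact h2 m
      · rw [zpow_neg, zpow_natCast]; exact hG.hi _ (h2 m)
    have pr : ∀ s : Finset (Fin 6), IsUn H x y (∏ j ∈ s, uF t x y j ^ n j) := by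
      intro s
      induction s using Finset.induction_on with
      | empty => rw [Finset.prod_empty]; exact one
      | insert i s hi ih => rw [Finset.prod_insert hi]; exact hG.hm _ _ (pw (key i) _) ih
    exact hG.hm _ _ uc (pr _)

/-- the parameter of a point of order seven -/
theorem tate7 {b c : k} (hb : b ≠ 0) (h : (7 : ℕ) • P0 c hb = 0) :
    ∃ t : k, t ≠ 0 ∧ t ≠ 1 ∧ c = cc t ∧ b = bb t :=
  bc_of_seven hb h

end Pool.Agent.UE7
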