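import Pool.Agent.Lib_helper24.FAM.Tr
import Pool.Agent.Lib_helper87.FAM.U7

set_option autoImplicit false
set_option linter.unusedSectionVars false
set_option linter.unusedSimpArgs false

/-!
# Points of order seven: the functions supported on `<P>`, lines, the unit equation
-/

open scoped TensorProduct

namespace Pool.Agent.UE7

open K7 TN

section shift

variable {k : Type*} [Field k] {F : Type*} [Field F] [Algebra k F] {t : k} {x y : F}

/-- the units are stable under the translation by `P` -/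
lemma is7_next (ht : t ≠ 0) (ht1 : t ≠ 1) (h : TN.Gen (bb t) (cc t) x y) {f : F}
    (hf : Is7 t (nx t x y) (ny t x y) f) : Is7 t x y f := by
  obtain ⟨c, n, hc, rfl⟩ := hf
  obtain ⟨e0, e1, e2, e3, e4, e5⟩ := uF_next ht ht1 h
  have cb : Is7 t x y (algebraMap k F (bb t)) := is7_c (bb_ne ht ht1)
  have cC : Is7 t x y (algebraMap k F (cc t)) := is7_c (cc_ne ht ht1)
  have c1 : Is7 t x y (algebraMap k F (t - 1)) := is7_c (sub_ne_zero.mpr ht1)
  have u : ∀ j, Is7 t x y (uF t x y j) := is7_u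
  have key : ∀ j, Is7 t x y (uF t (nx t x y) (ny t x y) j) := by
    intro j
    fin_cases j
    · show Is7 t x y (uF t (nx t x y) (ny t x y) 0)
      rw [e0]
      exact (cb.mul h (u 3)).div h ((u 0).pow h 2)
    · show Is7 t x y (uF t (nx t x y) (ny t x y) 1)
      rw [e1]
      exact (((cb.mul h (u 3)).mul h (u 4)).div h ((u 1).mul h ((u 0).pow h 2))).neg h
    · show Is7 t x y (uF t (nx t x y) (ny t x y) 2)
      rw [e2]
      exact (((cC.mul h (u 4)).mul h (u 5)).div h ((u 2).mul h ((u 0).pow h 2))).neg h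
    · show Is7 t x y (uF t (nx t x y) (ny t x y) 3)
      rw [e3]
      exact (((cb.pow h 2).mul h (u 3)).mul h (u 4)).div h ((u 1).mul h ((u 0).pow h 3))
    · show Is7 t x y (uF t (nx t x y) (ny t x y) 4)
      rw [e4]
      exact (((((cb.mul h cC).mul h (u 3)).mul h (u 4)).mul h (u 5)).div h
        (((u 1).mul h (u 2)).mul h ((u 0).pow h 3))).neg h
    · show Is7 t x y (uF t (nx t x y) (ny t x y) 5)
      rw [e5]
      exact ((((cb.mul h c1).mul h ((u 4).pow h 2)).mul h (u 5)).div h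
        (((u 2).pow h 2).mul h ((u 0).pow h 3))).neg h
  have pr : ∀ s : Finset (Fin 6), Is7 t x y (∏ j ∈ s, uF t (nx t x y) (ny t x y) j ^ n j) := by
    intro s
    induction s using Finset.induction_on with
    | empty => rw [Finset.prod_empty]; exact is7_one
    | insert i s hi ih => rw [Finset.prod_insert hi]; exact ((key i).zpow h _).mul h ih
  exact (is7_c hc).mul h (pr _)

/-- generic points after `s` translations -/
lemma exists_shift7 [CharZero k] (ht : t ≠ 0) (ht1 : t ≠ 1) (h : TN.Gen (bb t) (cc t) x y)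
    (s : Fin 7) :
    ∃ x' y' : F, TN.Gen (bb t) (cc t) x' y' ∧ (∀ i, XF t x' y' i = XF t x y (i + s)) ∧
      ∀ f : F, Is7 t x' y' f → Is7 t x y f := by
  have key : ∀ n : ℕ, ∃ x' y' : F, TN.Gen (bb t) (cc t) x' y' ∧
      (∀ i, XF t x' y' i = XF t x y (i + n • 1)) ∧ ∀ f : F, Is7 t x' y' f → Is7 t x y f := by
    intro n
    induction n with
    | zero => exact ⟨x, y, h, fun i => by simp, fun f hf => hf⟩
    | succ n ih =>
      obtain ⟨x', y', h', hi, hf⟩ := ih
      refine ⟨nx t x' y', ny t x' y', Gen.next' ht ht1 h', fun i => ?_, fun f hf' => ?_⟩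
      · rw [XF_next ht ht1 h', hi]
        congr 1
        rw [succ_nsmul]
        abel
      · exact hf f (is7_next ht ht1 h' hf')
  obtain ⟨x', y', h', hi, hf⟩ := key s.val
  refine ⟨x', y', h', fun i => ?_, hf⟩
  have h7 : ∀ s : Fin 7, s.val • (1 : Fin 7) = s := by decide
  rw [hi, h7]

/-- the functions `x(z + iP)`, `x(z + iP) - b`, `x(z + iP) - c` -/
lemma is7_X [CharZero k] (ht : t ≠ 0) (ht1 : t ≠ 1) (h : TN.Gen (bb t) (cc t) x y) (i : Fin 7) :
    Is7 t x y (XF t x y i) ∧ Is7 t x y (XF t x y i - algebraMap k F (bb t)) ∧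
      Is7 t x y (XF t x y i - algebraMap k F (cc t)) := by
  obtain ⟨x', y', h', hi, hf⟩ := exists_shift7 ht ht1 h i
  have e := hi 0
  rw [XF_zero, zero_add] at e
  rw [← e]
  exact ⟨hf _ is7_x, hf _ is7_xb, hf _ is7_xc⟩

section

variable (h : TN.Gen (bb t) (cc t) x y)

include h

lemma XF_one : XF t x y 1 = algebraMap k F (bb t) * y / x ^ 2 := by
  have h0 := ne_x h
  simp [XF, Fin.prod_univ_six, ex, lam, uF, zpow_neg, zpow_ofNat]
  field_simp

lemma XF_two : XF t x y 2 = algebraMap k F (bb t) * x * (y - algebraMap k F (cc t) * x) /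
    ((x - algebraMap k F (bb t)) * y) := by
  have h0 := ne_x h
  have h1 := ne_xb h
  have h3 := ne_y h
  simp [XF, Fin.prod_univ_six, ex, lam, uF, zpow_neg, zpow_ofNat]
  field_simp

lemma XF_three : XF t x y 3 = algebraMap k F (cc t) * (x - algebraMap k F (bb t)) *
    (y - algebraMap k F (t - 1) * x) /
    ((x - algebraMap k F (cc t)) * (y - algebraMap k F (cc t) * x)) := by
  have h2 := ne_xc h
  have h4 := ne_ycx h
  simp [XF, Fin.prod_univ_six, ex, lam, uF, zpow_neg, zpow_ofNat]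
  field_simp

lemma XF_four : XF t x y 4 = algebraMap k F (cc t) * (y - algebraMap k F (cc t) * x) /
    (y - algebraMap k F (t - 1) * x) := by
  have h5 := ne_ytx h
  simp [XF, Fin.prod_univ_six, ex, lam, uF, zpow_neg, zpow_ofNat]
  field_simp

lemma XF_five : XF t x y 5 = algebraMap k F (bb t) * (x - algebraMap k F (cc t)) * y /
    ((x - algebraMap k F (bb t)) * (y - algebraMap k F (cc t) * x)) := by
  have h1 := ne_xb h
  have h4 := ne_ycx h
  simp [XF, Fin.prod_univ_six, ex, lam, uF, zpow_neg, zpow_ofNat]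
  field_simp

lemma XF_six : XF t x y 6 = -(algebraMap k F (bb t) * (x - algebraMap k F (bb t))) / y := by
  have h3 := ne_y h
  simp [XF, Fin.prod_univ_six, ex, lam, uF, zpow_neg, zpow_ofNat]
  field_simp

end

end shift

end Pool.Agent.UE7

namespace Pool.Agent.FK4

open Pool.Agent.MK4 WeierstrassCurve.Affine
open Pool.Agent.TN (Wt)
open Pool.Agent.UEG (P0)
open K7 UE7

section N7

variable {k : Type*} [Field k] [DecidableEq k] {F : Type*} [Field F] [Algebra k F] {x y : F} {t : k}

lemma gen7 (h : Generic (Wt (bb t) (cc t)) x y) : TN.Gen (bb t) (cc t) x y := UE4.of_UEG h.toU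

lemma t_ne (hb : bb t ≠ 0) : t ≠ 0 := by
  rintro rfl; apply hb; unfold bb; ring

lemma t_ne_one (hb : bb t ≠ 0) : t ≠ 1 := by
  rintro rfl; apply hb; unfold bb; ring

lemma supp7 (hb : bb t ≠ 0) (hO : addOrderOf (P0 (cc t) hb) = 7)
    (h : Generic (Wt (bb t) (cc t)) x y) (f : F) :
    Supp (AddSubgroup.zmultiples (P0 (cc t) hb)) x y f ↔ Is7 t x y f := by
  rw [supp_iff]
  exact isUn7 hb (by rw [← hO]; exact addOrderOf_nsmul_eq_zero _) h.toU f

/-- `x(z + iP)` is a quotient of lines -/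
lemma exists_LT (hb : bb t ≠ 0) (hO : addOrderOf (P0 (cc t) hb) = 7)
    (h : Generic (Wt (bb t) (cc t)) x y) (i : Fin 7) :
    ∃ L T : F, Lin k x y L ∧ Lin k x y T ∧ Supp (AddSubgroup.zmultiples (P0 (cc t) hb)) x y T ∧
      XF t x y i = L / T := by
  have hs : ∀ f, Supp (AddSubgroup.zmultiples (P0 (cc t) hb)) x y f ↔ Is7 t x y f := supp7 hb hO h
  have hg := gen7 h
  have h0 := ne_x hg
  have h1 := ne_xb hg
  have h2 := ne_xc hg
  have h3 := ne_y hg
  have h4 := ne_ycx hg
  have h5 := ne_ytx hg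
  have h4' : y - x * algebraMap k F (cc t) ≠ 0 := by rw [mul_comm]; exact h4
  have h5' : y - x * algebraMap k F (t - 1) ≠ 0 := by rw [mul_comm]; exact h5
  have lxb : Lin k x y (x - algebraMap k F (bb t)) := lin_X.sub (lin_const _)
  have lycx : Lin k x y (y - algebraMap k F (cc t) * x) := lin_Y.sub (lin_X.smul _)
  have lytx : Lin k x y (y - algebraMap k F (t - 1) * x) := lin_Y.sub (lin_X.smul _)
  have l662' : Lin k x y (y - algebraMap k F (cc t - 1) * x - algebraMap k F (bb t)) :=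
    (lin_Y.sub (lin_X.smul _)).sub (lin_const _)
  have l446' : Lin k x y (y - algebraMap k F (cc t - t) * x - algebraMap k F (bb t)) :=
    (lin_Y.sub (lin_X.smul _)).sub (lin_const _)
  have l356' : Lin k x y (y + x - algebraMap k F (bb t)) := (lin_Y.add lin_X).sub (lin_const _)
  have l554' : Lin k x y (y + algebraMap k F t * x - algebraMap k F (t * bb t)) :=
    (lin_Y.add (lin_X.smul _)).sub (lin_const _)
  have l223' : Lin k x y (y - algebraMap k F (t ^ 2 - 1) * x - algebraMap k F (bb t * (1 - t))) :=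
    (lin_Y.sub (lin_X.smul _)).sub (lin_const _)
  fin_cases i
  · refine ⟨x, 1, lin_X, ?_, supp_one, ?_⟩
    · rw [← map_one (algebraMap k F)]; exact lin_const 1
    · show XF t x y 0 = x / 1
      rw [XF_zero, div_one]
  · refine ⟨_, _, lxb.smul (bb t), l662', (hs _).mpr (is7_662 hg), ?_⟩
    show XF t x y 1 = _
    rw [l662 hg, XF_one hg]
    field_simp
  · refine ⟨_, _, l446'.smul (bb t), l554', (hs _).mpr (is7_554 hg), ?_⟩
    show XF t x y 2 = _
    rw [l446 hg, l554 hg, XF_two hg]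
    field_simp
  · refine ⟨_, _, l356'.smul (cc t), l446', (hs _).mpr (is7_446 hg), ?_⟩
    show XF t x y 3 = _
    rw [l446 hg, l356 hg, XF_three hg]
    field_simp
  · refine ⟨_, _, lycx.smul (cc t), lytx, (hs _).mpr is7_ytx, ?_⟩
    show XF t x y 4 = _
    rw [XF_four hg]
  · refine ⟨_, _, lytx.smul (bb t), l223', (hs _).mpr (is7_223 hg), ?_⟩
    show XF t x y 5 = _
    rw [l223 hg, XF_five hg]
    field_simp
  · refine ⟨_, _, (lxb.smul (bb t)).neg, lin_Y, (hs _).mpr is7_y, ?_⟩
    show XF t x y 6 = _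
    rw [XF_six hg]

/-- the 28 classes are quotients of lines -/
lemma lineQ7 [CharZero k] (hb : bb t ≠ 0) (hO : addOrderOf (P0 (cc t) hb) = 7)
    (h : Generic (Wt (bb t) (cc t)) x y) (i : Fin 7) (r : Fin 4) :
    LineQ (AddSubgroup.zmultiples (P0 (cc t) hb)) x y (TT t x y i r) := by
  have hs : ∀ f, Supp (AddSubgroup.zmultiples (P0 (cc t) hb)) x y f ↔ Is7 t x y f := supp7 hb hO h
  have ht := t_ne hb
  have ht1 := t_ne_one hb
  have hc : cc t ≠ 0 := cc_ne ht ht1
  have hbc : bb t ≠ cc t := by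
    intro h'
    have : t * (t - 1) ^ 2 = 0 := by unfold bb cc at h'; linear_combination h'
    exact mul_ne_zero ht (pow_ne_zero 2 (sub_ne_zero.mpr ht1)) this
  obtain ⟨L, T, hL, hT, sT, e⟩ := exists_LT hb hO h i
  obtain ⟨s0, sb, sc⟩ := is7_X ht ht1 (gen7 h) i
  rw [← hs] at s0 sb sc
  fin_cases r
  · have s0' : Supp (AddSubgroup.zmultiples (P0 (cc t) hb)) x y
        (XF t x y i - algebraMap k F 0) := by rw [map_zero, sub_zero]; exact s0
    have := LineQ.of_three hL hT sT e (Ne.symm hb) hbc (Ne.symm hc) s0' sb sc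
    rw [map_zero, sub_zero, sub_zero, map_sub] at this
    exact this
  · have hT0 := sT.1
    have := LineQ.of_two (Z := XF t x y i - algebraMap k F (bb t))
      (L := L - algebraMap k F (bb t) * T) (hL.sub (hT.smul _)) hT sT
      (by rw [e]; field_simp) (a := cc t - bb t) (sub_ne_zero.mpr (Ne.symm hbc)) sb
      (by
        have e1 : XF t x y i - algebraMap k F (bb t) - algebraMap k F (cc t - bb t) =
          XF t x y i - algebraMap k F (cc t) := by rw [map_sub]; ring
        rw [e1]; exact sc)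
    rw [map_sub] at this
    exact this
  · exact LineQ.of_two hL hT sT e hc s0 sc
  · exact LineQ.of_two hL hT sT e hb s0 sb

/-- **the unit equation for a point of order seven** -/
theorem unitEq7 [CharZero k] (hb : bb t ≠ 0) (hind : Indep t (t - 1))
    (hO : addOrderOf (P0 (cc t) hb) = 7) (h : Generic (Wt (bb t) (cc t)) x y) :
    UnitEq (AddSubgroup.zmultiples (P0 (cc t) hb)) x y := by
  refine unitEq_of fun f h1f h2f => ?_
  rw [supp7 hb hO h] at h1f h2f
  obtain ⟨c₀, n, h0, e0⟩ := h1f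
  obtain ⟨c₁, n', h1, e1⟩ := h2f
  have hu : algebraMap k F c₀ * M7 t x y n + algebraMap k F c₁ * M7 t x y n' = 1 := by
    rw [← e0, ← e1]; ring
  rcases unit_eq7' (t_ne hb) (t_ne_one hb) hind (gen7 h) h0 h1 hu with ⟨s, hs⟩ | ⟨i, r, hr⟩
  · exact Or.inl ⟨s, by rw [e0, hs]⟩
  · rw [← e0] at hr
    exact Or.inr ((lineQ7 hb hO h i r).orb hr)

/-- the span in terms of the monomials -/
lemma sp7 (hb : bb t ≠ 0) (hO : addOrderOf (P0 (cc t) hb) = 7)
    (h : Generic (Wt (bb t) (cc t)) x y) :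
    Sp (AddSubgroup.zmultiples (P0 (cc t) hb)) x y = Submodule.span ℚ {z | ∃ (f : F) (u : FT F),
      Is7 t x y f ∧ Is7 t x y (1 - f) ∧ z = hk (sy f) u} :=
  sp_eq (supp7 hb hO h)

end N7

end Pool.Agent.FK4
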