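import Pool.Agent.Lib_helper40.GK.GE10
import Pool.Agent.Lib_helper87.FAM.T7
import Pool.Agent.Lib_helper76.UE6.U6
import Pool.Agent.Lib_helper76.UE8.U8

/-!
# The Siegel numbers of the multiples of a point of order 4, ..., 8
-/

set_option autoImplicit false
set_option linter.unusedSectionVars false

namespace Pool.Agent.GK

open WeierstrassCurve.Affine
open K4M (dx ps pc ph)
open Pool.Agent.TN (Wt)
open Pool.Agent.UEG (P0 two_P0 three_P0 four_P0 negY_wt)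

section gen

variable {k : Type*} [Field k] [DecidableEq k] {W : WeierstrassCurve.Affine k}

lemma dl_some {x y x' y' : k} (h : W.Nonsingular x y) (h' : W.Nonsingular x' y') :
    dl (.some x y h : W.Point) (.some x' y' h') =
      if x = x' then pc (.some x y h : W.Point) else x - x' := by
  unfold dl
  have e1 : dx (.some x y h : W.Point) (.some x' y' h') = x - x' := by
    simp only [dx, K4M.xv]; ring
  by_cases hx : x = x'
  · subst hx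
    rw [if_pos rfl, if_pos]
    rcases Y_eq_of_X_eq h.1 h'.1 rfl with hy | hy
    · subst hy; left; rfl
    · right
      rw [Point.neg_some]
      simp only [Point.some.injEq, true_and]
      exact hy
  · rw [if_neg hx, if_neg, e1]
    rintro (h1 | h1)
    · simp only [Point.some.injEq] at h1
      exact hx h1.1
    · rw [Point.neg_some] at h1
      simp only [Point.some.injEq] at h1
      exact hx h1.1

lemma dl_zero {x y : k} (h : W.Nonsingular x y) : dl (.some x y h : W.Point) 0 = -1 := by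
  unfold dl
  rw [if_neg]
  · exact dx_right_zero (Point.some_ne_zero _)
  · rintro (h1 | h1)
    · exact Point.some_ne_zero _ h1
    · rw [neg_zero] at h1
      exact Point.some_ne_zero _ h1

/-- the multiples of a point of order `n` -/
def mz (P : W.Point) (n : ℕ) (i : Fin n) : AddSubgroup.zmultiples P :=
  ⟨(i : ℕ) • P, AddSubgroup.nsmul_mem_zmultiples _ _⟩

lemma mz_bij {P : W.Point} {n : ℕ} (hn : addOrderOf P = n) (h0 : 0 < n) :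
    Function.Bijective (mz P n) := by
  constructor
  · intro i j hij
    have h1 : (i : ℕ) • P = (j : ℕ) • P := congrArg Subtype.val hij
    have := nsmul_injOn_Iio_addOrderOf (x := P) (by rw [hn]; exact i.2) (by rw [hn]; exact j.2) h1
    exact Fin.ext this
  · rintro ⟨Q, hQ⟩
    obtain ⟨m, rfl⟩ := AddSubgroup.mem_zmultiples_iff.mp hQ
    have hn0 : (n : ℤ) ≠ 0 := by exact_mod_cast h0.ne'
    refine ⟨⟨(m % n).toNat, ?_⟩, ?_⟩
    · have h1 := Int.emod_lt_of_pos m (by exact_mod_cast h0 : (0 : ℤ) < n)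
      have h2 := Int.emod_nonneg m hn0
      omega
    · apply Subtype.ext
      show (m % n).toNat • P = m • P
      rw [← natCast_zsmul, Int.toNat_of_nonneg (Int.emod_nonneg m hn0), ← hn,
        mod_addOrderOf_zsmul]

variable {P : W.Point} {n : ℕ}

lemma prod_mz [Fintype (AddSubgroup.zmultiples P)] (hn : addOrderOf P = n) (h0 : 0 < n)
    {M : Type*} [CommMonoid M] (f : AddSubgroup.zmultiples P → M) :
    ∏ a, f a = ∏ i, f (mz P n i) :=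
  ((mz_bij hn h0).prod_comp f).symm

lemma sum_mz [Fintype (AddSubgroup.zmultiples P)] (hn : addOrderOf P = n) (h0 : 0 < n)
    {M : Type*} [AddCommMonoid M] (f : AddSubgroup.zmultiples P → M) :
    ∑ a, f a = ∑ i, f (mz P n i) :=
  ((mz_bij hn h0).sum_comp f).symm

lemma mz_neg (hn : addOrderOf P = n) {i j : Fin n} (hij : (i : ℕ) + j = n) :
    mz P n j = - mz P n i := by
  apply Subtype.ext
  show (j : ℕ) • P = -((i : ℕ) • P)
  rw [eq_neg_iff_add_eq_zero, ← add_nsmul, add_comm (j : ℕ), hij, ← hn]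
  exact addOrderOf_nsmul_eq_zero P

end gen

/-! ### Tate's normal form -/

section Wt

variable {k : Type*} [Field k] [DecidableEq k] {b c : k}

lemma pc_of_ne {x y : k} (h : (Wt b c).Nonsingular x y) (h2 : 2 * y + (1 - c) * x - b ≠ 0) :
    pc (.some x y h : (Wt b c).Point) = 2 * y + (1 - c) * x - b := by
  unfold pc
  rw [if_neg]
  · show 2 * y + (1 - c) * x + (-b) = _
    ring
  · intro h3
    apply h2
    rw [add_eq_zero_iff_eq_neg, Point.neg_some] at h3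
    simp only [Point.some.injEq, true_and, negY_wt] at h3
    linear_combination h3

lemma pc_of_eq {x y : k} (h : (Wt b c).Nonsingular x y) (h2 : 2 * y + (1 - c) * x - b = 0) :
    pc (.some x y h : (Wt b c).Point) = 3 * x ^ 2 - 2 * b * x - (1 - c) * y := by
  unfold pc
  rw [if_pos]
  · show 3 * x ^ 2 + 2 * (-b) * x + 0 - (1 - c) * y = _
    ring
  · rw [add_eq_zero_iff_eq_neg, Point.neg_some]
    simp only [Point.some.injEq, true_and, negY_wt]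
    linear_combination h2

lemma m1 (hb : b ≠ 0) : ∃ h, (1 : ℕ) • P0 c hb = .some 0 0 h := ⟨_, one_nsmul _⟩

lemma mn {x y x' y' : k} {n i j : ℕ} (hb : b ≠ 0) (hO : addOrderOf (P0 c hb) = n)
    (hij : i + j = n) (hi : ∃ h, i • P0 c hb = .some x y h) (hx : x' = x)
    (hy : y' = -y - (1 - c) * x + b) :
    ∃ h, j • P0 c hb = .some x' y' h := by
  obtain ⟨h, e⟩ := hi
  have e1 : j • P0 c hb = - (i • P0 c hb) := by
    rw [eq_neg_iff_add_eq_zero, ← add_nsmul, add_comm j, hij, ← hO]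
    exact addOrderOf_nsmul_eq_zero _
  subst hx
  have h2 := (nonsingular_neg (W' := Wt b c) x' y).mpr h
  rw [negY_wt, ← hy] at h2
  refine ⟨h2, ?_⟩
  rw [e1, e, Point.neg_some]
  simp only [Point.some.injEq, true_and, negY_wt]
  exact hy.symm

set_option linter.unusedSimpArgs false

/-- the Siegel numbers for a point of order four -/
lemma gam4 (hb : b ≠ 0) (hc : c = 0)
    (hO : addOrderOf (P0 c hb) = 4) [Fintype (AddSubgroup.zmultiples (P0 c hb))] :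
    gam _ (mz (P0 c hb) 4 1) = b ^ 3 ∧
    gam _ (mz (P0 c hb) 4 2) = -(b ^ 4) ∧
    gam _ (mz (P0 c hb) 4 3) = b ^ 3 := by
  subst hc
  have q1 := m1 (c := 0) hb
  have q2 := two_P0 (c := 0) hb
  obtain ⟨h3, e3⟩ := mn (x' := 0) (y' := b) hb hO (i := 1) (j := 3) (by norm_num) q1 rfl (by ring)
  obtain ⟨h1, e1⟩ := q1
  obtain ⟨h2, e2⟩ := q2
  have e0 : (0 : ℕ) • P0 0 hb = 0 := zero_nsmul _
  have p1 : pc (.some (0) (0) h1 : (Wt b 0).Point) = -b := by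
    rw [pc_of_ne _ (by intro h; apply hb; linear_combination -h)]; ring
  have p2 : pc (.some (b) (b * 0) h2 : (Wt b 0).Point) = b ^ 2 := by
    rw [pc_of_eq _ (by ring)]; ring
  have p3 : pc (.some (0) (b) h3 : (Wt b 0).Point) = b := by
    rw [pc_of_ne _ (by intro h; apply hb; linear_combination h)]; ring
  have n0 : (0 : k) ≠ b := hb.symm
  refine ⟨?_, ?_, ?_⟩
  · unfold gam
    rw [prod_mz hO (by norm_num), Fin.prod_univ_four]
    show dl ((1 : ℕ) • P0 0 hb) ((0 : ℕ) • P0 0 hb) *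
      dl ((1 : ℕ) • P0 0 hb) ((1 : ℕ) • P0 0 hb) *
      dl ((1 : ℕ) • P0 0 hb) ((2 : ℕ) • P0 0 hb) *
      dl ((1 : ℕ) • P0 0 hb) ((3 : ℕ) • P0 0 hb) = _
    rw [e0, e1, e2, e3]
    simp only [dl_some, dl_zero, if_pos, if_neg hb, if_neg n0,
      p1, p2, p3]
    ring
  · unfold gam
    rw [prod_mz hO (by norm_num), Fin.prod_univ_four]
    show dl ((2 : ℕ) • P0 0 hb) ((0 : ℕ) • P0 0 hb) *
      dl ((2 : ℕ) • P0 0 hb) ((1 : ℕ) • P0 0 hb) *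
      dl ((2 : ℕ) • P0 0 hb) ((2 : ℕ) • P0 0 hb) *
      dl ((2 : ℕ) • P0 0 hb) ((3 : ℕ) • P0 0 hb) = _
    rw [e0, e1, e2, e3]
    simp only [dl_some, dl_zero, if_pos, if_neg hb, if_neg n0,
      p1, p2, p3]
    ring
  · unfold gam
    rw [prod_mz hO (by norm_num), Fin.prod_univ_four]
    show dl ((3 : ℕ) • P0 0 hb) ((0 : ℕ) • P0 0 hb) *
      dl ((3 : ℕ) • P0 0 hb) ((1 : ℕ) • P0 0 hb) *
      dl ((3 : ℕ) • P0 0 hb) ((2 : ℕ) • P0 0 hb) *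
      dl ((3 : ℕ) • P0 0 hb) ((3 : ℕ) • P0 0 hb) = _
    rw [e0, e1, e2, e3]
    simp only [dl_some, dl_zero, if_pos, if_neg hb, if_neg n0,
      p1, p2, p3]
    ring

/-- the Siegel numbers for a point of order five -/
lemma gam5 (hb : b ≠ 0) (hc : c ≠ 0)
    (hO : addOrderOf (P0 c hb) = 5) [Fintype (AddSubgroup.zmultiples (P0 c hb))] :
    gam _ (mz (P0 c hb) 5 1) = -(b ^ 4) ∧
    gam _ (mz (P0 c hb) 5 2) = -(b ^ 2 * (b * c) ^ 2) ∧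
    gam _ (mz (P0 c hb) 5 3) = -(b ^ 2 * (b * c) ^ 2) ∧
    gam _ (mz (P0 c hb) 5 4) = -(b ^ 4) := by
  have q1 := m1 (c := c) hb
  have q2 := two_P0 (c := c) hb
  obtain ⟨h3, e3⟩ := mn (x' := b) (y' := 0) hb hO (i := 2) (j := 3) (by norm_num) q2 rfl (by ring)
  obtain ⟨h4, e4⟩ := mn (x' := 0) (y' := b) hb hO (i := 1) (j := 4) (by norm_num) q1 rfl (by ring)
  obtain ⟨h1, e1⟩ := q1
  obtain ⟨h2, e2⟩ := q2
  have e0 : (0 : ℕ) • P0 c hb = 0 := zero_nsmul _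
  have p1 : pc (.some (0) (0) h1 : (Wt b c).Point) = -b := by
    rw [pc_of_ne _ (by intro h; apply hb; linear_combination -h)]; ring
  have p2 : pc (.some (b) (b * c) h2 : (Wt b c).Point) = b * c := by
    rw [pc_of_ne _ (by intro h; apply mul_ne_zero hb hc; linear_combination h)]; ring
  have p3 : pc (.some (b) (0) h3 : (Wt b c).Point) = -(b * c) := by
    rw [pc_of_ne _ (by intro h; apply mul_ne_zero hb hc; linear_combination -h)]; ring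
  have p4 : pc (.some (0) (b) h4 : (Wt b c).Point) = b := by
    rw [pc_of_ne _ (by intro h; apply hb; linear_combination h)]; ring
  have n0 : (0 : k) ≠ b := hb.symm
  refine ⟨?_, ?_, ?_, ?_⟩
  · unfold gam
    rw [prod_mz hO (by norm_num), Fin.prod_univ_five]
    show dl ((1 : ℕ) • P0 c hb) ((0 : ℕ) • P0 c hb) *
      dl ((1 : ℕ) • P0 c hb) ((1 : ℕ) • P0 c hb) *
      dl ((1 : ℕ) • P0 c hb) ((2 : ℕ) • P0 c hb) *
      dl ((1 : ℕ) • P0 c hb) ((3 : ℕ) • P0 c hb) *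
      dl ((1 : ℕ) • P0 c hb) ((4 : ℕ) • P0 c hb) = _
    rw [e0, e1, e2, e3, e4]
    simp only [dl_some, dl_zero, if_pos, if_neg hb, if_neg n0,
      p1, p2, p3, p4]
    ring
  · unfold gam
    rw [prod_mz hO (by norm_num), Fin.prod_univ_five]
    show dl ((2 : ℕ) • P0 c hb) ((0 : ℕ) • P0 c hb) *
      dl ((2 : ℕ) • P0 c hb) ((1 : ℕ) • P0 c hb) *
      dl ((2 : ℕ) • P0 c hb) ((2 : ℕ) • P0 c hb) *
      dl ((2 : ℕ) • P0 c hb) ((3 : ℕ) • P0 c hb) *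
      dl ((2 : ℕ) • P0 c hb) ((4 : ℕ) • P0 c hb) = _
    rw [e0, e1, e2, e3, e4]
    simp only [dl_some, dl_zero, if_pos, if_neg hb, if_neg n0,
      p1, p2, p3, p4]
    ring
  · unfold gam
    rw [prod_mz hO (by norm_num), Fin.prod_univ_five]
    show dl ((3 : ℕ) • P0 c hb) ((0 : ℕ) • P0 c hb) *
      dl ((3 : ℕ) • P0 c hb) ((1 : ℕ) • P0 c hb) *
      dl ((3 : ℕ) • P0 c hb) ((2 : ℕ) • P0 c hb) *
      dl ((3 : ℕ) • P0 c hb) ((3 : ℕ) • P0 c hb) *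
      dl ((3 : ℕ) • P0 c hb) ((4 : ℕ) • P0 c hb) = _
    rw [e0, e1, e2, e3, e4]
    simp only [dl_some, dl_zero, if_pos, if_neg hb, if_neg n0,
      p1, p2, p3, p4]
    ring
  · unfold gam
    rw [prod_mz hO (by norm_num), Fin.prod_univ_five]
    show dl ((4 : ℕ) • P0 c hb) ((0 : ℕ) • P0 c hb) *
      dl ((4 : ℕ) • P0 c hb) ((1 : ℕ) • P0 c hb) *
      dl ((4 : ℕ) • P0 c hb) ((2 : ℕ) • P0 c hb) *
      dl ((4 : ℕ) • P0 c hb) ((3 : ℕ) • P0 c hb) *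
      dl ((4 : ℕ) • P0 c hb) ((4 : ℕ) • P0 c hb) = _
    rw [e0, e1, e2, e3, e4]
    simp only [dl_some, dl_zero, if_pos, if_neg hb, if_neg n0,
      p1, p2, p3, p4]
    ring

/-- the Siegel numbers for a point of order six -/
lemma gam6 (hb : b ≠ 0) (hc : c ≠ 0) (hbc : b ≠ c) (hs : b - c - c ^ 2 = 0)
    (hO : addOrderOf (P0 c hb) = 6) [Fintype (AddSubgroup.zmultiples (P0 c hb))] :
    gam _ (mz (P0 c hb) 6 1) = b ^ 4 * c ∧
    gam _ (mz (P0 c hb) 6 2) = -(b ^ 4 * c ^ 2 * (b - c)) ∧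
    gam _ (mz (P0 c hb) 6 3) = (3 * c ^ 2 - 2 * b * c - (1 - c) * (b - c)) * c ^ 2 * (b - c) ^ 2 * (-1) ∧
    gam _ (mz (P0 c hb) 6 4) = -(b ^ 4 * c ^ 2 * (b - c)) ∧
    gam _ (mz (P0 c hb) 6 5) = b ^ 4 * c := by
  have q1 := m1 (c := c) hb
  have q2 := two_P0 (c := c) hb
  have q3 := three_P0 (c := c) hb
  obtain ⟨h4, e4⟩ := mn (x' := b) (y' := 0) hb hO (i := 2) (j := 4) (by norm_num) q2 rfl (by ring)
  obtain ⟨h5, e5⟩ := mn (x' := 0) (y' := b) hb hO (i := 1) (j := 5) (by norm_num) q1 rfl (by ring)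
  obtain ⟨h1, e1⟩ := q1
  obtain ⟨h2, e2⟩ := q2
  obtain ⟨h3, e3⟩ := q3
  have e0 : (0 : ℕ) • P0 c hb = 0 := zero_nsmul _
  have p1 : pc (.some (0) (0) h1 : (Wt b c).Point) = -b := by
    rw [pc_of_ne _ (by intro h; apply hb; linear_combination -h)]; ring
  have p2 : pc (.some (b) (b * c) h2 : (Wt b c).Point) = b * c := by
    rw [pc_of_ne _ (by intro h; apply mul_ne_zero hb hc; linear_combination h)]; ring
  have p3 : pc (.some (c) (b - c) h3 : (Wt b c).Point) = 3 * c ^ 2 - 2 * b * c - (1 - c) * (b - c) := by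
    rw [pc_of_eq _ (by linear_combination hs)]
  have p4 : pc (.some (b) (0) h4 : (Wt b c).Point) = -(b * c) := by
    rw [pc_of_ne _ (by intro h; apply mul_ne_zero hb hc; linear_combination -h)]; ring
  have p5 : pc (.some (0) (b) h5 : (Wt b c).Point) = b := by
    rw [pc_of_ne _ (by intro h; apply hb; linear_combination h)]; ring
  have n0 : (0 : k) ≠ b := hb.symm
  have n1 : (0 : k) ≠ c := hc.symm
  have n2 : c ≠ b := hbc.symm
  refine ⟨?_, ?_, ?_, ?_, ?_⟩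
  · unfold gam
    rw [prod_mz hO (by norm_num), Fin.prod_univ_six]
    show dl ((1 : ℕ) • P0 c hb) ((0 : ℕ) • P0 c hb) *
      dl ((1 : ℕ) • P0 c hb) ((1 : ℕ) • P0 c hb) *
      dl ((1 : ℕ) • P0 c hb) ((2 : ℕ) • P0 c hb) *
      dl ((1 : ℕ) • P0 c hb) ((3 : ℕ) • P0 c hb) *
      dl ((1 : ℕ) • P0 c hb) ((4 : ℕ) • P0 c hb) *
      dl ((1 : ℕ) • P0 c hb) ((5 : ℕ) • P0 c hb) = _
    rw [e0, e1, e2, e3, e4, e5]
    simp only [dl_some, dl_zero, if_pos, if_neg hb, if_neg n0, if_neg hc, if_neg hbc, if_neg n1, if_neg n2,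
      p1, p2, p3, p4, p5]
    ring
  · unfold gam
    rw [prod_mz hO (by norm_num), Fin.prod_univ_six]
    show dl ((2 : ℕ) • P0 c hb) ((0 : ℕ) • P0 c hb) *
      dl ((2 : ℕ) • P0 c hb) ((1 : ℕ) • P0 c hb) *
      dl ((2 : ℕ) • P0 c hb) ((2 : ℕ) • P0 c hb) *
      dl ((2 : ℕ) • P0 c hb) ((3 : ℕ) • P0 c hb) *
      dl ((2 : ℕ) • P0 c hb) ((4 : ℕ) • P0 c hb) *
      dl ((2 : ℕ) • P0 c hb) ((5 : ℕ) • P0 c hb) = _
    rw [e0, e1, e2, e3, e4, e5]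
    simp only [dl_some, dl_zero, if_pos, if_neg hb, if_neg n0, if_neg hc, if_neg hbc, if_neg n1, if_neg n2,
      p1, p2, p3, p4, p5]
    ring
  · unfold gam
    rw [prod_mz hO (by norm_num), Fin.prod_univ_six]
    show dl ((3 : ℕ) • P0 c hb) ((0 : ℕ) • P0 c hb) *
      dl ((3 : ℕ) • P0 c hb) ((1 : ℕ) • P0 c hb) *
      dl ((3 : ℕ) • P0 c hb) ((2 : ℕ) • P0 c hb) *
      dl ((3 : ℕ) • P0 c hb) ((3 : ℕ) • P0 c hb) *
      dl ((3 : ℕ) • P0 c hb) ((4 : ℕ) • P0 c hb) *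
      dl ((3 : ℕ) • P0 c hb) ((5 : ℕ) • P0 c hb) = _
    rw [e0, e1, e2, e3, e4, e5]
    simp only [dl_some, dl_zero, if_pos, if_neg hb, if_neg n0, if_neg hc, if_neg hbc, if_neg n1, if_neg n2,
      p1, p2, p3, p4, p5]
    ring
  · unfold gam
    rw [prod_mz hO (by norm_num), Fin.prod_univ_six]
    show dl ((4 : ℕ) • P0 c hb) ((0 : ℕ) • P0 c hb) *
      dl ((4 : ℕ) • P0 c hb) ((1 : ℕ) • P0 c hb) *
      dl ((4 : ℕ) • P0 c hb) ((2 : ℕ) • P0 c hb) *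
      dl ((4 : ℕ) • P0 c hb) ((3 : ℕ) • P0 c hb) *
      dl ((4 : ℕ) • P0 c hb) ((4 : ℕ) • P0 c hb) *
      dl ((4 : ℕ) • P0 c hb) ((5 : ℕ) • P0 c hb) = _
    rw [e0, e1, e2, e3, e4, e5]
    simp only [dl_some, dl_zero, if_pos, if_neg hb, if_neg n0, if_neg hc, if_neg hbc, if_neg n1, if_neg n2,
      p1, p2, p3, p4, p5]
    ring
  · unfold gam
    rw [prod_mz hO (by norm_num), Fin.prod_univ_six]
    show dl ((5 : ℕ) • P0 c hb) ((0 : ℕ) • P0 c hb) *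
      dl ((5 : ℕ) • P0 c hb) ((1 : ℕ) • P0 c hb) *
      dl ((5 : ℕ) • P0 c hb) ((2 : ℕ) • P0 c hb) *
      dl ((5 : ℕ) • P0 c hb) ((3 : ℕ) • P0 c hb) *
      dl ((5 : ℕ) • P0 c hb) ((4 : ℕ) • P0 c hb) *
      dl ((5 : ℕ) • P0 c hb) ((5 : ℕ) • P0 c hb) = _
    rw [e0, e1, e2, e3, e4, e5]
    simp only [dl_some, dl_zero, if_pos, if_neg hb, if_neg n0, if_neg hc, if_neg hbc, if_neg n1, if_neg n2,
      p1, p2, p3, p4, p5]
    ring

/-- the Siegel numbers for a point of order seven -/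
lemma gam7 (hb : b ≠ 0) (hc : c ≠ 0) (hbc : b ≠ c) (hs : b - c - c ^ 2 ≠ 0)
    (hO : addOrderOf (P0 c hb) = 7) [Fintype (AddSubgroup.zmultiples (P0 c hb))] :
    gam _ (mz (P0 c hb) 7 1) = -(b ^ 4 * c ^ 2) ∧
    gam _ (mz (P0 c hb) 7 2) = -(b ^ 4 * c ^ 2 * (b - c) ^ 2) ∧
    gam _ (mz (P0 c hb) 7 3) = -(c ^ 2 * (b - c) ^ 2 * (b - c - c ^ 2) ^ 2) ∧
    gam _ (mz (P0 c hb) 7 4) = -(c ^ 2 * (b - c) ^ 2 * (b - c - c ^ 2) ^ 2) ∧
    gam _ (mz (P0 c hb) 7 5) = -(b ^ 4 * c ^ 2 * (b - c) ^ 2) ∧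
    gam _ (mz (P0 c hb) 7 6) = -(b ^ 4 * c ^ 2) := by
  have q1 := m1 (c := c) hb
  have q2 := two_P0 (c := c) hb
  have q3 := three_P0 (c := c) hb
  obtain ⟨h4, e4⟩ := mn (x' := c) (y' := c ^ 2) hb hO (i := 3) (j := 4) (by norm_num) q3 rfl (by ring)
  obtain ⟨h5, e5⟩ := mn (x' := b) (y' := 0) hb hO (i := 2) (j := 5) (by norm_num) q2 rfl (by ring)
  obtain ⟨h6, e6⟩ := mn (x' := 0) (y' := b) hb hO (i := 1) (j := 6) (by norm_num) q1 rfl (by ring)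
  obtain ⟨h1, e1⟩ := q1
  obtain ⟨h2, e2⟩ := q2
  obtain ⟨h3, e3⟩ := q3
  have e0 : (0 : ℕ) • P0 c hb = 0 := zero_nsmul _
  have p1 : pc (.some (0) (0) h1 : (Wt b c).Point) = -b := by
    rw [pc_of_ne _ (by intro h; apply hb; linear_combination -h)]; ring
  have p2 : pc (.some (b) (b * c) h2 : (Wt b c).Point) = b * c := by
    rw [pc_of_ne _ (by intro h; apply mul_ne_zero hb hc; linear_combination h)]; ring
  have p3 : pc (.some (c) (b - c) h3 : (Wt b c).Point) = b - c - c ^ 2 := by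
    rw [pc_of_ne _ (by intro h; apply hs; linear_combination h)]; ring
  have p4 : pc (.some (c) (c ^ 2) h4 : (Wt b c).Point) = -(b - c - c ^ 2) := by
    rw [pc_of_ne _ (by intro h; apply hs; linear_combination -h)]; ring
  have p5 : pc (.some (b) (0) h5 : (Wt b c).Point) = -(b * c) := by
    rw [pc_of_ne _ (by intro h; apply mul_ne_zero hb hc; linear_combination -h)]; ring
  have p6 : pc (.some (0) (b) h6 : (Wt b c).Point) = b := by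
    rw [pc_of_ne _ (by intro h; apply hb; linear_combination h)]; ring
  have n0 : (0 : k) ≠ b := hb.symm
  have n1 : (0 : k) ≠ c := hc.symm
  have n2 : c ≠ b := hbc.symm
  refine ⟨?_, ?_, ?_, ?_, ?_, ?_⟩
  · unfold gam
    rw [prod_mz hO (by norm_num), Fin.prod_univ_seven]
    show dl ((1 : ℕ) • P0 c hb) ((0 : ℕ) • P0 c hb) *
      dl ((1 : ℕ) • P0 c hb) ((1 : ℕ) • P0 c hb) *
      dl ((1 : ℕ) • P0 c hb) ((2 : ℕ) • P0 c hb) *
      dl ((1 : ℕ) • P0 c hb) ((3 : ℕ) • P0 c hb) *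
      dl ((1 : ℕ) • P0 c hb) ((4 : ℕ) • P0 c hb) *
      dl ((1 : ℕ) • P0 c hb) ((5 : ℕ) • P0 c hb) *
      dl ((1 : ℕ) • P0 c hb) ((6 : ℕ) • P0 c hb) = _
    rw [e0, e1, e2, e3, e4, e5, e6]
    simp only [dl_some, dl_zero, if_pos, if_neg hb, if_neg n0, if_neg hc, if_neg hbc, if_neg n1, if_neg n2,
      p1, p2, p3, p4, p5, p6]
    ring
  · unfold gam
    rw [prod_mz hO (by norm_num), Fin.prod_univ_seven]
    show dl ((2 : ℕ) • P0 c hb) ((0 : ℕ) • P0 c hb) *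
      dl ((2 : ℕ) • P0 c hb) ((1 : ℕ) • P0 c hb) *
      dl ((2 : ℕ) • P0 c hb) ((2 : ℕ) • P0 c hb) *
      dl ((2 : ℕ) • P0 c hb) ((3 : ℕ) • P0 c hb) *
      dl ((2 : ℕ) • P0 c hb) ((4 : ℕ) • P0 c hb) *
      dl ((2 : ℕ) • P0 c hb) ((5 : ℕ) • P0 c hb) *
      dl ((2 : ℕ) • P0 c hb) ((6 : ℕ) • P0 c hb) = _
    rw [e0, e1, e2, e3, e4, e5, e6]
    simp only [dl_some, dl_zero, if_pos, if_neg hb, if_neg n0, if_neg hc, if_neg hbc, if_neg n1, if_neg n2,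
      p1, p2, p3, p4, p5, p6]
    ring
  · unfold gam
    rw [prod_mz hO (by norm_num), Fin.prod_univ_seven]
    show dl ((3 : ℕ) • P0 c hb) ((0 : ℕ) • P0 c hb) *
      dl ((3 : ℕ) • P0 c hb) ((1 : ℕ) • P0 c hb) *
      dl ((3 : ℕ) • P0 c hb) ((2 : ℕ) • P0 c hb) *
      dl ((3 : ℕ) • P0 c hb) ((3 : ℕ) • P0 c hb) *
      dl ((3 : ℕ) • P0 c hb) ((4 : ℕ) • P0 c hb) *
      dl ((3 : ℕ) • P0 c hb) ((5 : ℕ) • P0 c hb) *
      dl ((3 : ℕ) • P0 c hb) ((6 : ℕ) • P0 c hb) = _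
    rw [e0, e1, e2, e3, e4, e5, e6]
    simp only [dl_some, dl_zero, if_pos, if_neg hb, if_neg n0, if_neg hc, if_neg hbc, if_neg n1, if_neg n2,
      p1, p2, p3, p4, p5, p6]
    ring
  · unfold gam
    rw [prod_mz hO (by norm_num), Fin.prod_univ_seven]
    show dl ((4 : ℕ) • P0 c hb) ((0 : ℕ) • P0 c hb) *
      dl ((4 : ℕ) • P0 c hb) ((1 : ℕ) • P0 c hb) *
      dl ((4 : ℕ) • P0 c hb) ((2 : ℕ) • P0 c hb) *
      dl ((4 : ℕ) • P0 c hb) ((3 : ℕ) • P0 c hb) *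
      dl ((4 : ℕ) • P0 c hb) ((4 : ℕ) • P0 c hb) *
      dl ((4 : ℕ) • P0 c hb) ((5 : ℕ) • P0 c hb) *
      dl ((4 : ℕ) • P0 c hb) ((6 : ℕ) • P0 c hb) = _
    rw [e0, e1, e2, e3, e4, e5, e6]
    simp only [dl_some, dl_zero, if_pos, if_neg hb, if_neg n0, if_neg hc, if_neg hbc, if_neg n1, if_neg n2,
      p1, p2, p3, p4, p5, p6]
    ring
  · unfold gam
    rw [prod_mz hO (by norm_num), Fin.prod_univ_seven]
    show dl ((5 : ℕ) • P0 c hb) ((0 : ℕ) • P0 c hb) *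
      dl ((5 : ℕ) • P0 c hb) ((1 : ℕ) • P0 c hb) *
      dl ((5 : ℕ) • P0 c hb) ((2 : ℕ) • P0 c hb) *
      dl ((5 : ℕ) • P0 c hb) ((3 : ℕ) • P0 c hb) *
      dl ((5 : ℕ) • P0 c hb) ((4 : ℕ) • P0 c hb) *
      dl ((5 : ℕ) • P0 c hb) ((5 : ℕ) • P0 c hb) *
      dl ((5 : ℕ) • P0 c hb) ((6 : ℕ) • P0 c hb) = _
    rw [e0, e1, e2, e3, e4, e5, e6]
    simp only [dl_some, dl_zero, if_pos, if_neg hb, if_neg n0, if_neg hc, if_neg hbc, if_neg n1, if_neg n2,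
      p1, p2, p3, p4, p5, p6]
    ring
  · unfold gam
    rw [prod_mz hO (by norm_num), Fin.prod_univ_seven]
    show dl ((6 : ℕ) • P0 c hb) ((0 : ℕ) • P0 c hb) *
      dl ((6 : ℕ) • P0 c hb) ((1 : ℕ) • P0 c hb) *
      dl ((6 : ℕ) • P0 c hb) ((2 : ℕ) • P0 c hb) *
      dl ((6 : ℕ) • P0 c hb) ((3 : ℕ) • P0 c hb) *
      dl ((6 : ℕ) • P0 c hb) ((4 : ℕ) • P0 c hb) *
      dl ((6 : ℕ) • P0 c hb) ((5 : ℕ) • P0 c hb) *
      dl ((6 : ℕ) • P0 c hb) ((6 : ℕ) • P0 c hb) = _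
    rw [e0, e1, e2, e3, e4, e5, e6]
    simp only [dl_some, dl_zero, if_pos, if_neg hb, if_neg n0, if_neg hc, if_neg hbc, if_neg n1, if_neg n2,
      p1, p2, p3, p4, p5, p6]
    ring

/-- the Siegel numbers for a point of order eight -/
lemma gam8 (hb : b ≠ 0) (hc : c ≠ 0) (hbc : b ≠ c) (hs : b - c - c ^ 2 ≠ 0) {d : k} (hd : b = d * c) (hd0 : d * (d - 1) ≠ 0) (hdb : b ≠ d * (d - 1)) (hdc : c ≠ d * (d - 1)) (h8 : 2 * (d ^ 2 * (c + 1 - d)) + (1 - c) * (d * (d - 1)) - b = 0)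
    (hO : addOrderOf (P0 c hb) = 8) [Fintype (AddSubgroup.zmultiples (P0 c hb))] :
    gam _ (mz (P0 c hb) 8 1) = b ^ 4 * c ^ 2 * (d * (d - 1)) ∧
    gam _ (mz (P0 c hb) 8 2) = -((b * c) ^ 2 * b ^ 2 * (b - c) ^ 2 * (b - d * (d - 1))) ∧
    gam _ (mz (P0 c hb) 8 3) = -(c ^ 2 * (b - c) ^ 2 * (b - c - c ^ 2) ^ 2 * (c - d * (d - 1))) ∧
    gam _ (mz (P0 c hb) 8 4) = -((3 * (d * (d - 1)) ^ 2 - 2 * b * (d * (d - 1)) - (1 - c) * (d ^ 2 * (c + 1 - d))) * (d * (d - 1)) ^ 2 * (d * (d - 1) - b) ^ 2 * (d * (d - 1) - c) ^ 2) ∧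
    gam _ (mz (P0 c hb) 8 5) = -(c ^ 2 * (b - c) ^ 2 * (b - c - c ^ 2) ^ 2 * (c - d * (d - 1))) ∧
    gam _ (mz (P0 c hb) 8 6) = -((b * c) ^ 2 * b ^ 2 * (b - c) ^ 2 * (b - d * (d - 1))) ∧
    gam _ (mz (P0 c hb) 8 7) = b ^ 4 * c ^ 2 * (d * (d - 1)) := by
  have q1 := m1 (c := c) hb
  have q2 := two_P0 (c := c) hb
  have q3 := three_P0 (c := c) hb
  obtain ⟨h4, e4⟩ := four_P0 hb hc hd
  obtain ⟨h5, e5⟩ := mn (x' := c) (y' := c ^ 2) hb hO (i := 3) (j := 5) (by norm_num) q3 rfl (by ring)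
  obtain ⟨h6, e6⟩ := mn (x' := b) (y' := 0) hb hO (i := 2) (j := 6) (by norm_num) q2 rfl (by ring)
  obtain ⟨h7, e7⟩ := mn (x' := 0) (y' := b) hb hO (i := 1) (j := 7) (by norm_num) q1 rfl (by ring)
  obtain ⟨h1, e1⟩ := q1
  obtain ⟨h2, e2⟩ := q2
  obtain ⟨h3, e3⟩ := q3
  have e0 : (0 : ℕ) • P0 c hb = 0 := zero_nsmul _
  have p1 : pc (.some (0) (0) h1 : (Wt b c).Point) = -b := by
    rw [pc_of_ne _ (by intro h; apply hb; linear_combination -h)]; ring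
  have p2 : pc (.some (b) (b * c) h2 : (Wt b c).Point) = b * c := by
    rw [pc_of_ne _ (by intro h; apply mul_ne_zero hb hc; linear_combination h)]; ring
  have p3 : pc (.some (c) (b - c) h3 : (Wt b c).Point) = b - c - c ^ 2 := by
    rw [pc_of_ne _ (by intro h; apply hs; linear_combination h)]; ring
  have p4 : pc (.some (d * (d - 1)) (d ^ 2 * (c + 1 - d)) h4 : (Wt b c).Point) = 3 * (d * (d - 1)) ^ 2 - 2 * b * (d * (d - 1)) - (1 - c) * (d ^ 2 * (c + 1 - d)) := by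
    rw [pc_of_eq _ h8]
  have p5 : pc (.some (c) (c ^ 2) h5 : (Wt b c).Point) = -(b - c - c ^ 2) := by
    rw [pc_of_ne _ (by intro h; apply hs; linear_combination -h)]; ring
  have p6 : pc (.some (b) (0) h6 : (Wt b c).Point) = -(b * c) := by
    rw [pc_of_ne _ (by intro h; apply mul_ne_zero hb hc; linear_combination -h)]; ring
  have p7 : pc (.some (0) (b) h7 : (Wt b c).Point) = b := by
    rw [pc_of_ne _ (by intro h; apply hb; linear_combination h)]; ring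
  have n0 : (0 : k) ≠ b := hb.symm
  have n1 : (0 : k) ≠ c := hc.symm
  have n2 : c ≠ b := hbc.symm
  have n3 : 0 ≠ d * (d - 1) := hd0.symm
  have n4 : d * (d - 1) ≠ b := hdb.symm
  have n5 : d * (d - 1) ≠ c := hdc.symm
  refine ⟨?_, ?_, ?_, ?_, ?_, ?_, ?_⟩
  · unfold gam
    rw [prod_mz hO (by norm_num), Fin.prod_univ_eight]
    show dl ((1 : ℕ) • P0 c hb) ((0 : ℕ) • P0 c hb) *
      dl ((1 : ℕ) • P0 c hb) ((1 : ℕ) • P0 c hb) *
      dl ((1 : ℕ) • P0 c hb) ((2 : ℕ) • P0 c hb) *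
      dl ((1 : ℕ) • P0 c hb) ((3 : ℕ) • P0 c hb) *
      dl ((1 : ℕ) • P0 c hb) ((4 : ℕ) • P0 c hb) *
      dl ((1 : ℕ) • P0 c hb) ((5 : ℕ) • P0 c hb) *
      dl ((1 : ℕ) • P0 c hb) ((6 : ℕ) • P0 c hb) *
      dl ((1 : ℕ) • P0 c hb) ((7 : ℕ) • P0 c hb) = _
    rw [e0, e1, e2, e3, e4, e5, e6, e7]
    simp only [dl_some, dl_zero, if_pos, if_neg hb, if_neg n0, if_neg hc, if_neg hbc, if_neg n1, if_neg n2, if_neg hd0, if_neg hdb, if_neg hdc, if_neg n3, if_neg n4, if_neg n5,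
      p1, p2, p3, p4, p5, p6, p7]
    ring
  · unfold gam
    rw [prod_mz hO (by norm_num), Fin.prod_univ_eight]
    show dl ((2 : ℕ) • P0 c hb) ((0 : ℕ) • P0 c hb) *
      dl ((2 : ℕ) • P0 c hb) ((1 : ℕ) • P0 c hb) *
      dl ((2 : ℕ) • P0 c hb) ((2 : ℕ) • P0 c hb) *
      dl ((2 : ℕ) • P0 c hb) ((3 : ℕ) • P0 c hb) *
      dl ((2 : ℕ) • P0 c hb) ((4 : ℕ) • P0 c hb) *
      dl ((2 : ℕ) • P0 c hb) ((5 : ℕ) • P0 c hb) *
      dl ((2 : ℕ) • P0 c hb) ((6 : ℕ) • P0 c hb) *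
      dl ((2 : ℕ) • P0 c hb) ((7 : ℕ) • P0 c hb) = _
    rw [e0, e1, e2, e3, e4, e5, e6, e7]
    simp only [dl_some, dl_zero, if_pos, if_neg hb, if_neg n0, if_neg hc, if_neg hbc, if_neg n1, if_neg n2, if_neg hd0, if_neg hdb, if_neg hdc, if_neg n3, if_neg n4, if_neg n5,
      p1, p2, p3, p4, p5, p6, p7]
    ring
  · unfold gam
    rw [prod_mz hO (by norm_num), Fin.prod_univ_eight]
    show dl ((3 : ℕ) • P0 c hb) ((0 : ℕ) • P0 c hb) *
      dl ((3 : ℕ) • P0 c hb) ((1 : ℕ) • P0 c hb) *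
      dl ((3 : ℕ) • P0 c hb) ((2 : ℕ) • P0 c hb) *
      dl ((3 : ℕ) • P0 c hb) ((3 : ℕ) • P0 c hb) *
      dl ((3 : ℕ) • P0 c hb) ((4 : ℕ) • P0 c hb) *
      dl ((3 : ℕ) • P0 c hb) ((5 : ℕ) • P0 c hb) *
      dl ((3 : ℕ) • P0 c hb) ((6 : ℕ) • P0 c hb) *
      dl ((3 : ℕ) • P0 c hb) ((7 : ℕ) • P0 c hb) = _
    rw [e0, e1, e2, e3, e4, e5, e6, e7]
    simp only [dl_some, dl_zero, if_pos, if_neg hb, if_neg n0, if_neg hc, if_neg hbc, if_neg n1, if_neg n2, if_neg hd0, if_neg hdb, if_neg hdc, if_neg n3, if_neg n4, if_neg n5,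
      p1, p2, p3, p4, p5, p6, p7]
    ring
  · unfold gam
    rw [prod_mz hO (by norm_num), Fin.prod_univ_eight]
    show dl ((4 : ℕ) • P0 c hb) ((0 : ℕ) • P0 c hb) *
      dl ((4 : ℕ) • P0 c hb) ((1 : ℕ) • P0 c hb) *
      dl ((4 : ℕ) • P0 c hb) ((2 : ℕ) • P0 c hb) *
      dl ((4 : ℕ) • P0 c hb) ((3 : ℕ) • P0 c hb) *
      dl ((4 : ℕ) • P0 c hb) ((4 : ℕ) • P0 c hb) *
      dl ((4 : ℕ) • P0 c hb) ((5 : ℕ) • P0 c hb) *
      dl ((4 : ℕ) • P0 c hb) ((6 : ℕ) • P0 c hb) *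
      dl ((4 : ℕ) • P0 c hb) ((7 : ℕ) • P0 c hb) = _
    rw [e0, e1, e2, e3, e4, e5, e6, e7]
    simp only [dl_some, dl_zero, if_pos, if_neg hb, if_neg n0, if_neg hc, if_neg hbc, if_neg n1, if_neg n2, if_neg hd0, if_neg hdb, if_neg hdc, if_neg n3, if_neg n4, if_neg n5,
      p1, p2, p3, p4, p5, p6, p7]
    ring
  · unfold gam
    rw [prod_mz hO (by norm_num), Fin.prod_univ_eight]
    show dl ((5 : ℕ) • P0 c hb) ((0 : ℕ) • P0 c hb) *
      dl ((5 : ℕ) • P0 c hb) ((1 : ℕ) • P0 c hb) *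
      dl ((5 : ℕ) • P0 c hb) ((2 : ℕ) • P0 c hb) *
      dl ((5 : ℕ) • P0 c hb) ((3 : ℕ) • P0 c hb) *
      dl ((5 : ℕ) • P0 c hb) ((4 : ℕ) • P0 c hb) *
      dl ((5 : ℕ) • P0 c hb) ((5 : ℕ) • P0 c hb) *
      dl ((5 : ℕ) • P0 c hb) ((6 : ℕ) • P0 c hb) *
      dl ((5 : ℕ) • P0 c hb) ((7 : ℕ) • P0 c hb) = _
    rw [e0, e1, e2, e3, e4, e5, e6, e7]
    simp only [dl_some, dl_zero, if_pos, if_neg hb, if_neg n0, if_neg hc, if_neg hbc, if_neg n1, if_neg n2, if_neg hd0, if_neg hdb, if_neg hdc, if_neg n3, if_neg n4, if_neg n5,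
      p1, p2, p3, p4, p5, p6, p7]
    ring
  · unfold gam
    rw [prod_mz hO (by norm_num), Fin.prod_univ_eight]
    show dl ((6 : ℕ) • P0 c hb) ((0 : ℕ) • P0 c hb) *
      dl ((6 : ℕ) • P0 c hb) ((1 : ℕ) • P0 c hb) *
      dl ((6 : ℕ) • P0 c hb) ((2 : ℕ) • P0 c hb) *
      dl ((6 : ℕ) • P0 c hb) ((3 : ℕ) • P0 c hb) *
      dl ((6 : ℕ) • P0 c hb) ((4 : ℕ) • P0 c hb) *
      dl ((6 : ℕ) • P0 c hb) ((5 : ℕ) • P0 c hb) *
      dl ((6 : ℕ) • P0 c hb) ((6 : ℕ) • P0 c hb) *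
      dl ((6 : ℕ) • P0 c hb) ((7 : ℕ) • P0 c hb) = _
    rw [e0, e1, e2, e3, e4, e5, e6, e7]
    simp only [dl_some, dl_zero, if_pos, if_neg hb, if_neg n0, if_neg hc, if_neg hbc, if_neg n1, if_neg n2, if_neg hd0, if_neg hdb, if_neg hdc, if_neg n3, if_neg n4, if_neg n5,
      p1, p2, p3, p4, p5, p6, p7]
    ring
  · unfold gam
    rw [prod_mz hO (by norm_num), Fin.prod_univ_eight]
    show dl ((7 : ℕ) • P0 c hb) ((0 : ℕ) • P0 c hb) *
      dl ((7 : ℕ) • P0 c hb) ((1 : ℕ) • P0 c hb) *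
      dl ((7 : ℕ) • P0 c hb) ((2 : ℕ) • P0 c hb) *
      dl ((7 : ℕ) • P0 c hb) ((3 : ℕ) • P0 c hb) *
      dl ((7 : ℕ) • P0 c hb) ((4 : ℕ) • P0 c hb) *
      dl ((7 : ℕ) • P0 c hb) ((5 : ℕ) • P0 c hb) *
      dl ((7 : ℕ) • P0 c hb) ((6 : ℕ) • P0 c hb) *
      dl ((7 : ℕ) • P0 c hb) ((7 : ℕ) • P0 c hb) = _
    rw [e0, e1, e2, e3, e4, e5, e6, e7]
    simp only [dl_some, dl_zero, if_pos, if_neg hb, if_neg n0, if_neg hc, if_neg hbc, if_neg n1, if_neg n2, if_neg hd0, if_neg hdb, if_neg hdc, if_neg n3, if_neg n4, if_neg n5,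
      p1, p2, p3, p4, p5, p6, p7]
    ring

end Wt

section main

variable {k : Type*} [Field k] [DecidableEq k]

lemma sq1 {g t : k} {a : ℤ} (h : g * g = t ^ a) (x : ℤ) : g ^ x * g ^ x = t ^ (a * x) := by
  rw [← mul_zpow, h, ← zpow_mul]

lemma sq2 {g t s : k} {a b : ℤ} (h : g * g = t ^ a * s ^ b) (x : ℤ) :
    g ^ x * g ^ x = t ^ (a * x) * s ^ (b * x) := by
  rw [← mul_zpow, h, mul_zpow, ← zpow_mul, ← zpow_mul]

lemma sq3 {g t s u : k} {a b c : ℤ} (h : g * g = t ^ a * s ^ b * u ^ c) (x : ℤ) :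
    g ^ x * g ^ x = t ^ (a * x) * s ^ (b * x) * u ^ (c * x) := by
  rw [← mul_zpow, h, mul_zpow, mul_zpow, ← zpow_mul, ← zpow_mul, ← zpow_mul]

lemma zpow_two' (g : k) (hg : g ≠ 0) (x : ℤ) : g ^ (2 * x) = g ^ x * g ^ x := by
  rw [two_mul, zpow_add₀ hg]

lemma not_root {b : k} (hb : ∀ n : ℕ, 0 < n → b ^ n ≠ 1) {m : ℤ} (h : b ^ m = 1) : m = 0 := by
  by_contra hm
  have h1 : b ^ (m.natAbs : ℤ) = 1 := by
    rcases abs_choice m with h2 | h2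
    · rw [Int.natCast_natAbs, h2, h]
    · rw [Int.natCast_natAbs, h2, zpow_neg, h, inv_one]
  rw [zpow_natCast] at h1
  exact hb _ (Int.natAbs_pos.mpr hm) h1

variable {b c : k}

lemma even_mz {hb : b ≠ 0} {n : ℕ} (hO : addOrderOf (P0 c hb) = n)
    {e : AddSubgroup.zmultiples (P0 c hb) → ℤ} (ee : ∀ a, e (-a) = e a) {i j : Fin n}
    (hij : (i : ℕ) + j = n) : e (mz (P0 c hb) n j) = e (mz (P0 c hb) n i) := by
  rw [mz_neg hO hij, ee]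

lemma zero_mz {P : (Wt b c).Point} {n : ℕ} [NeZero n] : mz P n 0 = 0 := by
  apply Subtype.ext
  show ((0 : Fin n) : ℕ) • P = 0
  rw [Fin.val_zero, zero_nsmul]


section concl

variable {t s u : k} {G₁ G₂ G₃ G₄ : k} {x₁ x₂ x₃ x₄ : ℤ} {a₁ a₂ a₃ a₄ b₁ b₂ b₃ b₄ c₁ c₂ c₃ c₄ : ℤ}

lemma half (g : k) (hg : g ≠ 0) {x y : ℤ} (h : x = 2 * y) : g ^ x = g ^ y * g ^ y := by
  rw [h, two_mul, zpow_add₀ hg]

lemma con4 (ht : t ≠ 0) (hG : G₂ ≠ 0) (ep : G₁ ^ x₁ * G₂ ^ x₂ * G₁ ^ x₁ = 1)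
    (hx : x₂ = 2 * (-x₁)) (h1 : G₁ * G₁ = t ^ a₁) (h2 : G₂ * G₂ = t ^ a₂) :
    t ^ (a₁ * x₁ + a₂ * (-x₁)) = 1 := by
  rw [half G₂ hG hx] at ep
  rw [zpow_add₀ ht, ← sq1 h1, ← sq1 h2, ← ep]
  ring

lemma con5 (ht : t ≠ 0) (ep : G₁ ^ x₁ * G₂ ^ x₂ * G₂ ^ x₂ * G₁ ^ x₁ = 1)
    (h1 : G₁ * G₁ = t ^ a₁) (h2 : G₂ * G₂ = t ^ a₂) :
    t ^ (a₁ * x₁ + a₂ * x₂) = 1 := by
  rw [zpow_add₀ ht, ← sq1 h1, ← sq1 h2, ← ep]
  ring

lemma con6 (ht : t ≠ 0) (hs : s ≠ 0) (hG : G₃ ≠ 0)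
    (ep : G₁ ^ x₁ * G₂ ^ x₂ * G₃ ^ x₃ * G₂ ^ x₂ * G₁ ^ x₁ = 1) {y : ℤ} (hx : x₃ = 2 * y)
    (h1 : G₁ * G₁ = t ^ a₁ * s ^ b₁) (h2 : G₂ * G₂ = t ^ a₂ * s ^ b₂)
    (h3 : G₃ * G₃ = t ^ a₃ * s ^ b₃) :
    t ^ (a₁ * x₁ + a₂ * x₂ + a₃ * y) * s ^ (b₁ * x₁ + b₂ * x₂ + b₃ * y) = 1 := by
  rw [half G₃ hG hx] at ep
  have e1 := sq2 h1 x₁
  have e2 := sq2 h2 x₂
  have e3 := sq2 h3 y
  rw [zpow_add₀ ht, zpow_add₀ ht, zpow_add₀ hs, zpow_add₀ hs]
  calc _ = (t ^ (a₁ * x₁) * s ^ (b₁ * x₁)) * (t ^ (a₂ * x₂) * s ^ (b₂ * x₂)) *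
        (t ^ (a₃ * y) * s ^ (b₃ * y)) := by ring
    _ = 1 := by rw [← e1, ← e2, ← e3, ← ep]; ring

lemma con7 (ht : t ≠ 0) (hs : s ≠ 0)
    (ep : G₁ ^ x₁ * G₂ ^ x₂ * G₃ ^ x₃ * G₃ ^ x₃ * G₂ ^ x₂ * G₁ ^ x₁ = 1)
    (h1 : G₁ * G₁ = t ^ a₁ * s ^ b₁) (h2 : G₂ * G₂ = t ^ a₂ * s ^ b₂)
    (h3 : G₃ * G₃ = t ^ a₃ * s ^ b₃) :
    t ^ (a₁ * x₁ + a₂ * x₂ + a₃ * x₃) * s ^ (b₁ * x₁ + b₂ * x₂ + b₃ * x₃) = 1 := by
  have e1 := sq2 h1 x₁
  have e2 := sq2 h2 x₂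
  have e3 := sq2 h3 x₃
  rw [zpow_add₀ ht, zpow_add₀ ht, zpow_add₀ hs, zpow_add₀ hs]
  calc _ = (t ^ (a₁ * x₁) * s ^ (b₁ * x₁)) * (t ^ (a₂ * x₂) * s ^ (b₂ * x₂)) *
        (t ^ (a₃ * x₃) * s ^ (b₃ * x₃)) := by ring
    _ = 1 := by rw [← e1, ← e2, ← e3, ← ep]; ring

lemma con8 (ht : t ≠ 0) (hs : s ≠ 0) (hu : u ≠ 0) (hG : G₄ ≠ 0)
    (ep : G₁ ^ x₁ * G₂ ^ x₂ * G₃ ^ x₃ * G₄ ^ x₄ * G₃ ^ x₃ * G₂ ^ x₂ * G₁ ^ x₁ = 1)
    {y : ℤ} (hx : x₄ = 2 * y)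
    (h1 : G₁ * G₁ = t ^ a₁ * s ^ b₁ * u ^ c₁) (h2 : G₂ * G₂ = t ^ a₂ * s ^ b₂ * u ^ c₂)
    (h3 : G₃ * G₃ = t ^ a₃ * s ^ b₃ * u ^ c₃) (h4 : G₄ * G₄ = t ^ a₄ * s ^ b₄ * u ^ c₄) :
    t ^ (a₁ * x₁ + a₂ * x₂ + a₃ * x₃ + a₄ * y) * s ^ (b₁ * x₁ + b₂ * x₂ + b₃ * x₃ + b₄ * y) *
      u ^ (c₁ * x₁ + c₂ * x₂ + c₃ * x₃ + c₄ * y) = 1 := by
  rw [half G₄ hG hx] at ep
  have e1 := sq3 h1 x₁
  have e2 := sq3 h2 x₂
  have e3 := sq3 h3 x₃
  have e4 := sq3 h4 y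
  rw [zpow_add₀ ht, zpow_add₀ ht, zpow_add₀ ht, zpow_add₀ hs, zpow_add₀ hs, zpow_add₀ hs,
    zpow_add₀ hu, zpow_add₀ hu, zpow_add₀ hu]
  calc _ = (t ^ (a₁ * x₁) * s ^ (b₁ * x₁) * u ^ (c₁ * x₁)) *
        (t ^ (a₂ * x₂) * s ^ (b₂ * x₂) * u ^ (c₂ * x₂)) *
        (t ^ (a₃ * x₃) * s ^ (b₃ * x₃) * u ^ (c₃ * x₃)) *
        (t ^ (a₄ * y) * s ^ (b₄ * y) * u ^ (c₄ * y)) := by ring
    _ = 1 := by rw [← e1, ← e2, ← e3, ← e4, ← ep]; ring

end concl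

/-- **the Siegel numbers for a point of order four** -/
theorem siegel4 (hb : b ≠ 0) (hO : addOrderOf (P0 (0 : k) hb) = 4)
    (hr : ∀ n : ℕ, 0 < n → b ^ n ≠ 1) [Fintype (AddSubgroup.zmultiples (P0 (0 : k) hb))] :
    SiegelIndep (AddSubgroup.zmultiples (P0 (0 : k) hb)) := by
  intro e e0 ee es ep
  obtain ⟨g1, g2, g3⟩ := gam4 hb rfl hO
  rw [prod_mz hO (by norm_num), Fin.prod_univ_four] at ep
  rw [sum_mz hO (by norm_num), Fin.sum_univ_four] at es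
  have v1 : e (mz _ 4 3) = e (mz _ 4 1) := even_mz hO ee (by decide)
  have v0 : e (mz (P0 (0 : k) hb) 4 0) = 0 := by rw [zero_mz, e0]
  set x1 := e (mz _ 4 1) with hx1
  set x2 := e (mz _ 4 2) with hx2
  rw [v0, v1] at es ep
  rw [g1, g2, g3, zpow_zero, one_mul] at ep
  have h1 := con4 (t := b) (a₁ := 6) (a₂ := 8) hb (neg_ne_zero.mpr (pow_ne_zero 4 hb)) ep (by omega)
    (by norm_cast; ring) (by norm_cast; ring)
  have h2 := not_root hr h1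
  have z1 : x1 = 0 := by omega
  have z2 : x2 = 0 := by omega
  funext a
  obtain ⟨i, rfl⟩ := (mz_bij hO (by norm_num)).2 a
  show e _ = 0
  fin_cases i
  · exact v0
  · exact z1
  · exact z2
  · exact v1.trans z1

/-- **the Siegel numbers for a point of order five** -/
theorem siegel5 (hb : b ≠ 0) (hO : addOrderOf (P0 b hb) = 5)
    (hr : ∀ n : ℕ, 0 < n → b ^ n ≠ 1) [Fintype (AddSubgroup.zmultiples (P0 b hb))] :
    SiegelIndep (AddSubgroup.zmultiples (P0 b hb)) := by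
  intro e e0 ee es ep
  obtain ⟨g1, g2, g3, g4⟩ := gam5 hb hb hO
  rw [prod_mz hO (by norm_num), Fin.prod_univ_five] at ep
  rw [sum_mz hO (by norm_num), Fin.sum_univ_five] at es
  have v1 : e (mz _ 5 4) = e (mz _ 5 1) := even_mz hO ee (by decide)
  have v2 : e (mz _ 5 3) = e (mz _ 5 2) := even_mz hO ee (by decide)
  have v0 : e (mz (P0 b hb) 5 0) = 0 := by rw [zero_mz, e0]
  set x1 := e (mz _ 5 1) with hx1
  set x2 := e (mz _ 5 2) with hx2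
  rw [v0, v1, v2] at es ep
  rw [g1, g2, g3, g4, zpow_zero, one_mul] at ep
  have h1 := con5 (t := b) (a₁ := 8) (a₂ := 12) hb ep (by norm_cast; ring) (by norm_cast; ring)
  have h2 := not_root hr h1
  have z1 : x1 = 0 := by omega
  have z2 : x2 = 0 := by omega
  funext a
  obtain ⟨i, rfl⟩ := (mz_bij hO (by norm_num)).2 a
  show e _ = 0
  fin_cases i
  · exact v0
  · exact z1
  · exact z2
  · exact v2.trans z2
  · exact v1.trans z1

/-- **the Siegel numbers for a point of order six** -/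
theorem siegel6 {t : k} (hb : UE6.bb t ≠ 0) (hO : addOrderOf (P0 (UE6.cc t) hb) = 6)
    (hind : FK4.Indep t (t + 1)) [Fintype (AddSubgroup.zmultiples (P0 (UE6.cc t) hb))] :
    SiegelIndep (AddSubgroup.zmultiples (P0 (UE6.cc t) hb)) := by
  intro e e0 ee es ep
  have ht : t ≠ 0 := by rintro rfl; apply hb; unfold UE6.bb; ring
  have hs : t + 1 ≠ 0 := by
    intro h; apply hb; unfold UE6.bb; linear_combination t * h
  have eb : UE6.bb t = t * (t + 1) := by unfold UE6.bb; ring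
  have ec : UE6.cc t = t := rfl
  have hc : UE6.cc t ≠ 0 := ht
  have ebc : UE6.bb t - UE6.cc t = t ^ 2 := by rw [eb, ec]; ring
  have hbc : UE6.bb t ≠ UE6.cc t := by
    intro h; rw [h, sub_self] at ebc; exact pow_ne_zero 2 ht ebc.symm
  have hbs : UE6.bb t - UE6.cc t - UE6.cc t ^ 2 = 0 := by rw [ebc, ec]; ring
  have ep3 : 3 * UE6.cc t ^ 2 - 2 * UE6.bb t * UE6.cc t -
      (1 - UE6.cc t) * (UE6.bb t - UE6.cc t) = - t ^ 3 := by rw [ebc, eb, ec]; ring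
  obtain ⟨g1, g2, g3, g4, g5⟩ := gam6 hb hc hbc hbs hO
  rw [prod_mz hO (by norm_num), Fin.prod_univ_six] at ep
  rw [sum_mz hO (by norm_num), Fin.sum_univ_six] at es
  have v1 : e (mz _ 6 5) = e (mz _ 6 1) := even_mz hO ee (by decide)
  have v2 : e (mz _ 6 4) = e (mz _ 6 2) := even_mz hO ee (by decide)
  have v0 : e (mz (P0 (UE6.cc t) hb) 6 0) = 0 := by rw [zero_mz, e0]
  set x1 := e (mz _ 6 1) with hx1
  set x2 := e (mz _ 6 2) with hx2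
  set x3 := e (mz _ 6 3) with hx3
  rw [v0, v1, v2] at es ep
  rw [g1, g2, g3, g4, g5, zpow_zero, one_mul] at ep
  have h1 := con6 (t := t) (s := t + 1) (a₁ := 10) (b₁ := 8) (a₂ := 16) (b₂ := 8) (a₃ := 18)
    (b₃ := 0) (y := -x1 - x2) ht hs (by
      rw [ep3, ebc]
      exact mul_ne_zero (mul_ne_zero (mul_ne_zero (neg_ne_zero.mpr (pow_ne_zero _ ht))
        (pow_ne_zero _ hc)) (pow_ne_zero _ (pow_ne_zero _ ht))) (neg_ne_zero.mpr one_ne_zero))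
    ep (by omega) (by rw [eb, ec]; norm_cast; ring) (by rw [ebc, eb, ec]; norm_cast; ring)
    (by rw [ep3, ebc, ec, zpow_zero, mul_one, show (18 : ℤ) = ((18 : ℕ) : ℤ) from rfl,
      zpow_natCast]; ring)
  obtain ⟨h2, h3⟩ := hind _ _ h1
  have z1 : x1 = 0 := by omega
  have z2 : x2 = 0 := by omega
  have z3 : x3 = 0 := by omega
  funext a
  obtain ⟨i, rfl⟩ := (mz_bij hO (by norm_num)).2 a
  show e _ = 0
  fin_cases i
  · exact v0
  · exact z1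
  · exact z2
  · exact z3
  · exact v2.trans z2
  · exact v1.trans z1

/-- **the Siegel numbers for a point of order seven** -/
theorem siegel7 {t : k} (hb : K7.bb t ≠ 0) (hO : addOrderOf (P0 (K7.cc t) hb) = 7)
    (hind : FK4.Indep t (t - 1)) [Fintype (AddSubgroup.zmultiples (P0 (K7.cc t) hb))] :
    SiegelIndep (AddSubgroup.zmultiples (P0 (K7.cc t) hb)) := by
  intro e e0 ee es ep
  have ht : t ≠ 0 := FK4.t_ne hb
  have hs : t - 1 ≠ 0 := sub_ne_zero.mpr (FK4.t_ne_one hb)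
  have eb : K7.bb t = t ^ 2 * (t - 1) := by unfold K7.bb; ring
  have ec : K7.cc t = t * (t - 1) := by unfold K7.cc; ring
  have hc : K7.cc t ≠ 0 := by rw [ec]; exact mul_ne_zero ht hs
  have ebc : K7.bb t - K7.cc t = t * (t - 1) ^ 2 := by rw [eb, ec]; ring
  have ebs : K7.bb t - K7.cc t - K7.cc t ^ 2 = -(t * (t - 1) ^ 3) := by rw [eb, ec]; ring
  have hbc : K7.bb t ≠ K7.cc t := by
    intro h; rw [h, sub_self] at ebc; exact mul_ne_zero ht (pow_ne_zero 2 hs) ebc.symm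
  have hbs : K7.bb t - K7.cc t - K7.cc t ^ 2 ≠ 0 := by
    rw [ebs]; exact neg_ne_zero.mpr (mul_ne_zero ht (pow_ne_zero 3 hs))
  obtain ⟨g1, g2, g3, g4, g5, g6⟩ := gam7 hb hc hbc hbs hO
  rw [prod_mz hO (by norm_num), Fin.prod_univ_seven] at ep
  rw [sum_mz hO (by norm_num), Fin.sum_univ_seven] at es
  have v1 : e (mz _ 7 6) = e (mz _ 7 1) := even_mz hO ee (by decide)
  have v2 : e (mz _ 7 5) = e (mz _ 7 2) := even_mz hO ee (by decide)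
  have v3 : e (mz _ 7 4) = e (mz _ 7 3) := even_mz hO ee (by decide)
  have v0 : e (mz (P0 (K7.cc t) hb) 7 0) = 0 := by rw [zero_mz, e0]
  set x1 := e (mz _ 7 1) with hx1
  set x2 := e (mz _ 7 2) with hx2
  set x3 := e (mz _ 7 3) with hx3
  rw [v0, v1, v2, v3] at es ep
  rw [g1, g2, g3, g4, g5, g6, zpow_zero, one_mul] at ep
  have h1 := con7 (t := t) (s := t - 1) (a₁ := 20) (b₁ := 12) (a₂ := 24) (b₂ := 20) (a₃ := 12)
    (b₃ := 24) ht hs ep (by rw [eb, ec]; norm_cast; ring) (by rw [ebc, eb, ec]; norm_cast; ring)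
    (by rw [ebs, ebc, ec]; norm_cast; ring)
  obtain ⟨h2, h3⟩ := hind _ _ h1
  have z1 : x1 = 0 := by omega
  have z2 : x2 = 0 := by omega
  have z3 : x3 = 0 := by omega
  funext a
  obtain ⟨i, rfl⟩ := (mz_bij hO (by norm_num)).2 a
  show e _ = 0
  fin_cases i
  · exact v0
  · exact z1
  · exact z2
  · exact z3
  · exact v3.trans z3
  · exact v2.trans z2
  · exact v1.trans z1

/-- **the Siegel numbers for a point of order eight** -/
theorem siegel8 {t : k} (hb : UE8.bb t ≠ 0) (ht : t ≠ 0)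
    (hO : addOrderOf (P0 (UE8.cc t) hb) = 8)
    (hind : ∀ l m n : ℤ, t ^ l * (t - 1) ^ m * (2 * t - 1) ^ n = 1 → l = 0 ∧ m = 0 ∧ n = 0)
    [Fintype (AddSubgroup.zmultiples (P0 (UE8.cc t) hb))] :
    SiegelIndep (AddSubgroup.zmultiples (P0 (UE8.cc t) hb)) := by
  intro e e0 ee es ep
  have hs : t - 1 ≠ 0 := by intro h; apply hb; unfold UE8.bb; rw [h, mul_zero]
  have hu : 2 * t - 1 ≠ 0 := by intro h; apply hb; unfold UE8.bb; rw [h, zero_mul]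
  have eb : UE8.bb t = (2 * t - 1) * (t - 1) := rfl
  have ec : UE8.cc t = (2 * t - 1) * (t - 1) / t := rfl
  have hc : UE8.cc t ≠ 0 := by rw [ec]; exact div_ne_zero (mul_ne_zero hu hs) ht
  have hd : UE8.bb t = t * UE8.cc t := by rw [eb, ec]; field_simp
  have ebc : UE8.bb t - UE8.cc t = (2 * t - 1) * (t - 1) ^ 2 / t := by
    rw [eb, ec]; field_simp
  have ebs : UE8.bb t - UE8.cc t - UE8.cc t ^ 2 = -((2 * t - 1) * (t - 1) ^ 3 / t ^ 2) := by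
    rw [eb, ec]; field_simp; ring
  have ebd : UE8.bb t - t * (t - 1) = (t - 1) ^ 2 := by rw [eb]; ring
  have ecd : UE8.cc t - t * (t - 1) = -((t - 1) ^ 3 / t) := by rw [ec]; field_simp; ring
  have hbc : UE8.bb t ≠ UE8.cc t := by
    intro h; rw [h, sub_self] at ebc
    exact div_ne_zero (mul_ne_zero hu (pow_ne_zero 2 hs)) ht ebc.symm
  have hbs : UE8.bb t - UE8.cc t - UE8.cc t ^ 2 ≠ 0 := by
    rw [ebs]; exact neg_ne_zero.mpr (div_ne_zero (mul_ne_zero hu (pow_ne_zero 3 hs))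
      (pow_ne_zero 2 ht))
  have hdb : UE8.bb t ≠ t * (t - 1) := by
    intro h; rw [h, sub_self] at ebd; exact pow_ne_zero 2 hs ebd.symm
  have hdc : UE8.cc t ≠ t * (t - 1) := by
    intro h; rw [h, sub_self] at ecd
    exact neg_ne_zero.mpr (div_ne_zero (pow_ne_zero 3 hs) ht) ecd.symm
  have h8 : 2 * (t ^ 2 * (UE8.cc t + 1 - t)) + (1 - UE8.cc t) * (t * (t - 1)) - UE8.bb t = 0 := by
    rw [eb, ec]; field_simp; ring
  have ep4 : 3 * (t * (t - 1)) ^ 2 - 2 * UE8.bb t * (t * (t - 1)) -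
      (1 - UE8.cc t) * (t ^ 2 * (UE8.cc t + 1 - t)) = (t - 1) ^ 4 := by
    rw [eb, ec]; field_simp; ring
  have ebd' : t * (t - 1) - UE8.bb t = -(t - 1) ^ 2 := by rw [← ebd]; ring
  have ecd' : t * (t - 1) - UE8.cc t = (t - 1) ^ 3 / t := by
    have := ecd; linear_combination -this
  obtain ⟨g1, g2, g3, g4, g5, g6, g7⟩ := gam8 hb hc hbc hbs hd (mul_ne_zero ht hs) hdb hdc h8 hO
  rw [prod_mz hO (by norm_num), Fin.prod_univ_eight] at ep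
  rw [sum_mz hO (by norm_num), Fin.sum_univ_eight] at es
  have v1 : e (mz _ 8 7) = e (mz _ 8 1) := even_mz hO ee (by decide)
  have v2 : e (mz _ 8 6) = e (mz _ 8 2) := even_mz hO ee (by decide)
  have v3 : e (mz _ 8 5) = e (mz _ 8 3) := even_mz hO ee (by decide)
  have v0 : e (mz (P0 (UE8.cc t) hb) 8 0) = 0 := by rw [zero_mz, e0]
  set x1 := e (mz _ 8 1) with hx1
  set x2 := e (mz _ 8 2) with hx2
  set x3 := e (mz _ 8 3) with hx3
  set x4 := e (mz _ 8 4) with hx4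
  rw [v0, v1, v2, v3] at es ep
  rw [g1, g2, g3, g4, g5, g6, g7, zpow_zero, one_mul] at ep
  have h1 := con8 (t := t) (s := t - 1) (u := 2 * t - 1) (a₁ := -2) (b₁ := 14) (c₁ := 12)
    (a₂ := -8) (b₂ := 24) (c₂ := 16) (a₃ := -18) (b₃ := 30) (c₃ := 12) (a₄ := 0) (b₄ := 32)
    (c₄ := 0) (y := -x1 - x2 - x3) ht hs hu (by
      rw [ep4, ebd', ecd']
      exact neg_ne_zero.mpr (mul_ne_zero (mul_ne_zero (mul_ne_zero (pow_ne_zero _ hs)
        (pow_ne_zero _ (mul_ne_zero ht hs))) (pow_ne_zero _ (neg_ne_zero.mpr (pow_ne_zero _ hs))))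
        (pow_ne_zero _ (div_ne_zero (pow_ne_zero _ hs) ht))))
    ep (by omega)
    (by rw [eb, ec]; field_simp) (by rw [ebd, ebc, eb, ec]; field_simp)
    (by rw [ecd, ebs, ebc, ec]; field_simp) (by rw [ep4, ebd', ecd']; field_simp)
  obtain ⟨h2, h3, h4⟩ := hind _ _ _ h1
  have z1 : x1 = 0 := by omega
  have z2 : x2 = 0 := by omega
  have z3 : x3 = 0 := by omega
  have z4 : x4 = 0 := by omega
  funext a
  obtain ⟨i, rfl⟩ := (mz_bij hO (by norm_num)).2 a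
  show e _ = 0
  fin_cases i
  · exact v0
  · exact z1
  · exact z2
  · exact z3
  · exact z4
  · exact v3.trans z3
  · exact v2.trans z2
  · exact v1.trans z1

end main

end Pool.Agent.GK
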