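import Pool.Agent.Lib_helper76.UE10.Def

/-!
# The Tate normal forms of the points of order ten
-/

set_option autoImplicit false
set_option linter.unusedSectionVars false

namespace Pool.Agent.UEG

open WeierstrassCurve.Affine
open TN (Wt)

section five

variable {k : Type*} [Field k] [DecidableEq k] {b c : k}

lemma five_P0 (hb : b ≠ 0) (hc : c ≠ 0) {d f : k} (hd : b = d * c) (hf : c = f * (d - 1)) :
    ∃ h, (5 : ℕ) • P0 c hb = .some (d * f * (f - 1)) (d * f ^ 2 * (d - f)) h := by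
  obtain ⟨h4, e4⟩ := four_P0 hb hc hd
  have hd0 : d ≠ 0 := by rintro rfl; apply hb; rw [hd, zero_mul]
  have hm : d - 1 ≠ 0 := by intro h; apply hc; rw [hf, h, mul_zero]
  have hx4 : d * (d - 1) ≠ 0 := mul_ne_zero hd0 hm
  have hxy : ¬(d * (d - 1) = 0 ∧ d ^ 2 * (c + 1 - d) = (Wt b c).negY 0 0) := fun h => hx4 h.1
  have hs : (Wt b c).slope (d * (d - 1)) 0 (d ^ 2 * (c + 1 - d)) 0 = d * (f - 1) := by
    rw [slope_of_X_ne hx4, hf]
    field_simp
    ring
  have e1 : (Wt b c).addX (d * (d - 1)) 0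
      ((Wt b c).slope (d * (d - 1)) 0 (d ^ 2 * (c + 1 - d)) 0) = d * f * (f - 1) := by
    rw [hs]
    show (d * (f - 1)) ^ 2 + (1 - c) * (d * (f - 1)) - (-b) - d * (d - 1) - 0 = _
    rw [hd, hf]
    ring
  have e2 : (Wt b c).addY (d * (d - 1)) 0 (d ^ 2 * (c + 1 - d))
      ((Wt b c).slope (d * (d - 1)) 0 (d ^ 2 * (c + 1 - d)) 0) = d * f ^ 2 * (d - f) := by
    unfold WeierstrassCurve.Affine.addY WeierstrassCurve.Affine.negAddY
    rw [e1, hs, negY_wt, hd, hf]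
    ring
  have e5 : (5 : ℕ) • P0 c hb = .some _ _ (nonsingular_add h4 (ns0 hb) hxy) := by
    rw [show (5 : ℕ) = 4 + 1 by norm_num, add_nsmul, one_nsmul, e4]
    exact Point.add_some hxy
  have hns := nonsingular_add h4 (ns0 hb) hxy
  rw [e1, e2] at hns
  refine ⟨hns, ?_⟩
  rw [e5]
  simp only [Point.some.injEq]
  exact ⟨e1, e2⟩

lemma six_P0 (hb : b ≠ 0) (hc : c ≠ 0) {d f m t : k} (hd : b = d * c) (hf : c = f * (d - 1))
    (hf1 : f - 1 ≠ 0) (ht : 1 - t ≠ 0) (hm : f = m / (1 - t)) (hdm : d = m + t) :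
    ∃ h, (6 : ℕ) • P0 c hb = .some (-(m * t)) (m ^ 2 * (m + 2 * t - 1)) h := by
  obtain ⟨h5, e5⟩ := five_P0 hb hc hd hf
  have hd0 : d ≠ 0 := by rintro rfl; apply hb; rw [hd, zero_mul]
  have hf0 : f ≠ 0 := by intro h; apply hc; rw [hf, h, zero_mul]
  have hx5 : d * f * (f - 1) ≠ 0 := mul_ne_zero (mul_ne_zero hd0 hf0) hf1
  have hxy : ¬(d * f * (f - 1) = 0 ∧ d * f ^ 2 * (d - f) = (Wt b c).negY 0 0) := fun h => hx5 h.1
  have hmf : m = f * (1 - t) := by rw [hm]; field_simp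
  have hdf : d - f = t * (1 - f) := by rw [hdm, hmf]; ring
  have hs : (Wt b c).slope (d * f * (f - 1)) 0 (d * f ^ 2 * (d - f)) 0 = -(f * t) := by
    rw [slope_of_X_ne hx5, hdf]
    field_simp
    ring
  have e1 : (Wt b c).addX (d * f * (f - 1)) 0
      ((Wt b c).slope (d * f * (f - 1)) 0 (d * f ^ 2 * (d - f)) 0) = -(m * t) := by
    rw [hs]
    show (-(f * t)) ^ 2 + (1 - c) * (-(f * t)) - (-b) - d * f * (f - 1) - 0 = _
    rw [hd, hf, hdm, hmf]
    ring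
  have e2 : (Wt b c).addY (d * f * (f - 1)) 0 (d * f ^ 2 * (d - f))
      ((Wt b c).slope (d * f * (f - 1)) 0 (d * f ^ 2 * (d - f)) 0) = m ^ 2 * (m + 2 * t - 1) := by
    unfold WeierstrassCurve.Affine.addY WeierstrassCurve.Affine.negAddY
    rw [e1, hs, negY_wt, hd, hf, hdm, hmf]
    ring
  have e6 : (6 : ℕ) • P0 c hb = .some _ _ (nonsingular_add h5 (ns0 hb) hxy) := by
    rw [show (6 : ℕ) = 5 + 1 by norm_num, add_nsmul, one_nsmul, e5]
    exact Point.add_some hxy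
  have hns := nonsingular_add h5 (ns0 hb) hxy
  rw [e1, e2] at hns
  refine ⟨hns, ?_⟩
  rw [e6]
  simp only [Point.some.injEq]
  exact ⟨e1, e2⟩

/-- order ten -/
lemma bc_of_ten (hb : b ≠ 0) (h : addOrderOf (P0 c hb) = 10) :
    ∃ t : k, t ≠ 0 ∧ t - 1 ≠ 0 ∧ 2 * t - 1 ≠ 0 ∧ t ^ 2 - 3 * t + 1 ≠ 0 ∧
      c = UE10.cc t ∧ b = UE10.bb t := by
  have hc : c ≠ 0 := by
    rintro rfl
    have := addOrderOf_le_of_nsmul_eq_zero (by norm_num : 0 < 4) (four_of_c hb)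
    omega
  obtain ⟨d, hd⟩ : ∃ d : k, b = d * c := ⟨b / c, by field_simp⟩
  have hd0 : d ≠ 0 := by
    rintro rfl
    apply hb
    rw [hd, zero_mul]
  obtain ⟨h4, e4⟩ := four_P0 hb hc hd
  have h10 : (10 : ℕ) • P0 c hb = 0 := by rw [← h]; exact addOrderOf_nsmul_eq_zero _
  have hd1 : d ≠ 1 := by
    rintro rfl
    -- then `4 P = - P`
    have e1 : (4 : ℕ) • P0 c hb = -P0 c hb := by
      rw [e4]
      show _ = -(Point.some 0 0 (ns0 hb))
      rw [Point.neg_some]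
      simp only [Point.some.injEq]
      rw [negY_wt, hd]
      constructor <;> ring
    have e2 : (5 : ℕ) • P0 c hb = 0 := by
      rw [show (5 : ℕ) = 4 + 1 by norm_num, add_nsmul, one_nsmul, e1]
      exact neg_add_cancel _
    have := addOrderOf_le_of_nsmul_eq_zero (by norm_num : 0 < 5) e2
    omega
  have hm : d - 1 ≠ 0 := sub_ne_zero.mpr hd1
  obtain ⟨f, hf⟩ : ∃ f : k, c = f * (d - 1) := ⟨c / (d - 1), by field_simp⟩
  have hf0 : f ≠ 0 := by intro h; apply hc; rw [hf, h, zero_mul]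
  obtain ⟨h5, e5⟩ := five_P0 hb hc hd hf
  have e : (5 : ℕ) • P0 c hb = -((5 : ℕ) • P0 c hb) := by
    rw [eq_neg_iff_add_eq_zero, ← add_nsmul]; exact h10
  rw [e5, Point.neg_some] at e
  simp only [Point.some.injEq, true_and] at e
  rw [negY_wt, hd, hf] at e
  have e7 : d * (f - (f - 1) ^ 2) = f ^ 2 := by
    have : d * f * (d * (f - (f - 1) ^ 2) - f ^ 2) = 0 := by linear_combination e
    have := (mul_eq_zero.mp this).resolve_left (mul_ne_zero hd0 hf0)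
    linear_combination this
  have hw : f - (f - 1) ^ 2 ≠ 0 := by
    intro h0
    rw [h0, mul_zero] at e7
    exact pow_ne_zero 2 hf0 e7.symm
  have hdw : d = f ^ 2 / (f - (f - 1) ^ 2) := by rw [eq_div_iff hw]; exact e7
  have hcw : c = f * (f - 1) * (2 * f - 1) / (f - (f - 1) ^ 2) := by
    rw [hf, hdw]
    field_simp
    ring
  refine ⟨f, hf0, ?_, ?_, ?_, hcw, ?_⟩
  · intro h0
    apply hc
    rw [hcw, h0]
    simp
  · intro h0
    apply hc
    rw [hcw, h0]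
    simp
  · intro h0
    apply hw
    linear_combination -h0
  · unfold UE10.bb UE10.cc
    rw [← hcw, ← hdw]
    exact hd

end five

end Pool.Agent.UEG

namespace Pool.Agent.FK4

open Pool.Agent.MK4 WeierstrassCurve.Affine
open Pool.Agent.TN (Wt)
open Pool.Agent.UEG (P0 Chg nx ny)

section

variable {k : Type*} [Field k] [DecidableEq k] {W : WeierstrassCurve.Affine k} {F : Type*}
  [Field F] [Algebra k F] {X Y : F} [CharZero k]

omit [DecidableEq k] in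
lemma bb10 : UE10.bb (2 : k) ≠ 0 := by unfold UE10.bb UE10.cc; norm_num

omit [DecidableEq k] in
lemma bb10' : UE10.bb (-1 : k) ≠ 0 := by unfold UE10.bb UE10.cc; norm_num

/-- the normal form with `t = 2` -/
def To10 (P : W.Point) (X Y : F) : Prop := ∃ x' y' : F,
  Generic (Wt (UE10.bb (2 : k)) (UE10.cc 2)) x' y' ∧ addOrderOf (P0 (UE10.cc (2 : k)) bb10) = 10 ∧
  SameS (AddSubgroup.zmultiples P) X Y (AddSubgroup.zmultiples (P0 (UE10.cc (2 : k)) bb10)) x' y' ∧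
  (IntermediateField.adjoin k {X, Y} = ⊤ → IntermediateField.adjoin k {x', y'} = ⊤)

/-- the normal form with `t = -1` -/
def To10' (P : W.Point) (X Y : F) : Prop := ∃ x' y' : F,
  Generic (Wt (UE10.bb (-1 : k)) (UE10.cc (-1))) x' y' ∧
  addOrderOf (P0 (UE10.cc (-1 : k)) bb10') = 10 ∧
  SameS (AddSubgroup.zmultiples P) X Y (AddSubgroup.zmultiples (P0 (UE10.cc (-1 : k)) bb10'))
    x' y' ∧
  (IntermediateField.adjoin k {X, Y} = ⊤ → IntermediateField.adjoin k {x', y'} = ⊤)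

/-- points of order ten -/
theorem tate10s (hg : Generic W X Y) (P : W.Point) (h : addOrderOf P = 10) :
    ∃ (t : k) (x y : F) (hb : UE10.bb t ≠ 0), t ≠ 0 ∧ t - 1 ≠ 0 ∧ 2 * t - 1 ≠ 0 ∧
      t ^ 2 - 3 * t + 1 ≠ 0 ∧
      Tate P X Y (UE10.bb t) (UE10.cc t) x y ∧
      Generic (Wt (UE10.bb t) (UE10.cc t)) x y ∧
      addOrderOf (P0 (UE10.cc t) hb) = 10 ∧
      SameS (AddSubgroup.zmultiples P) X Y (AddSubgroup.zmultiples (P0 (UE10.cc t) hb)) x y ∧
      (IntermediateField.adjoin k {X, Y} = ⊤ → IntermediateField.adjoin k {x, y} = ⊤) ∧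
      (t = 2 ∨ 3 * t = 1 → To10 P X Y) ∧ (t = -1 ∨ 3 * t = 2 → To10' P X Y) := by
  rcases P with _ | ⟨p₁, p₂, hP⟩
  · exfalso
    have : addOrderOf (0 : W.Point) = 10 := h
    rw [addOrderOf_zero] at this
    omega
  obtain ⟨b, c, u, s, hb, hC, hO, hH⟩ := UEG.tate_of_order hP (by norm_num : 4 ≤ 10) h
  obtain ⟨t, ht0, ht1, ht2, ht3, ec', eb'⟩ := UEG.bc_of_ten hb hO
  subst ec' eb'
  obtain ⟨x, y, i1, i2, i3, i4⟩ := tateS_of hg hP hb hC
  have hP10 : (10 : ℕ) • Point.some p₁ p₂ hP = 0 := by rw [← h]; exact addOrderOf_nsmul_eq_zero _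
  refine ⟨t, x, y, hb, ht0, ht1, ht2, ht3, i1, i2, hO, i3, i4, ?_, ?_⟩
  · rintro (rfl | h2)
    · exact ⟨x, y, i2, hO, i3, i4⟩
    · -- `t = 1 / 3`
      have h2' : t = 1 / 3 := by linear_combination h2 / 3
      subst h2'
      obtain ⟨h3, e3⟩ := UEG.three_P0 (c := UE10.cc (1 / 3 : k)) hb
      have hC' : Chg (Wt (UE10.bb (1 / 3 : k)) (UE10.cc (1 / 3))) (Wt (UE10.bb 2) (UE10.cc 2))
          (-1 / 3) (UE10.cc (1 / 3)) 0 (UE10.bb (1 / 3) - UE10.cc (1 / 3)) := by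
        constructor <;> (try simp only [Wt, UE10.bb, UE10.cc]) <;> norm_num
      obtain ⟨x', y', j1, j2, j3, j4, j5⟩ := tateS_mul hg hP hb hC bb10 hC' e3
      have hz := zm_eq hP10 (m := 3) (m' := 7) (by norm_num)
      rw [hz] at j4
      exact ⟨x', y', j2, j3.trans ((order_eq hz).trans h), j4, j5⟩
  · rintro (rfl | h2)
    · exact ⟨x, y, i2, hO, i3, i4⟩
    · -- `t = 2 / 3`
      have h2' : t = 2 / 3 := by linear_combination h2 / 3
      subst h2'
      obtain ⟨h3, e3⟩ := UEG.three_P0 (c := UE10.cc (2 / 3 : k)) hb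
      have hC' : Chg (Wt (UE10.bb (2 / 3 : k)) (UE10.cc (2 / 3))) (Wt (UE10.bb (-1)) (UE10.cc (-1)))
          (1 / 3) (UE10.cc (2 / 3)) (-3 / 5) (UE10.bb (2 / 3) - UE10.cc (2 / 3)) := by
        constructor <;> (try simp only [Wt, UE10.bb, UE10.cc]) <;> norm_num
      obtain ⟨x', y', j1, j2, j3, j4, j5⟩ := tateS_mul hg hP hb hC bb10' hC' e3
      have hz := zm_eq hP10 (m := 3) (m' := 7) (by norm_num)
      rw [hz] at j4
      exact ⟨x', y', j2, j3.trans ((order_eq hz).trans h), j4, j5⟩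

end

end Pool.Agent.FK4
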