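import Pool.Agent.Lib_helper76.UEN.B
import Pool.Agent.Lib_helper87.FAM.T10

/-!
# The functions supported on the multiples of a point, from divisors; points of order ten
-/

set_option autoImplicit false
set_option linter.unusedSectionVars false

open scoped TensorProduct

namespace Pool.Agent.UEN

open WeierstrassCurve.Affine Polynomial WithZero GK UP
open UEG (Gen IsUn LineOK P0 negY_wt)
open TN (Wt)
open MK4 (FT lg)

section mono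

variable {k : Type*} [Field k] [DecidableEq k] [CharZero k] {W : WeierstrassCurve.Affine k}
  {F : Type*} [Field F] [DecidableEq F] [Algebra k F] {X Y : F} {P : W.Point}
  {n₀ : ℕ} [NeZero n₀] {hO : addOrderOf P = n₀}
  [Fintype (AddSubgroup.zmultiples P)] [DecidableEq (AddSubgroup.zmultiples P)]
  {hg : Gen W X Y}

lemma exists_PQ (hO : addOrderOf P = n₀) (hg : Gen W X Y) {f : F}
    (hf : IsUn (AddSubgroup.zmultiples P) X Y f) :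
    ∃ M : ZMod n₀ → ℤ, PQ hO hg f M ∧ ∑ x, M x = 0 ∧ ∑ x, M x • x = 0 := by
  obtain ⟨m, κ, w, h⟩ := exists_PU lc_ok hg hf
  refine ⟨fun x => m (en hO x), ⟨hf, κ, w, ?_⟩, ?_, ?_⟩
  · have : (fun a => m (en hO ((en hO).symm a))) = m := by
      funext a
      rw [AddEquiv.apply_symm_apply]
    show PU _ _ _ _ (fun a => m (en hO ((en hO).symm a))) _ _
    rw [this]; exact h
  · rw [show ∑ x, m (en hO x) = ∑ x, m x from Equiv.sum_comp (en hO).toEquiv m]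
    exact h.s0
  · have h1 := h.s1
    rw [← Equiv.sum_comp (en hO).toEquiv] at h1
    have h2 : en hO (∑ x, m (en hO x) • x) = 0 := by
      rw [map_sum, ← h1]
      refine Finset.sum_congr rfl fun x _ => ?_
      rw [map_zsmul]; rfl
    exact (AddEquiv.map_eq_zero_iff _).mp h2

lemma pq_mon {r : ℕ} {u : Fin r → F} {dU : Fin r → ZMod n₀ → ℤ}
    (hu : ∀ j, PQ hO hg (u j) (dU j)) (n : Fin r → ℤ) :
    PQ hO hg (∏ j, u j ^ n j) (fun x => ∑ j, n j * dU j x) :=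
  PQ.prod _ fun j => (hu j).zpow (n j)

/-- **the functions supported on the multiples are the monomials**, if the divisors of the
functions generate -/
theorem mono_iff {r : ℕ} {u : Fin r → F} {dU : Fin r → ZMod n₀ → ℤ}
    (hu : ∀ j, PQ hO hg (u j) (dU j))
    (hinv : ∀ M : ZMod n₀ → ℤ, ∑ x, M x = 0 → ∑ x, M x • x = 0 →
      ∃ n : Fin r → ℤ, ∀ x, M x = ∑ j, n j * dU j x) (f : F) :
    IsUn (AddSubgroup.zmultiples P) X Y f ↔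
      ∃ (c : k) (n : Fin r → ℤ), c ≠ 0 ∧ f = algebraMap k F c * ∏ j, u j ^ n j := by
  constructor
  · intro hf
    obtain ⟨M, h1, h2, h3⟩ := exists_PQ hO hg hf
    obtain ⟨n, hn⟩ := hinv M h2 h3
    obtain ⟨c, hc, e⟩ := h1.eq_smul ((pq_mon hu n).congr fun x => (hn x).symm)
    exact ⟨c, n, hc, e⟩
  · rintro ⟨c, n, hc, rfl⟩
    exact ((pq_mon hu n).smul hc).1

/-- a constant monomial is trivial -/
theorem mono_const {r : ℕ} {u : Fin r → F} {dU : Fin r → ZMod n₀ → ℤ}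
    (hu : ∀ j, PQ hO hg (u j) (dU j))
    (hinj : ∀ n : Fin r → ℤ, (∀ x, ∑ j, n j * dU j x = 0) → n = 0) {n : Fin r → ℤ} {s : k}
    (h : ∏ j, u j ^ n j = algebraMap k F s) : n = 0 := by
  have h1 := pq_mon hu n
  have hs : s ≠ 0 := by
    rintro rfl
    rw [map_zero] at h
    exact h1.1.1 h
  rw [h] at h1
  exact hinj n fun x => h1.unique (PQ.const hg hs) x

end mono

end Pool.Agent.UEN

namespace Pool.Agent.UE10B

open WeierstrassCurve.Affine Polynomial UEN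
open UE10 (bb cc)
open UEG (Gen IsUn LineOK P0 negY_wt inH)
open TN (Wt)

section defs

variable {k : Type*} [Field k] {F : Type*} [Field F] [Algebra k F]

/-- `b / c` -/
def dd (t : k) : k := t ^ 2 / (t - (t - 1) ^ 2)

/-- the abscissa of `4 P` -/
def x4 (t : k) : k := dd t * (dd t - 1)

/-- the abscissa of `5 P` -/
def x5 (t : k) : k := dd t * t * (t - 1)

/-- the slope of the line through `P` and `3 P` -/
def s3 (t : k) : k := dd t - 1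

/-- the slope of the line through `P` and `4 P` -/
def s4 (t : k) : k := dd t * (t - 1)

/-- the basis of the functions supported on the multiples -/
def uF (t : k) (x y : F) : Fin 9 → F :=
  ![x, x - algebraMap k F (bb t), x - algebraMap k F (cc t), x - algebraMap k F (x4 t),
    x - algebraMap k F (x5 t), y, y - algebraMap k F (cc t) * x, y - algebraMap k F (s3 t) * x,
    y - algebraMap k F (s4 t) * x]

/-- the divisors of the nine functions -/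
def dU : Fin 9 → ZMod 10 → ℤ := ![dV 1, dV 2, dV 3, dV 4, dV 5, dL 1 1, dL 1 2, dL 1 3, dL 1 4]

end defs

/-- the table of the divisors -/
def tab : Fin 9 → Fin 10 → ℤ :=
  ![![-2, 1, 0, 0, 0, 0, 0, 0, 0, 1],
    ![-2, 0, 1, 0, 0, 0, 0, 0, 1, 0],
    ![-2, 0, 0, 1, 0, 0, 0, 1, 0, 0],
    ![-2, 0, 0, 0, 1, 0, 1, 0, 0, 0],
    ![-2, 0, 0, 0, 0, 2, 0, 0, 0, 0],
    ![-3, 2, 0, 0, 0, 0, 0, 0, 1, 0],
    ![-3, 1, 1, 0, 0, 0, 0, 1, 0, 0],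
    ![-3, 1, 0, 1, 0, 0, 1, 0, 0, 0],
    ![-3, 1, 0, 0, 1, 1, 0, 0, 0, 0]]

lemma dU_tab (j : Fin 9) (x : ZMod 10) : dU j x = tab j x := by
  have : ∀ (j : Fin 9) (x : Fin 10),
      (fun (j : Fin 9) (x : Fin 10) => dU j x) j x = tab j x := by
    decide
  exact this j x

lemma sum10 (f : Fin 10 → ℤ) : ∑ x, f x = f 0 + f 1 + f 2 + f 3 + f 4 + f 5 + f 6 + f 7 + f 8 + f 9 := by
  rw [Fin.sum_univ_castSucc, Fin.sum_univ_castSucc, Fin.sum_univ_eight]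
  rfl

lemma sum_dU (n : Fin 9 → ℤ) (x : ZMod 10) : ∑ j, n j * dU j x =
    n 0 * tab 0 x + n 1 * tab 1 x + n 2 * tab 2 x + n 3 * tab 3 x + n 4 * tab 4 x + n 5 * tab 5 x + n 6 * tab 6 x + n 7 * tab 7 x + n 8 * tab 8 x := by
  simp only [dU_tab, Fin.sum_univ_castSucc, Fin.sum_univ_zero, zero_add]
  rfl

lemma dU_inv (M : ZMod 10 → ℤ) (h0 : ∑ x, M x = 0) (h1 : ∑ x, M x • x = 0) :
    ∃ n : Fin 9 → ℤ, ∀ x, M x = ∑ j, n j * dU j x := by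
  have h0' : M 0 + M 1 + M 2 + M 3 + M 4 + M 5 + M 6 + M 7 + M 8 + M 9 = 0 := by
    exact (sum10 M).symm.trans h0
  have h1' : ∃ K : ℤ, 1 * M 1 + 2 * M 2 + 3 * M 3 + 4 * M 4 + 5 * M 5 + 6 * M 6 + 7 * M 7 + 8 * M 8 + 9 * M 9 = 10 * K := by
    have h2 : ((∑ x : ZMod 10, M x * (x.val : ℤ) : ℤ) : ZMod 10) = 0 := by
      rw [← h1]
      push_cast
      refine Finset.sum_congr rfl fun x _ => ?_
      rw [ZMod.natCast_zmod_val, zsmul_eq_mul]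
    rw [ZMod.intCast_zmod_eq_zero_iff_dvd] at h2
    obtain ⟨K, hK⟩ := h2
    refine ⟨K, ?_⟩
    have h4 : M 0 * 0 + M 1 * 1 + M 2 * 2 + M 3 * 3 + M 4 * 4 + M 5 * 5 + M 6 * 6 + M 7 * 7 + M 8 * 8 + M 9 * 9 = ((10 : ℕ) : ℤ) * K :=
      (sum10 (fun x : Fin 10 => (M : Fin 10 → ℤ) x * ((x : ℕ) : ℤ))).symm.trans hK
    push_cast at h4
    linarith
  obtain ⟨K, hK⟩ := h1'
  refine ⟨![1 * M 9,
     (-2) * K + 1 * M 2 + 1 * M 3 + 1 * M 4 + 1 * M 5 + 1 * M 6 + 1 * M 7 + 2 * M 8 + 2 * M 9,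
     (-2) * K + 1 * M 3 + 1 * M 4 + 1 * M 5 + 1 * M 6 + 2 * M 7 + 2 * M 8 + 2 * M 9,
     (-2) * K + 1 * M 4 + 1 * M 5 + 2 * M 6 + 2 * M 7 + 2 * M 8 + 2 * M 9,
     (-1) * K + 1 * M 5 + 1 * M 6 + 1 * M 7 + 1 * M 8 + 1 * M 9,
     2 * K + (-1) * M 2 + (-1) * M 3 + (-1) * M 4 + (-1) * M 5 + (-1) * M 6 + (-1) * M 7 + (-1) * M 8 + (-2) * M 9,
     2 * K + (-1) * M 3 + (-1) * M 4 + (-1) * M 5 + (-1) * M 6 + (-1) * M 7 + (-2) * M 8 + (-2) * M 9,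
     2 * K + (-1) * M 4 + (-1) * M 5 + (-1) * M 6 + (-2) * M 7 + (-2) * M 8 + (-2) * M 9,
     2 * K + (-1) * M 5 + (-2) * M 6 + (-2) * M 7 + (-2) * M 8 + (-2) * M 9], ?_⟩
  intro x
  rw [sum_dU]
  fin_cases x
  · show M 0 = (1 * M 9) * (-2) + ((-2) * K + 1 * M 2 + 1 * M 3 + 1 * M 4 + 1 * M 5 + 1 * M 6 + 1 * M 7 + 2 * M 8 + 2 * M 9) * (-2) + ((-2) * K + 1 * M 3 + 1 * M 4 + 1 * M 5 + 1 * M 6 + 2 * M 7 + 2 * M 8 + 2 * M 9) * (-2) + ((-2) * K + 1 * M 4 + 1 * M 5 + 2 * M 6 + 2 * M 7 + 2 * M 8 + 2 * M 9) * (-2) + ((-1) * K + 1 * M 5 + 1 * M 6 + 1 * M 7 + 1 * M 8 + 1 * M 9) * (-2) + (2 * K + (-1) * M 2 + (-1) * M 3 + (-1) * M 4 + (-1) * M 5 + (-1) * M 6 + (-1) * M 7 + (-1) * M 8 + (-2) * M 9) * (-3) + (2 * K + (-1) * M 3 + (-1) * M 4 + (-1) * M 5 + (-1) * M 6 + (-1) * M 7 + (-2) * M 8 + (-2) * M 9) * (-3) + (2 * K + (-1) * M 4 + (-1) * M 5 + (-1)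 * M 6 + (-2) * M 7 + (-2) * M 8 + (-2) * M 9) * (-3) + (2 * K + (-1) * M 5 + (-2) * M 6 + (-2) * M 7 + (-2) * M 8 + (-2) * M 9) * (-3)
    linarith
  · show M 1 = (1 * M 9) * (1) + ((-2) * K + 1 * M 2 + 1 * M 3 + 1 * M 4 + 1 * M 5 + 1 * M 6 + 1 * M 7 + 2 * M 8 + 2 * M 9) * (0) + ((-2) * K + 1 * M 3 + 1 * M 4 + 1 * M 5 + 1 * M 6 + 2 * M 7 + 2 * M 8 + 2 * M 9) * (0) + ((-2) * K + 1 * M 4 + 1 * M 5 + 2 * M 6 + 2 * M 7 + 2 * M 8 + 2 * M 9) * (0) + ((-1) * K + 1 * M 5 + 1 * M 6 + 1 * M 7 + 1 * M 8 + 1 * M 9) * (0) + (2 * K + (-1) * M 2 + (-1) * M 3 + (-1) * M 4 + (-1) * M 5 + (-1) * M 6 + (-1) * M 7 + (-1) * M 8 + (-2) * M 9) * (2) + (2 * K + (-1) * M 3 + (-1) * M 4 + (-1) * M 5 + (-1) * M 6 + (-1) * M 7 + (-2) * M 8 + (-2) * M 9) * (1) + (2 * K + (-1) * M 4 + (-1) * M 5 + (-1) * M 6 + (-2) * M 7 + (-2) * M 8 + (-2) * M 9) * (1) + (2 * K + (-1) *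 M 5 + (-2) * M 6 + (-2) * M 7 + (-2) * M 8 + (-2) * M 9) * (1)
    linarith
  · show M 2 = (1 * M 9) * (0) + ((-2) * K + 1 * M 2 + 1 * M 3 + 1 * M 4 + 1 * M 5 + 1 * M 6 + 1 * M 7 + 2 * M 8 + 2 * M 9) * (1) + ((-2) * K + 1 * M 3 + 1 * M 4 + 1 * M 5 + 1 * M 6 + 2 * M 7 + 2 * M 8 + 2 * M 9) * (0) + ((-2) * K + 1 * M 4 + 1 * M 5 + 2 * M 6 + 2 * M 7 + 2 * M 8 + 2 * M 9) * (0) + ((-1) * K + 1 * M 5 + 1 * M 6 + 1 * M 7 + 1 * M 8 + 1 * M 9) * (0) + (2 * K + (-1) * M 2 + (-1) * M 3 + (-1) * M 4 + (-1) * M 5 + (-1) * M 6 + (-1) * M 7 + (-1) * M 8 + (-2) * M 9) * (0) + (2 * K + (-1) * M 3 + (-1) * M 4 + (-1) * M 5 + (-1) * M 6 + (-1) * M 7 + (-2) * M 8 + (-2) * M 9) * (1) + (2 * K + (-1) * M 4 + (-1) * M 5 + (-1) * M 6 + (-2) * M 7 + (-2) * M 8 + (-2) * M 9) * (0) + (2 * K + (-1) * M 5 + (-2) * M 6 + (-2) * M 7 + (-2) * M 8 + (-2) * M 9) * (0)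
    linarith
  · show M 3 = (1 * M 9) * (0) + ((-2) * K + 1 * M 2 + 1 * M 3 + 1 * M 4 + 1 * M 5 + 1 * M 6 + 1 * M 7 + 2 * M 8 + 2 * M 9) * (0) + ((-2) * K + 1 * M 3 + 1 * M 4 + 1 * M 5 + 1 * M 6 + 2 * M 7 + 2 * M 8 + 2 * M 9) * (1) + ((-2) * K + 1 * M 4 + 1 * M 5 + 2 * M 6 + 2 * M 7 + 2 * M 8 + 2 * M 9) * (0) + ((-1) * K + 1 * M 5 + 1 * M 6 + 1 * M 7 + 1 * M 8 + 1 * M 9) * (0) + (2 * K + (-1) * M 2 + (-1) * M 3 + (-1) * M 4 + (-1) * M 5 + (-1) * M 6 + (-1) * M 7 + (-1) * M 8 + (-2) * M 9) * (0) + (2 * K + (-1) * M 3 + (-1) * M 4 + (-1) * M 5 + (-1) * M 6 + (-1) * M 7 + (-2) * M 8 + (-2) * M 9) * (0) + (2 * K + (-1) * M 4 + (-1) * M 5 + (-1) * M 6 + (-2) * M 7 + (-2) * M 8 + (-2) * M 9) * (1) + (2 * K + (-1) * M 5 + (-2) * M 6 + (-2) * M 7 + (-2) * M 8 + (-2) * M 9) * (0)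
    linarith
  · show M 4 = (1 * M 9) * (0) + ((-2) * K + 1 * M 2 + 1 * M 3 + 1 * M 4 + 1 * M 5 + 1 * M 6 + 1 * M 7 + 2 * M 8 + 2 * M 9) * (0) + ((-2) * K + 1 * M 3 + 1 * M 4 + 1 * M 5 + 1 * M 6 + 2 * M 7 + 2 * M 8 + 2 * M 9) * (0) + ((-2) * K + 1 * M 4 + 1 * M 5 + 2 * M 6 + 2 * M 7 + 2 * M 8 + 2 * M 9) * (1) + ((-1) * K + 1 * M 5 + 1 * M 6 + 1 * M 7 + 1 * M 8 + 1 * M 9) * (0) + (2 * K + (-1) * M 2 + (-1) * M 3 + (-1) * M 4 + (-1) * M 5 + (-1) * M 6 + (-1) * M 7 + (-1) * M 8 + (-2) * M 9) * (0) + (2 * K + (-1) * M 3 + (-1) * M 4 + (-1) * M 5 + (-1) * M 6 + (-1) * M 7 + (-2) * M 8 + (-2) * M 9) * (0) + (2 * K + (-1) * M 4 + (-1) * M 5 + (-1) * M 6 + (-2) * M 7 + (-2) * M 8 + (-2) * M 9) * (0) + (2 * K + (-1) * M 5 + (-2) * M 6 + (-2) * M 7 + (-2) * M 8 + (-2) * M 9) * (1)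
    linarith
  · show M 5 = (1 * M 9) * (0) + ((-2) * K + 1 * M 2 + 1 * M 3 + 1 * M 4 + 1 * M 5 + 1 * M 6 + 1 * M 7 + 2 * M 8 + 2 * M 9) * (0) + ((-2) * K + 1 * M 3 + 1 * M 4 + 1 * M 5 + 1 * M 6 + 2 * M 7 + 2 * M 8 + 2 * M 9) * (0) + ((-2) * K + 1 * M 4 + 1 * M 5 + 2 * M 6 + 2 * M 7 + 2 * M 8 + 2 * M 9) * (0) + ((-1) * K + 1 * M 5 + 1 * M 6 + 1 * M 7 + 1 * M 8 + 1 * M 9) * (2) + (2 * K + (-1) * M 2 + (-1) * M 3 + (-1) * M 4 + (-1) * M 5 + (-1) * M 6 + (-1) * M 7 + (-1) * M 8 + (-2) * M 9) * (0) + (2 * K + (-1) * M 3 + (-1) * M 4 + (-1) * M 5 + (-1) * M 6 + (-1) * M 7 + (-2) * M 8 + (-2) * M 9) * (0) + (2 * K + (-1) * M 4 + (-1) * M 5 + (-1) * M 6 + (-2) * M 7 + (-2) * M 8 + (-2) * M 9) * (0) + (2 * K + (-1) * M 5 + (-2) * M 6 + (-2) * M 7 + (-2) * M 8 + (-2) * M 9) * (1)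
    linarith
  · show M 6 = (1 * M 9) * (0) + ((-2) * K + 1 * M 2 + 1 * M 3 + 1 * M 4 + 1 * M 5 + 1 * M 6 + 1 * M 7 + 2 * M 8 + 2 * M 9) * (0) + ((-2) * K + 1 * M 3 + 1 * M 4 + 1 * M 5 + 1 * M 6 + 2 * M 7 + 2 * M 8 + 2 * M 9) * (0) + ((-2) * K + 1 * M 4 + 1 * M 5 + 2 * M 6 + 2 * M 7 + 2 * M 8 + 2 * M 9) * (1) + ((-1) * K + 1 * M 5 + 1 * M 6 + 1 * M 7 + 1 * M 8 + 1 * M 9) * (0) + (2 * K + (-1) * M 2 + (-1) * M 3 + (-1) * M 4 + (-1) * M 5 + (-1) * M 6 + (-1) * M 7 + (-1) * M 8 + (-2) * M 9) * (0) + (2 * K + (-1) * M 3 + (-1) * M 4 + (-1) * M 5 + (-1) * M 6 + (-1) * M 7 + (-2) * M 8 + (-2) * M 9) * (0) + (2 * K + (-1) * M 4 + (-1) * M 5 + (-1) * M 6 + (-2) * M 7 + (-2) * M 8 + (-2) * M 9) * (1) + (2 * K + (-1) * M 5 + (-2) * M 6 + (-2) * M 7 + (-2) * M 8 + (-2) * M 9) * (0)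
    linarith
  · show M 7 = (1 * M 9) * (0) + ((-2) * K + 1 * M 2 + 1 * M 3 + 1 * M 4 + 1 * M 5 + 1 * M 6 + 1 * M 7 + 2 * M 8 + 2 * M 9) * (0) + ((-2) * K + 1 * M 3 + 1 * M 4 + 1 * M 5 + 1 * M 6 + 2 * M 7 + 2 * M 8 + 2 * M 9) * (1) + ((-2) * K + 1 * M 4 + 1 * M 5 + 2 * M 6 + 2 * M 7 + 2 * M 8 + 2 * M 9) * (0) + ((-1) * K + 1 * M 5 + 1 * M 6 + 1 * M 7 + 1 * M 8 + 1 * M 9) * (0) + (2 * K + (-1) * M 2 + (-1) * M 3 + (-1) * M 4 + (-1) * M 5 + (-1) * M 6 + (-1) * M 7 + (-1) * M 8 + (-2) * M 9) * (0) + (2 * K + (-1) * M 3 + (-1) * M 4 + (-1) * M 5 + (-1) * M 6 + (-1) * M 7 + (-2) * M 8 + (-2) * M 9) * (1) + (2 * K + (-1) * M 4 + (-1) * M 5 + (-1) * M 6 + (-2) * M 7 + (-2) * M 8 + (-2) * M 9) * (0) + (2 * K + (-1) * M 5 + (-2) * M 6 + (-2) * M 7 + (-2) * M 8 + (-2) * M 9) * (0)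
    linarith
  · show M 8 = (1 * M 9) * (0) + ((-2) * K + 1 * M 2 + 1 * M 3 + 1 * M 4 + 1 * M 5 + 1 * M 6 + 1 * M 7 + 2 * M 8 + 2 * M 9) * (1) + ((-2) * K + 1 * M 3 + 1 * M 4 + 1 * M 5 + 1 * M 6 + 2 * M 7 + 2 * M 8 + 2 * M 9) * (0) + ((-2) * K + 1 * M 4 + 1 * M 5 + 2 * M 6 + 2 * M 7 + 2 * M 8 + 2 * M 9) * (0) + ((-1) * K + 1 * M 5 + 1 * M 6 + 1 * M 7 + 1 * M 8 + 1 * M 9) * (0) + (2 * K + (-1) * M 2 + (-1) * M 3 + (-1) * M 4 + (-1) * M 5 + (-1) * M 6 + (-1) * M 7 + (-1) * M 8 + (-2) * M 9) * (1) + (2 * K + (-1) * M 3 + (-1) * M 4 + (-1) * M 5 + (-1) * M 6 + (-1) * M 7 + (-2) * M 8 + (-2) * M 9) * (0) + (2 * K + (-1) * M 4 + (-1) * M 5 + (-1) * M 6 + (-2) * M 7 + (-2) * M 8 + (-2) * M 9) * (0) + (2 * K + (-1) * M 5 + (-2) * M 6 + (-2) * M 7 + (-2) * M 8 + (-2) * M 9) * (0)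
    linarith
  · show M 9 = (1 * M 9) * (1) + ((-2) * K + 1 * M 2 + 1 * M 3 + 1 * M 4 + 1 * M 5 + 1 * M 6 + 1 * M 7 + 2 * M 8 + 2 * M 9) * (0) + ((-2) * K + 1 * M 3 + 1 * M 4 + 1 * M 5 + 1 * M 6 + 2 * M 7 + 2 * M 8 + 2 * M 9) * (0) + ((-2) * K + 1 * M 4 + 1 * M 5 + 2 * M 6 + 2 * M 7 + 2 * M 8 + 2 * M 9) * (0) + ((-1) * K + 1 * M 5 + 1 * M 6 + 1 * M 7 + 1 * M 8 + 1 * M 9) * (0) + (2 * K + (-1) * M 2 + (-1) * M 3 + (-1) * M 4 + (-1) * M 5 + (-1) * M 6 + (-1) * M 7 + (-1) * M 8 + (-2) * M 9) * (0) + (2 * K + (-1) * M 3 + (-1) * M 4 + (-1) * M 5 + (-1) * M 6 + (-1) * M 7 + (-2) * M 8 + (-2) * M 9) * (0) + (2 * K + (-1) * M 4 + (-1) * M 5 + (-1) * M 6 + (-2) * M 7 + (-2) * M 8 + (-2) * M 9) * (0) + (2 * K + (-1) * M 5 + (-2) * M 6 + (-2) * M 7 + (-2) * M 8 + (-2) * M 9) * (0)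
    linarith

lemma dU_inj (n : Fin 9 → ℤ) (h : ∀ x, ∑ j, n j * dU j x = 0) : n = 0 := by
  have q1 : n 0 * (1) + n 1 * (0) + n 2 * (0) + n 3 * (0) + n 4 * (0) + n 5 * (2) + n 6 * (1) + n 7 * (1) + n 8 * (1) = 0 := by
    have := h 1
    rw [sum_dU] at this
    exact this
  have q2 : n 0 * (0) + n 1 * (1) + n 2 * (0) + n 3 * (0) + n 4 * (0) + n 5 * (0) + n 6 * (1) + n 7 * (0) + n 8 * (0) = 0 := by
    have := h 2
    rw [sum_dU] at this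
    exact this
  have q3 : n 0 * (0) + n 1 * (0) + n 2 * (1) + n 3 * (0) + n 4 * (0) + n 5 * (0) + n 6 * (0) + n 7 * (1) + n 8 * (0) = 0 := by
    have := h 3
    rw [sum_dU] at this
    exact this
  have q4 : n 0 * (0) + n 1 * (0) + n 2 * (0) + n 3 * (1) + n 4 * (0) + n 5 * (0) + n 6 * (0) + n 7 * (0) + n 8 * (1) = 0 := by
    have := h 4
    rw [sum_dU] at this
    exact this
  have q5 : n 0 * (0) + n 1 * (0) + n 2 * (0) + n 3 * (0) + n 4 * (2) + n 5 * (0) + n 6 * (0) + n 7 * (0) + n 8 * (1) = 0 := by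
    have := h 5
    rw [sum_dU] at this
    exact this
  have q6 : n 0 * (0) + n 1 * (0) + n 2 * (0) + n 3 * (1) + n 4 * (0) + n 5 * (0) + n 6 * (0) + n 7 * (1) + n 8 * (0) = 0 := by
    have := h 6
    rw [sum_dU] at this
    exact this
  have q7 : n 0 * (0) + n 1 * (0) + n 2 * (1) + n 3 * (0) + n 4 * (0) + n 5 * (0) + n 6 * (1) + n 7 * (0) + n 8 * (0) = 0 := by
    have := h 7
    rw [sum_dU] at this
    exact this
  have q8 : n 0 * (0) + n 1 * (1) + n 2 * (0) + n 3 * (0) + n 4 * (0) + n 5 * (1) + n 6 * (0) + n 7 * (0) + n 8 * (0) = 0 := by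
    have := h 8
    rw [sum_dU] at this
    exact this
  have q9 : n 0 * (1) + n 1 * (0) + n 2 * (0) + n 3 * (0) + n 4 * (0) + n 5 * (0) + n 6 * (0) + n 7 * (0) + n 8 * (0) = 0 := by
    have := h 9
    rw [sum_dU] at this
    exact this
  funext j
  fin_cases j
  · show n 0 = 0; omega
  · show n 1 = 0; omega
  · show n 2 = 0; omega
  · show n 3 = 0; omega
  · show n 4 = 0; omega
  · show n 5 = 0; omega
  · show n 6 = 0; omega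
  · show n 7 = 0; omega
  · show n 8 = 0; omega

section units

variable {k : Type*} [Field k] [DecidableEq k] [CharZero k] {t : k}
  {F : Type*} [Field F] [Algebra k F] {x y : F}

lemma pq_uF [DecidableEq F] (ht : t ≠ 0) (ht1 : t - 1 ≠ 0) (ht2 : 2 * t - 1 ≠ 0)
    (hu : t ^ 2 - 3 * t + 1 ≠ 0) (hb : bb t ≠ 0)
    (hO : addOrderOf (P0 (cc t) hb) = 10) [Fintype (AddSubgroup.zmultiples (P0 (cc t) hb))]
    [DecidableEq (AddSubgroup.zmultiples (P0 (cc t) hb))] (hg : Gen (Wt (bb t) (cc t)) x y)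
    (j : Fin 9) : PQ hO hg (uF t x y j) (dU j) := by
  have hw : t - (t - 1) ^ 2 ≠ 0 := by intro h; apply hu; linear_combination -h
  have hc : cc t ≠ 0 := by
    unfold cc
    exact div_ne_zero (mul_ne_zero (mul_ne_zero ht ht1) ht2) hw
  have hd : bb t = dd t * cc t := rfl
  have hd1 : dd t - 1 = (t - 1) * (2 * t - 1) / (t - (t - 1) ^ 2) := by
    unfold dd; field_simp; ring
  have hd1' : dd t - 1 ≠ 0 := by rw [hd1]; exact div_ne_zero (mul_ne_zero ht1 ht2) hw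
  have hd0 : dd t ≠ 0 := div_ne_zero (pow_ne_zero 2 ht) hw
  have hf : cc t = t * (dd t - 1) := by rw [hd1]; unfold cc; field_simp
  have p1 : ∃ h, (1 : ZMod 10).val • P0 (cc t) hb = .some 0 0 h := ⟨_, one_nsmul _⟩
  have p2 : ∃ h, (2 : ZMod 10).val • P0 (cc t) hb = .some (bb t) (bb t * cc t) h :=
    UEG.two_P0 hb
  have p3 : ∃ h, (3 : ZMod 10).val • P0 (cc t) hb = .some (cc t) (bb t - cc t) h :=
    UEG.three_P0 hb
  have p4 : ∃ h, (4 : ZMod 10).val • P0 (cc t) hb = .some (x4 t) (dd t ^ 2 * (cc t + 1 - dd t)) h :=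
    UEG.four_P0 hb hc hd
  have p5 : ∃ h, (5 : ZMod 10).val • P0 (cc t) hb =
      .some (x5 t) (dd t * t ^ 2 * (dd t - t)) h :=
    UEG.five_P0 hb hc hd hf
  fin_cases j
  · have := pq_vert hO hg p1
    rwa [map_zero, sub_zero] at this
  · exact pq_vert hO hg p2
  · exact pq_vert hO hg p3
  · exact pq_vert hO hg p4
  · exact pq_vert hO hg p5
  · have h' : LineOK (bb t) (cc t) 0 0 0 0 0 0 := by
      refine ⟨by ring, Or.inr ⟨rfl, rfl, fun h' => hb (by linear_combination -h'), by ring⟩⟩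
    have := pq_line hO hg p1 p1 h'
    show PQ hO hg y (dL 1 1)
    simpa using this
  · have h' : LineOK (bb t) (cc t) 0 0 (bb t) (bb t * cc t) (cc t) 0 :=
      ⟨by ring, Or.inl ⟨Ne.symm hb, by ring⟩⟩
    have := pq_line hO hg p1 p2 h'
    rwa [map_zero, add_zero] at this
  · have h' : LineOK (bb t) (cc t) 0 0 (cc t) (bb t - cc t) (s3 t) 0 :=
      ⟨by ring, Or.inl ⟨Ne.symm hc, by rw [hd]; unfold s3; ring⟩⟩
    have := pq_line hO hg p1 p3 h'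
    rwa [map_zero, add_zero] at this
  · have h' : LineOK (bb t) (cc t) 0 0 (x4 t) (dd t ^ 2 * (cc t + 1 - dd t)) (s4 t) 0 := by
      refine ⟨by ring, Or.inl ⟨Ne.symm (mul_ne_zero hd0 hd1'), ?_⟩⟩
      unfold s4 x4
      rw [hf]; ring
    have := pq_line hO hg p1 p4 h'
    rwa [map_zero, add_zero] at this

/-- **the functions supported on the multiples of a point of order ten** -/
theorem supp10 (ht : t ≠ 0) (ht1 : t - 1 ≠ 0) (ht2 : 2 * t - 1 ≠ 0)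
    (hu : t ^ 2 - 3 * t + 1 ≠ 0) {hb : bb t ≠ 0} (hO : addOrderOf (P0 (cc t) hb) = 10)
    (hg : Gen (Wt (bb t) (cc t)) x y) (f : F) :
    IsUn (AddSubgroup.zmultiples (P0 (cc t) hb)) x y f ↔
      ∃ (c : k) (n : Fin 9 → ℤ), c ≠ 0 ∧ f = algebraMap k F c * ∏ j, uF t x y j ^ n j := by
  classical
  have hfin : Finite (AddSubgroup.zmultiples (P0 (cc t) hb)) :=
    Finite.of_equiv _ (en hO).toEquiv
  have hft : Fintype (AddSubgroup.zmultiples (P0 (cc t) hb)) := Fintype.ofFinite _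
  exact mono_iff (pq_uF ht ht1 ht2 hu hb hO hg) dU_inv f

/-- a constant monomial is trivial -/
theorem const10 (ht : t ≠ 0) (ht1 : t - 1 ≠ 0) (ht2 : 2 * t - 1 ≠ 0)
    (hu : t ^ 2 - 3 * t + 1 ≠ 0) {hb : bb t ≠ 0} (hO : addOrderOf (P0 (cc t) hb) = 10)
    (hg : Gen (Wt (bb t) (cc t)) x y) {n : Fin 9 → ℤ} {s : k}
    (h : ∏ j, uF t x y j ^ n j = algebraMap k F s) : n = 0 := by
  classical
  have hfin : Finite (AddSubgroup.zmultiples (P0 (cc t) hb)) :=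
    Finite.of_equiv _ (en hO).toEquiv
  have hft : Fintype (AddSubgroup.zmultiples (P0 (cc t) hb)) := Fintype.ofFinite _
  exact mono_const (pq_uF ht ht1 ht2 hu hb hO hg) dU_inj h

end units

end Pool.Agent.UE10B
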