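import Pool.Agent.Lib_helper76.UE12.A
import Pool.Agent.Lib_helper87.FAM.S10

/-!
# The functions supported on the multiples of a point of order twelve
-/

set_option autoImplicit false
set_option linter.unusedSectionVars false

namespace Pool.Agent.UE12B

open WeierstrassCurve.Affine Polynomial UEN
open UE12 (bb cc)
open UEG (Gen IsUn LineOK P0 negY_wt)
open TN (Wt)

section defs

variable {k : Type*} [Field k] {F : Type*} [Field F] [Algebra k F]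

/-- the basis of the functions supported on the multiples -/
def uF (t : k) (x y : F) : Fin 11 → F :=
  ![x, x - algebraMap k F (bb t), x - algebraMap k F (cc t), x - algebraMap k F (UE12.x4 t),
    x - algebraMap k F (UE12.x5 t), x - algebraMap k F (UE12.x6 t), y,
    y - algebraMap k F (cc t) * x, y - algebraMap k F (UE12.s3 t) * x,
    y - algebraMap k F (UE12.s4 t) * x, y - algebraMap k F (UE12.s5 t) * x]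

/-- the divisors of the eleven functions -/
def dU : Fin 11 → ZMod 12 → ℤ :=
  ![dV 1, dV 2, dV 3, dV 4, dV 5, dV 6, dL 1 1, dL 1 2, dL 1 3, dL 1 4, dL 1 5]

end defs

/-- the table of the divisors -/
def tab : Fin 11 → Fin 12 → ℤ :=
  ![![-2, 1, 0, 0, 0, 0, 0, 0, 0, 0, 0, 1],
    ![-2, 0, 1, 0, 0, 0, 0, 0, 0, 0, 1, 0],
    ![-2, 0, 0, 1, 0, 0, 0, 0, 0, 1, 0, 0],
    ![-2, 0, 0, 0, 1, 0, 0, 0, 1, 0, 0, 0],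
    ![-2, 0, 0, 0, 0, 1, 0, 1, 0, 0, 0, 0],
    ![-2, 0, 0, 0, 0, 0, 2, 0, 0, 0, 0, 0],
    ![-3, 2, 0, 0, 0, 0, 0, 0, 0, 0, 1, 0],
    ![-3, 1, 1, 0, 0, 0, 0, 0, 0, 1, 0, 0],
    ![-3, 1, 0, 1, 0, 0, 0, 0, 1, 0, 0, 0],
    ![-3, 1, 0, 0, 1, 0, 0, 1, 0, 0, 0, 0],
    ![-3, 1, 0, 0, 0, 1, 1, 0, 0, 0, 0, 0]]

lemma dU_tab (j : Fin 11) (x : ZMod 12) : dU j x = tab j x := by
  have : ∀ (j : Fin 11) (x : Fin 12),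
      (fun (j : Fin 11) (x : Fin 12) => dU j x) j x = tab j x := by
    decide
  exact this j x

lemma sum12 (f : Fin 12 → ℤ) : ∑ x, f x = f 0 + f 1 + f 2 + f 3 + f 4 + f 5 + f 6 + f 7 + f 8 + f 9 + f 10 + f 11 := by
  simp only [Fin.sum_univ_castSucc, Fin.sum_univ_zero, zero_add]
  rfl

lemma sum_dU (n : Fin 11 → ℤ) (x : ZMod 12) : ∑ j, n j * dU j x =
    n 0 * tab 0 x + n 1 * tab 1 x + n 2 * tab 2 x + n 3 * tab 3 x + n 4 * tab 4 x + n 5 * tab 5 x + n 6 * tab 6 x + n 7 * tab 7 x + n 8 * tab 8 x + n 9 * tab 9 x + n 10 * tab 10 x := by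
  simp only [dU_tab, Fin.sum_univ_castSucc, Fin.sum_univ_zero, zero_add]
  rfl

lemma dU_inv (M : ZMod 12 → ℤ) (h0 : ∑ x, M x = 0) (h1 : ∑ x, M x • x = 0) :
    ∃ n : Fin 11 → ℤ, ∀ x, M x = ∑ j, n j * dU j x := by
  have h0' : M 0 + M 1 + M 2 + M 3 + M 4 + M 5 + M 6 + M 7 + M 8 + M 9 + M 10 + M 11 = 0 := by
    exact (sum12 M).symm.trans h0
  have h1' : ∃ K : ℤ, 1 * M 1 + 2 * M 2 + 3 * M 3 + 4 * M 4 + 5 * M 5 + 6 * M 6 + 7 * M 7 + 8 * M 8 + 9 * M 9 + 10 * M 10 + 11 * M 11 = 12 * K := by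
    have h2 : ((∑ x : ZMod 12, M x * (x.val : ℤ) : ℤ) : ZMod 12) = 0 := by
      rw [← h1]
      push_cast
      refine Finset.sum_congr rfl fun x _ => ?_
      rw [ZMod.natCast_zmod_val, zsmul_eq_mul]
    rw [ZMod.intCast_zmod_eq_zero_iff_dvd] at h2
    obtain ⟨K, hK⟩ := h2
    refine ⟨K, ?_⟩
    have h4 : M 0 * 0 + M 1 * 1 + M 2 * 2 + M 3 * 3 + M 4 * 4 + M 5 * 5 + M 6 * 6 + M 7 * 7 + M 8 * 8 + M 9 * 9 + M 10 * 10 + M 11 * 11 = ((12 : ℕ) : ℤ) * K :=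
      (sum12 (fun x : Fin 12 => (M : Fin 12 → ℤ) x * ((x : ℕ) : ℤ))).symm.trans hK
    push_cast at h4
    linarith
  obtain ⟨K, hK⟩ := h1'
  refine ⟨![1 * M 11,
     (-2) * K + 1 * M 2 + 1 * M 3 + 1 * M 4 + 1 * M 5 + 1 * M 6 + 1 * M 7 + 1 * M 8 + 1 * M 9 + 2 * M 10 + 2 * M 11,
     (-2) * K + 1 * M 3 + 1 * M 4 + 1 * M 5 + 1 * M 6 + 1 * M 7 + 1 * M 8 + 2 * M 9 + 2 * M 10 + 2 * M 11,
     (-2) * K + 1 * M 4 + 1 * M 5 + 1 * M 6 + 1 * M 7 + 2 * M 8 + 2 * M 9 + 2 * M 10 + 2 * M 11,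
     (-2) * K + 1 * M 5 + 1 * M 6 + 2 * M 7 + 2 * M 8 + 2 * M 9 + 2 * M 10 + 2 * M 11,
     (-1) * K + 1 * M 6 + 1 * M 7 + 1 * M 8 + 1 * M 9 + 1 * M 10 + 1 * M 11,
     2 * K + (-1) * M 2 + (-1) * M 3 + (-1) * M 4 + (-1) * M 5 + (-1) * M 6 + (-1) * M 7 + (-1) * M 8 + (-1) * M 9 + (-1) * M 10 + (-2) * M 11,
     2 * K + (-1) * M 3 + (-1) * M 4 + (-1) * M 5 + (-1) * M 6 + (-1) * M 7 + (-1) * M 8 + (-1) * M 9 + (-2) * M 10 + (-2) * M 11,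
     2 * K + (-1) * M 4 + (-1) * M 5 + (-1) * M 6 + (-1) * M 7 + (-1) * M 8 + (-2) * M 9 + (-2) * M 10 + (-2) * M 11,
     2 * K + (-1) * M 5 + (-1) * M 6 + (-1) * M 7 + (-2) * M 8 + (-2) * M 9 + (-2) * M 10 + (-2) * M 11,
     2 * K + (-1) * M 6 + (-2) * M 7 + (-2) * M 8 + (-2) * M 9 + (-2) * M 10 + (-2) * M 11], ?_⟩
  intro x
  rw [sum_dU]
  fin_cases x
  · show M 0 = (1 * M 11) * (-2) + ((-2) * K + 1 * M 2 + 1 * M 3 + 1 * M 4 + 1 * M 5 + 1 * M 6 + 1 * M 7 + 1 * M 8 + 1 * M 9 + 2 * M 10 + 2 * M 11) * (-2) + ((-2) * K + 1 * M 3 + 1 * M 4 + 1 * M 5 + 1 * M 6 + 1 * M 7 + 1 * M 8 + 2 * M 9 + 2 * M 10 + 2 * M 11) * (-2) + ((-2) * K + 1 * M 4 + 1 * M 5 + 1 * M 6 + 1 * M 7 + 2 * M 8 + 2 * M 9 + 2 * M 10 + 2 * M 11) * (-2) + ((-2) * K + 1 * M 5 + 1 * M 6 + 2 * M 7 + 2 * M 8 + 2 * M 9 + 2 * M 10 + 2 * M 11) * (-2)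 + ((-1) * K + 1 * M 6 + 1 * M 7 + 1 * M 8 + 1 * M 9 + 1 * M 10 + 1 * M 11) * (-2) + (2 * K + (-1) * M 2 + (-1) * M 3 + (-1) * M 4 + (-1) * M 5 + (-1) * M 6 + (-1) * M 7 + (-1) * M 8 + (-1) * M 9 + (-1) * M 10 + (-2) * M 11) * (-3) + (2 * K + (-1) * M 3 + (-1) * M 4 + (-1) * M 5 + (-1) * M 6 + (-1) * M 7 + (-1) * M 8 + (-1) * M 9 + (-2) * M 10 + (-2) * M 11) * (-3) + (2 * K + (-1) * M 4 + (-1) * M 5 + (-1) * M 6 + (-1) * M 7 + (-1) * M 8 + (-2) * M 9 + (-2) * M 10 + (-2) * M 11) * (-3) + (2 * K + (-1) * M 5 + (-1) * M 6 + (-1) * M 7 + (-2) * M 8 + (-2) * M 9 + (-2) * M 10 + (-2) * M 11) * (-3) + (2 * K + (-1) * M 6 + (-2) * M 7 + (-2) * M 8 + (-2) * M 9 + (-2) * M 10 + (-2) * M 11) * (-3)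
    linarith
  · show M 1 = (1 * M 11) * (1) + ((-2) * K + 1 * M 2 + 1 * M 3 + 1 * M 4 + 1 * M 5 + 1 * M 6 + 1 * M 7 + 1 * M 8 + 1 * M 9 + 2 * M 10 + 2 * M 11) * (0) + ((-2) * K + 1 * M 3 + 1 * M 4 + 1 * M 5 + 1 * M 6 + 1 * M 7 + 1 * M 8 + 2 * M 9 + 2 * M 10 + 2 * M 11) * (0) + ((-2) * K + 1 * M 4 + 1 * M 5 + 1 * M 6 + 1 * M 7 + 2 * M 8 + 2 * M 9 + 2 * M 10 + 2 * M 11) * (0) + ((-2) * K + 1 * M 5 + 1 * M 6 + 2 * M 7 + 2 * M 8 + 2 * M 9 + 2 * M 10 + 2 * M 11) * (0) + ((-1) * K + 1 * M 6 + 1 * M 7 + 1 * M 8 + 1 * M 9 + 1 * M 10 + 1 * M 11) * (0) + (2 * K + (-1) * M 2 + (-1) * M 3 + (-1) * M 4 + (-1) * M 5 + (-1) * M 6 + (-1) * M 7 + (-1) * M 8 + (-1) * M 9 + (-1) * M 10 + (-2) * M 11) * (2) + (2 * K + (-1) * M 3 + (-1) * M 4 + (-1) * M 5 + (-1) * M 6 + (-1) * M 7 + (-1) * M 8 + (-1) * M 9 + (-2) * M 10 + (-2)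 * M 11) * (1) + (2 * K + (-1) * M 4 + (-1) * M 5 + (-1) * M 6 + (-1) * M 7 + (-1) * M 8 + (-2) * M 9 + (-2) * M 10 + (-2) * M 11) * (1) + (2 * K + (-1) * M 5 + (-1) * M 6 + (-1) * M 7 + (-2) * M 8 + (-2) * M 9 + (-2) * M 10 + (-2) * M 11) * (1) + (2 * K + (-1) * M 6 + (-2) * M 7 + (-2) * M 8 + (-2) * M 9 + (-2) * M 10 + (-2) * M 11) * (1)
    linarith
  · show M 2 = (1 * M 11) * (0) + ((-2) * K + 1 * M 2 + 1 * M 3 + 1 * M 4 + 1 * M 5 + 1 * M 6 + 1 * M 7 + 1 * M 8 + 1 * M 9 + 2 * M 10 + 2 * M 11) * (1) + ((-2) * K + 1 * M 3 + 1 * M 4 + 1 * M 5 + 1 * M 6 + 1 * M 7 + 1 * M 8 + 2 * M 9 + 2 * M 10 + 2 * M 11) * (0) + ((-2) * K + 1 * M 4 + 1 * M 5 + 1 * M 6 + 1 * M 7 + 2 * M 8 + 2 * M 9 + 2 * M 10 + 2 * M 11) * (0) + ((-2) * K + 1 * M 5 + 1 * M 6 + 2 * M 7 + 2 * M 8 + 2 * M 9 + 2 * M 10 + 2 * M 11) * (0) + ((-1)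 * K + 1 * M 6 + 1 * M 7 + 1 * M 8 + 1 * M 9 + 1 * M 10 + 1 * M 11) * (0) + (2 * K + (-1) * M 2 + (-1) * M 3 + (-1) * M 4 + (-1) * M 5 + (-1) * M 6 + (-1) * M 7 + (-1) * M 8 + (-1) * M 9 + (-1) * M 10 + (-2) * M 11) * (0) + (2 * K + (-1) * M 3 + (-1) * M 4 + (-1) * M 5 + (-1) * M 6 + (-1) * M 7 + (-1) * M 8 + (-1) * M 9 + (-2) * M 10 + (-2) * M 11) * (1) + (2 * K + (-1) * M 4 + (-1) * M 5 + (-1) * M 6 + (-1) * M 7 + (-1) * M 8 + (-2) * M 9 + (-2) * M 10 + (-2) * M 11) * (0) + (2 * K + (-1) * M 5 + (-1) * M 6 + (-1) * M 7 + (-2) * M 8 + (-2) * M 9 + (-2) * M 10 + (-2) * M 11) * (0) + (2 * K + (-1) * M 6 + (-2) * M 7 + (-2) * M 8 + (-2) * M 9 + (-2) * M 10 + (-2) * M 11) * (0)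
    linarith
  · show M 3 = (1 * M 11) * (0) + ((-2) * K + 1 * M 2 + 1 * M 3 + 1 * M 4 + 1 * M 5 + 1 * M 6 + 1 * M 7 + 1 * M 8 + 1 * M 9 + 2 * M 10 + 2 * M 11) * (0) + ((-2) * K + 1 * M 3 + 1 * M 4 + 1 * M 5 + 1 * M 6 + 1 * M 7 + 1 * M 8 + 2 * M 9 + 2 * M 10 + 2 * M 11) * (1) + ((-2) * K + 1 * M 4 + 1 * M 5 + 1 * M 6 + 1 * M 7 + 2 * M 8 + 2 * M 9 + 2 * M 10 + 2 * M 11) * (0) + ((-2) * K + 1 * M 5 + 1 * M 6 + 2 * M 7 + 2 * M 8 + 2 * M 9 + 2 * M 10 + 2 * M 11) * (0) + ((-1) * K + 1 * M 6 + 1 * M 7 + 1 * M 8 + 1 * M 9 + 1 * M 10 + 1 * M 11) * (0) + (2 * K + (-1) * M 2 + (-1) * M 3 + (-1) * M 4 + (-1) * M 5 + (-1) * M 6 + (-1) * M 7 + (-1) * M 8 + (-1) * M 9 + (-1) * M 10 + (-2) * M 11) * (0) + (2 * K + (-1) * M 3 + (-1) * M 4 + (-1) * M 5 + (-1) * M 6 + (-1) * M 7 + (-1) * M 8 + (-1) * M 9 + (-2) * M 10 + (-2)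 * M 11) * (0) + (2 * K + (-1) * M 4 + (-1) * M 5 + (-1) * M 6 + (-1) * M 7 + (-1) * M 8 + (-2) * M 9 + (-2) * M 10 + (-2) * M 11) * (1) + (2 * K + (-1) * M 5 + (-1) * M 6 + (-1) * M 7 + (-2) * M 8 + (-2) * M 9 + (-2) * M 10 + (-2) * M 11) * (0) + (2 * K + (-1) * M 6 + (-2) * M 7 + (-2) * M 8 + (-2) * M 9 + (-2) * M 10 + (-2) * M 11) * (0)
    linarith
  · show M 4 = (1 * M 11) * (0) + ((-2) * K + 1 * M 2 + 1 * M 3 + 1 * M 4 + 1 * M 5 + 1 * M 6 + 1 * M 7 + 1 * M 8 + 1 * M 9 + 2 * M 10 + 2 * M 11) * (0) + ((-2) * K + 1 * M 3 + 1 * M 4 + 1 * M 5 + 1 * M 6 + 1 * M 7 + 1 * M 8 + 2 * M 9 + 2 * M 10 + 2 * M 11) * (0) + ((-2) * K + 1 * M 4 + 1 * M 5 + 1 * M 6 + 1 * M 7 + 2 * M 8 + 2 * M 9 + 2 * M 10 + 2 * M 11) * (1) + ((-2) * K + 1 * M 5 + 1 * M 6 + 2 * M 7 + 2 * M 8 + 2 * M 9 + 2 * M 10 + 2 * M 11) * (0) + ((-1)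 * K + 1 * M 6 + 1 * M 7 + 1 * M 8 + 1 * M 9 + 1 * M 10 + 1 * M 11) * (0) + (2 * K + (-1) * M 2 + (-1) * M 3 + (-1) * M 4 + (-1) * M 5 + (-1) * M 6 + (-1) * M 7 + (-1) * M 8 + (-1) * M 9 + (-1) * M 10 + (-2) * M 11) * (0) + (2 * K + (-1) * M 3 + (-1) * M 4 + (-1) * M 5 + (-1) * M 6 + (-1) * M 7 + (-1) * M 8 + (-1) * M 9 + (-2) * M 10 + (-2) * M 11) * (0) + (2 * K + (-1) * M 4 + (-1) * M 5 + (-1) * M 6 + (-1) * M 7 + (-1) * M 8 + (-2) * M 9 + (-2) * M 10 + (-2) * M 11) * (0) + (2 * K + (-1) * M 5 + (-1) * M 6 + (-1) * M 7 + (-2) * M 8 + (-2) * M 9 + (-2) * M 10 + (-2) * M 11) * (1) + (2 * K + (-1) * M 6 + (-2) * M 7 + (-2) * M 8 + (-2) * M 9 + (-2) * M 10 + (-2) * M 11) * (0)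
    linarith
  · show M 5 = (1 * M 11) * (0) + ((-2) * K + 1 * M 2 + 1 * M 3 + 1 * M 4 + 1 * M 5 + 1 * M 6 + 1 * M 7 + 1 * M 8 + 1 * M 9 + 2 * M 10 + 2 * M 11) * (0) + ((-2) * K + 1 * M 3 + 1 * M 4 + 1 * M 5 + 1 * M 6 + 1 * M 7 + 1 * M 8 + 2 * M 9 + 2 * M 10 + 2 * M 11) * (0) + ((-2) * K + 1 * M 4 + 1 * M 5 + 1 * M 6 + 1 * M 7 + 2 * M 8 + 2 * M 9 + 2 * M 10 + 2 * M 11) * (0) + ((-2) * K + 1 * M 5 + 1 * M 6 + 2 * M 7 + 2 * M 8 + 2 * M 9 + 2 * M 10 + 2 * M 11) * (1) + ((-1) * K + 1 * M 6 + 1 * M 7 + 1 * M 8 + 1 * M 9 + 1 * M 10 + 1 * M 11) * (0) + (2 * K + (-1) * M 2 + (-1) * M 3 + (-1) * M 4 + (-1) * M 5 + (-1) * M 6 + (-1) * M 7 + (-1) * M 8 + (-1) * M 9 + (-1) * M 10 + (-2) * M 11) * (0) + (2 * K + (-1) * M 3 + (-1) * M 4 + (-1) * M 5 + (-1) * M 6 + (-1) * M 7 + (-1) * M 8 + (-1) * M 9 + (-2) * M 10 + (-2)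 * M 11) * (0) + (2 * K + (-1) * M 4 + (-1) * M 5 + (-1) * M 6 + (-1) * M 7 + (-1) * M 8 + (-2) * M 9 + (-2) * M 10 + (-2) * M 11) * (0) + (2 * K + (-1) * M 5 + (-1) * M 6 + (-1) * M 7 + (-2) * M 8 + (-2) * M 9 + (-2) * M 10 + (-2) * M 11) * (0) + (2 * K + (-1) * M 6 + (-2) * M 7 + (-2) * M 8 + (-2) * M 9 + (-2) * M 10 + (-2) * M 11) * (1)
    linarith
  · show M 6 = (1 * M 11) * (0) + ((-2) * K + 1 * M 2 + 1 * M 3 + 1 * M 4 + 1 * M 5 + 1 * M 6 + 1 * M 7 + 1 * M 8 + 1 * M 9 + 2 * M 10 + 2 * M 11) * (0) + ((-2) * K + 1 * M 3 + 1 * M 4 + 1 * M 5 + 1 * M 6 + 1 * M 7 + 1 * M 8 + 2 * M 9 + 2 * M 10 + 2 * M 11) * (0) + ((-2) * K + 1 * M 4 + 1 * M 5 + 1 * M 6 + 1 * M 7 + 2 * M 8 + 2 * M 9 + 2 * M 10 + 2 * M 11) * (0) + ((-2) * K + 1 * M 5 + 1 * M 6 + 2 * M 7 + 2 * M 8 + 2 * M 9 + 2 * M 10 + 2 * M 11) * (0) + ((-1)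 * K + 1 * M 6 + 1 * M 7 + 1 * M 8 + 1 * M 9 + 1 * M 10 + 1 * M 11) * (2) + (2 * K + (-1) * M 2 + (-1) * M 3 + (-1) * M 4 + (-1) * M 5 + (-1) * M 6 + (-1) * M 7 + (-1) * M 8 + (-1) * M 9 + (-1) * M 10 + (-2) * M 11) * (0) + (2 * K + (-1) * M 3 + (-1) * M 4 + (-1) * M 5 + (-1) * M 6 + (-1) * M 7 + (-1) * M 8 + (-1) * M 9 + (-2) * M 10 + (-2) * M 11) * (0) + (2 * K + (-1) * M 4 + (-1) * M 5 + (-1) * M 6 + (-1) * M 7 + (-1) * M 8 + (-2) * M 9 + (-2) * M 10 + (-2) * M 11) * (0) + (2 * K + (-1) * M 5 + (-1) * M 6 + (-1) * M 7 + (-2) * M 8 + (-2) * M 9 + (-2) * M 10 + (-2) * M 11) * (0) + (2 * K + (-1) * M 6 + (-2) * M 7 + (-2) * M 8 + (-2) * M 9 + (-2) * M 10 + (-2) * M 11) * (1)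
    linarith
  · show M 7 = (1 * M 11) * (0) + ((-2) * K + 1 * M 2 + 1 * M 3 + 1 * M 4 + 1 * M 5 + 1 * M 6 + 1 * M 7 + 1 * M 8 + 1 * M 9 + 2 * M 10 + 2 * M 11) * (0) + ((-2) * K + 1 * M 3 + 1 * M 4 + 1 * M 5 + 1 * M 6 + 1 * M 7 + 1 * M 8 + 2 * M 9 + 2 * M 10 + 2 * M 11) * (0) + ((-2) * K + 1 * M 4 + 1 * M 5 + 1 * M 6 + 1 * M 7 + 2 * M 8 + 2 * M 9 + 2 * M 10 + 2 * M 11) * (0) + ((-2) * K + 1 * M 5 + 1 * M 6 + 2 * M 7 + 2 * M 8 + 2 * M 9 + 2 * M 10 + 2 * M 11) * (1) + ((-1) * K + 1 * M 6 + 1 * M 7 + 1 * M 8 + 1 * M 9 + 1 * M 10 + 1 * M 11) * (0) + (2 * K + (-1) * M 2 + (-1) * M 3 + (-1) * M 4 + (-1) * M 5 + (-1) * M 6 + (-1) * M 7 + (-1) * M 8 + (-1) * M 9 + (-1) * M 10 + (-2) * M 11) * (0) + (2 * K + (-1) * M 3 + (-1) * M 4 + (-1) * M 5 + (-1) * M 6 + (-1) * M 7 + (-1) * M 8 + (-1) * M 9 + (-2) * M 10 + (-2)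 * M 11) * (0) + (2 * K + (-1) * M 4 + (-1) * M 5 + (-1) * M 6 + (-1) * M 7 + (-1) * M 8 + (-2) * M 9 + (-2) * M 10 + (-2) * M 11) * (0) + (2 * K + (-1) * M 5 + (-1) * M 6 + (-1) * M 7 + (-2) * M 8 + (-2) * M 9 + (-2) * M 10 + (-2) * M 11) * (1) + (2 * K + (-1) * M 6 + (-2) * M 7 + (-2) * M 8 + (-2) * M 9 + (-2) * M 10 + (-2) * M 11) * (0)
    linarith
  · show M 8 = (1 * M 11) * (0) + ((-2) * K + 1 * M 2 + 1 * M 3 + 1 * M 4 + 1 * M 5 + 1 * M 6 + 1 * M 7 + 1 * M 8 + 1 * M 9 + 2 * M 10 + 2 * M 11) * (0) + ((-2) * K + 1 * M 3 + 1 * M 4 + 1 * M 5 + 1 * M 6 + 1 * M 7 + 1 * M 8 + 2 * M 9 + 2 * M 10 + 2 * M 11) * (0) + ((-2) * K + 1 * M 4 + 1 * M 5 + 1 * M 6 + 1 * M 7 + 2 * M 8 + 2 * M 9 + 2 * M 10 + 2 * M 11) * (1) + ((-2) * K + 1 * M 5 + 1 * M 6 + 2 * M 7 + 2 * M 8 + 2 * M 9 + 2 * M 10 + 2 * M 11) * (0) + ((-1)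 * K + 1 * M 6 + 1 * M 7 + 1 * M 8 + 1 * M 9 + 1 * M 10 + 1 * M 11) * (0) + (2 * K + (-1) * M 2 + (-1) * M 3 + (-1) * M 4 + (-1) * M 5 + (-1) * M 6 + (-1) * M 7 + (-1) * M 8 + (-1) * M 9 + (-1) * M 10 + (-2) * M 11) * (0) + (2 * K + (-1) * M 3 + (-1) * M 4 + (-1) * M 5 + (-1) * M 6 + (-1) * M 7 + (-1) * M 8 + (-1) * M 9 + (-2) * M 10 + (-2) * M 11) * (0) + (2 * K + (-1) * M 4 + (-1) * M 5 + (-1) * M 6 + (-1) * M 7 + (-1) * M 8 + (-2) * M 9 + (-2) * M 10 + (-2) * M 11) * (1) + (2 * K + (-1) * M 5 + (-1) * M 6 + (-1) * M 7 + (-2) * M 8 + (-2) * M 9 + (-2) * M 10 + (-2) * M 11) * (0) + (2 * K + (-1) * M 6 + (-2) * M 7 + (-2) * M 8 + (-2) * M 9 + (-2) * M 10 + (-2) * M 11) * (0)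
    linarith
  · show M 9 = (1 * M 11) * (0) + ((-2) * K + 1 * M 2 + 1 * M 3 + 1 * M 4 + 1 * M 5 + 1 * M 6 + 1 * M 7 + 1 * M 8 + 1 * M 9 + 2 * M 10 + 2 * M 11) * (0) + ((-2) * K + 1 * M 3 + 1 * M 4 + 1 * M 5 + 1 * M 6 + 1 * M 7 + 1 * M 8 + 2 * M 9 + 2 * M 10 + 2 * M 11) * (1) + ((-2) * K + 1 * M 4 + 1 * M 5 + 1 * M 6 + 1 * M 7 + 2 * M 8 + 2 * M 9 + 2 * M 10 + 2 * M 11) * (0) + ((-2) * K + 1 * M 5 + 1 * M 6 + 2 * M 7 + 2 * M 8 + 2 * M 9 + 2 * M 10 + 2 * M 11) * (0) + ((-1) * K + 1 * M 6 + 1 * M 7 + 1 * M 8 + 1 * M 9 + 1 * M 10 + 1 * M 11) * (0) + (2 * K + (-1) * M 2 + (-1) * M 3 + (-1) * M 4 + (-1) * M 5 + (-1) * M 6 + (-1) * M 7 + (-1) * M 8 + (-1) * M 9 + (-1) * M 10 + (-2) * M 11) * (0) + (2 * K + (-1) * M 3 + (-1) * M 4 + (-1) * M 5 + (-1) * M 6 + (-1) * M 7 + (-1) * M 8 + (-1) * M 9 + (-2) * M 10 + (-2)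 * M 11) * (1) + (2 * K + (-1) * M 4 + (-1) * M 5 + (-1) * M 6 + (-1) * M 7 + (-1) * M 8 + (-2) * M 9 + (-2) * M 10 + (-2) * M 11) * (0) + (2 * K + (-1) * M 5 + (-1) * M 6 + (-1) * M 7 + (-2) * M 8 + (-2) * M 9 + (-2) * M 10 + (-2) * M 11) * (0) + (2 * K + (-1) * M 6 + (-2) * M 7 + (-2) * M 8 + (-2) * M 9 + (-2) * M 10 + (-2) * M 11) * (0)
    linarith
  · show M 10 = (1 * M 11) * (0) + ((-2) * K + 1 * M 2 + 1 * M 3 + 1 * M 4 + 1 * M 5 + 1 * M 6 + 1 * M 7 + 1 * M 8 + 1 * M 9 + 2 * M 10 + 2 * M 11) * (1) + ((-2) * K + 1 * M 3 + 1 * M 4 + 1 * M 5 + 1 * M 6 + 1 * M 7 + 1 * M 8 + 2 * M 9 + 2 * M 10 + 2 * M 11) * (0) + ((-2) * K + 1 * M 4 + 1 * M 5 + 1 * M 6 + 1 * M 7 + 2 * M 8 + 2 * M 9 + 2 * M 10 + 2 * M 11) * (0) + ((-2) * K + 1 * M 5 + 1 * M 6 + 2 * M 7 + 2 * M 8 + 2 * M 9 + 2 * M 10 + 2 * M 11) * (0) + ((-1)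 * K + 1 * M 6 + 1 * M 7 + 1 * M 8 + 1 * M 9 + 1 * M 10 + 1 * M 11) * (0) + (2 * K + (-1) * M 2 + (-1) * M 3 + (-1) * M 4 + (-1) * M 5 + (-1) * M 6 + (-1) * M 7 + (-1) * M 8 + (-1) * M 9 + (-1) * M 10 + (-2) * M 11) * (1) + (2 * K + (-1) * M 3 + (-1) * M 4 + (-1) * M 5 + (-1) * M 6 + (-1) * M 7 + (-1) * M 8 + (-1) * M 9 + (-2) * M 10 + (-2) * M 11) * (0) + (2 * K + (-1) * M 4 + (-1) * M 5 + (-1) * M 6 + (-1) * M 7 + (-1) * M 8 + (-2) * M 9 + (-2) * M 10 + (-2) * M 11) * (0) + (2 * K + (-1) * M 5 + (-1) * M 6 + (-1) * M 7 + (-2) * M 8 + (-2) * M 9 + (-2) * M 10 + (-2) * M 11) * (0) + (2 * K + (-1) * M 6 + (-2) * M 7 + (-2) * M 8 + (-2) * M 9 + (-2) * M 10 + (-2) * M 11) * (0)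
    linarith
  · show M 11 = (1 * M 11) * (1) + ((-2) * K + 1 * M 2 + 1 * M 3 + 1 * M 4 + 1 * M 5 + 1 * M 6 + 1 * M 7 + 1 * M 8 + 1 * M 9 + 2 * M 10 + 2 * M 11) * (0) + ((-2) * K + 1 * M 3 + 1 * M 4 + 1 * M 5 + 1 * M 6 + 1 * M 7 + 1 * M 8 + 2 * M 9 + 2 * M 10 + 2 * M 11) * (0) + ((-2) * K + 1 * M 4 + 1 * M 5 + 1 * M 6 + 1 * M 7 + 2 * M 8 + 2 * M 9 + 2 * M 10 + 2 * M 11) * (0) + ((-2) * K + 1 * M 5 + 1 * M 6 + 2 * M 7 + 2 * M 8 + 2 * M 9 + 2 * M 10 + 2 * M 11) * (0) + ((-1) * K + 1 * M 6 + 1 * M 7 + 1 * M 8 + 1 * M 9 + 1 * M 10 + 1 * M 11) * (0) + (2 * K + (-1) * M 2 + (-1) * M 3 + (-1) * M 4 + (-1) * M 5 + (-1) * M 6 + (-1) * M 7 + (-1) * M 8 + (-1) * M 9 + (-1) * M 10 + (-2) * M 11) * (0) + (2 * K + (-1) * M 3 + (-1) * M 4 + (-1) * M 5 + (-1) * M 6 + (-1) * M 7 + (-1) * M 8 + (-1) * M 9 + (-2) * M 10 +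 (-2) * M 11) * (0) + (2 * K + (-1) * M 4 + (-1) * M 5 + (-1) * M 6 + (-1) * M 7 + (-1) * M 8 + (-2) * M 9 + (-2) * M 10 + (-2) * M 11) * (0) + (2 * K + (-1) * M 5 + (-1) * M 6 + (-1) * M 7 + (-2) * M 8 + (-2) * M 9 + (-2) * M 10 + (-2) * M 11) * (0) + (2 * K + (-1) * M 6 + (-2) * M 7 + (-2) * M 8 + (-2) * M 9 + (-2) * M 10 + (-2) * M 11) * (0)
    linarith

lemma dU_inj (n : Fin 11 → ℤ) (h : ∀ x, ∑ j, n j * dU j x = 0) : n = 0 := by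
  have q1 : n 0 * (1) + n 1 * (0) + n 2 * (0) + n 3 * (0) + n 4 * (0) + n 5 * (0) + n 6 * (2) + n 7 * (1) + n 8 * (1) + n 9 * (1) + n 10 * (1) = 0 := by
    have := h 1
    rw [sum_dU] at this
    exact this
  have q2 : n 0 * (0) + n 1 * (1) + n 2 * (0) + n 3 * (0) + n 4 * (0) + n 5 * (0) + n 6 * (0) + n 7 * (1) + n 8 * (0) + n 9 * (0) + n 10 * (0) = 0 := by
    have := h 2
    rw [sum_dU] at this
    exact this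
  have q3 : n 0 * (0) + n 1 * (0) + n 2 * (1) + n 3 * (0) + n 4 * (0) + n 5 * (0) + n 6 * (0) + n 7 * (0) + n 8 * (1) + n 9 * (0) + n 10 * (0) = 0 := by
    have := h 3
    rw [sum_dU] at this
    exact this
  have q4 : n 0 * (0) + n 1 * (0) + n 2 * (0) + n 3 * (1) + n 4 * (0) + n 5 * (0) + n 6 * (0) + n 7 * (0) + n 8 * (0) + n 9 * (1) + n 10 * (0) = 0 := by
    have := h 4
    rw [sum_dU] at this
    exact this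
  have q5 : n 0 * (0) + n 1 * (0) + n 2 * (0) + n 3 * (0) + n 4 * (1) + n 5 * (0) + n 6 * (0) + n 7 * (0) + n 8 * (0) + n 9 * (0) + n 10 * (1) = 0 := by
    have := h 5
    rw [sum_dU] at this
    exact this
  have q6 : n 0 * (0) + n 1 * (0) + n 2 * (0) + n 3 * (0) + n 4 * (0) + n 5 * (2) + n 6 * (0) + n 7 * (0) + n 8 * (0) + n 9 * (0) + n 10 * (1) = 0 := by
    have := h 6
    rw [sum_dU] at this
    exact this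
  have q7 : n 0 * (0) + n 1 * (0) + n 2 * (0) + n 3 * (0) + n 4 * (1) + n 5 * (0) + n 6 * (0) + n 7 * (0) + n 8 * (0) + n 9 * (1) + n 10 * (0) = 0 := by
    have := h 7
    rw [sum_dU] at this
    exact this
  have q8 : n 0 * (0) + n 1 * (0) + n 2 * (0) + n 3 * (1) + n 4 * (0) + n 5 * (0) + n 6 * (0) + n 7 * (0) + n 8 * (1) + n 9 * (0) + n 10 * (0) = 0 := by
    have := h 8
    rw [sum_dU] at this
    exact this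
  have q9 : n 0 * (0) + n 1 * (0) + n 2 * (1) + n 3 * (0) + n 4 * (0) + n 5 * (0) + n 6 * (0) + n 7 * (1) + n 8 * (0) + n 9 * (0) + n 10 * (0) = 0 := by
    have := h 9
    rw [sum_dU] at this
    exact this
  have q10 : n 0 * (0) + n 1 * (1) + n 2 * (0) + n 3 * (0) + n 4 * (0) + n 5 * (0) + n 6 * (1) + n 7 * (0) + n 8 * (0) + n 9 * (0) + n 10 * (0) = 0 := by
    have := h 10
    rw [sum_dU] at this
    exact this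
  have q11 : n 0 * (1) + n 1 * (0) + n 2 * (0) + n 3 * (0) + n 4 * (0) + n 5 * (0) + n 6 * (0) + n 7 * (0) + n 8 * (0) + n 9 * (0) + n 10 * (0) = 0 := by
    have := h 11
    rw [sum_dU] at this
    exact this
  funext j
  fin_cases j
  · show n 0 = 0; omega
  · show n 1 = 0; omega
  · show n 2 = 0; omega
  · show n 3 = 0; omega
  · show n 4 = 0; omega
  · show n 5 = 0; omega
  · show n 6 = 0; omega
  · show n 7 = 0; omega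
  · show n 8 = 0; omega
  · show n 9 = 0; omega
  · show n 10 = 0; omega

section units

variable {k : Type*} [Field k] [DecidableEq k] [CharZero k] {t : k}
  {F : Type*} [Field F] [Algebra k F] {x y : F}

lemma pq_uF [DecidableEq F] (ht : t ≠ 0) (h1 : 1 - t ≠ 0) (h2 : 2 * t - 1 ≠ 0)
    (hv : 2 * t ^ 2 - 2 * t + 1 ≠ 0) (hw : 3 * t ^ 2 - 3 * t + 1 ≠ 0) {hb : bb t ≠ 0}
    (hO : addOrderOf (P0 (cc t) hb) = 12) [Fintype (AddSubgroup.zmultiples (P0 (cc t) hb))]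
    [DecidableEq (AddSubgroup.zmultiples (P0 (cc t) hb))] (hg : Gen (Wt (bb t) (cc t)) x y)
    (j : Fin 11) : PQ hO hg (uF t x y j) (dU j) := by
  fin_cases j
  · exact UE12.v1 hO hg
  · exact UE12.v2 hO hg
  · exact UE12.v3 hO hg
  · exact UE12.v4 ht h1 h2 hw hO hg
  · exact UE12.v5 ht h1 h2 hw hO hg
  · exact UE12.v6 ht h1 h2 hw hO hg
  · exact UE12.l11 hO hg
  · exact UE12.l12 hO hg
  · exact UE12.l13 ht h1 h2 hw hO hg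
  · exact UE12.l14 ht h1 h2 hv hw hO hg
  · exact UE12.l15 ht h1 h2 hv hw hO hg

/-- **the functions supported on the multiples of a point of order twelve** -/
theorem supp12 (ht : t ≠ 0) (h1 : 1 - t ≠ 0) (h2 : 2 * t - 1 ≠ 0)
    (hv : 2 * t ^ 2 - 2 * t + 1 ≠ 0) (hw : 3 * t ^ 2 - 3 * t + 1 ≠ 0) {hb : bb t ≠ 0}
    (hO : addOrderOf (P0 (cc t) hb) = 12) (hg : Gen (Wt (bb t) (cc t)) x y) (f : F) :
    IsUn (AddSubgroup.zmultiples (P0 (cc t) hb)) x y f ↔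
      ∃ (c : k) (n : Fin 11 → ℤ), c ≠ 0 ∧ f = algebraMap k F c * ∏ j, uF t x y j ^ n j := by
  classical
  have hfin : Finite (AddSubgroup.zmultiples (P0 (cc t) hb)) :=
    Finite.of_equiv _ (en hO).toEquiv
  have hft : Fintype (AddSubgroup.zmultiples (P0 (cc t) hb)) := Fintype.ofFinite _
  exact mono_iff (pq_uF ht h1 h2 hv hw hO hg) dU_inv f

/-- a constant monomial is trivial -/
theorem const12 (ht : t ≠ 0) (h1 : 1 - t ≠ 0) (h2 : 2 * t - 1 ≠ 0)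
    (hv : 2 * t ^ 2 - 2 * t + 1 ≠ 0) (hw : 3 * t ^ 2 - 3 * t + 1 ≠ 0) {hb : bb t ≠ 0}
    (hO : addOrderOf (P0 (cc t) hb) = 12) (hg : Gen (Wt (bb t) (cc t)) x y) {n : Fin 11 → ℤ}
    {s : k} (h : ∏ j, uF t x y j ^ n j = algebraMap k F s) : n = 0 := by
  classical
  have hfin : Finite (AddSubgroup.zmultiples (P0 (cc t) hb)) :=
    Finite.of_equiv _ (en hO).toEquiv
  have hft : Fintype (AddSubgroup.zmultiples (P0 (cc t) hb)) := Fintype.ofFinite _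
  exact mono_const (pq_uF ht h1 h2 hv hw hO hg) dU_inj h

end units

end Pool.Agent.UE12B
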