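import Pool.Agent.Lib_helper87.FAM.T10

/-!
# The Tate normal forms of the points of order twelve
-/

set_option autoImplicit false
set_option linter.unusedSectionVars false

namespace Pool.Agent.UE12

variable {k : Type*} [Field k]

/-- the coefficient `c` -/
def cc (t : k) : k := (3 * t ^ 2 - 3 * t + 1) * (t * (2 * t - 1)) / (1 - t) ^ 3

/-- the coefficient `b` -/
def bb (t : k) : k := (2 * t ^ 2 - 2 * t + 1) / (1 - t) * cc t

end Pool.Agent.UE12

namespace Pool.Agent.UEG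

open WeierstrassCurve.Affine
open TN (Wt)

section twelve

variable {k : Type*} [Field k] [DecidableEq k] {b c : k}

/-- order twelve -/
lemma bc_of_twelve (hb : b ≠ 0) (h : addOrderOf (P0 c hb) = 12) :
    ∃ t : k, t ≠ 0 ∧ 1 - t ≠ 0 ∧ 2 * t - 1 ≠ 0 ∧ 2 * t ^ 2 - 2 * t + 1 ≠ 0 ∧
      3 * t ^ 2 - 3 * t + 1 ≠ 0 ∧ c = UE12.cc t ∧ b = UE12.bb t := by
  have hc : c ≠ 0 := by
    rintro rfl
    have := addOrderOf_le_of_nsmul_eq_zero (by norm_num : 0 < 4) (four_of_c hb)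
    omega
  obtain ⟨d, hd⟩ : ∃ d : k, b = d * c := ⟨b / c, by field_simp⟩
  have hd0 : d ≠ 0 := by
    rintro rfl
    apply hb
    rw [hd, zero_mul]
  obtain ⟨h4, e4⟩ := four_P0 hb hc hd
  have h12 : (12 : ℕ) • P0 c hb = 0 := by rw [← h]; exact addOrderOf_nsmul_eq_zero _
  have hd1 : d ≠ 1 := by
    rintro rfl
    -- then `4 P = - P`
    have e1 : (4 : ℕ) • P0 c hb = -P0 c hb := by
      rw [e4]
      show _ = -(Point.some 0 0 (ns0 hb))
      rw [Point.neg_some]
      simp only [Point.some.injEq]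
      rw [negY_wt, hd]
      constructor <;> ring
    have e2 : (5 : ℕ) • P0 c hb = 0 := by
      rw [show (5 : ℕ) = 4 + 1 by norm_num, add_nsmul, one_nsmul, e1]
      exact neg_add_cancel _
    have := addOrderOf_le_of_nsmul_eq_zero (by norm_num : 0 < 5) e2
    omega
  have hm : d - 1 ≠ 0 := sub_ne_zero.mpr hd1
  obtain ⟨f, hf⟩ : ∃ f : k, c = f * (d - 1) := ⟨c / (d - 1), by field_simp⟩
  have hf0 : f ≠ 0 := by intro h; apply hc; rw [hf, h, zero_mul]
  obtain ⟨h5, e5⟩ := five_P0 hb hc hd hf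
  have hf1 : f - 1 ≠ 0 := by
    intro h0
    have hf1 : f = 1 := by linear_combination h0
    subst hf1
    -- then `5 P = - P`
    have e1 : (5 : ℕ) • P0 c hb = -P0 c hb := by
      rw [e5]
      show _ = -(Point.some 0 0 (ns0 hb))
      rw [Point.neg_some]
      simp only [Point.some.injEq]
      rw [negY_wt, hd, hf]
      constructor <;> ring
    have e2 : (6 : ℕ) • P0 c hb = 0 := by
      rw [show (6 : ℕ) = 5 + 1 by norm_num, add_nsmul, one_nsmul, e1]
      exact neg_add_cancel _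
    have := addOrderOf_le_of_nsmul_eq_zero (by norm_num : 0 < 6) e2
    omega
  have hf1' : 1 - f ≠ 0 := by intro h; apply hf1; linear_combination -h
  obtain ⟨t, ht⟩ : ∃ t : k, t = (d - f) / (1 - f) := ⟨_, rfl⟩
  obtain ⟨m, hm'⟩ : ∃ m : k, m = f * (1 - d) / (1 - f) := ⟨_, rfl⟩
  have h1t : 1 - t = (1 - d) / (1 - f) := by rw [ht]; field_simp; ring
  have hd1' : 1 - d ≠ 0 := by intro h; apply hm; linear_combination -h
  have ht1 : 1 - t ≠ 0 := by rw [h1t]; exact div_ne_zero hd1' hf1'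
  have hm0 : m ≠ 0 := by rw [hm']; exact div_ne_zero (mul_ne_zero hf0 hd1') hf1'
  have hfm : f = m / (1 - t) := by rw [hm', h1t]; field_simp
  have hdm : d = m + t := by rw [hm', ht]; field_simp; ring
  obtain ⟨h6, e6⟩ := six_P0 hb hc hd hf hf1 ht1 hfm hdm
  have e : (6 : ℕ) • P0 c hb = -((6 : ℕ) • P0 c hb) := by
    rw [eq_neg_iff_add_eq_zero, ← add_nsmul]; exact h12
  rw [e6, Point.neg_some] at e
  simp only [Point.some.injEq, true_and] at e
  have hfm' : f * (1 - t) = m := by rw [hfm]; field_simp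
  rw [negY_wt, hd, hf] at e
  have e7 : m * (1 - t) = 3 * t ^ 2 - 3 * t + 1 := by
    have e8 : m * (m * (m * (1 - t) - (3 * t ^ 2 - 3 * t + 1))) = 0 := by
      have e9 : (1 - t) * (m ^ 2 * (m + 2 * t - 1) -
          (-(m ^ 2 * (m + 2 * t - 1)) - (1 - f * (d - 1)) * (-(m * t)) + d * (f * (d - 1)))) = 0 := by
        rw [← e]; ring
      rw [hdm] at e9
      linear_combination e9 - (m * t * (m + t - 1) - (m + t) * (m + t - 1)) * hfm'
    exact sub_eq_zero.mp ((mul_eq_zero.mp ((mul_eq_zero.mp e8).resolve_left hm0)).resolve_left hm0)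
  have hmt : m = (3 * t ^ 2 - 3 * t + 1) / (1 - t) := by rw [eq_div_iff ht1]; exact e7
  have hdt : d = (2 * t ^ 2 - 2 * t + 1) / (1 - t) := by
    rw [hdm, hmt]; field_simp; ring
  have hct : c = UE12.cc t := by
    unfold UE12.cc
    rw [hf, hfm, hdt, hmt]
    field_simp
    ring
  refine ⟨t, ?_, ht1, ?_, ?_, ?_, hct, ?_⟩
  · intro h0
    apply hc
    rw [hct, h0]
    simp [UE12.cc]
  · intro h0
    apply hc
    rw [hct]
    unfold UE12.cc
    rw [h0]
    simp
  · intro h0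
    apply hd0
    rw [hdt, h0, zero_div]
  · intro h0
    apply hm0
    rw [hmt, h0, zero_div]
  · unfold UE12.bb
    rw [← hct, ← hdt]
    exact hd

end twelve

end Pool.Agent.UEG

namespace Pool.Agent.FK4

open Pool.Agent.MK4 WeierstrassCurve.Affine
open Pool.Agent.TN (Wt)
open Pool.Agent.UEG (P0 Chg nx ny)

section

variable {k : Type*} [Field k] [DecidableEq k] {W : WeierstrassCurve.Affine k} {F : Type*}
  [Field F] [Algebra k F] {X Y : F} [CharZero k]

/-- points of order twelve -/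
theorem tate12s (hg : Generic W X Y) (P : W.Point) (h : addOrderOf P = 12) :
    ∃ (t : k) (x y : F) (hb : UE12.bb t ≠ 0), t ≠ 0 ∧ 1 - t ≠ 0 ∧ 2 * t - 1 ≠ 0 ∧
      2 * t ^ 2 - 2 * t + 1 ≠ 0 ∧ 3 * t ^ 2 - 3 * t + 1 ≠ 0 ∧
      Tate P X Y (UE12.bb t) (UE12.cc t) x y ∧
      Generic (Wt (UE12.bb t) (UE12.cc t)) x y ∧
      addOrderOf (P0 (UE12.cc t) hb) = 12 ∧
      SameS (AddSubgroup.zmultiples P) X Y (AddSubgroup.zmultiples (P0 (UE12.cc t) hb)) x y ∧
      (IntermediateField.adjoin k {X, Y} = ⊤ → IntermediateField.adjoin k {x, y} = ⊤) := by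
  rcases P with _ | ⟨p₁, p₂, hP⟩
  · exfalso
    have : addOrderOf (0 : W.Point) = 12 := h
    rw [addOrderOf_zero] at this
    omega
  obtain ⟨b, c, u, s, hb, hC, hO, hH⟩ := UEG.tate_of_order hP (by norm_num : 4 ≤ 12) h
  obtain ⟨t, ht0, ht1, ht2, ht3, ht4, ec', eb'⟩ := UEG.bc_of_twelve hb hO
  subst ec' eb'
  obtain ⟨x, y, i1, i2, i3, i4⟩ := tateS_of hg hP hb hC
  exact ⟨t, x, y, hb, ht0, ht1, ht2, ht3, ht4, i1, i2, hO, i3, i4⟩

end

end Pool.Agent.FK4
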