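import Pool.Agent.Lib_helper76.UE12.A
import Pool.Agent.Lib_helper87.FAM.T12

/-!
# Points of order twelve: the involution `t ↦ 1 - t`
-/

set_option autoImplicit false
set_option linter.unusedSectionVars false

namespace Pool.Agent.FK4

open Pool.Agent.MK4 WeierstrassCurve.Affine
open Pool.Agent.TN (Wt)
open Pool.Agent.UEG (P0 Chg nx ny)

section

variable {k : Type*} [Field k] [DecidableEq k] {W : WeierstrassCurve.Affine k} {F : Type*}
  [Field F] [Algebra k F] {X Y : F} [CharZero k]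

/-- the normal form with the parameter `t₀` -/
def To12t (t₀ : k) (P : W.Point) (X Y : F) : Prop := ∃ (hb : UE12.bb t₀ ≠ 0) (x' y' : F),
  Generic (Wt (UE12.bb t₀) (UE12.cc t₀)) x' y' ∧
  addOrderOf (P0 (UE12.cc t₀) hb) = 12 ∧
  SameS (AddSubgroup.zmultiples P) X Y (AddSubgroup.zmultiples (P0 (UE12.cc t₀) hb)) x' y' ∧
  (IntermediateField.adjoin k {X, Y} = ⊤ → IntermediateField.adjoin k {x', y'} = ⊤)

/-- the change of variables which moves `5P` to the origin -/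
lemma chg12 {t : k} (ht : t ≠ 0) (h1 : 1 - t ≠ 0) :
    Chg (Wt (UE12.bb t) (UE12.cc t)) (Wt (UE12.bb (1 - t)) (UE12.cc (1 - t)))
      (-(t / (1 - t)) ^ 3) (UE12.x5 t) (-(2 * t * (3 * t ^ 2 - 3 * t + 1) / (1 - t) ^ 2))
      (UE12.y5 t) := by
  have h11 : 1 - (1 - t) = t := by ring
  constructor
  · exact neg_ne_zero.mpr (pow_ne_zero 3 (div_ne_zero ht h1))
  all_goals
    simp only [Wt, UE12.bb, UE12.cc, UE12.x5, UE12.y5, h11]
    field_simp
    ring

/-- points of order twelve, with the involution -/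
theorem tate12u (hg : Generic W X Y) (P : W.Point) (h : addOrderOf P = 12) :
    ∃ (t : k) (x y : F) (hb : UE12.bb t ≠ 0), t ≠ 0 ∧ 1 - t ≠ 0 ∧ 2 * t - 1 ≠ 0 ∧
      2 * t ^ 2 - 2 * t + 1 ≠ 0 ∧ 3 * t ^ 2 - 3 * t + 1 ≠ 0 ∧
      Tate P X Y (UE12.bb t) (UE12.cc t) x y ∧
      Generic (Wt (UE12.bb t) (UE12.cc t)) x y ∧
      addOrderOf (P0 (UE12.cc t) hb) = 12 ∧
      SameS (AddSubgroup.zmultiples P) X Y (AddSubgroup.zmultiples (P0 (UE12.cc t) hb)) x y ∧
      (IntermediateField.adjoin k {X, Y} = ⊤ → IntermediateField.adjoin k {x, y} = ⊤) ∧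
      (∀ t₀ : k, t = t₀ ∨ t = 1 - t₀ → To12t t₀ P X Y) := by
  rcases P with _ | ⟨p₁, p₂, hP⟩
  · exfalso
    have : addOrderOf (0 : W.Point) = 12 := h
    rw [addOrderOf_zero] at this
    omega
  obtain ⟨b, c, u, s, hb, hC, hO, hH⟩ := UEG.tate_of_order hP (by norm_num : 4 ≤ 12) h
  obtain ⟨t, ht0, ht1, ht2, ht3, ht4, ec', eb'⟩ := UEG.bc_of_twelve hb hO
  subst ec' eb'
  obtain ⟨x, y, i1, i2, i3, i4⟩ := tateS_of hg hP hb hC
  have hP12 : (12 : ℕ) • Point.some p₁ p₂ hP = 0 := by rw [← h]; exact addOrderOf_nsmul_eq_zero _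
  refine ⟨t, x, y, hb, ht0, ht1, ht2, ht3, ht4, i1, i2, hO, i3, i4, ?_⟩
  rintro t₀ (h2 | h2)
  · subst h2
    exact ⟨hb, x, y, i2, hO, i3, i4⟩
  · have h2' : t₀ = 1 - t := by linear_combination h2
    subst h2'
    have hb' : UE12.bb (1 - t) ≠ 0 := UE12.bb_ne ht1 (by intro h3; apply ht0; linear_combination h3)
      (by intro h3; apply ht2; linear_combination -h3)
      (by intro h3; apply ht3; linear_combination h3)
      (by intro h3; apply ht4; linear_combination h3)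
    obtain ⟨h5, e5⟩ := UE12.p5 ht0 ht1 ht2 ht4 (hb := hb)
    obtain ⟨x', y', j1, j2, j3, j4, j5⟩ := tateS_mul hg hP hb hC hb' (chg12 ht0 ht1) e5
    have hz := zm_eq hP12 (m := 5) (m' := 5) (by norm_num)
    rw [show (5 : ZMod 12).val = 5 from rfl] at j3 j4
    rw [hz] at j4
    exact ⟨hb', x', y', j2, j3.trans ((order_eq hz).trans h), j4, j5⟩

/-- the four pairs of special curves -/
lemma to12t_pairs {t : k} {P : W.Point} (h : ∀ t₀ : k, t = t₀ ∨ t = 1 - t₀ → To12t t₀ P X Y) :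
    (t = 2 ∨ t = -1 → To12t 2 P X Y) ∧ (2 * t = -1 ∨ 2 * t = 3 → To12t (-1 / 2) P X Y) ∧
      (3 * t = 1 ∨ 3 * t = 2 → To12t (2 / 3) P X Y) ∧
      (4 * t = 1 ∨ 4 * t = 3 → To12t (1 / 4) P X Y) := by
  refine ⟨?_, ?_, ?_, ?_⟩
  · rintro (h1 | h1)
    · exact h _ (Or.inl h1)
    · exact h _ (Or.inr (by rw [h1]; norm_num))
  · rintro (h1 | h1)
    · exact h _ (Or.inl (by linear_combination h1 / 2))
    · exact h _ (Or.inr (by linear_combination h1 / 2))
  · rintro (h1 | h1)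
    · exact h _ (Or.inr (by linear_combination h1 / 3))
    · exact h _ (Or.inl (by linear_combination h1 / 3))
  · rintro (h1 | h1)
    · exact h _ (Or.inl (by linear_combination h1 / 4))
    · exact h _ (Or.inr (by linear_combination h1 / 4))

end

end Pool.Agent.FK4
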