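import Pool.Agent.Lib_helper87.FAM.Siegel12b

/-!
# The Siegel numbers of the multiples of a point of order twelve
-/

set_option autoImplicit false
set_option linter.unusedSectionVars false
set_option linter.unusedSimpArgs false
set_option linter.unusedVariables false
set_option linter.unreachableTactic false
set_option linter.unusedTactic false

namespace Pool.Agent.GK

open WeierstrassCurve.Affine
open K4M (dx ps pc ph)
open Pool.Agent.TN (Wt)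
open Pool.Agent.UEG (P0 two_P0 three_P0 four_P0 five_P0 six_P0 negY_wt)

variable {k : Type*} [Field k] [DecidableEq k] {b c : k}

/-- **the Siegel numbers for a point of order twelve** -/
theorem siegel12 {t : k} (hb : UE12.bb t ≠ 0) (h1t : 1 - t ≠ 0)
    (hO : addOrderOf (P0 (UE12.cc t) hb) = 12)
    (hind : ∀ l m n o p : ℤ, t ^ l * (t - 1) ^ m * (2 * t - 1) ^ n * (2 * t ^ 2 - 2 * t + 1) ^ o *
      (3 * t ^ 2 - 3 * t + 1) ^ p = 1 → l = 0 ∧ m = 0 ∧ n = 0 ∧ o = 0 ∧ p = 0)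
    [Fintype (AddSubgroup.zmultiples (P0 (UE12.cc t) hb))] :
    SiegelIndep (AddSubgroup.zmultiples (P0 (UE12.cc t) hb)) := by
  have hc : UE12.cc t ≠ 0 := by intro h; apply hb; unfold UE12.bb; rw [h, mul_zero]
  have ht : t ≠ 0 := by rintro rfl; apply hc; simp [UE12.cc]
  have hv : 2 * t - 1 ≠ 0 := by intro h; apply hc; unfold UE12.cc; rw [h]; simp
  have hq : 2 * t ^ 2 - 2 * t + 1 ≠ 0 := by intro h; apply hb; unfold UE12.bb; rw [h]; simp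
  have hr : 3 * t ^ 2 - 3 * t + 1 ≠ 0 := by intro h; apply hc; unfold UE12.cc; rw [h]; simp
  have eb : UE12.bb t = t * (2 * t - 1) * (2 * t ^ 2 - 2 * t + 1) * (3 * t ^ 2 - 3 * t + 1) / (1 - t) ^ 4 := by unfold UE12.bb UE12.cc; field_simp
  have ec : UE12.cc t = t * (2 * t - 1) * (3 * t ^ 2 - 3 * t + 1) / (1 - t) ^ 3 := by unfold UE12.cc; field_simp
  have hd : UE12.bb t = (2 * t ^ 2 - 2 * t + 1) / (1 - t) * UE12.cc t := rfl
  have hf : UE12.cc t = (3 * t ^ 2 - 3 * t + 1) / (1 - t) ^ 2 * ((2 * t ^ 2 - 2 * t + 1) / (1 - t) - 1) := by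
    rw [ec]; field_simp; ring
  have hf1 : (3 * t ^ 2 - 3 * t + 1) / (1 - t) ^ 2 - 1 ≠ 0 := by
    have : (3 * t ^ 2 - 3 * t + 1) / (1 - t) ^ 2 - 1 = t * (2 * t - 1) / (1 - t) ^ 2 := by
      field_simp; ring
    rw [this]
    exact div_ne_zero (mul_ne_zero ht hv) (pow_ne_zero 2 h1t)
  have hm : (3 * t ^ 2 - 3 * t + 1) / (1 - t) ^ 2 = (3 * t ^ 2 - 3 * t + 1) / (1 - t) / (1 - t) := by
    field_simp
  have hdm : (2 * t ^ 2 - 2 * t + 1) / (1 - t) = (3 * t ^ 2 - 3 * t + 1) / (1 - t) + t := by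
    field_simp; ring
  have q2 := two_P0 (c := UE12.cc t) hb
  have q3 := three_P0 (c := UE12.cc t) hb
  have q4 := four_P0 hb hc hd
  have q5 := five_P0 hb hc hd hf
  have q6 := six_P0 hb hc hd hf hf1 h1t hm hdm
  have x2 : UE12.bb t = t * (2 * t - 1) * (2 * t ^ 2 - 2 * t + 1) * (3 * t ^ 2 - 3 * t + 1) / (1 - t) ^ 4 := eb
  have y2 : UE12.bb t * UE12.cc t = t ^ 2 * (2 * t - 1) ^ 2 * (2 * t ^ 2 - 2 * t + 1) * (3 * t ^ 2 - 3 * t + 1) ^ 2 / (1 - t) ^ 7 := by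
    first | (simp only [eb, ec]; field_simp; done) | (simp only [eb, ec]; field_simp; ring) | (field_simp; done) | (field_simp; ring)
  have Q2 := some_eq12 q2 x2 y2
  have x3 : UE12.cc t = t * (2 * t - 1) * (3 * t ^ 2 - 3 * t + 1) / (1 - t) ^ 3 := ec
  have y3 : UE12.bb t - UE12.cc t = t ^ 2 * (2 * t - 1) ^ 2 * (3 * t ^ 2 - 3 * t + 1) / (1 - t) ^ 4 := by
    first | (simp only [eb, ec]; field_simp; done) | (simp only [eb, ec]; field_simp; ring) | (field_simp; done) | (field_simp; ring)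
  have Q3 := some_eq12 q3 x3 y3
  have x4 : (2 * t ^ 2 - 2 * t + 1) / (1 - t) * ((2 * t ^ 2 - 2 * t + 1) / (1 - t) - 1) = t * (2 * t - 1) * (2 * t ^ 2 - 2 * t + 1) / (1 - t) ^ 2 := by
    first | (simp only [eb, ec]; field_simp; done) | (simp only [eb, ec]; field_simp; ring) | (field_simp; done) | (field_simp; ring)
  have y4 : ((2 * t ^ 2 - 2 * t + 1) / (1 - t)) ^ 2 * (UE12.cc t + 1 - (2 * t ^ 2 - 2 * t + 1) / (1 - t)) = t ^ 2 * (2 * t - 1) ^ 2 * (2 * t ^ 2 - 2 * t + 1) ^ 2 / (1 - t) ^ 5 := by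
    first | (simp only [eb, ec]; field_simp; done) | (simp only [eb, ec]; field_simp; ring) | (field_simp; done) | (field_simp; ring)
  have Q4 := some_eq12 q4 x4 y4
  have x5 : (2 * t ^ 2 - 2 * t + 1) / (1 - t) * ((3 * t ^ 2 - 3 * t + 1) / (1 - t) ^ 2) * ((3 * t ^ 2 - 3 * t + 1) / (1 - t) ^ 2 - 1) = t * (2 * t - 1) * (2 * t ^ 2 - 2 * t + 1) * (3 * t ^ 2 - 3 * t + 1) / (1 - t) ^ 5 := by
    first | (simp only [eb, ec]; field_simp; done) | (simp only [eb, ec]; field_simp; ring) | (field_simp; done) | (field_simp; ring)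
  have y5 : (2 * t ^ 2 - 2 * t + 1) / (1 - t) * ((3 * t ^ 2 - 3 * t + 1) / (1 - t) ^ 2) ^ 2 * ((2 * t ^ 2 - 2 * t + 1) / (1 - t) - (3 * t ^ 2 - 3 * t + 1) / (1 - t) ^ 2) = -(t ^ 2 * (2 * t - 1) * (2 * t ^ 2 - 2 * t + 1) * (3 * t ^ 2 - 3 * t + 1) ^ 2 / (1 - t) ^ 7) := by
    first | (simp only [eb, ec]; field_simp; done) | (simp only [eb, ec]; field_simp; ring) | (field_simp; done) | (field_simp; ring)
  have Q5 := some_eq12 q5 x5 y5
  have x6 : -((3 * t ^ 2 - 3 * t + 1) / (1 - t) * t) = -(t * (3 * t ^ 2 - 3 * t + 1) / (1 - t)) := by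
    first | (simp only [eb, ec]; field_simp; done) | (simp only [eb, ec]; field_simp; ring) | (field_simp; done) | (field_simp; ring)
  have y6 : ((3 * t ^ 2 - 3 * t + 1) / (1 - t)) ^ 2 * ((3 * t ^ 2 - 3 * t + 1) / (1 - t) + 2 * t - 1) = t ^ 2 * (3 * t ^ 2 - 3 * t + 1) ^ 2 / (1 - t) ^ 3 := by
    first | (simp only [eb, ec]; field_simp; done) | (simp only [eb, ec]; field_simp; ring) | (field_simp; done) | (field_simp; ring)
  have Q6 := some_eq12 q6 x6 y6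
  have g1 : 2 * (0) + (1 - UE12.cc t) * (0) - UE12.bb t = -(t * (2 * t - 1) * (2 * t ^ 2 - 2 * t + 1) * (3 * t ^ 2 - 3 * t + 1) / (1 - t) ^ 4) := by
    first | (simp only [eb, ec]; field_simp; done) | (simp only [eb, ec]; field_simp; ring) | (field_simp; done) | (field_simp; ring)
  have g2 : 2 * (t ^ 2 * (2 * t - 1) ^ 2 * (2 * t ^ 2 - 2 * t + 1) * (3 * t ^ 2 - 3 * t + 1) ^ 2 / (1 - t) ^ 7) + (1 - UE12.cc t) * (t * (2 * t - 1) * (2 * t ^ 2 - 2 * t + 1) * (3 * t ^ 2 - 3 * t + 1) / (1 - t) ^ 4) - UE12.bb t = t ^ 2 * (2 * t - 1) ^ 2 * (2 * t ^ 2 - 2 * t + 1) * (3 * t ^ 2 - 3 * t + 1) ^ 2 / (1 - t) ^ 7 := by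
    first | (simp only [eb, ec]; field_simp; done) | (simp only [eb, ec]; field_simp; ring) | (field_simp; done) | (field_simp; ring)
  have g3 : 2 * (t ^ 2 * (2 * t - 1) ^ 2 * (3 * t ^ 2 - 3 * t + 1) / (1 - t) ^ 4) + (1 - UE12.cc t) * (t * (2 * t - 1) * (3 * t ^ 2 - 3 * t + 1) / (1 - t) ^ 3) - UE12.bb t = -(t ^ 3 * (2 * t - 1) ^ 3 * (3 * t ^ 2 - 3 * t + 1) / (1 - t) ^ 6) := by
    first | (simp only [eb, ec]; field_simp; done) | (simp only [eb, ec]; field_simp; ring) | (field_simp; done) | (field_simp; ring)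
  have g4 : 2 * (t ^ 2 * (2 * t - 1) ^ 2 * (2 * t ^ 2 - 2 * t + 1) ^ 2 / (1 - t) ^ 5) + (1 - UE12.cc t) * (t * (2 * t - 1) * (2 * t ^ 2 - 2 * t + 1) / (1 - t) ^ 2) - UE12.bb t = t ^ 4 * (2 * t - 1) ^ 2 * (2 * t ^ 2 - 2 * t + 1) / (1 - t) ^ 5 := by
    first | (simp only [eb, ec]; field_simp; done) | (simp only [eb, ec]; field_simp; ring) | (field_simp; done) | (field_simp; ring)
  have g5 : 2 * (-(t ^ 2 * (2 * t - 1) * (2 * t ^ 2 - 2 * t + 1) * (3 * t ^ 2 - 3 * t + 1) ^ 2 / (1 - t) ^ 7)) + (1 - UE12.cc t) * (t * (2 * t - 1) * (2 * t ^ 2 - 2 * t + 1) * (3 * t ^ 2 - 3 * t + 1) / (1 - t) ^ 5) - UE12.bb t = -(t ^ 5 * (2 * t - 1) * (2 * t ^ 2 - 2 * t + 1) * (3 * t ^ 2 - 3 * t + 1) / (1 - t) ^ 8) := by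
    first | (simp only [eb, ec]; field_simp; done) | (simp only [eb, ec]; field_simp; ring) | (field_simp; done) | (field_simp; ring)
  have g6 : 2 * (t ^ 2 * (3 * t ^ 2 - 3 * t + 1) ^ 2 / (1 - t) ^ 3) + (1 - UE12.cc t) * (-(t * (3 * t ^ 2 - 3 * t + 1) / (1 - t))) - UE12.bb t = 0 := by
    first | (simp only [eb, ec]; field_simp; done) | (simp only [eb, ec]; field_simp; ring) | (field_simp; done) | (field_simp; ring)
  have k6 : 3 * (-(t * (3 * t ^ 2 - 3 * t + 1) / (1 - t))) ^ 2 - 2 * UE12.bb t * (-(t * (3 * t ^ 2 - 3 * t + 1) / (1 - t))) - (1 - UE12.cc t) * (t ^ 2 * (3 * t ^ 2 - 3 * t + 1) ^ 2 / (1 - t) ^ 3) = t ^ 6 * (3 * t ^ 2 - 3 * t + 1) ^ 2 / (1 - t) ^ 6 := by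
    first | (simp only [eb, ec]; field_simp; done) | (simp only [eb, ec]; field_simp; ring) | (field_simp; done) | (field_simp; ring)
  have d12 : 0 - (t * (2 * t - 1) * (2 * t ^ 2 - 2 * t + 1) * (3 * t ^ 2 - 3 * t + 1) / (1 - t) ^ 4) = -(t * (2 * t - 1) * (2 * t ^ 2 - 2 * t + 1) * (3 * t ^ 2 - 3 * t + 1) / (1 - t) ^ 4) := by
    first | (simp only [eb, ec]; field_simp; done) | (simp only [eb, ec]; field_simp; ring) | (field_simp; done) | (field_simp; ring)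
  have h12 : 0 ≠ t * (2 * t - 1) * (2 * t ^ 2 - 2 * t + 1) * (3 * t ^ 2 - 3 * t + 1) / (1 - t) ^ 4 := sub_ne_zero.mp (by rw [d12]; exact (neg_ne_zero.mpr (div_ne_zero (mul_ne_zero (mul_ne_zero (mul_ne_zero ht hv) hq) hr) (pow_ne_zero 4 h1t))))
  have d13 : 0 - (t * (2 * t - 1) * (3 * t ^ 2 - 3 * t + 1) / (1 - t) ^ 3) = -(t * (2 * t - 1) * (3 * t ^ 2 - 3 * t + 1) / (1 - t) ^ 3) := by
    first | (simp only [eb, ec]; field_simp; done) | (simp only [eb, ec]; field_simp; ring) | (field_simp; done) | (field_simp; ring)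
  have h13 : 0 ≠ t * (2 * t - 1) * (3 * t ^ 2 - 3 * t + 1) / (1 - t) ^ 3 := sub_ne_zero.mp (by rw [d13]; exact (neg_ne_zero.mpr (div_ne_zero (mul_ne_zero (mul_ne_zero ht hv) hr) (pow_ne_zero 3 h1t))))
  have d14 : 0 - (t * (2 * t - 1) * (2 * t ^ 2 - 2 * t + 1) / (1 - t) ^ 2) = -(t * (2 * t - 1) * (2 * t ^ 2 - 2 * t + 1) / (1 - t) ^ 2) := by
    first | (simp only [eb, ec]; field_simp; done) | (simp only [eb, ec]; field_simp; ring) | (field_simp; done) | (field_simp; ring)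
  have h14 : 0 ≠ t * (2 * t - 1) * (2 * t ^ 2 - 2 * t + 1) / (1 - t) ^ 2 := sub_ne_zero.mp (by rw [d14]; exact (neg_ne_zero.mpr (div_ne_zero (mul_ne_zero (mul_ne_zero ht hv) hq) (pow_ne_zero 2 h1t))))
  have d15 : 0 - (t * (2 * t - 1) * (2 * t ^ 2 - 2 * t + 1) * (3 * t ^ 2 - 3 * t + 1) / (1 - t) ^ 5) = -(t * (2 * t - 1) * (2 * t ^ 2 - 2 * t + 1) * (3 * t ^ 2 - 3 * t + 1) / (1 - t) ^ 5) := by
    first | (simp only [eb, ec]; field_simp; done) | (simp only [eb, ec]; field_simp; ring) | (field_simp; done) | (field_simp; ring)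
  have h15 : 0 ≠ t * (2 * t - 1) * (2 * t ^ 2 - 2 * t + 1) * (3 * t ^ 2 - 3 * t + 1) / (1 - t) ^ 5 := sub_ne_zero.mp (by rw [d15]; exact (neg_ne_zero.mpr (div_ne_zero (mul_ne_zero (mul_ne_zero (mul_ne_zero ht hv) hq) hr) (pow_ne_zero 5 h1t))))
  have d16 : 0 - (-(t * (3 * t ^ 2 - 3 * t + 1) / (1 - t))) = t * (3 * t ^ 2 - 3 * t + 1) / (1 - t) := by
    first | (simp only [eb, ec]; field_simp; done) | (simp only [eb, ec]; field_simp; ring) | (field_simp; done) | (field_simp; ring)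
  have h16 : 0 ≠ -(t * (3 * t ^ 2 - 3 * t + 1) / (1 - t)) := sub_ne_zero.mp (by rw [d16]; exact (div_ne_zero (mul_ne_zero ht hr) h1t))
  have d23 : t * (2 * t - 1) * (2 * t ^ 2 - 2 * t + 1) * (3 * t ^ 2 - 3 * t + 1) / (1 - t) ^ 4 - (t * (2 * t - 1) * (3 * t ^ 2 - 3 * t + 1) / (1 - t) ^ 3) = t ^ 2 * (2 * t - 1) ^ 2 * (3 * t ^ 2 - 3 * t + 1) / (1 - t) ^ 4 := by
    first | (simp only [eb, ec]; field_simp; done) | (simp only [eb, ec]; field_simp; ring) | (field_simp; done) | (field_simp; ring)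
  have h23 : t * (2 * t - 1) * (2 * t ^ 2 - 2 * t + 1) * (3 * t ^ 2 - 3 * t + 1) / (1 - t) ^ 4 ≠ t * (2 * t - 1) * (3 * t ^ 2 - 3 * t + 1) / (1 - t) ^ 3 := sub_ne_zero.mp (by rw [d23]; exact (div_ne_zero (mul_ne_zero (mul_ne_zero (pow_ne_zero 2 ht) (pow_ne_zero 2 hv)) hr) (pow_ne_zero 4 h1t)))
  have d24 : t * (2 * t - 1) * (2 * t ^ 2 - 2 * t + 1) * (3 * t ^ 2 - 3 * t + 1) / (1 - t) ^ 4 - (t * (2 * t - 1) * (2 * t ^ 2 - 2 * t + 1) / (1 - t) ^ 2) = t ^ 2 * (2 * t - 1) ^ 2 * (2 * t ^ 2 - 2 * t + 1) / (1 - t) ^ 4 := by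
    first | (simp only [eb, ec]; field_simp; done) | (simp only [eb, ec]; field_simp; ring) | (field_simp; done) | (field_simp; ring)
  have h24 : t * (2 * t - 1) * (2 * t ^ 2 - 2 * t + 1) * (3 * t ^ 2 - 3 * t + 1) / (1 - t) ^ 4 ≠ t * (2 * t - 1) * (2 * t ^ 2 - 2 * t + 1) / (1 - t) ^ 2 := sub_ne_zero.mp (by rw [d24]; exact (div_ne_zero (mul_ne_zero (mul_ne_zero (pow_ne_zero 2 ht) (pow_ne_zero 2 hv)) hq) (pow_ne_zero 4 h1t)))
  have d25 : t * (2 * t - 1) * (2 * t ^ 2 - 2 * t + 1) * (3 * t ^ 2 - 3 * t + 1) / (1 - t) ^ 4 - (t * (2 * t - 1) * (2 * t ^ 2 - 2 * t + 1) * (3 * t ^ 2 - 3 * t + 1) / (1 - t) ^ 5) = -(t ^ 2 * (2 * t - 1) * (2 * t ^ 2 - 2 * t + 1) * (3 * t ^ 2 - 3 * t + 1) / (1 - t) ^ 5) := by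
    first | (simp only [eb, ec]; field_simp; done) | (simp only [eb, ec]; field_simp; ring) | (field_simp; done) | (field_simp; ring)
  have h25 : t * (2 * t - 1) * (2 * t ^ 2 - 2 * t + 1) * (3 * t ^ 2 - 3 * t + 1) / (1 - t) ^ 4 ≠ t * (2 * t - 1) * (2 * t ^ 2 - 2 * t + 1) * (3 * t ^ 2 - 3 * t + 1) / (1 - t) ^ 5 := sub_ne_zero.mp (by rw [d25]; exact (neg_ne_zero.mpr (div_ne_zero (mul_ne_zero (mul_ne_zero (mul_ne_zero (pow_ne_zero 2 ht) hv) hq) hr) (pow_ne_zero 5 h1t))))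
  have d26 : t * (2 * t - 1) * (2 * t ^ 2 - 2 * t + 1) * (3 * t ^ 2 - 3 * t + 1) / (1 - t) ^ 4 - (-(t * (3 * t ^ 2 - 3 * t + 1) / (1 - t))) = t ^ 2 * (3 * t ^ 2 - 3 * t + 1) ^ 2 / (1 - t) ^ 4 := by
    first | (simp only [eb, ec]; field_simp; done) | (simp only [eb, ec]; field_simp; ring) | (field_simp; done) | (field_simp; ring)
  have h26 : t * (2 * t - 1) * (2 * t ^ 2 - 2 * t + 1) * (3 * t ^ 2 - 3 * t + 1) / (1 - t) ^ 4 ≠ -(t * (3 * t ^ 2 - 3 * t + 1) / (1 - t)) := sub_ne_zero.mp (by rw [d26]; exact (div_ne_zero (mul_ne_zero (pow_ne_zero 2 ht) (pow_ne_zero 2 hr)) (pow_ne_zero 4 h1t)))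
  have d34 : t * (2 * t - 1) * (3 * t ^ 2 - 3 * t + 1) / (1 - t) ^ 3 - (t * (2 * t - 1) * (2 * t ^ 2 - 2 * t + 1) / (1 - t) ^ 2) = t ^ 3 * (2 * t - 1) ^ 2 / (1 - t) ^ 3 := by
    first | (simp only [eb, ec]; field_simp; done) | (simp only [eb, ec]; field_simp; ring) | (field_simp; done) | (field_simp; ring)
  have h34 : t * (2 * t - 1) * (3 * t ^ 2 - 3 * t + 1) / (1 - t) ^ 3 ≠ t * (2 * t - 1) * (2 * t ^ 2 - 2 * t + 1) / (1 - t) ^ 2 := sub_ne_zero.mp (by rw [d34]; exact (div_ne_zero (mul_ne_zero (pow_ne_zero 3 ht) (pow_ne_zero 2 hv)) (pow_ne_zero 3 h1t)))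
  have d35 : t * (2 * t - 1) * (3 * t ^ 2 - 3 * t + 1) / (1 - t) ^ 3 - (t * (2 * t - 1) * (2 * t ^ 2 - 2 * t + 1) * (3 * t ^ 2 - 3 * t + 1) / (1 - t) ^ 5) = -(t ^ 3 * (2 * t - 1) * (3 * t ^ 2 - 3 * t + 1) / (1 - t) ^ 5) := by
    first | (simp only [eb, ec]; field_simp; done) | (simp only [eb, ec]; field_simp; ring) | (field_simp; done) | (field_simp; ring)
  have h35 : t * (2 * t - 1) * (3 * t ^ 2 - 3 * t + 1) / (1 - t) ^ 3 ≠ t * (2 * t - 1) * (2 * t ^ 2 - 2 * t + 1) * (3 * t ^ 2 - 3 * t + 1) / (1 - t) ^ 5 := sub_ne_zero.mp (by rw [d35]; exact (neg_ne_zero.mpr (div_ne_zero (mul_ne_zero (mul_ne_zero (pow_ne_zero 3 ht) hv) hr) (pow_ne_zero 5 h1t))))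
  have d36 : t * (2 * t - 1) * (3 * t ^ 2 - 3 * t + 1) / (1 - t) ^ 3 - (-(t * (3 * t ^ 2 - 3 * t + 1) / (1 - t))) = t ^ 3 * (3 * t ^ 2 - 3 * t + 1) / (1 - t) ^ 3 := by
    first | (simp only [eb, ec]; field_simp; done) | (simp only [eb, ec]; field_simp; ring) | (field_simp; done) | (field_simp; ring)
  have h36 : t * (2 * t - 1) * (3 * t ^ 2 - 3 * t + 1) / (1 - t) ^ 3 ≠ -(t * (3 * t ^ 2 - 3 * t + 1) / (1 - t)) := sub_ne_zero.mp (by rw [d36]; exact (div_ne_zero (mul_ne_zero (pow_ne_zero 3 ht) hr) (pow_ne_zero 3 h1t)))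
  have d45 : t * (2 * t - 1) * (2 * t ^ 2 - 2 * t + 1) / (1 - t) ^ 2 - (t * (2 * t - 1) * (2 * t ^ 2 - 2 * t + 1) * (3 * t ^ 2 - 3 * t + 1) / (1 - t) ^ 5) = -(t ^ 4 * (2 * t - 1) * (2 * t ^ 2 - 2 * t + 1) / (1 - t) ^ 5) := by
    first | (simp only [eb, ec]; field_simp; done) | (simp only [eb, ec]; field_simp; ring) | (field_simp; done) | (field_simp; ring)
  have h45 : t * (2 * t - 1) * (2 * t ^ 2 - 2 * t + 1) / (1 - t) ^ 2 ≠ t * (2 * t - 1) * (2 * t ^ 2 - 2 * t + 1) * (3 * t ^ 2 - 3 * t + 1) / (1 - t) ^ 5 := sub_ne_zero.mp (by rw [d45]; exact (neg_ne_zero.mpr (div_ne_zero (mul_ne_zero (mul_ne_zero (pow_ne_zero 4 ht) hv) hq) (pow_ne_zero 5 h1t))))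
  have d46 : t * (2 * t - 1) * (2 * t ^ 2 - 2 * t + 1) / (1 - t) ^ 2 - (-(t * (3 * t ^ 2 - 3 * t + 1) / (1 - t))) = t ^ 4 / (1 - t) ^ 2 := by
    first | (simp only [eb, ec]; field_simp; done) | (simp only [eb, ec]; field_simp; ring) | (field_simp; done) | (field_simp; ring)
  have h46 : t * (2 * t - 1) * (2 * t ^ 2 - 2 * t + 1) / (1 - t) ^ 2 ≠ -(t * (3 * t ^ 2 - 3 * t + 1) / (1 - t)) := sub_ne_zero.mp (by rw [d46]; exact (div_ne_zero (pow_ne_zero 4 ht) (pow_ne_zero 2 h1t)))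
  have d56 : t * (2 * t - 1) * (2 * t ^ 2 - 2 * t + 1) * (3 * t ^ 2 - 3 * t + 1) / (1 - t) ^ 5 - (-(t * (3 * t ^ 2 - 3 * t + 1) / (1 - t))) = t ^ 5 * (3 * t ^ 2 - 3 * t + 1) / (1 - t) ^ 5 := by
    first | (simp only [eb, ec]; field_simp; done) | (simp only [eb, ec]; field_simp; ring) | (field_simp; done) | (field_simp; ring)
  have h56 : t * (2 * t - 1) * (2 * t ^ 2 - 2 * t + 1) * (3 * t ^ 2 - 3 * t + 1) / (1 - t) ^ 5 ≠ -(t * (3 * t ^ 2 - 3 * t + 1) / (1 - t)) := sub_ne_zero.mp (by rw [d56]; exact (div_ne_zero (mul_ne_zero (pow_ne_zero 5 ht) hr) (pow_ne_zero 5 h1t)))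
  refine siegel12_core hb (t0 := t) (t1 := (1 - t)) (t2 := (2 * t - 1)) (t3 := (2 * t ^ 2 - 2 * t + 1)) (t4 := (3 * t ^ 2 - 3 * t + 1)) Q2 Q3 Q4 Q5 Q6
    g1 (neg_ne_zero.mpr (div_ne_zero (mul_ne_zero (mul_ne_zero (mul_ne_zero ht hv) hq) hr) (pow_ne_zero 4 h1t))) g2 (div_ne_zero (mul_ne_zero (mul_ne_zero (mul_ne_zero (pow_ne_zero 2 ht) (pow_ne_zero 2 hv)) hq) (pow_ne_zero 2 hr)) (pow_ne_zero 7 h1t)) g3 (neg_ne_zero.mpr (div_ne_zero (mul_ne_zero (mul_ne_zero (pow_ne_zero 3 ht) (pow_ne_zero 3 hv)) hr) (pow_ne_zero 6 h1t))) g4 (div_ne_zero (mul_ne_zero (mul_ne_zero (pow_ne_zero 4 ht) (pow_ne_zero 2 hv)) hq) (pow_ne_zero 5 h1t)) g5 (neg_ne_zero.mpr (div_ne_zero (mul_ne_zero (mul_ne_zero (mul_ne_zero (pow_ne_zero 5 ht) hv) hq) hr) (pow_ne_zero 8 h1t))) g6 k6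
    h12 h13 h14 h15 h16 h23 h24 h25 h26 h34 h35 h36 h45 h46 h56 hO ht h1t hv hq hr
    (div_ne_zero (mul_ne_zero (pow_ne_zero 6 ht) (pow_ne_zero 2 hr)) (pow_ne_zero 6 h1t)) ?_ ?_ ?_ ?_ ?_ ?_ ?_ ?_ ?_ ?_ ?_ ?_ ?_ ?_ ?_ ?_ ?_ ?_ ?_ ?_ ?_ ?_
  · unfold mo5; first | (field_simp; done) | (field_simp; ring)
  · unfold mo5; first | (field_simp; done) | (field_simp; ring)
  · unfold mo5; first | (field_simp; done) | (field_simp; ring)
  · unfold mo5; first | (field_simp; done) | (field_simp; ring)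
  · unfold mo5; first | (field_simp; done) | (field_simp; ring)
  · unfold mo5; first | (field_simp; done) | (field_simp; ring)
  · rw [d12]; unfold mo5; first | (field_simp; done) | (field_simp; ring)
  · rw [d13]; unfold mo5; first | (field_simp; done) | (field_simp; ring)
  · rw [d14]; unfold mo5; first | (field_simp; done) | (field_simp; ring)
  · rw [d15]; unfold mo5; first | (field_simp; done) | (field_simp; ring)
  · rw [d16]; unfold mo5; first | (field_simp; done) | (field_simp; ring)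
  · rw [d23]; unfold mo5; first | (field_simp; done) | (field_simp; ring)
  · rw [d24]; unfold mo5; first | (field_simp; done) | (field_simp; ring)
  · rw [d25]; unfold mo5; first | (field_simp; done) | (field_simp; ring)
  · rw [d26]; unfold mo5; first | (field_simp; done) | (field_simp; ring)
  · rw [d34]; unfold mo5; first | (field_simp; done) | (field_simp; ring)
  · rw [d35]; unfold mo5; first | (field_simp; done) | (field_simp; ring)
  · rw [d36]; unfold mo5; first | (field_simp; done) | (field_simp; ring)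
  · rw [d45]; unfold mo5; first | (field_simp; done) | (field_simp; ring)
  · rw [d46]; unfold mo5; first | (field_simp; done) | (field_simp; ring)
  · rw [d56]; unfold mo5; first | (field_simp; done) | (field_simp; ring)
  · intro l m n o p h
    unfold mo5 at h
    have e1 : (1 - t) ^ (2 * m) = (t - 1) ^ (2 * m) := by
      rw [zpow_mul, zpow_mul]
      congr 1
      rw [zpow_ofNat, zpow_ofNat]
      ring
    rw [e1] at h
    obtain ⟨i1, i2, i3, i4, i5⟩ := hind _ _ _ _ _ h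
    omega

end Pool.Agent.GK
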