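import Pool.Agent.Lib_helper40.MC.P2
import Pool.Agent.Lib_helper87.FAM.S10
import Pool.Agent.Lib_helper72.K8.Sh

set_option autoImplicit false
set_option linter.unusedSectionVars false

/-!
# The special curves with a point of order ten
-/

open scoped TensorProduct WithZero

namespace Pool.Agent.FK4

open Pool.Agent.MK4 WeierstrassCurve.Affine Pool.Agent.KC72 Pool.Agent.MC
open Pool.Agent.TN (Wt Gen)
open Pool.Agent.UEG (P0)

variable {k : Type*} [Field k] [DecidableEq k] [CharZero k] {W : WeierstrassCurve.Affine k}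
  {F : Type*} [Field F] [Algebra k F] {X Y : F}

lemma supp10 {t : k} (ht : t ≠ 0) (ht1 : t - 1 ≠ 0) (ht2 : 2 * t - 1 ≠ 0)
    (hu : t ^ 2 - 3 * t + 1 ≠ 0) {hb : UE10.bb t ≠ 0} {x y : F}
    (hO : addOrderOf (P0 (UE10.cc t) hb) = 10) (h : Generic (Wt (UE10.bb t) (UE10.cc t)) x y)
    (f : F) :
    Supp (AddSubgroup.zmultiples (P0 (UE10.cc t) hb)) x y f ↔
      ∃ (c : k) (n : Fin 9 → ℤ), c ≠ 0 ∧ f = algebraMap k F c * ∏ j, UE10B.uF t x y j ^ n j := by
  rw [supp_iff]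
  exact UE10B.supp10 ht ht1 ht2 hu hO h.toU f

/-- the clause `Line` for a point of order ten -/
theorem line10 (hg : Generic W X Y) {P : W.Point} {t : k} (ht : t ≠ 0) (ht1 : t - 1 ≠ 0)
    (ht2 : 2 * t - 1 ≠ 0) (hu : t ^ 2 - 3 * t + 1 ≠ 0) {hb : UE10.bb t ≠ 0} {x y : F}
    (hO : addOrderOf (P0 (UE10.cc t) hb) = 10) (h : Generic (Wt (UE10.bb t) (UE10.cc t)) x y)
    (hS : Same (AddSubgroup.zmultiples P) X Y (AddSubgroup.zmultiples (P0 (UE10.cc t) hb)) x y)
    {R : RCert} {L' : List Tm} (hR : ROkX R [L']) {n : ℕ} (hn : R.n = n) (hr : R.r = 9)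
    {cls : List (Mo × Mo)} (hcl : sameC R.cls cls = true) {G : Fin n → F} (h9 : 9 ≤ n)
    (hG : ∀ j : Fin 9, G (Fin.castLE h9 j) = UE10B.uF t x y j)
    (hk : ∀ i : Fin n, 9 ≤ i.val → ∃ c : k, c ≠ 0 ∧ G i = algebraMap k F c)
    (hc : ∀ e : Fin n → ℤ, (∀ i : Fin n, i.val < 9 → e i = 0) → ∏ i, G i ^ e i = 1 → e = 0)
    (hs : Sols (List.ofFn G) cls)
    (hU : ∀ f : F,
      (∃ (c : k) (n : Fin 9 → ℤ), c ≠ 0 ∧ f = algebraMap k F c * ∏ j, UE10B.uF t x y j ^ n j) →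
      (∃ (c : k) (n : Fin 9 → ℤ), c ≠ 0 ∧
        1 - f = algebraMap k F c * ∏ j, UE10B.uF t x y j ^ n j) →
      (∃ c : k, f = algebraMap k F c) ∨ ∃ p ∈ cls, TN.Orb (ev (List.ofFn G) p.1) f)
    {L : List Tm} (hL : okT n cls L = true) (hD : chkD n cls L = true)
    (hLL : L.map (fun t => (oo cls (t.c, t.s), t.u)) =
      L'.map (fun t => (oo R.cls (t.c, t.s), t.u))) {ξ : HK F} (hξ : ξ = zt (List.ofFn G) cls L)
    (hun : Unram k ξ) (hnz : RegNonZero k X Y ξ) : Line P X Y := by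
  have hs10 := supp10 ht ht1 ht2 hu hO h
  refine line_rcert hg hS hR (n := n) (r := 9) hn hr hcl (G := G) h9
    ?_ ?_ ?_ hc hs (fun f h1 h2 => hU f ((hs10 f).mp h1) ((hs10 _).mp h2)) hL hD hLL hξ hun hnz
  · intro i
    by_cases hi : i.val < 9
    · have e : G i = UE10B.uF t x y ⟨i.val, hi⟩ := by rw [← hG]; rfl
      rw [e, hs10]
      refine ⟨1, Pi.single ⟨i.val, hi⟩ 1, one_ne_zero, ?_⟩
      rw [map_one, one_mul, Finset.prod_eq_single (⟨i.val, hi⟩ : Fin 9)]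
      · rw [Pi.single_eq_same, zpow_one]
      · intro j _ hj
        rw [Pi.single_eq_of_ne hj, zpow_zero]
      · intro hj; exact absurd (Finset.mem_univ _) hj
    · obtain ⟨c, hc0, e⟩ := hk i (not_lt.mp hi)
      rw [e]
      exact supp_const hc0
  · intro i hi
    obtain ⟨c, -, e⟩ := hk i hi
    exact ⟨c, e⟩
  · intro e c _ he
    simp only [hG] at he
    exact UE10B.const10 ht ht1 ht2 hu hO h.toU he

section two

/-- the functions for `t = 2` -/
def G10s (x y : F) : Fin 11 → F :=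
  ![x, x - 24, x - 6, x - 12, x - 8, y, y - 6 * x, y - 3 * x, y - 4 * x, 2, 3]

/-- monomials in the nine functions for `t = 2` -/
def M10s (x y : F) (n : Fin 9 → ℤ) : F :=
  ∏ j, (![x, x - 24, x - 6, x - 12, x - 8, y, y - 6 * x, y - 3 * x, y - 4 * x] : Fin 9 → F) j ^ n j

lemma uF10 (x y : F) : UE10B.uF (2 : k) x y =
    ![x, x - 24, x - 6, x - 12, x - 8, y, y - 6 * x, y - 3 * x, y - 4 * x] := by
  have e1 : UE10.bb (2 : k) = 24 := by unfold UE10.bb UE10.cc; norm_num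
  have e2 : UE10.cc (2 : k) = 6 := by unfold UE10.cc; norm_num
  have e3 : UE10B.x4 (2 : k) = 12 := by unfold UE10B.x4 UE10B.dd; norm_num
  have e4 : UE10B.x5 (2 : k) = 8 := by unfold UE10B.x5 UE10B.dd; norm_num
  have e5 : UE10B.s3 (2 : k) = 3 := by unfold UE10B.s3 UE10B.dd; norm_num
  have e6 : UE10B.s4 (2 : k) = 4 := by unfold UE10B.s4 UE10B.dd; norm_num
  unfold UE10B.uF
  rw [e1, e2, e3, e4, e5, e6]
  simp only [map_ofNat]

/-- **the clause `Line` for `t = 2`**, from the certificate, the solutions of the unit equation and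
the class -/
theorem line10a_of (hg : Generic W X Y) {P : W.Point} (h10 : To10 P X Y)
    {R : RCert} {L' : List Tm} (hR : ROkX R [L']) (hn : R.n = 11) (hr : R.r = 9)
    {cls : List (Mo × Mo)} (hcl : sameC R.cls cls = true)
    (hs : ∀ {x y : F}, Gen (24 : k) 6 x y → Sols (List.ofFn (G10s x y)) cls)
    (hU : ∀ {x y : F}, Gen (24 : k) 6 x y → ∀ f : F,
      (∃ (c : k) (n : Fin 9 → ℤ), c ≠ 0 ∧ f = algebraMap k F c * M10s x y n) →
      (∃ (c : k) (n : Fin 9 → ℤ), c ≠ 0 ∧ 1 - f = algebraMap k F c * M10s x y n) →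
      (∃ c : k, f = algebraMap k F c) ∨ ∃ p ∈ cls, TN.Orb (ev (List.ofFn (G10s x y)) p.1) f)
    {L : List Tm} (hL : okT 11 cls L = true) (hD : chkD 11 cls L = true)
    (hLL : L.map (fun t => (oo cls (t.c, t.s), t.u)) =
      L'.map (fun t => (oo R.cls (t.c, t.s), t.u)))
    {ξ : F → F → HK F}
    (hξ : ∀ {x y : F}, Gen (24 : k) 6 x y → ξ x y = zt (List.ofFn (G10s x y)) cls L)
    (hun : ∀ {x y : F}, Gen (24 : k) 6 x y → Unram k (ξ x y))
    (hnz : ∀ {x y : F} (φ : k →+* ℝ), Gen (24 : k) 6 x y →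
      IntermediateField.adjoin k {x, y} = ⊤ → RegNe φ (ξ x y)) : Line P X Y := by
  obtain ⟨x, y, hG, hO, hS, htop⟩ := h10
  have hgen : Gen (24 : k) 6 x y := by
    have := UE4.of_UEG hG.toU
    have e1 : UE10.bb (2 : k) = 24 := by unfold UE10.bb UE10.cc; norm_num
    have e2 : UE10.cc (2 : k) = 6 := by unfold UE10.cc; norm_num
    rwa [e1, e2] at this
  refine line10 hg (t := 2) two_ne_zero (by norm_num) (by norm_num) (by norm_num) hO hG
    hS.toSame hR hn hr hcl (G := G10s x y) (by norm_num) ?_ ?_ ?_ (hs hgen) ?_ hL hD hLL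
    (hξ hgen) (hun hgen) (fun φ ht => hnz φ hgen (htop ht))
  · intro j
    rw [uF10]
    fin_cases j <;> rfl
  · intro i hi
    fin_cases i <;> first | (exfalso; revert hi; decide) | skip
    · exact ⟨2, two_ne_zero, (map_ofNat (algebraMap k F) 2).symm⟩
    · exact ⟨3, three_ne_zero, (map_ofNat (algebraMap k F) 3).symm⟩
  · intro e he hp
    have e0 := he 0 (by decide)
    have e1 := he 1 (by decide)
    have e2 := he 2 (by decide)
    have e3 := he 3 (by decide)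
    have e4 := he 4 (by decide)
    have e5 := he 5 (by decide)
    have e6 := he 6 (by decide)
    have e7 := he 7 (by decide)
    have e8 := he 8 (by decide)
    rw [Fin.prod_univ_castSucc, Fin.prod_univ_castSucc, Fin.prod_univ_castSucc,
      Fin.prod_univ_eight] at hp
    have hp' : G10s x y 0 ^ e 0 * G10s x y 1 ^ e 1 * G10s x y 2 ^ e 2 * G10s x y 3 ^ e 3 *
      G10s x y 4 ^ e 4 * G10s x y 5 ^ e 5 * G10s x y 6 ^ e 6 * G10s x y 7 ^ e 7 *
      G10s x y 8 ^ e 8 * (2 : F) ^ e 9 * (3 : F) ^ e 10 = 1 := hp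
    rw [e0, e1, e2, e3, e4, e5, e6, e7, e8] at hp'
    simp only [zpow_zero, one_mul] at hp'
    have h2 : (2 : k) ^ e 9 * 3 ^ e 10 = 1 := by
      apply (algebraMap k F).injective
      rw [map_mul, map_zpow₀, map_zpow₀, map_ofNat, map_ofNat, map_one]
      exact hp'
    obtain ⟨h3, h4⟩ := K8.two_three h2
    funext i
    fin_cases i <;> assumption
  · intro f h1 h2
    rw [uF10] at h1 h2
    exact hU hgen f h1 h2

end two

section minus

lemma two_three_five {a b c : ℤ} (h : (2 : k) ^ a * 3 ^ b * 5 ^ c = 1) :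
    a = 0 ∧ b = 0 ∧ c = 0 := by
  have hq : (2 : ℚ) ^ a * 3 ^ b * 5 ^ c = 1 := by
    have h2 : ((((2 : ℚ) ^ a * 3 ^ b * 5 ^ c : ℚ)) : k) = ((1 : ℚ) : k) := by
      push_cast
      exact h
    exact_mod_cast h2
  have : Fact (Nat.Prime 2) := ⟨Nat.prime_two⟩
  have : Fact (Nat.Prime 3) := ⟨Nat.prime_three⟩
  have : Fact (Nat.Prime 5) := ⟨Nat.prime_five⟩
  have a2 : (2 : ℚ) ^ a ≠ 0 := zpow_ne_zero _ two_ne_zero
  have a3 : (3 : ℚ) ^ b ≠ 0 := zpow_ne_zero _ three_ne_zero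
  have a5 : (5 : ℚ) ^ c ≠ 0 := zpow_ne_zero _ (by norm_num)
  have key : ∀ (p q : ℕ) [Fact p.Prime] (_ : q.Prime), p ≠ q → padicValRat p (q : ℚ) = 0 := by
    intro p q _ hq' hpq
    have : Fact q.Prime := ⟨hq'⟩
    rw [padicValRat.of_nat, padicValNat_primes (q := q) hpq]
    rfl
  have self : ∀ (p : ℕ) [Fact p.Prime], padicValRat p (p : ℚ) = 1 := fun p _ =>
    padicValRat.self (Fact.out : p.Prime).one_lt
  have v5 := congrArg (padicValRat 5) hq
  rw [padicValRat.mul (mul_ne_zero a2 a3) a5, padicValRat.mul a2 a3, padicValRat.zpow,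
    padicValRat.zpow, padicValRat.zpow, padicValRat.one] at v5
  have k1 : padicValRat 5 (2 : ℚ) = 0 := by exact_mod_cast key 5 2 Nat.prime_two (by norm_num)
  have k2 : padicValRat 5 (3 : ℚ) = 0 := by exact_mod_cast key 5 3 Nat.prime_three (by norm_num)
  have k3 : padicValRat 5 (5 : ℚ) = 1 := by exact_mod_cast self 5
  rw [k1, k2, k3] at v5
  have hc : c = 0 := by linarith
  subst hc
  rw [zpow_zero, mul_one] at h
  obtain ⟨h1, h2⟩ := K8.two_three h
  exact ⟨h1, h2, rfl⟩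

/-- the functions for `t = -1` -/
def G10m (x y : F) : Fin 12 → F :=
  ![x, x + 6 / 25, x - 6 / 5, x - 6 / 25, x + 2 / 5, y, y - 6 / 5 * x, y + 6 / 5 * x,
    y - 2 / 5 * x, 2, 3, 5]

/-- monomials in the nine functions for `t = -1` -/
def M10m (x y : F) (n : Fin 9 → ℤ) : F :=
  ∏ j, (![x, x + 6 / 25, x - 6 / 5, x - 6 / 25, x + 2 / 5, y, y - 6 / 5 * x, y + 6 / 5 * x,
    y - 2 / 5 * x] : Fin 9 → F) j ^ n j

lemma uF10m (x y : F) : UE10B.uF (-1 : k) x y =
    ![x, x + 6 / 25, x - 6 / 5, x - 6 / 25, x + 2 / 5, y, y - 6 / 5 * x, y + 6 / 5 * x,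
      y - 2 / 5 * x] := by
  have e1 : UE10.bb (-1 : k) = -(6 / 25) := by unfold UE10.bb UE10.cc; norm_num
  have e2 : UE10.cc (-1 : k) = 6 / 5 := by unfold UE10.cc; norm_num
  have e3 : UE10B.x4 (-1 : k) = 6 / 25 := by unfold UE10B.x4 UE10B.dd; norm_num
  have e4 : UE10B.x5 (-1 : k) = -(2 / 5) := by unfold UE10B.x5 UE10B.dd; norm_num
  have e5 : UE10B.s3 (-1 : k) = -(6 / 5) := by unfold UE10B.s3 UE10B.dd; norm_num
  have e6 : UE10B.s4 (-1 : k) = 2 / 5 := by unfold UE10B.s4 UE10B.dd; norm_num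
  unfold UE10B.uF
  rw [e1, e2, e3, e4, e5, e6]
  simp only [map_neg, map_div₀, map_ofNat, sub_neg_eq_add, neg_mul]

/-- **the clause `Line` for `t = -1`**, from the certificate, the solutions of the unit equation and
the class -/
theorem line10m_of (hg : Generic W X Y) {P : W.Point} (h10 : To10' P X Y)
    {R : RCert} {L' : List Tm} (hR : ROkX R [L']) (hn : R.n = 12) (hr : R.r = 9)
    {cls : List (Mo × Mo)} (hcl : sameC R.cls cls = true)
    (hs : ∀ {x y : F}, Gen (-6 / 25 : k) (6 / 5) x y → Sols (List.ofFn (G10m x y)) cls)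
    (hU : ∀ {x y : F}, Gen (-6 / 25 : k) (6 / 5) x y → ∀ f : F,
      (∃ (c : k) (n : Fin 9 → ℤ), c ≠ 0 ∧ f = algebraMap k F c * M10m x y n) →
      (∃ (c : k) (n : Fin 9 → ℤ), c ≠ 0 ∧ 1 - f = algebraMap k F c * M10m x y n) →
      (∃ c : k, f = algebraMap k F c) ∨ ∃ p ∈ cls, TN.Orb (ev (List.ofFn (G10m x y)) p.1) f)
    {L : List Tm} (hL : okT 12 cls L = true) (hD : chkD 12 cls L = true)
    (hLL : L.map (fun t => (oo cls (t.c, t.s), t.u)) =
      L'.map (fun t => (oo R.cls (t.c, t.s), t.u)))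
    {ξ : F → F → HK F}
    (hξ : ∀ {x y : F}, Gen (-6 / 25 : k) (6 / 5) x y → ξ x y = zt (List.ofFn (G10m x y)) cls L)
    (hun : ∀ {x y : F}, Gen (-6 / 25 : k) (6 / 5) x y → Unram k (ξ x y))
    (hnz : ∀ {x y : F} (φ : k →+* ℝ), Gen (-6 / 25 : k) (6 / 5) x y →
      IntermediateField.adjoin k {x, y} = ⊤ → RegNe φ (ξ x y)) : Line P X Y := by
  obtain ⟨x, y, hG, hO, hS, htop⟩ := h10
  have hgen : Gen (-6 / 25 : k) (6 / 5) x y := by
    have := UE4.of_UEG hG.toU
    have e1 : UE10.bb (-1 : k) = -6 / 25 := by unfold UE10.bb UE10.cc; norm_num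
    have e2 : UE10.cc (-1 : k) = 6 / 5 := by unfold UE10.cc; norm_num
    rwa [e1, e2] at this
  have h5k : (5 : k) ≠ 0 := by norm_num
  refine line10 hg (t := -1) (by norm_num) (by norm_num) (by norm_num) (by norm_num) hO hG
    hS.toSame hR hn hr hcl (G := G10m x y) (by norm_num) ?_ ?_ ?_ (hs hgen) ?_ hL hD hLL
    (hξ hgen) (hun hgen) (fun φ ht => hnz φ hgen (htop ht))
  · intro j
    rw [uF10m]
    fin_cases j <;> rfl
  · intro i hi
    fin_cases i <;> first | (exfalso; revert hi; decide) | skip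
    · exact ⟨2, two_ne_zero, (map_ofNat (algebraMap k F) 2).symm⟩
    · exact ⟨3, three_ne_zero, (map_ofNat (algebraMap k F) 3).symm⟩
    · exact ⟨5, h5k, (map_ofNat (algebraMap k F) 5).symm⟩
  · intro e he hp
    have e0 := he 0 (by decide)
    have e1 := he 1 (by decide)
    have e2 := he 2 (by decide)
    have e3 := he 3 (by decide)
    have e4 := he 4 (by decide)
    have e5 := he 5 (by decide)
    have e6 := he 6 (by decide)
    have e7 := he 7 (by decide)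
    have e8 := he 8 (by decide)
    rw [Fin.prod_univ_castSucc, Fin.prod_univ_castSucc, Fin.prod_univ_castSucc,
      Fin.prod_univ_castSucc, Fin.prod_univ_eight] at hp
    have hp' : G10m x y 0 ^ e 0 * G10m x y 1 ^ e 1 * G10m x y 2 ^ e 2 * G10m x y 3 ^ e 3 *
      G10m x y 4 ^ e 4 * G10m x y 5 ^ e 5 * G10m x y 6 ^ e 6 * G10m x y 7 ^ e 7 *
      G10m x y 8 ^ e 8 * (2 : F) ^ e 9 * (3 : F) ^ e 10 * (5 : F) ^ e 11 = 1 := hp
    rw [e0, e1, e2, e3, e4, e5, e6, e7, e8] at hp'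
    simp only [zpow_zero, one_mul] at hp'
    have h2 : (2 : k) ^ e 9 * 3 ^ e 10 * 5 ^ e 11 = 1 := by
      apply (algebraMap k F).injective
      rw [map_mul, map_mul, map_zpow₀, map_zpow₀, map_zpow₀, map_ofNat, map_ofNat, map_ofNat,
        map_one]
      exact hp'
    obtain ⟨h3, h4, h5⟩ := two_three_five h2
    funext i
    fin_cases i <;> assumption
  · intro f h1 h2
    rw [uF10m] at h1 h2
    exact hU hgen f h1 h2

end minus

end Pool.Agent.FK4
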