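import Pool.Agent.Lib_helper87.FAM.Siegel
import Pool.Agent.Lib_helper87.FAM.T10

/-!
# The Siegel numbers of the multiples of a point of order ten
-/

set_option autoImplicit false
set_option linter.unusedSectionVars false
set_option linter.unusedSimpArgs false
set_option linter.unusedVariables false
set_option linter.unreachableTactic false
set_option linter.unusedTactic false

namespace Pool.Agent.GK

open WeierstrassCurve.Affine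
open K4M (dx ps pc ph)
open Pool.Agent.TN (Wt)
open Pool.Agent.UEG (P0 two_P0 three_P0 four_P0 five_P0 six_P0 negY_wt)

lemma prod_ten {M : Type*} [CommMonoid M] (f : Fin 10 → M) :
    ∏ i, f i = f 0 * f 1 * f 2 * f 3 * f 4 * f 5 * f 6 * f 7 * f 8 * f 9 := by
  simp only [Fin.prod_univ_castSucc, Fin.prod_univ_zero, one_mul]
  rfl

lemma sum_ten {M : Type*} [AddCommMonoid M] (f : Fin 10 → M) :
    ∑ i, f i = f 0 + f 1 + f 2 + f 3 + f 4 + f 5 + f 6 + f 7 + f 8 + f 9 := by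
  simp only [Fin.sum_univ_castSucc, Fin.sum_univ_zero, zero_add]
  rfl

section mo

variable {k : Type*} [Field k]

/-- monomials -/
def mo4 (t0 t1 t2 t3 : k) (a b c d : ℤ) : k := t0 ^ a * t1 ^ b * t2 ^ c * t3 ^ d

lemma mo4_mul {t0 t1 t2 t3 : k} (ht0 : t0 ≠ 0) (ht1 : t1 ≠ 0) (ht2 : t2 ≠ 0) (ht3 : t3 ≠ 0)
    (a b c d a' b' c' d' : ℤ) :
    mo4 t0 t1 t2 t3 a b c d * mo4 t0 t1 t2 t3 a' b' c' d' =
      mo4 t0 t1 t2 t3 (a + a') (b + b') (c + c') (d + d') := by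
  unfold mo4
  rw [zpow_add₀ ht0, zpow_add₀ ht1, zpow_add₀ ht2, zpow_add₀ ht3]
  ring

lemma mo4_zpow {t0 t1 t2 t3 : k} (a b c d n : ℤ) :
    mo4 t0 t1 t2 t3 a b c d ^ n = mo4 t0 t1 t2 t3 (a * n) (b * n) (c * n) (d * n) := by
  unfold mo4
  simp only [mul_zpow, ← zpow_mul]

lemma mo4_sq {t0 t1 t2 t3 : k} (ht0 : t0 ≠ 0) (ht1 : t1 ≠ 0) (ht2 : t2 ≠ 0) (ht3 : t3 ≠ 0)
    (a b c d : ℤ) :
    mo4 t0 t1 t2 t3 a b c d ^ 2 = mo4 t0 t1 t2 t3 (a + a) (b + b) (c + c) (d + d) := by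
  rw [sq, mo4_mul ht0 ht1 ht2 ht3]

end mo

lemma some_eq10 {k : Type*} [Field k] [DecidableEq k] {W : WeierstrassCurve.Affine k} {P : W.Point}
    {x y x' y' : k} (h : ∃ h, P = .some x y h) (hx : x = x') (hy : y = y') :
    ∃ h, P = .some x' y' h := by
  subst hx hy
  exact h

variable {k : Type*} [Field k] [DecidableEq k] {b c : k}

/-- the Siegel numbers for a point of order ten -/
lemma gam10 (hb : b ≠ 0) {x2 x3 x4 x5 y2 y3 y4 y5 p1 p2 p3 p4 p5 : k}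
    (q2 : ∃ h, (2 : ℕ) • P0 c hb = .some x2 y2 h)
    (q3 : ∃ h, (3 : ℕ) • P0 c hb = .some x3 y3 h)
    (q4 : ∃ h, (4 : ℕ) • P0 c hb = .some x4 y4 h)
    (q5 : ∃ h, (5 : ℕ) • P0 c hb = .some x5 y5 h)
    (g1 : 2 * 0 + (1 - c) * 0 - b = p1) (n1 : p1 ≠ 0)
    (g2 : 2 * y2 + (1 - c) * x2 - b = p2) (n2 : p2 ≠ 0)
    (g3 : 2 * y3 + (1 - c) * x3 - b = p3) (n3 : p3 ≠ 0)
    (g4 : 2 * y4 + (1 - c) * x4 - b = p4) (n4 : p4 ≠ 0)
    (g5 : 2 * y5 + (1 - c) * x5 - b = 0)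
    (k5 : 3 * x5 ^ 2 - 2 * b * x5 - (1 - c) * y5 = p5)
    (h12 : 0 ≠ x2)
    (h13 : 0 ≠ x3)
    (h14 : 0 ≠ x4)
    (h15 : 0 ≠ x5)
    (h23 : x2 ≠ x3)
    (h24 : x2 ≠ x4)
    (h25 : x2 ≠ x5)
    (h34 : x3 ≠ x4)
    (h35 : x3 ≠ x5)
    (h45 : x4 ≠ x5)
    (hO : addOrderOf (P0 c hb) = 10) [Fintype (AddSubgroup.zmultiples (P0 c hb))] :
    gam _ (mz (P0 c hb) 10 1) = -(p1 ^ 2 * (0 - x2) ^ 2 * (0 - x3) ^ 2 * (0 - x4) ^ 2 * (0 - x5)) ∧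
    gam _ (mz (P0 c hb) 10 2) = -(p2 ^ 2 * (x2 - 0) ^ 2 * (x2 - x3) ^ 2 * (x2 - x4) ^ 2 * (x2 - x5)) ∧
    gam _ (mz (P0 c hb) 10 3) = -(p3 ^ 2 * (x3 - 0) ^ 2 * (x3 - x2) ^ 2 * (x3 - x4) ^ 2 * (x3 - x5)) ∧
    gam _ (mz (P0 c hb) 10 4) = -(p4 ^ 2 * (x4 - 0) ^ 2 * (x4 - x2) ^ 2 * (x4 - x3) ^ 2 * (x4 - x5)) ∧
    gam _ (mz (P0 c hb) 10 5) = -(p5 * (x5 - 0) ^ 2 * (x5 - x2) ^ 2 * (x5 - x3) ^ 2 * (x5 - x4) ^ 2) ∧
    gam _ (mz (P0 c hb) 10 6) = -(p4 ^ 2 * (x4 - 0) ^ 2 * (x4 - x2) ^ 2 * (x4 - x3) ^ 2 * (x4 - x5)) ∧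
    gam _ (mz (P0 c hb) 10 7) = -(p3 ^ 2 * (x3 - 0) ^ 2 * (x3 - x2) ^ 2 * (x3 - x4) ^ 2 * (x3 - x5)) ∧
    gam _ (mz (P0 c hb) 10 8) = -(p2 ^ 2 * (x2 - 0) ^ 2 * (x2 - x3) ^ 2 * (x2 - x4) ^ 2 * (x2 - x5)) ∧
    gam _ (mz (P0 c hb) 10 9) = -(p1 ^ 2 * (0 - x2) ^ 2 * (0 - x3) ^ 2 * (0 - x4) ^ 2 * (0 - x5)) := by
  have q1 := m1 (c := c) hb
  obtain ⟨h6, e6⟩ := mn (x' := x4) (y' := -y4 - (1 - c) * x4 + b) hb hO (i := 4) (j := 6) (by norm_num) q4 rfl (by ring)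
  obtain ⟨h7, e7⟩ := mn (x' := x3) (y' := -y3 - (1 - c) * x3 + b) hb hO (i := 3) (j := 7) (by norm_num) q3 rfl (by ring)
  obtain ⟨h8, e8⟩ := mn (x' := x2) (y' := -y2 - (1 - c) * x2 + b) hb hO (i := 2) (j := 8) (by norm_num) q2 rfl (by ring)
  obtain ⟨h9, e9⟩ := mn (x' := 0) (y' := -0 - (1 - c) * 0 + b) hb hO (i := 1) (j := 9) (by norm_num) q1 rfl (by ring)
  obtain ⟨h1, e1⟩ := q1
  obtain ⟨h2, e2⟩ := q2
  obtain ⟨h3, e3⟩ := q3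
  obtain ⟨h4, e4⟩ := q4
  obtain ⟨h5, e5⟩ := q5
  have e0 : (0 : ℕ) • P0 c hb = 0 := zero_nsmul _
  have v1 : pc (.some (0) (0) h1 : (Wt b c).Point) = p1 := by
    rw [pc_of_ne _ (by rw [g1]; exact n1), g1]
  have v2 : pc (.some (x2) (y2) h2 : (Wt b c).Point) = p2 := by
    rw [pc_of_ne _ (by rw [g2]; exact n2), g2]
  have v3 : pc (.some (x3) (y3) h3 : (Wt b c).Point) = p3 := by
    rw [pc_of_ne _ (by rw [g3]; exact n3), g3]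
  have v4 : pc (.some (x4) (y4) h4 : (Wt b c).Point) = p4 := by
    rw [pc_of_ne _ (by rw [g4]; exact n4), g4]
  have v5 : pc (.some (x5) (y5) h5 : (Wt b c).Point) = p5 := by
    rw [pc_of_eq _ g5, k5]
  have v6 : pc (.some (x4) (-y4 - (1 - c) * x4 + b) h6 : (Wt b c).Point) = -p4 := by
    rw [pc_of_ne _ (by intro h; apply n4; linear_combination -h - g4)]; linear_combination -g4
  have v7 : pc (.some (x3) (-y3 - (1 - c) * x3 + b) h7 : (Wt b c).Point) = -p3 := by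
    rw [pc_of_ne _ (by intro h; apply n3; linear_combination -h - g3)]; linear_combination -g3
  have v8 : pc (.some (x2) (-y2 - (1 - c) * x2 + b) h8 : (Wt b c).Point) = -p2 := by
    rw [pc_of_ne _ (by intro h; apply n2; linear_combination -h - g2)]; linear_combination -g2
  have v9 : pc (.some (0) (-0 - (1 - c) * 0 + b) h9 : (Wt b c).Point) = -p1 := by
    rw [pc_of_ne _ (by intro h; apply n1; linear_combination -h - g1)]; linear_combination -g1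
  refine ⟨?_, ?_, ?_, ?_, ?_, ?_, ?_, ?_, ?_⟩
  · unfold gam
    rw [prod_mz hO (by norm_num), prod_ten]
    show dl ((1 : ℕ) • P0 c hb) ((0 : ℕ) • P0 c hb) *
      dl ((1 : ℕ) • P0 c hb) ((1 : ℕ) • P0 c hb) *
      dl ((1 : ℕ) • P0 c hb) ((2 : ℕ) • P0 c hb) *
      dl ((1 : ℕ) • P0 c hb) ((3 : ℕ) • P0 c hb) *
      dl ((1 : ℕ) • P0 c hb) ((4 : ℕ) • P0 c hb) *
      dl ((1 : ℕ) • P0 c hb) ((5 : ℕ) • P0 c hb) *
      dl ((1 : ℕ) • P0 c hb) ((6 : ℕ) • P0 c hb) *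
      dl ((1 : ℕ) • P0 c hb) ((7 : ℕ) • P0 c hb) *
      dl ((1 : ℕ) • P0 c hb) ((8 : ℕ) • P0 c hb) *
      dl ((1 : ℕ) • P0 c hb) ((9 : ℕ) • P0 c hb) = _
    rw [e0, e1, e2, e3, e4, e5, e6, e7, e8, e9]
    simp only [dl_some, dl_zero, if_pos, if_neg h12, if_neg h12.symm, if_neg h13, if_neg h13.symm, if_neg h14, if_neg h14.symm, if_neg h15, if_neg h15.symm, if_neg h23, if_neg h23.symm, if_neg h24, if_neg h24.symm, if_neg h25, if_neg h25.symm, if_neg h34, if_neg h34.symm, if_neg h35, if_neg h35.symm, if_neg h45, if_neg h45.symm,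
      v1, v2, v3, v4, v5, v6, v7, v8, v9]
    ring
  · unfold gam
    rw [prod_mz hO (by norm_num), prod_ten]
    show dl ((2 : ℕ) • P0 c hb) ((0 : ℕ) • P0 c hb) *
      dl ((2 : ℕ) • P0 c hb) ((1 : ℕ) • P0 c hb) *
      dl ((2 : ℕ) • P0 c hb) ((2 : ℕ) • P0 c hb) *
      dl ((2 : ℕ) • P0 c hb) ((3 : ℕ) • P0 c hb) *
      dl ((2 : ℕ) • P0 c hb) ((4 : ℕ) • P0 c hb) *
      dl ((2 : ℕ) • P0 c hb) ((5 : ℕ) • P0 c hb) *
      dl ((2 : ℕ) • P0 c hb) ((6 : ℕ) • P0 c hb) *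
      dl ((2 : ℕ) • P0 c hb) ((7 : ℕ) • P0 c hb) *
      dl ((2 : ℕ) • P0 c hb) ((8 : ℕ) • P0 c hb) *
      dl ((2 : ℕ) • P0 c hb) ((9 : ℕ) • P0 c hb) = _
    rw [e0, e1, e2, e3, e4, e5, e6, e7, e8, e9]
    simp only [dl_some, dl_zero, if_pos, if_neg h12, if_neg h12.symm, if_neg h13, if_neg h13.symm, if_neg h14, if_neg h14.symm, if_neg h15, if_neg h15.symm, if_neg h23, if_neg h23.symm, if_neg h24, if_neg h24.symm, if_neg h25, if_neg h25.symm, if_neg h34, if_neg h34.symm, if_neg h35, if_neg h35.symm, if_neg h45, if_neg h45.symm,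
      v1, v2, v3, v4, v5, v6, v7, v8, v9]
    ring
  · unfold gam
    rw [prod_mz hO (by norm_num), prod_ten]
    show dl ((3 : ℕ) • P0 c hb) ((0 : ℕ) • P0 c hb) *
      dl ((3 : ℕ) • P0 c hb) ((1 : ℕ) • P0 c hb) *
      dl ((3 : ℕ) • P0 c hb) ((2 : ℕ) • P0 c hb) *
      dl ((3 : ℕ) • P0 c hb) ((3 : ℕ) • P0 c hb) *
      dl ((3 : ℕ) • P0 c hb) ((4 : ℕ) • P0 c hb) *
      dl ((3 : ℕ) • P0 c hb) ((5 : ℕ) • P0 c hb) *
      dl ((3 : ℕ) • P0 c hb) ((6 : ℕ) • P0 c hb) *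
      dl ((3 : ℕ) • P0 c hb) ((7 : ℕ) • P0 c hb) *
      dl ((3 : ℕ) • P0 c hb) ((8 : ℕ) • P0 c hb) *
      dl ((3 : ℕ) • P0 c hb) ((9 : ℕ) • P0 c hb) = _
    rw [e0, e1, e2, e3, e4, e5, e6, e7, e8, e9]
    simp only [dl_some, dl_zero, if_pos, if_neg h12, if_neg h12.symm, if_neg h13, if_neg h13.symm, if_neg h14, if_neg h14.symm, if_neg h15, if_neg h15.symm, if_neg h23, if_neg h23.symm, if_neg h24, if_neg h24.symm, if_neg h25, if_neg h25.symm, if_neg h34, if_neg h34.symm, if_neg h35, if_neg h35.symm, if_neg h45, if_neg h45.symm,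
      v1, v2, v3, v4, v5, v6, v7, v8, v9]
    ring
  · unfold gam
    rw [prod_mz hO (by norm_num), prod_ten]
    show dl ((4 : ℕ) • P0 c hb) ((0 : ℕ) • P0 c hb) *
      dl ((4 : ℕ) • P0 c hb) ((1 : ℕ) • P0 c hb) *
      dl ((4 : ℕ) • P0 c hb) ((2 : ℕ) • P0 c hb) *
      dl ((4 : ℕ) • P0 c hb) ((3 : ℕ) • P0 c hb) *
      dl ((4 : ℕ) • P0 c hb) ((4 : ℕ) • P0 c hb) *
      dl ((4 : ℕ) • P0 c hb) ((5 : ℕ) • P0 c hb) *
      dl ((4 : ℕ) • P0 c hb) ((6 : ℕ) • P0 c hb) *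
      dl ((4 : ℕ) • P0 c hb) ((7 : ℕ) • P0 c hb) *
      dl ((4 : ℕ) • P0 c hb) ((8 : ℕ) • P0 c hb) *
      dl ((4 : ℕ) • P0 c hb) ((9 : ℕ) • P0 c hb) = _
    rw [e0, e1, e2, e3, e4, e5, e6, e7, e8, e9]
    simp only [dl_some, dl_zero, if_pos, if_neg h12, if_neg h12.symm, if_neg h13, if_neg h13.symm, if_neg h14, if_neg h14.symm, if_neg h15, if_neg h15.symm, if_neg h23, if_neg h23.symm, if_neg h24, if_neg h24.symm, if_neg h25, if_neg h25.symm, if_neg h34, if_neg h34.symm, if_neg h35, if_neg h35.symm, if_neg h45, if_neg h45.symm,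
      v1, v2, v3, v4, v5, v6, v7, v8, v9]
    ring
  · unfold gam
    rw [prod_mz hO (by norm_num), prod_ten]
    show dl ((5 : ℕ) • P0 c hb) ((0 : ℕ) • P0 c hb) *
      dl ((5 : ℕ) • P0 c hb) ((1 : ℕ) • P0 c hb) *
      dl ((5 : ℕ) • P0 c hb) ((2 : ℕ) • P0 c hb) *
      dl ((5 : ℕ) • P0 c hb) ((3 : ℕ) • P0 c hb) *
      dl ((5 : ℕ) • P0 c hb) ((4 : ℕ) • P0 c hb) *
      dl ((5 : ℕ) • P0 c hb) ((5 : ℕ) • P0 c hb) *
      dl ((5 : ℕ) • P0 c hb) ((6 : ℕ) • P0 c hb) *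
      dl ((5 : ℕ) • P0 c hb) ((7 : ℕ) • P0 c hb) *
      dl ((5 : ℕ) • P0 c hb) ((8 : ℕ) • P0 c hb) *
      dl ((5 : ℕ) • P0 c hb) ((9 : ℕ) • P0 c hb) = _
    rw [e0, e1, e2, e3, e4, e5, e6, e7, e8, e9]
    simp only [dl_some, dl_zero, if_pos, if_neg h12, if_neg h12.symm, if_neg h13, if_neg h13.symm, if_neg h14, if_neg h14.symm, if_neg h15, if_neg h15.symm, if_neg h23, if_neg h23.symm, if_neg h24, if_neg h24.symm, if_neg h25, if_neg h25.symm, if_neg h34, if_neg h34.symm, if_neg h35, if_neg h35.symm, if_neg h45, if_neg h45.symm,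
      v1, v2, v3, v4, v5, v6, v7, v8, v9]
    ring
  · unfold gam
    rw [prod_mz hO (by norm_num), prod_ten]
    show dl ((6 : ℕ) • P0 c hb) ((0 : ℕ) • P0 c hb) *
      dl ((6 : ℕ) • P0 c hb) ((1 : ℕ) • P0 c hb) *
      dl ((6 : ℕ) • P0 c hb) ((2 : ℕ) • P0 c hb) *
      dl ((6 : ℕ) • P0 c hb) ((3 : ℕ) • P0 c hb) *
      dl ((6 : ℕ) • P0 c hb) ((4 : ℕ) • P0 c hb) *
      dl ((6 : ℕ) • P0 c hb) ((5 : ℕ) • P0 c hb) *
      dl ((6 : ℕ) • P0 c hb) ((6 : ℕ) • P0 c hb) *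
      dl ((6 : ℕ) • P0 c hb) ((7 : ℕ) • P0 c hb) *
      dl ((6 : ℕ) • P0 c hb) ((8 : ℕ) • P0 c hb) *
      dl ((6 : ℕ) • P0 c hb) ((9 : ℕ) • P0 c hb) = _
    rw [e0, e1, e2, e3, e4, e5, e6, e7, e8, e9]
    simp only [dl_some, dl_zero, if_pos, if_neg h12, if_neg h12.symm, if_neg h13, if_neg h13.symm, if_neg h14, if_neg h14.symm, if_neg h15, if_neg h15.symm, if_neg h23, if_neg h23.symm, if_neg h24, if_neg h24.symm, if_neg h25, if_neg h25.symm, if_neg h34, if_neg h34.symm, if_neg h35, if_neg h35.symm, if_neg h45, if_neg h45.symm,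
      v1, v2, v3, v4, v5, v6, v7, v8, v9]
    ring
  · unfold gam
    rw [prod_mz hO (by norm_num), prod_ten]
    show dl ((7 : ℕ) • P0 c hb) ((0 : ℕ) • P0 c hb) *
      dl ((7 : ℕ) • P0 c hb) ((1 : ℕ) • P0 c hb) *
      dl ((7 : ℕ) • P0 c hb) ((2 : ℕ) • P0 c hb) *
      dl ((7 : ℕ) • P0 c hb) ((3 : ℕ) • P0 c hb) *
      dl ((7 : ℕ) • P0 c hb) ((4 : ℕ) • P0 c hb) *
      dl ((7 : ℕ) • P0 c hb) ((5 : ℕ) • P0 c hb) *
      dl ((7 : ℕ) • P0 c hb) ((6 : ℕ) • P0 c hb) *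
      dl ((7 : ℕ) • P0 c hb) ((7 : ℕ) • P0 c hb) *
      dl ((7 : ℕ) • P0 c hb) ((8 : ℕ) • P0 c hb) *
      dl ((7 : ℕ) • P0 c hb) ((9 : ℕ) • P0 c hb) = _
    rw [e0, e1, e2, e3, e4, e5, e6, e7, e8, e9]
    simp only [dl_some, dl_zero, if_pos, if_neg h12, if_neg h12.symm, if_neg h13, if_neg h13.symm, if_neg h14, if_neg h14.symm, if_neg h15, if_neg h15.symm, if_neg h23, if_neg h23.symm, if_neg h24, if_neg h24.symm, if_neg h25, if_neg h25.symm, if_neg h34, if_neg h34.symm, if_neg h35, if_neg h35.symm, if_neg h45, if_neg h45.symm,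
      v1, v2, v3, v4, v5, v6, v7, v8, v9]
    ring
  · unfold gam
    rw [prod_mz hO (by norm_num), prod_ten]
    show dl ((8 : ℕ) • P0 c hb) ((0 : ℕ) • P0 c hb) *
      dl ((8 : ℕ) • P0 c hb) ((1 : ℕ) • P0 c hb) *
      dl ((8 : ℕ) • P0 c hb) ((2 : ℕ) • P0 c hb) *
      dl ((8 : ℕ) • P0 c hb) ((3 : ℕ) • P0 c hb) *
      dl ((8 : ℕ) • P0 c hb) ((4 : ℕ) • P0 c hb) *
      dl ((8 : ℕ) • P0 c hb) ((5 : ℕ) • P0 c hb) *
      dl ((8 : ℕ) • P0 c hb) ((6 : ℕ) • P0 c hb) *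
      dl ((8 : ℕ) • P0 c hb) ((7 : ℕ) • P0 c hb) *
      dl ((8 : ℕ) • P0 c hb) ((8 : ℕ) • P0 c hb) *
      dl ((8 : ℕ) • P0 c hb) ((9 : ℕ) • P0 c hb) = _
    rw [e0, e1, e2, e3, e4, e5, e6, e7, e8, e9]
    simp only [dl_some, dl_zero, if_pos, if_neg h12, if_neg h12.symm, if_neg h13, if_neg h13.symm, if_neg h14, if_neg h14.symm, if_neg h15, if_neg h15.symm, if_neg h23, if_neg h23.symm, if_neg h24, if_neg h24.symm, if_neg h25, if_neg h25.symm, if_neg h34, if_neg h34.symm, if_neg h35, if_neg h35.symm, if_neg h45, if_neg h45.symm,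
      v1, v2, v3, v4, v5, v6, v7, v8, v9]
    ring
  · unfold gam
    rw [prod_mz hO (by norm_num), prod_ten]
    show dl ((9 : ℕ) • P0 c hb) ((0 : ℕ) • P0 c hb) *
      dl ((9 : ℕ) • P0 c hb) ((1 : ℕ) • P0 c hb) *
      dl ((9 : ℕ) • P0 c hb) ((2 : ℕ) • P0 c hb) *
      dl ((9 : ℕ) • P0 c hb) ((3 : ℕ) • P0 c hb) *
      dl ((9 : ℕ) • P0 c hb) ((4 : ℕ) • P0 c hb) *
      dl ((9 : ℕ) • P0 c hb) ((5 : ℕ) • P0 c hb) *
      dl ((9 : ℕ) • P0 c hb) ((6 : ℕ) • P0 c hb) *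
      dl ((9 : ℕ) • P0 c hb) ((7 : ℕ) • P0 c hb) *
      dl ((9 : ℕ) • P0 c hb) ((8 : ℕ) • P0 c hb) *
      dl ((9 : ℕ) • P0 c hb) ((9 : ℕ) • P0 c hb) = _
    rw [e0, e1, e2, e3, e4, e5, e6, e7, e8, e9]
    simp only [dl_some, dl_zero, if_pos, if_neg h12, if_neg h12.symm, if_neg h13, if_neg h13.symm, if_neg h14, if_neg h14.symm, if_neg h15, if_neg h15.symm, if_neg h23, if_neg h23.symm, if_neg h24, if_neg h24.symm, if_neg h25, if_neg h25.symm, if_neg h34, if_neg h34.symm, if_neg h35, if_neg h35.symm, if_neg h45, if_neg h45.symm,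
      v1, v2, v3, v4, v5, v6, v7, v8, v9]
    ring

/-- the Siegel numbers for a point of order ten are independent -/
theorem siegel10_core (hb : b ≠ 0) {x2 x3 x4 x5 y2 y3 y4 y5 p1 p2 p3 p4 p5 t0 t1 t2 t3 : k}
    (q2 : ∃ h, (2 : ℕ) • P0 c hb = .some x2 y2 h)
    (q3 : ∃ h, (3 : ℕ) • P0 c hb = .some x3 y3 h)
    (q4 : ∃ h, (4 : ℕ) • P0 c hb = .some x4 y4 h)
    (q5 : ∃ h, (5 : ℕ) • P0 c hb = .some x5 y5 h)
    (g1 : 2 * 0 + (1 - c) * 0 - b = p1) (n1 : p1 ≠ 0)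
    (g2 : 2 * y2 + (1 - c) * x2 - b = p2) (n2 : p2 ≠ 0)
    (g3 : 2 * y3 + (1 - c) * x3 - b = p3) (n3 : p3 ≠ 0)
    (g4 : 2 * y4 + (1 - c) * x4 - b = p4) (n4 : p4 ≠ 0)
    (g5 : 2 * y5 + (1 - c) * x5 - b = 0)
    (k5 : 3 * x5 ^ 2 - 2 * b * x5 - (1 - c) * y5 = p5)
    (h12 : 0 ≠ x2)
    (h13 : 0 ≠ x3)
    (h14 : 0 ≠ x4)
    (h15 : 0 ≠ x5)
    (h23 : x2 ≠ x3)
    (h24 : x2 ≠ x4)
    (h25 : x2 ≠ x5)
    (h34 : x3 ≠ x4)
    (h35 : x3 ≠ x5)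
    (h45 : x4 ≠ x5)
    (hO : addOrderOf (P0 c hb) = 10) [Fintype (AddSubgroup.zmultiples (P0 c hb))]
    (ht0 : t0 ≠ 0) (ht1 : t1 ≠ 0) (ht2 : t2 ≠ 0) (ht3 : t3 ≠ 0) (nh : p5 ≠ 0)
    (s1 : p1 * p1 = mo4 t0 t1 t2 t3 6 2 2 (-4))
    (s2 : p2 * p2 = mo4 t0 t1 t2 t3 8 4 4 (-6))
    (s3 : p3 * p3 = mo4 t0 t1 t2 t3 2 6 4 (-4))
    (s4 : p4 * p4 = mo4 t0 t1 t2 t3 4 8 2 (-6))
    (s5 : p5 * p5 = mo4 t0 t1 t2 t3 10 10 0 (-6))
    (s12 : (0 - x2) * (0 - x2) = mo4 t0 t1 t2 t3 6 2 2 (-4))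
    (s13 : (0 - x3) * (0 - x3) = mo4 t0 t1 t2 t3 2 2 2 (-2))
    (s14 : (0 - x4) * (0 - x4) = mo4 t0 t1 t2 t3 4 2 2 (-4))
    (s15 : (0 - x5) * (0 - x5) = mo4 t0 t1 t2 t3 6 2 0 (-2))
    (s23 : (x2 - x3) * (x2 - x3) = mo4 t0 t1 t2 t3 2 4 4 (-4))
    (s24 : (x2 - x4) * (x2 - x4) = mo4 t0 t1 t2 t3 4 4 2 (-4))
    (s25 : (x2 - x5) * (x2 - x5) = mo4 t0 t1 t2 t3 8 4 0 (-4))
    (s34 : (x3 - x4) * (x3 - x4) = mo4 t0 t1 t2 t3 2 6 2 (-4))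
    (s35 : (x3 - x5) * (x3 - x5) = mo4 t0 t1 t2 t3 2 6 0 (-2))
    (s45 : (x4 - x5) * (x4 - x5) = mo4 t0 t1 t2 t3 4 8 0 (-4))
    (hind : ∀ l m n o : ℤ, mo4 t0 t1 t2 t3 (2 * l) (2 * m) (2 * n) (2 * o) = 1 →
      l = 0 ∧ m = 0 ∧ n = 0 ∧ o = 0) :
    SiegelIndep (AddSubgroup.zmultiples (P0 c hb)) := by
  intro e e0 ee es ep
  obtain ⟨G1, G2, G3, G4, G5, G6, G7, G8, G9⟩ := gam10 hb q2 q3 q4 q5
    g1 n1 g2 n2 g3 n3 g4 n4 g5 k5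
    h12 h13 h14 h15 h23 h24 h25 h34 h35 h45 hO
  rw [prod_mz hO (by norm_num), prod_ten] at ep
  rw [sum_mz hO (by norm_num), sum_ten] at es
  have v1 : e (mz _ 10 9) = e (mz _ 10 1) := even_mz hO ee (by decide)
  have v2 : e (mz _ 10 8) = e (mz _ 10 2) := even_mz hO ee (by decide)
  have v3 : e (mz _ 10 7) = e (mz _ 10 3) := even_mz hO ee (by decide)
  have v4 : e (mz _ 10 6) = e (mz _ 10 4) := even_mz hO ee (by decide)
  have v0 : e (mz (P0 c hb) 10 0) = 0 := by rw [zero_mz, e0]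
  set X1 := e (mz _ 10 1) with hX1
  set X2 := e (mz _ 10 2) with hX2
  set X3 := e (mz _ 10 3) with hX3
  set X4 := e (mz _ 10 4) with hX4
  set X5 := e (mz _ 10 5) with hX5
  rw [v0, v1, v2, v3, v4] at es ep
  rw [G1, G2, G3, G4, G5, G6, G7, G8, G9, zpow_zero, one_mul] at ep
  have E1 : -(p1 ^ 2 * (0 - x2) ^ 2 * (0 - x3) ^ 2 * (0 - x4) ^ 2 * (0 - x5)) * -(p1 ^ 2 * (0 - x2) ^ 2 * (0 - x3) ^ 2 * (0 - x4) ^ 2 * (0 - x5)) = mo4 t0 t1 t2 t3 42 18 16 (-30) := by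
    calc _ = (p1 * p1) ^ 2 * ((0 - x2) * (0 - x2)) ^ 2 * ((0 - x3) * (0 - x3)) ^ 2 * ((0 - x4) * (0 - x4)) ^ 2 * ((0 - x5) * (0 - x5)) := by ring
      _ = _ := by
        rw [s1, s12, s13, s14, s15]
        simp only [mo4_sq ht0 ht1 ht2 ht3, mo4_mul ht0 ht1 ht2 ht3]
        norm_num
  have E2 : -(p2 ^ 2 * (x2 - 0) ^ 2 * (x2 - x3) ^ 2 * (x2 - x4) ^ 2 * (x2 - x5)) * -(p2 ^ 2 * (x2 - 0) ^ 2 * (x2 - x3) ^ 2 * (x2 - x4) ^ 2 * (x2 - x5)) = mo4 t0 t1 t2 t3 48 32 24 (-40) := by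
    calc _ = (p2 * p2) ^ 2 * ((x2 - 0) * (x2 - 0)) ^ 2 * ((x2 - x3) * (x2 - x3)) ^ 2 * ((x2 - x4) * (x2 - x4)) ^ 2 * ((x2 - x5) * (x2 - x5)) := by ring
      _ = _ := by
        rw [show (x2 - 0) * (x2 - 0) = (0 - x2) * (0 - x2) by ring, s2, s12, s23, s24, s25]
        simp only [mo4_sq ht0 ht1 ht2 ht3, mo4_mul ht0 ht1 ht2 ht3]
        norm_num
  have E3 : -(p3 ^ 2 * (x3 - 0) ^ 2 * (x3 - x2) ^ 2 * (x3 - x4) ^ 2 * (x3 - x5)) * -(p3 ^ 2 * (x3 - 0) ^ 2 * (x3 - x2) ^ 2 * (x3 - x4) ^ 2 * (x3 - x5)) = mo4 t0 t1 t2 t3 18 42 24 (-30) := by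
    calc _ = (p3 * p3) ^ 2 * ((x3 - 0) * (x3 - 0)) ^ 2 * ((x3 - x2) * (x3 - x2)) ^ 2 * ((x3 - x4) * (x3 - x4)) ^ 2 * ((x3 - x5) * (x3 - x5)) := by ring
      _ = _ := by
        rw [show (x3 - 0) * (x3 - 0) = (0 - x3) * (0 - x3) by ring, show (x3 - x2) * (x3 - x2) = (x2 - x3) * (x2 - x3) by ring, s3, s13, s23, s34, s35]
        simp only [mo4_sq ht0 ht1 ht2 ht3, mo4_mul ht0 ht1 ht2 ht3]
        norm_num
  have E4 : -(p4 ^ 2 * (x4 - 0) ^ 2 * (x4 - x2) ^ 2 * (x4 - x3) ^ 2 * (x4 - x5)) * -(p4 ^ 2 * (x4 - 0) ^ 2 * (x4 - x2) ^ 2 * (x4 - x3) ^ 2 * (x4 - x5)) = mo4 t0 t1 t2 t3 32 48 16 (-40) := by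
    calc _ = (p4 * p4) ^ 2 * ((x4 - 0) * (x4 - 0)) ^ 2 * ((x4 - x2) * (x4 - x2)) ^ 2 * ((x4 - x3) * (x4 - x3)) ^ 2 * ((x4 - x5) * (x4 - x5)) := by ring
      _ = _ := by
        rw [show (x4 - 0) * (x4 - 0) = (0 - x4) * (0 - x4) by ring, show (x4 - x2) * (x4 - x2) = (x2 - x4) * (x2 - x4) by ring, show (x4 - x3) * (x4 - x3) = (x3 - x4) * (x3 - x4) by ring, s4, s14, s24, s34, s45]
        simp only [mo4_sq ht0 ht1 ht2 ht3, mo4_mul ht0 ht1 ht2 ht3]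
        norm_num
  have E5 : -(p5 * (x5 - 0) ^ 2 * (x5 - x2) ^ 2 * (x5 - x3) ^ 2 * (x5 - x4) ^ 2) * -(p5 * (x5 - 0) ^ 2 * (x5 - x2) ^ 2 * (x5 - x3) ^ 2 * (x5 - x4) ^ 2) = mo4 t0 t1 t2 t3 50 50 0 (-30) := by
    calc _ = (p5 * p5) * ((x5 - 0) * (x5 - 0)) ^ 2 * ((x5 - x2) * (x5 - x2)) ^ 2 * ((x5 - x3) * (x5 - x3)) ^ 2 * ((x5 - x4) * (x5 - x4)) ^ 2 := by ring
      _ = _ := by
        rw [show (x5 - 0) * (x5 - 0) = (0 - x5) * (0 - x5) by ring, show (x5 - x2) * (x5 - x2) = (x2 - x5) * (x2 - x5) by ring, show (x5 - x3) * (x5 - x3) = (x3 - x5) * (x3 - x5) by ring, show (x5 - x4) * (x5 - x4) = (x4 - x5) * (x4 - x5) by ring, s5, s15, s25, s35, s45]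
        simp only [mo4_sq ht0 ht1 ht2 ht3, mo4_mul ht0 ht1 ht2 ht3]
        norm_num
  have hH : -(p5 * (x5 - 0) ^ 2 * (x5 - x2) ^ 2 * (x5 - x3) ^ 2 * (x5 - x4) ^ 2) ≠ 0 := by
    refine neg_ne_zero.mpr ?_
    refine mul_ne_zero (mul_ne_zero (mul_ne_zero (mul_ne_zero (nh) (pow_ne_zero 2 (sub_ne_zero.mpr h15.symm))) (pow_ne_zero 2 (sub_ne_zero.mpr h25.symm))) (pow_ne_zero 2 (sub_ne_zero.mpr h35.symm))) (pow_ne_zero 2 (sub_ne_zero.mpr h45.symm))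
  generalize -(p1 ^ 2 * (0 - x2) ^ 2 * (0 - x3) ^ 2 * (0 - x4) ^ 2 * (0 - x5)) = H1 at ep E1
  generalize -(p2 ^ 2 * (x2 - 0) ^ 2 * (x2 - x3) ^ 2 * (x2 - x4) ^ 2 * (x2 - x5)) = H2 at ep E2
  generalize -(p3 ^ 2 * (x3 - 0) ^ 2 * (x3 - x2) ^ 2 * (x3 - x4) ^ 2 * (x3 - x5)) = H3 at ep E3
  generalize -(p4 ^ 2 * (x4 - 0) ^ 2 * (x4 - x2) ^ 2 * (x4 - x3) ^ 2 * (x4 - x5)) = H4 at ep E4
  generalize -(p5 * (x5 - 0) ^ 2 * (x5 - x2) ^ 2 * (x5 - x3) ^ 2 * (x5 - x4) ^ 2) = H5 at ep E5 hH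
  have hy : X5 = 2 * (-X1 - X2 - X3 - X4) := by omega
  rw [half H5 hH hy] at ep
  have F : (H1 * H1) ^ X1 * (H2 * H2) ^ X2 * (H3 * H3) ^ X3 * (H4 * H4) ^ X4 * (H5 * H5) ^ (-X1 - X2 - X3 - X4) = 1 := by
    simp only [mul_zpow]
    rw [← ep]
    ring
  rw [E1, E2, E3, E4, E5] at F
  simp only [mo4_zpow, mo4_mul ht0 ht1 ht2 ht3] at F
  have K := hind (21 * X1 + 24 * X2 + 9 * X3 + 16 * X4 + 25 * (-X1 - X2 - X3 - X4)) (9 * X1 + 16 * X2 + 21 * X3 + 24 * X4 + 25 * (-X1 - X2 - X3 - X4)) (8 * X1 + 12 * X2 + 12 * X3 + 8 * X4 + 0 * (-X1 - X2 - X3 - X4)) ((-15) * X1 + (-20) * X2 + (-15) * X3 + (-20) * X4 + (-15) * (-X1 - X2 - X3 - X4)) (by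
    rw [← F]; congr 1 <;> ring)
  obtain ⟨K0, K1, K2, K3⟩ := K
  have z1 : X1 = 0 := by omega
  have z2 : X2 = 0 := by omega
  have z3 : X3 = 0 := by omega
  have z4 : X4 = 0 := by omega
  have z5 : X5 = 0 := by omega
  funext a
  obtain ⟨i, rfl⟩ := (mz_bij hO (by norm_num)).2 a
  show e _ = 0
  fin_cases i
  · exact v0
  · exact z1
  · exact z2
  · exact z3
  · exact z4
  · exact z5
  · exact v4.trans z4
  · exact v3.trans z3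
  · exact v2.trans z2
  · exact v1.trans z1

/-- **the Siegel numbers for a point of order ten** -/
theorem siegel10 {t : k} (hb : UE10.bb t ≠ 0) (hu : t ^ 2 - 3 * t + 1 ≠ 0)
    (hO : addOrderOf (P0 (UE10.cc t) hb) = 10)
    (hind : ∀ l m n o : ℤ, t ^ l * (t - 1) ^ m * (2 * t - 1) ^ n * (t ^ 2 - 3 * t + 1) ^ o = 1 →
      l = 0 ∧ m = 0 ∧ n = 0 ∧ o = 0)
    [Fintype (AddSubgroup.zmultiples (P0 (UE10.cc t) hb))] :
    SiegelIndep (AddSubgroup.zmultiples (P0 (UE10.cc t) hb)) := by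
  have hw : t - (t - 1) ^ 2 ≠ 0 := by intro h; apply hu; linear_combination -h
  have hc : UE10.cc t ≠ 0 := by intro h; apply hb; unfold UE10.bb; rw [h, mul_zero]
  have ht : t ≠ 0 := by rintro rfl; apply hc; simp [UE10.cc]
  have hs : t - 1 ≠ 0 := by intro h; apply hc; unfold UE10.cc; rw [h]; simp
  have hv : 2 * t - 1 ≠ 0 := by intro h; apply hc; unfold UE10.cc; rw [h]; simp
  have eb : UE10.bb t = t ^ 3 * (t - 1) * (2 * t - 1) / (t - (t - 1) ^ 2) ^ 2 := by unfold UE10.bb UE10.cc; field_simp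
  have ec : UE10.cc t = t * (t - 1) * (2 * t - 1) / (t - (t - 1) ^ 2) := by unfold UE10.cc; field_simp
  have hd : UE10.bb t = t ^ 2 / (t - (t - 1) ^ 2) * UE10.cc t := rfl
  have hf : UE10.cc t = t * (t ^ 2 / (t - (t - 1) ^ 2) - 1) := by rw [ec]; field_simp; ring
  have q2 := two_P0 (c := UE10.cc t) hb
  have q3 := three_P0 (c := UE10.cc t) hb
  have q4 := four_P0 hb hc hd
  have q5 := five_P0 hb hc hd hf
  have x2 : UE10.bb t = t ^ 3 * (t - 1) * (2 * t - 1) / (t - (t - 1) ^ 2) ^ 2 := eb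
  have y2 : UE10.bb t * UE10.cc t = t ^ 4 * (t - 1) ^ 2 * (2 * t - 1) ^ 2 / (t - (t - 1) ^ 2) ^ 3 := by
    first | (simp only [eb, ec]; field_simp; done) | (simp only [eb, ec]; field_simp; ring) | (field_simp; done) | (field_simp; ring)
  have Q2 := some_eq10 q2 x2 y2
  have x3 : UE10.cc t = t * (t - 1) * (2 * t - 1) / (t - (t - 1) ^ 2) := ec
  have y3 : UE10.bb t - UE10.cc t = t * (t - 1) ^ 2 * (2 * t - 1) ^ 2 / (t - (t - 1) ^ 2) ^ 2 := by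
    first | (simp only [eb, ec]; field_simp; done) | (simp only [eb, ec]; field_simp; ring) | (field_simp; done) | (field_simp; ring)
  have Q3 := some_eq10 q3 x3 y3
  have x4 : t ^ 2 / (t - (t - 1) ^ 2) * (t ^ 2 / (t - (t - 1) ^ 2) - 1) = t ^ 2 * (t - 1) * (2 * t - 1) / (t - (t - 1) ^ 2) ^ 2 := by
    first | (simp only [eb, ec]; field_simp; done) | (simp only [eb, ec]; field_simp; ring) | (field_simp; done) | (field_simp; ring)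
  have y4 : (t ^ 2 / (t - (t - 1) ^ 2)) ^ 2 * (UE10.cc t + 1 - t ^ 2 / (t - (t - 1) ^ 2)) = t ^ 4 * (t - 1) ^ 2 * (2 * t - 1) / (t - (t - 1) ^ 2) ^ 3 := by
    first | (simp only [eb, ec]; field_simp; done) | (simp only [eb, ec]; field_simp; ring) | (field_simp; done) | (field_simp; ring)
  have Q4 := some_eq10 q4 x4 y4
  have x5 : t ^ 2 / (t - (t - 1) ^ 2) * t * (t - 1) = t ^ 3 * (t - 1) / (t - (t - 1) ^ 2) := by
    first | (simp only [eb, ec]; field_simp; done) | (simp only [eb, ec]; field_simp; ring) | (field_simp; done) | (field_simp; ring)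
  have y5 : t ^ 2 / (t - (t - 1) ^ 2) * t ^ 2 * (t ^ 2 / (t - (t - 1) ^ 2) - t) = t ^ 5 * (t - 1) ^ 2 / (t - (t - 1) ^ 2) ^ 2 := by
    first | (simp only [eb, ec]; field_simp; done) | (simp only [eb, ec]; field_simp; ring) | (field_simp; done) | (field_simp; ring)
  have Q5 := some_eq10 q5 x5 y5
  have g1 : 2 * (0) + (1 - UE10.cc t) * (0) - UE10.bb t = -(t ^ 3 * (t - 1) * (2 * t - 1) / (t - (t - 1) ^ 2) ^ 2) := by
    first | (simp only [eb, ec]; field_simp; done) | (simp only [eb, ec]; field_simp; ring) | (field_simp; done) | (field_simp; ring)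
  have g2 : 2 * (t ^ 4 * (t - 1) ^ 2 * (2 * t - 1) ^ 2 / (t - (t - 1) ^ 2) ^ 3) + (1 - UE10.cc t) * (t ^ 3 * (t - 1) * (2 * t - 1) / (t - (t - 1) ^ 2) ^ 2) - UE10.bb t = t ^ 4 * (t - 1) ^ 2 * (2 * t - 1) ^ 2 / (t - (t - 1) ^ 2) ^ 3 := by
    first | (simp only [eb, ec]; field_simp; done) | (simp only [eb, ec]; field_simp; ring) | (field_simp; done) | (field_simp; ring)
  have g3 : 2 * (t * (t - 1) ^ 2 * (2 * t - 1) ^ 2 / (t - (t - 1) ^ 2) ^ 2) + (1 - UE10.cc t) * (t * (t - 1) * (2 * t - 1) / (t - (t - 1) ^ 2)) - UE10.bb t = -(t * (t - 1) ^ 3 * (2 * t - 1) ^ 2 / (t - (t - 1) ^ 2) ^ 2) := by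
    first | (simp only [eb, ec]; field_simp; done) | (simp only [eb, ec]; field_simp; ring) | (field_simp; done) | (field_simp; ring)
  have g4 : 2 * (t ^ 4 * (t - 1) ^ 2 * (2 * t - 1) / (t - (t - 1) ^ 2) ^ 3) + (1 - UE10.cc t) * (t ^ 2 * (t - 1) * (2 * t - 1) / (t - (t - 1) ^ 2) ^ 2) - UE10.bb t = t ^ 2 * (t - 1) ^ 4 * (2 * t - 1) / (t - (t - 1) ^ 2) ^ 3 := by
    first | (simp only [eb, ec]; field_simp; done) | (simp only [eb, ec]; field_simp; ring) | (field_simp; done) | (field_simp; ring)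
  have g5 : 2 * (t ^ 5 * (t - 1) ^ 2 / (t - (t - 1) ^ 2) ^ 2) + (1 - UE10.cc t) * (t ^ 3 * (t - 1) / (t - (t - 1) ^ 2)) - UE10.bb t = 0 := by
    first | (simp only [eb, ec]; field_simp; done) | (simp only [eb, ec]; field_simp; ring) | (field_simp; done) | (field_simp; ring)
  have k5 : 3 * (t ^ 3 * (t - 1) / (t - (t - 1) ^ 2)) ^ 2 - 2 * UE10.bb t * (t ^ 3 * (t - 1) / (t - (t - 1) ^ 2)) - (1 - UE10.cc t) * (t ^ 5 * (t - 1) ^ 2 / (t - (t - 1) ^ 2) ^ 2) = -(t ^ 5 * (t - 1) ^ 5 / (t - (t - 1) ^ 2) ^ 3) := by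
    first | (simp only [eb, ec]; field_simp; done) | (simp only [eb, ec]; field_simp; ring) | (field_simp; done) | (field_simp; ring)
  have d12 : 0 - (t ^ 3 * (t - 1) * (2 * t - 1) / (t - (t - 1) ^ 2) ^ 2) = -(t ^ 3 * (t - 1) * (2 * t - 1) / (t - (t - 1) ^ 2) ^ 2) := by
    first | (simp only [eb, ec]; field_simp; done) | (simp only [eb, ec]; field_simp; ring) | (field_simp; done) | (field_simp; ring)
  have h12 : 0 ≠ t ^ 3 * (t - 1) * (2 * t - 1) / (t - (t - 1) ^ 2) ^ 2 := sub_ne_zero.mp (by rw [d12]; exact (neg_ne_zero.mpr (div_ne_zero (mul_ne_zero (mul_ne_zero (pow_ne_zero 3 ht) hs) hv) (pow_ne_zero 2 hw))))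
  have d13 : 0 - (t * (t - 1) * (2 * t - 1) / (t - (t - 1) ^ 2)) = -(t * (t - 1) * (2 * t - 1) / (t - (t - 1) ^ 2)) := by
    first | (simp only [eb, ec]; field_simp; done) | (simp only [eb, ec]; field_simp; ring) | (field_simp; done) | (field_simp; ring)
  have h13 : 0 ≠ t * (t - 1) * (2 * t - 1) / (t - (t - 1) ^ 2) := sub_ne_zero.mp (by rw [d13]; exact (neg_ne_zero.mpr (div_ne_zero (mul_ne_zero (mul_ne_zero ht hs) hv) hw)))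
  have d14 : 0 - (t ^ 2 * (t - 1) * (2 * t - 1) / (t - (t - 1) ^ 2) ^ 2) = -(t ^ 2 * (t - 1) * (2 * t - 1) / (t - (t - 1) ^ 2) ^ 2) := by
    first | (simp only [eb, ec]; field_simp; done) | (simp only [eb, ec]; field_simp; ring) | (field_simp; done) | (field_simp; ring)
  have h14 : 0 ≠ t ^ 2 * (t - 1) * (2 * t - 1) / (t - (t - 1) ^ 2) ^ 2 := sub_ne_zero.mp (by rw [d14]; exact (neg_ne_zero.mpr (div_ne_zero (mul_ne_zero (mul_ne_zero (pow_ne_zero 2 ht) hs) hv) (pow_ne_zero 2 hw))))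
  have d15 : 0 - (t ^ 3 * (t - 1) / (t - (t - 1) ^ 2)) = -(t ^ 3 * (t - 1) / (t - (t - 1) ^ 2)) := by
    first | (simp only [eb, ec]; field_simp; done) | (simp only [eb, ec]; field_simp; ring) | (field_simp; done) | (field_simp; ring)
  have h15 : 0 ≠ t ^ 3 * (t - 1) / (t - (t - 1) ^ 2) := sub_ne_zero.mp (by rw [d15]; exact (neg_ne_zero.mpr (div_ne_zero (mul_ne_zero (pow_ne_zero 3 ht) hs) hw)))
  have d23 : t ^ 3 * (t - 1) * (2 * t - 1) / (t - (t - 1) ^ 2) ^ 2 - (t * (t - 1) * (2 * t - 1) / (t - (t - 1) ^ 2)) = t * (t - 1) ^ 2 * (2 * t - 1) ^ 2 / (t - (t - 1) ^ 2) ^ 2 := by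
    first | (simp only [eb, ec]; field_simp; done) | (simp only [eb, ec]; field_simp; ring) | (field_simp; done) | (field_simp; ring)
  have h23 : t ^ 3 * (t - 1) * (2 * t - 1) / (t - (t - 1) ^ 2) ^ 2 ≠ t * (t - 1) * (2 * t - 1) / (t - (t - 1) ^ 2) := sub_ne_zero.mp (by rw [d23]; exact (div_ne_zero (mul_ne_zero (mul_ne_zero ht (pow_ne_zero 2 hs)) (pow_ne_zero 2 hv)) (pow_ne_zero 2 hw)))
  have d24 : t ^ 3 * (t - 1) * (2 * t - 1) / (t - (t - 1) ^ 2) ^ 2 - (t ^ 2 * (t - 1) * (2 * t - 1) / (t - (t - 1) ^ 2) ^ 2) = t ^ 2 * (t - 1) ^ 2 * (2 * t - 1) / (t - (t - 1) ^ 2) ^ 2 := by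
    first | (simp only [eb, ec]; field_simp; done) | (simp only [eb, ec]; field_simp; ring) | (field_simp; done) | (field_simp; ring)
  have h24 : t ^ 3 * (t - 1) * (2 * t - 1) / (t - (t - 1) ^ 2) ^ 2 ≠ t ^ 2 * (t - 1) * (2 * t - 1) / (t - (t - 1) ^ 2) ^ 2 := sub_ne_zero.mp (by rw [d24]; exact (div_ne_zero (mul_ne_zero (mul_ne_zero (pow_ne_zero 2 ht) (pow_ne_zero 2 hs)) hv) (pow_ne_zero 2 hw)))
  have d25 : t ^ 3 * (t - 1) * (2 * t - 1) / (t - (t - 1) ^ 2) ^ 2 - (t ^ 3 * (t - 1) / (t - (t - 1) ^ 2)) = t ^ 4 * (t - 1) ^ 2 / (t - (t - 1) ^ 2) ^ 2 := by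
    first | (simp only [eb, ec]; field_simp; done) | (simp only [eb, ec]; field_simp; ring) | (field_simp; done) | (field_simp; ring)
  have h25 : t ^ 3 * (t - 1) * (2 * t - 1) / (t - (t - 1) ^ 2) ^ 2 ≠ t ^ 3 * (t - 1) / (t - (t - 1) ^ 2) := sub_ne_zero.mp (by rw [d25]; exact (div_ne_zero (mul_ne_zero (pow_ne_zero 4 ht) (pow_ne_zero 2 hs)) (pow_ne_zero 2 hw)))
  have d34 : t * (t - 1) * (2 * t - 1) / (t - (t - 1) ^ 2) - (t ^ 2 * (t - 1) * (2 * t - 1) / (t - (t - 1) ^ 2) ^ 2) = -(t * (t - 1) ^ 3 * (2 * t - 1) / (t - (t - 1) ^ 2) ^ 2) := by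
    first | (simp only [eb, ec]; field_simp; done) | (simp only [eb, ec]; field_simp; ring) | (field_simp; done) | (field_simp; ring)
  have h34 : t * (t - 1) * (2 * t - 1) / (t - (t - 1) ^ 2) ≠ t ^ 2 * (t - 1) * (2 * t - 1) / (t - (t - 1) ^ 2) ^ 2 := sub_ne_zero.mp (by rw [d34]; exact (neg_ne_zero.mpr (div_ne_zero (mul_ne_zero (mul_ne_zero ht (pow_ne_zero 3 hs)) hv) (pow_ne_zero 2 hw))))
  have d35 : t * (t - 1) * (2 * t - 1) / (t - (t - 1) ^ 2) - (t ^ 3 * (t - 1) / (t - (t - 1) ^ 2)) = -(t * (t - 1) ^ 3 / (t - (t - 1) ^ 2)) := by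
    first | (simp only [eb, ec]; field_simp; done) | (simp only [eb, ec]; field_simp; ring) | (field_simp; done) | (field_simp; ring)
  have h35 : t * (t - 1) * (2 * t - 1) / (t - (t - 1) ^ 2) ≠ t ^ 3 * (t - 1) / (t - (t - 1) ^ 2) := sub_ne_zero.mp (by rw [d35]; exact (neg_ne_zero.mpr (div_ne_zero (mul_ne_zero ht (pow_ne_zero 3 hs)) hw)))
  have d45 : t ^ 2 * (t - 1) * (2 * t - 1) / (t - (t - 1) ^ 2) ^ 2 - (t ^ 3 * (t - 1) / (t - (t - 1) ^ 2)) = t ^ 2 * (t - 1) ^ 4 / (t - (t - 1) ^ 2) ^ 2 := by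
    first | (simp only [eb, ec]; field_simp; done) | (simp only [eb, ec]; field_simp; ring) | (field_simp; done) | (field_simp; ring)
  have h45 : t ^ 2 * (t - 1) * (2 * t - 1) / (t - (t - 1) ^ 2) ^ 2 ≠ t ^ 3 * (t - 1) / (t - (t - 1) ^ 2) := sub_ne_zero.mp (by rw [d45]; exact (div_ne_zero (mul_ne_zero (pow_ne_zero 2 ht) (pow_ne_zero 4 hs)) (pow_ne_zero 2 hw)))
  refine siegel10_core hb (t0 := t) (t1 := (t - 1)) (t2 := (2 * t - 1)) (t3 := (t - (t - 1) ^ 2)) Q2 Q3 Q4 Q5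
    g1 (neg_ne_zero.mpr (div_ne_zero (mul_ne_zero (mul_ne_zero (pow_ne_zero 3 ht) hs) hv) (pow_ne_zero 2 hw))) g2 (div_ne_zero (mul_ne_zero (mul_ne_zero (pow_ne_zero 4 ht) (pow_ne_zero 2 hs)) (pow_ne_zero 2 hv)) (pow_ne_zero 3 hw)) g3 (neg_ne_zero.mpr (div_ne_zero (mul_ne_zero (mul_ne_zero ht (pow_ne_zero 3 hs)) (pow_ne_zero 2 hv)) (pow_ne_zero 2 hw))) g4 (div_ne_zero (mul_ne_zero (mul_ne_zero (pow_ne_zero 2 ht) (pow_ne_zero 4 hs)) hv) (pow_ne_zero 3 hw)) g5 k5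
    h12 h13 h14 h15 h23 h24 h25 h34 h35 h45 hO ht hs hv hw
    (neg_ne_zero.mpr (div_ne_zero (mul_ne_zero (pow_ne_zero 5 ht) (pow_ne_zero 5 hs)) (pow_ne_zero 3 hw))) ?_ ?_ ?_ ?_ ?_ ?_ ?_ ?_ ?_ ?_ ?_ ?_ ?_ ?_ ?_ ?_
  · unfold mo4; first | (field_simp; done) | (field_simp; ring)
  · unfold mo4; first | (field_simp; done) | (field_simp; ring)
  · unfold mo4; first | (field_simp; done) | (field_simp; ring)
  · unfold mo4; first | (field_simp; done) | (field_simp; ring)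
  · unfold mo4; first | (field_simp; done) | (field_simp; ring)
  · rw [d12]; unfold mo4; first | (field_simp; done) | (field_simp; ring)
  · rw [d13]; unfold mo4; first | (field_simp; done) | (field_simp; ring)
  · rw [d14]; unfold mo4; first | (field_simp; done) | (field_simp; ring)
  · rw [d15]; unfold mo4; first | (field_simp; done) | (field_simp; ring)
  · rw [d23]; unfold mo4; first | (field_simp; done) | (field_simp; ring)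
  · rw [d24]; unfold mo4; first | (field_simp; done) | (field_simp; ring)
  · rw [d25]; unfold mo4; first | (field_simp; done) | (field_simp; ring)
  · rw [d34]; unfold mo4; first | (field_simp; done) | (field_simp; ring)
  · rw [d35]; unfold mo4; first | (field_simp; done) | (field_simp; ring)
  · rw [d45]; unfold mo4; first | (field_simp; done) | (field_simp; ring)
  · intro l m n o h
    unfold mo4 at h
    have e1 : (t - (t - 1) ^ 2) ^ (2 * o) = (t ^ 2 - 3 * t + 1) ^ (2 * o) := by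
      rw [zpow_mul, zpow_mul]
      congr 1
      rw [zpow_ofNat, zpow_ofNat]
      ring
    rw [e1] at h
    obtain ⟨i1, i2, i3, i4⟩ := hind _ _ _ _ h
    omega

end Pool.Agent.GK
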