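import Pool.Agent.Lib_helper87.FAM.TenS

set_option autoImplicit false
set_option linter.unusedSectionVars false

/-!
# The special curve with a point of order ten and `t = -1`: the closed elements, without the
regulator
-/

open scoped TensorProduct WithZero

namespace Pool.Agent.FK4

open Pool.Agent.MK4 WeierstrassCurve.Affine Pool.Agent.KC72 Pool.Agent.MC
open Pool.Agent.TN (Wt Gen)
open Pool.Agent.UEG (P0)

variable {k : Type*} [Field k] [DecidableEq k] [CharZero k] {W : WeierstrassCurve.Affine k}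
  {F : Type*} [Field F] [Algebra k F] {X Y : F}

/-- the class and the closed elements for a point of order ten -/
theorem cls10_cert (hg : Generic W X Y) {P : W.Point} {t : k} (ht : t ≠ 0) (ht1 : t - 1 ≠ 0)
    (ht2 : 2 * t - 1 ≠ 0) (hu : t ^ 2 - 3 * t + 1 ≠ 0) {hb : UE10.bb t ≠ 0} {x y : F}
    (hO : addOrderOf (P0 (UE10.cc t) hb) = 10) (h : Generic (Wt (UE10.bb t) (UE10.cc t)) x y)
    (hS : Same (AddSubgroup.zmultiples P) X Y (AddSubgroup.zmultiples (P0 (UE10.cc t) hb)) x y)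
    {R : RCert} {L' : List Tm} (hR : ROkX R [L']) {n : ℕ} (hn : R.n = n) (hr : R.r = 9)
    {cls : List (Mo × Mo)} (hcl : sameC R.cls cls = true) {G : Fin n → F} (h9 : 9 ≤ n)
    (hG : ∀ j : Fin 9, G (Fin.castLE h9 j) = UE10B.uF t x y j)
    (hk : ∀ i : Fin n, 9 ≤ i.val → ∃ c : k, c ≠ 0 ∧ G i = algebraMap k F c)
    (hc : ∀ e : Fin n → ℤ, (∀ i : Fin n, i.val < 9 → e i = 0) → ∏ i, G i ^ e i = 1 → e = 0)
    (hs : Sols (List.ofFn G) cls)
    (hU : ∀ f : F,
      (∃ (c : k) (n : Fin 9 → ℤ), c ≠ 0 ∧ f = algebraMap k F c * ∏ j, UE10B.uF t x y j ^ n j) →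
      (∃ (c : k) (n : Fin 9 → ℤ), c ≠ 0 ∧
        1 - f = algebraMap k F c * ∏ j, UE10B.uF t x y j ^ n j) →
      (∃ c : k, f = algebraMap k F c) ∨ ∃ p ∈ cls, TN.Orb (ev (List.ofFn G) p.1) f)
    {L : List Tm} (hL : okT n cls L = true) (hD : chkD n cls L = true)
    (hLL : L.map (fun t => (oo cls (t.c, t.s), t.u)) =
      L'.map (fun t => (oo R.cls (t.c, t.s), t.u))) {ξ : HK F} (hξ : ξ = zt (List.ofFn G) cls L)
    (hun : Unram k ξ) :
    IsCls (AddSubgroup.zmultiples P) X Y ξ ∧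
      ClosedIn (AddSubgroup.zmultiples P) X Y (Submodule.span ℚ {ξ}) := by
  have hs10 := supp10 ht ht1 ht2 hu hO h
  refine cls_rcert hg hS hR (n := n) (r := 9) hn hr hcl (G := G) h9
    ?_ ?_ ?_ hc hs (fun f h1 h2 => hU f ((hs10 f).mp h1) ((hs10 _).mp h2)) hL hD hLL hξ hun
  · intro i
    by_cases hi : i.val < 9
    · have e : G i = UE10B.uF t x y ⟨i.val, hi⟩ := by rw [← hG]; rfl
      rw [e, hs10]
      refine ⟨1, Pi.single ⟨i.val, hi⟩ 1, one_ne_zero, ?_⟩
      rw [map_one, one_mul, Finset.prod_eq_single (⟨i.val, hi⟩ : Fin 9)]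
      · rw [Pi.single_eq_same, zpow_one]
      · intro j _ hj
        rw [Pi.single_eq_of_ne hj, zpow_zero]
      · intro hj; exact absurd (Finset.mem_univ _) hj
    · obtain ⟨c, hc0, e⟩ := hk i (not_lt.mp hi)
      rw [e]
      exact supp_const hc0
  · intro i hi
    obtain ⟨c, -, e⟩ := hk i hi
    exact ⟨c, e⟩
  · intro e c _ he
    simp only [hG] at he
    exact UE10B.const10 ht ht1 ht2 hu hO h.toU he

/-- **the class and the closed elements for `t = -1`**, from the certificate, the solutions of the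
unit equation and the class -/
theorem cls10m_of (hg : Generic W X Y) {P : W.Point} (h10 : To10' P X Y)
    {R : RCert} {L' : List Tm} (hR : ROkX R [L']) (hn : R.n = 12) (hr : R.r = 9)
    {cls : List (Mo × Mo)} (hcl : sameC R.cls cls = true)
    (hs : ∀ {x y : F}, Gen (-6 / 25 : k) (6 / 5) x y → Sols (List.ofFn (G10m x y)) cls)
    (hU : ∀ {x y : F}, Gen (-6 / 25 : k) (6 / 5) x y → ∀ f : F,
      (∃ (c : k) (n : Fin 9 → ℤ), c ≠ 0 ∧ f = algebraMap k F c * M10m x y n) →
      (∃ (c : k) (n : Fin 9 → ℤ), c ≠ 0 ∧ 1 - f = algebraMap k F c * M10m x y n) →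
      (∃ c : k, f = algebraMap k F c) ∨ ∃ p ∈ cls, TN.Orb (ev (List.ofFn (G10m x y)) p.1) f)
    {L : List Tm} (hL : okT 12 cls L = true) (hD : chkD 12 cls L = true)
    (hLL : L.map (fun t => (oo cls (t.c, t.s), t.u)) =
      L'.map (fun t => (oo R.cls (t.c, t.s), t.u)))
    {ξ : F → F → HK F}
    (hξ : ∀ {x y : F}, Gen (-6 / 25 : k) (6 / 5) x y → ξ x y = zt (List.ofFn (G10m x y)) cls L)
    (hun : ∀ {x y : F}, Gen (-6 / 25 : k) (6 / 5) x y → Unram k (ξ x y)) :
    ∃ x y : F, Gen (-6 / 25 : k) (6 / 5) x y ∧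
      (IntermediateField.adjoin k {X, Y} = ⊤ → IntermediateField.adjoin k {x, y} = ⊤) ∧
      IsCls (AddSubgroup.zmultiples P) X Y (ξ x y) ∧
      ClosedIn (AddSubgroup.zmultiples P) X Y (Submodule.span ℚ {ξ x y}) := by
  obtain ⟨x, y, hG, hO, hS, htop⟩ := h10
  have hgen : Gen (-6 / 25 : k) (6 / 5) x y := by
    have := UE4.of_UEG hG.toU
    have e1 : UE10.bb (-1 : k) = -6 / 25 := by unfold UE10.bb UE10.cc; norm_num
    have e2 : UE10.cc (-1 : k) = 6 / 5 := by unfold UE10.cc; norm_num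
    rwa [e1, e2] at this
  have h5k : (5 : k) ≠ 0 := by norm_num
  refine ⟨x, y, hgen, htop, ?_⟩
  refine cls10_cert hg (t := -1) (by norm_num) (by norm_num) (by norm_num) (by norm_num) hO hG
    hS.toSame hR hn hr hcl (G := G10m x y) (by norm_num) ?_ ?_ ?_ (hs hgen) ?_ hL hD hLL
    (hξ hgen) (hun hgen)
  · intro j
    rw [uF10m]
    fin_cases j <;> rfl
  · intro i hi
    fin_cases i <;> first | (exfalso; revert hi; decide) | skip
    · exact ⟨2, two_ne_zero, (map_ofNat (algebraMap k F) 2).symm⟩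
    · exact ⟨3, three_ne_zero, (map_ofNat (algebraMap k F) 3).symm⟩
    · exact ⟨5, h5k, (map_ofNat (algebraMap k F) 5).symm⟩
  · intro e he hp
    have e0 := he 0 (by decide)
    have e1 := he 1 (by decide)
    have e2 := he 2 (by decide)
    have e3 := he 3 (by decide)
    have e4 := he 4 (by decide)
    have e5 := he 5 (by decide)
    have e6 := he 6 (by decide)
    have e7 := he 7 (by decide)
    have e8 := he 8 (by decide)
    rw [Fin.prod_univ_castSucc, Fin.prod_univ_castSucc, Fin.prod_univ_castSucc,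
      Fin.prod_univ_castSucc, Fin.prod_univ_eight] at hp
    have hp' : G10m x y 0 ^ e 0 * G10m x y 1 ^ e 1 * G10m x y 2 ^ e 2 * G10m x y 3 ^ e 3 *
      G10m x y 4 ^ e 4 * G10m x y 5 ^ e 5 * G10m x y 6 ^ e 6 * G10m x y 7 ^ e 7 *
      G10m x y 8 ^ e 8 * (2 : F) ^ e 9 * (3 : F) ^ e 10 * (5 : F) ^ e 11 = 1 := hp
    rw [e0, e1, e2, e3, e4, e5, e6, e7, e8] at hp'
    simp only [zpow_zero, one_mul] at hp'
    have h2 : (2 : k) ^ e 9 * 3 ^ e 10 * 5 ^ e 11 = 1 := by
      apply (algebraMap k F).injective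
      rw [map_mul, map_mul, map_zpow₀, map_zpow₀, map_zpow₀, map_ofNat, map_ofNat, map_ofNat,
        map_one]
      exact hp'
    obtain ⟨h3, h4, h5⟩ := two_three_five h2
    funext i
    fin_cases i <;> assumption
  · intro f h1 h2
    rw [uF10m] at h1 h2
    exact hU hgen f h1 h2

end Pool.Agent.FK4
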