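import Pool.Agent.Lib_helper87.FAM.TenS

set_option autoImplicit false
set_option linter.unusedSectionVars false

/-!
# The class and the closed elements from a certificate
-/

open scoped TensorProduct WithZero

namespace Pool.Agent.FK4

open Pool.Agent.MK4 WeierstrassCurve.Affine Pool.Agent.KC72
open Pool.Agent.TN (Wt Gen)
open Pool.Agent.UEG (P0)

section cert

variable {k : Type*} [Field k] [DecidableEq k] {W W' : WeierstrassCurve.Affine k} {F : Type*}
  [Field F] [Algebra k F] {X Y x y : F} {H' : AddSubgroup W'.Point} [CharZero k]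

/-- the class and the closed elements from a certificate -/
theorem cls_cert (hg : Generic W X Y) {P : W.Point}
    (hS : Same (AddSubgroup.zmultiples P) X Y H' x y)
    (C : Cert) (hC : Ok C) {n r : ℕ} (hn : C.n = n) (hr : C.r = r)
    {cls : List (Mo × Mo)} (hcl : C.cls = cls) {G : Fin n → F} (hrn : r ≤ n)
    (hsupp : ∀ i, Supp H' x y (G i))
    (hk : ∀ i : Fin n, r ≤ i.val → ∃ c : k, G i = algebraMap k F c)
    (hM : ∀ (e : Fin r → ℤ) (c : k), c ≠ 0 →
      ∏ i, G (Fin.castLE hrn i) ^ e i = algebraMap k F c → e = 0)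
    (hc : ∀ e : Fin n → ℤ, (∀ i : Fin n, i.val < r → e i = 0) → ∏ i, G i ^ e i = 1 → e = 0)
    (hs : Sols (List.ofFn G) cls)
    (hU : ∀ f, Supp H' x y f → Supp H' x y (1 - f) → (∃ c : k, f = algebraMap k F c) ∨
      ∃ p ∈ cls, TN.Orb (ev (List.ofFn G) p.1) f)
    {L : List Tm} (hL : okT n cls L = true) (hD : chkD n cls L = true) {a : ℤ} (ha : a ≠ 0)
    (hX : chkX C a L = true) {ξ : HK F} (hξ : ξ = zt (List.ofFn G) cls L)
    (hun : Unram k ξ) :
    IsCls (AddSubgroup.zmultiples P) X Y ξ ∧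
      ClosedIn (AddSubgroup.zmultiples P) X Y (Submodule.span ℚ {ξ}) := by
  have : CharZero F := charZero_of_injective_algebraMap (algebraMap k F).injective
  have hG : ∀ i, G i ≠ 0 := fun i => (hsupp i).1
  have hgl : ∀ z ∈ List.ofFn G, Supp H' x y z := by
    intro z hz
    rw [List.mem_ofFn] at hz
    obtain ⟨i, rfl⟩ := hz
    exact hsupp i
  refine ⟨⟨?_, ?_, hun⟩, closedIn_line hg hun ?_⟩
  · rw [hS.sp, hξ]
    exact zt_mem' hgl hs hL
  · rw [hξ]
    exact zt_closed hG hs hL hD
  · intro z hz hcz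
    rw [hS.sp] at hz
    obtain ⟨β, hβ⟩ := closed_cert C hC hn hr hcl hrn hsupp hk hM hc hs hU hz hcz
    subst hcl
    have h1 := zt_xi (k := k) C hn hG hC (by
      intro z hz
      rw [List.mem_drop_iff_getElem] at hz
      obtain ⟨i, hi, rfl⟩ := hz
      rw [List.getElem_ofFn]
      exact hk _ (by simp [hr])) hs hL hX
    rw [← hξ] at h1
    have ha' : (a : ℚ) ≠ 0 := by exact_mod_cast ha
    refine ⟨β / a, ?_⟩
    rw [← TN.KC_eq, ← Submodule.ker_mkQ (TN.KC k F), LinearMap.mem_ker, map_sub, map_smul, h1,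
      hβ, smul_smul, div_mul_cancel₀ _ ha', sub_self]

end cert

end Pool.Agent.FK4
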