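import Pool.Agent.Lib_helper76.UEG.BC
import Pool.Agent.Lib_helper60.K4M.Curve

/-!
# Independence of the Siegel functions of a finite group of points

For a generic point `z` and a finite group `H` of points, the functions
`∏_{c ≠ 0} (x(z - a) - x(c))`, `a ∈ H`, satisfy no multiplicative relation of degree zero modulo
the constants.
-/

set_option autoImplicit false
set_option linter.unusedSectionVars false

namespace Pool.Agent.GK

open WeierstrassCurve.Affine UEG Polynomial WithZero

variable {k : Type*} [Field k] {W : WeierstrassCurve.Affine k}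

/-! ### the function field -/

/-- the embedding of the function field as a homomorphism of algebras -/
noncomputable def ioA {F : Type*} [Field F] [Algebra k F] {X Y : F} (h : Gen W X Y) :
    W.FunctionField →ₐ[k] F :=
  { io h with commutes' := fun c => io_c h c }

lemma ioA_apply {F : Type*} [Field F] [Algebra k F] {X Y : F} (h : Gen W X Y)
    (s : W.FunctionField) : ioA h s = io h s := rfl

/-- the generic point over the function field -/
lemma genK {F : Type*} [Field F] [Algebra k F] {X Y : F} (h : Gen W X Y) :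
    Gen W (xK : W.FunctionField) yK := by
  refine ⟨eqK, fun ha => h.tr ?_⟩
  have := ha.algHom (ioA h)
  rwa [ioA_apply, io_x] at this

section

variable {F K : Type*} [Field F] [Algebra k F] [Field K] [Algebra k K]
  [DecidableEq F] [DecidableEq K]

/-- the map on the points -/
noncomputable def mp (f : K →ₐ[k] F) : (WF K W).Point →+ (WF F W).Point := Point.map (W' := W) f

lemma xv_mp (f : K →ₐ[k] F) (a : (WF K W).Point) :
    K4M.xv (mp f a) = (f (K4M.xv a).1, f (K4M.xv a).2) := by
  rcases a with _ | ⟨x, y, h⟩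
  · show ((1 : F), (0 : F)) = (f 1, f 0)
    rw [map_one, map_zero]
  · show (f x, (1 : F)) = (f x, f 1)
    rw [map_one]

lemma dx_map (f : K →ₐ[k] F) (a b : (WF K W).Point) :
    K4M.dx (mp f a) (mp f b) = f (K4M.dx a b) := by
  unfold K4M.dx
  rw [xv_mp, xv_mp, map_sub, map_mul, map_mul]

lemma some_eq {V : WeierstrassCurve.Affine F} {x x' y y' : F} {h : V.Nonsingular x y}
    {h' : V.Nonsingular x' y'} (hx : x = x') (hy : y = y') :
    (Point.some x y h : V.Point) = Point.some x' y' h' := by
  subst hx hy; rfl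

lemma map_bc [DecidableEq k] (f : K →ₐ[k] F) (a : W.Point) :
    mp f (bc K W a) = bc F W a := by
  rcases a with _ | ⟨x, y, h⟩
  · rfl
  · exact some_eq (f.commutes x) (f.commutes y)

end

section

variable [CharZero k] {F : Type*} [Field F] [Algebra k F] [DecidableEq F] {X Y : F}

/-- the generic point -/
noncomputable def zz (h : Gen W X Y) : (WF F W).Point := .some X Y h.ns

lemma zz_neg (h : Gen W X Y) : ∃ h' : Gen W X ((WF F W).negY X Y), zz h' = -zz h := by
  refine ⟨⟨?_, h.tr⟩, ?_⟩
  · have h1 := (nonsingular_neg (W' := WF F W) X Y).mpr h.ns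
    exact (equation_iff _ _).mp h1.1
  · unfold zz
    rw [Point.neg_some]

lemma map_zz [DecidableEq W.FunctionField] (h : Gen W X Y) :
    mp (ioA h) (zz (genK h)) = zz h :=
  some_eq (io_x h) (io_y h)

/-- the degree in `X` -/
lemma deg_zero (h : Gen W X Y) {ι : Type*} (s : Finset ι) (xs : ι → k) (n : ι → ℤ) {κ : k}
    (hκ : κ ≠ 0) (hp : ∏ i ∈ s, (X - algebraMap k F (xs i)) ^ n i = algebraMap k F κ) :
    ∑ i ∈ s, n i = 0 := by
  have h1 : ∏ i ∈ s, ((xK : W.FunctionField) - cK (xs i)) ^ n i = cK κ := by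
    apply io_inj h
    rw [map_prod, io_c, ← hp]
    refine Finset.prod_congr rfl fun i _ => ?_
    rw [map_zpow₀, map_sub, io_x, io_c]
  have h2 := congrArg (v (W := W)) h1
  rw [map_prod, v_c hκ] at h2
  have h3 : ∀ s : Finset ι, ∏ i ∈ s, v (W := W) (((xK : W.FunctionField) - cK (xs i)) ^ n i) =
      exp (2 * ∑ i ∈ s, n i) := by
    classical
    intro s
    induction s using Finset.induction_on with
    | empty => simp
    | insert i s hi ih =>
      rw [Finset.prod_insert hi, ih, Finset.sum_insert hi, map_zpow₀, v_x_sub, ← exp_zsmul,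
        ← exp_add]
      congr 1
      rw [smul_eq_mul]; ring
  rw [h3, ← exp_zero] at h2
  have := exp_injective h2
  omega

/-- the first coordinate -/
def xc : W.Point → k
  | .zero => 0
  | .some x _ _ => x

section dxlemmas

variable {V : WeierstrassCurve.Affine F}

lemma dx_neg_left (p q : V.Point) : K4M.dx (-p) q = K4M.dx p q := by
  rcases p with _ | ⟨x, y, h⟩
  · rfl
  · rw [Point.neg_some]; rfl

lemma dx_neg_right (p q : V.Point) : K4M.dx p (-q) = K4M.dx p q := by
  rcases q with _ | ⟨x, y, h⟩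
  · rfl
  · rw [Point.neg_some]; rfl

end dxlemmas

/-- a point with algebraic first coordinate -/
lemma alg_range {x y : F} (h : (WF F W).Nonsingular x y) (hx : IsAlgebraic k x) :
    ∃ q : (WF (algebraicClosure k F) W).Point,
      mp (algebraicClosure k F).val q = Point.some x y h := by
  have hxA : x ∈ algebraicClosure k F := (mem_algebraicClosure_iff).mpr hx
  have he := (equation_iff _ _).mp h.1
  have hyA : y ∈ algebraicClosure k F := by
    rw [mem_algebraicClosure_iff]
    have h1 : IsAlgebraic (algebraicClosure k F) y := by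
      set x' : algebraicClosure k F := ⟨x, hxA⟩ with hx'
      apply IsIntegral.isAlgebraic
      refine ⟨Polynomial.X ^ 2 + C (algebraMap k _ W.a₁ * x' + algebraMap k _ W.a₃) * Polynomial.X +
        C (-(x' ^ 3 + algebraMap k _ W.a₂ * x' ^ 2 + algebraMap k _ W.a₄ * x' +
          algebraMap k _ W.a₆)), by monicity!, ?_⟩
      simp only [eval₂_add, eval₂_mul, eval₂_pow, eval₂_X, eval₂_C]
      simp only [map_neg, map_add, map_mul, map_pow]
      have e1 : (algebraMap (algebraicClosure k F) F) x' = x := rfl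
      have e2 : ∀ c : k, (algebraMap (algebraicClosure k F) F) (algebraMap k _ c) =
        algebraMap k F c := fun c => rfl
      rw [e1, e2, e2, e2, e2, e2]
      have he' : y ^ 2 + algebraMap k F W.a₁ * x * y + algebraMap k F W.a₃ * y =
        x ^ 3 + algebraMap k F W.a₂ * x ^ 2 + algebraMap k F W.a₄ * x + algebraMap k F W.a₆ := he
      linear_combination he'
    exact h1.restrictScalars k
  have hns : (WF (algebraicClosure k F) W).Nonsingular ⟨x, hxA⟩ ⟨y, hyA⟩ :=
    (W.baseChange_nonsingular (algebraicClosure k F).val.injective _ _).mp h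
  exact ⟨.some _ _ hns, rfl⟩

variable [DecidableEq k]

/-- the translates of a generic point are generic -/
theorem gen_add (h : Gen W X Y) (b : W.Point) :
    ∃ (X' Y' : F) (h' : Gen W X' Y'), zz h' = zz h + bc F W b := by
  classical
  have key : ∀ p q : (WF (algebraicClosure k F) W).Point,
      zz h ≠ mp (algebraicClosure k F).val (p - q) := by
    intro p q h0
    rcases hpq : (p - q) with _ | ⟨x, y, hxy⟩
    · rw [hpq] at h0
      exact absurd h0 (Point.some_ne_zero _)
    · rw [hpq] at h0
      have h1 : X = (x : F) := (Point.some.inj h0).1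
      apply h.tr
      rw [h1]
      exact (mem_algebraicClosure_iff).mp x.2
  have hb : mp (algebraicClosure k F).val (bc (algebraicClosure k F) W b) = bc F W b :=
    map_bc _ b
  rcases hp : zz h + bc F W b with _ | ⟨x, y, hxy⟩
  · exfalso
    apply key 0 (bc (algebraicClosure k F) W b)
    rw [map_sub, map_zero, hb]
    exact eq_sub_of_add_eq hp
  · refine ⟨x, y, ⟨(equation_iff _ _).mp hxy.1, fun hx => ?_⟩, rfl⟩
    obtain ⟨q, hq⟩ := alg_range hxy hx
    apply key q (bc (algebraicClosure k F) W b)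
    rw [map_sub, hq, hb, ← hp, add_sub_cancel_right]

lemma dx_zero (h : Gen W X Y) : K4M.dx (zz h) (bc F W 0) = -1 := by
  rw [map_zero]
  show K4M.dx (Point.some X Y h.ns) Point.zero = -1
  simp [K4M.dx, K4M.xv]

lemma dx_ne (h : Gen W X Y) {a : W.Point} (ha : a ≠ 0) :
    K4M.dx (zz h) (bc F W a) = X - algebraMap k F (xc a) := by
  rcases a with _ | ⟨x, y, hxy⟩
  · exact absurd rfl ha
  · show K4M.dx (Point.some X Y h.ns) (Point.some _ _ _) = _
    simp [K4M.dx, K4M.xv, xc]

lemma D_ne (h : Gen W X Y) (a : W.Point) : K4M.dx (zz h) (bc F W a) ≠ 0 := by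
  rcases eq_or_ne a 0 with rfl | ha
  · rw [dx_zero]; exact neg_ne_zero.mpr one_ne_zero
  · rw [dx_ne h ha]; exact h.x_sub_ne _

/-- the parallelogram identity at the generic points: for `w` generic over `k` -/
def Par (F : Type*) [Field F] [Algebra k F] [DecidableEq F] (W : WeierstrassCurve.Affine k) :
    Prop :=
  ∀ {X Y : F} (h : Gen W X Y) (a c : W.Point), c ≠ 0 → ∃ δ : k, δ ≠ 0 ∧
    K4M.dx (zz h + bc F W a) (bc F W c) * K4M.dx (zz h - bc F W a) (bc F W c) *
      K4M.dx (zz h) (bc F W a) ^ 2 =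
    algebraMap k F δ * (K4M.dx (zz h) (bc F W (a + c)) * K4M.dx (zz h) (bc F W (a - c)))

variable (H : AddSubgroup W.Point) [Fintype H]

/-- `∏_{c ≠ 0} (x(u) - x(c))` -/
noncomputable def Q (u : (WF F W).Point) : F :=
  ∏ c ∈ Finset.univ.erase (0 : H), K4M.dx u (bc F W c)

/-- the product of the Siegel functions -/
noncomputable def SP (e : H → ℤ) (u : (WF F W).Point) : F :=
  ∏ a : H, Q H (u - bc F W a) ^ e a

variable {H}

lemma Q_neg (u : (WF F W).Point) : Q H (-u) = Q H u := by
  unfold Q
  exact Finset.prod_congr rfl fun c _ => dx_neg_left _ _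

lemma SP_io [DecidableEq W.FunctionField] (h : Gen W X Y) (e : H → ℤ) :
    SP H e (zz h) = io h (SP H e (zz (genK h))) := by
  unfold SP Q
  rw [map_prod]
  refine Finset.prod_congr rfl fun a _ => ?_
  rw [map_zpow₀, map_prod]
  congr 1
  refine Finset.prod_congr rfl fun c _ => ?_
  rw [← ioA_apply, ← dx_map, map_sub, map_zz, map_bc, map_bc]

/-- a relation holds at every generic point -/
theorem transfer {X' Y' : F} (h : Gen W X Y) (h' : Gen W X' Y') {e : H → ℤ} {κ : k}
    (hp : SP H e (zz h) = algebraMap k F κ) : SP H e (zz h') = algebraMap k F κ := by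
  classical
  have e1 : genK h = genK h' := rfl
  rw [SP_io h, ← io_c h] at hp
  have h2 := io_inj h hp
  rw [SP_io h', ← io_c h', ← h2]

lemma SP_neg (e : H → ℤ) (u : (WF F W).Point) :
    SP H e (-u) = ∏ a : H, Q H (u + bc F W a) ^ e a := by
  unfold SP
  refine Finset.prod_congr rfl fun a _ => ?_
  rw [← Q_neg, neg_sub, sub_neg_eq_add, add_comm]

lemma prod_erase_add (D : H → F) (a : H) :
    (∏ c ∈ Finset.univ.erase (0 : H), D (a + c)) * D a = ∏ c : H, D c := by
  have h1 : ∏ c : H, D (a + c) = ∏ c : H, D c :=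
    Fintype.prod_equiv (Equiv.addLeft a) _ _ fun c => rfl
  rw [← h1, ← Finset.prod_erase_mul _ _ (Finset.mem_univ (0 : H)), add_zero]

lemma prod_erase_sub (D : H → F) (a : H) :
    (∏ c ∈ Finset.univ.erase (0 : H), D (a - c)) * D a = ∏ c : H, D c := by
  have h1 : ∏ c : H, D (a - c) = ∏ c : H, D c :=
    Fintype.prod_equiv (Equiv.subLeft a) _ _ fun c => rfl
  rw [← h1, ← Finset.prod_erase_mul _ _ (Finset.mem_univ (0 : H)), sub_zero]

/-- `Q(z + a) Q(z - a)` -/
lemma Q_mul (hPar : Par F W) (h : Gen W X Y) (a : H) : ∃ δ : k, δ ≠ 0 ∧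
    Q H (zz h + bc F W a) * Q H (zz h - bc F W a) *
      K4M.dx (zz h) (bc F W a) ^ (2 * Fintype.card H) =
    algebraMap k F δ * (∏ c : H, K4M.dx (zz h) (bc F W c)) ^ 2 := by
  choose! δ hδ0 hδ using fun c : H => fun hc : (c : W.Point) ≠ 0 => hPar h a c hc
  have key : ∏ c ∈ Finset.univ.erase (0 : H), (K4M.dx (zz h + bc F W a) (bc F W c) *
      K4M.dx (zz h - bc F W a) (bc F W c) * K4M.dx (zz h) (bc F W a) ^ 2) =
      ∏ c ∈ Finset.univ.erase (0 : H), (algebraMap k F (δ c) *
        (K4M.dx (zz h) (bc F W (a + c)) * K4M.dx (zz h) (bc F W (a - c)))) := by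
    refine Finset.prod_congr rfl fun c hc => hδ c ?_
    rw [Finset.mem_erase] at hc
    intro h0
    exact hc.1 (Subtype.ext h0)
  rw [Finset.prod_mul_distrib, Finset.prod_mul_distrib, Finset.prod_mul_distrib,
    Finset.prod_mul_distrib, Finset.prod_const, Finset.card_erase_of_mem (Finset.mem_univ _),
    Finset.card_univ] at key
  refine ⟨∏ c ∈ Finset.univ.erase (0 : H), δ c, ?_, ?_⟩
  · rw [Finset.prod_ne_zero_iff]
    intro c hc
    rw [Finset.mem_erase] at hc
    exact hδ0 c fun h0 => hc.1 (Subtype.ext h0)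
  · have e1 := prod_erase_add (fun c : H => K4M.dx (zz h) (bc F W c)) a
    have e2 := prod_erase_sub (fun c : H => K4M.dx (zz h) (bc F W c)) a
    have hN : 2 * Fintype.card H = 2 * (Fintype.card H - 1) + 2 := by
      have : 0 < Fintype.card H := Fintype.card_pos
      omega
    rw [hN, pow_add, pow_mul, map_prod, pow_two (∏ c : H, K4M.dx (zz h) (bc F W c))]
    nth_rewrite 1 [← e1]
    rw [← e2]
    unfold Q
    simp only [AddSubgroup.coe_add, AddSubgroup.coe_sub]
    linear_combination K4M.dx (zz h) (bc F W a) ^ 2 * key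

/-- the exponent at the origin -/
theorem e_zero (hPar : Par F W) (h : Gen W X Y) {e : H → ℤ} (he : ∑ a, e a = 0) {κ : k}
    (hκ : κ ≠ 0) (hp : SP H e (zz h) = algebraMap k F κ) : e 0 = 0 := by
  obtain ⟨h', hz⟩ := zz_neg h
  have hp' := transfer h h' hp
  rw [hz, SP_neg] at hp'
  choose δ hδ0 hδ using fun a : H => Q_mul hPar h a
  have hT : (∏ c : H, K4M.dx (zz h) (bc F W c)) ≠ 0 :=
    Finset.prod_ne_zero_iff.mpr fun c _ => D_ne h c
  have h1 : ∏ a : H, (Q H (zz h + bc F W a) * Q H (zz h - bc F W a) *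
      K4M.dx (zz h) (bc F W a) ^ (2 * Fintype.card H)) ^ e a =
      ∏ a : H, (algebraMap k F (δ a) * (∏ c : H, K4M.dx (zz h) (bc F W c)) ^ 2) ^ e a :=
    Finset.prod_congr rfl fun a _ => by rw [hδ a]
  have hsum : ∀ z : F, z ≠ 0 → ∏ a : H, z ^ e a = 1 := by
    intro z hz
    have : ∀ s : Finset H, ∏ a ∈ s, z ^ e a = z ^ (∑ a ∈ s, e a) := by
      intro s
      classical
      induction s using Finset.induction_on with
      | empty => simp
      | insert i s hi ih => rw [Finset.prod_insert hi, Finset.sum_insert hi, ih, zpow_add₀ hz]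
    rw [this, he, zpow_zero]
  simp only [mul_zpow, Finset.prod_mul_distrib] at h1
  rw [hp'] at h1
  have hp2 : ∏ a : H, Q H (zz h - bc F W a) ^ e a = algebraMap k F κ := hp
  rw [hp2, hsum _ (pow_ne_zero 2 hT), mul_one] at h1
  have h2 : ∏ a : H, K4M.dx (zz h) (bc F W a) ^ ((2 * Fintype.card H : ℕ) * e a) =
      algebraMap k F ((∏ a : H, δ a ^ e a) / (κ * κ)) := by
    rw [map_div₀, map_mul, map_prod, eq_div_iff (mul_ne_zero ((_root_.map_ne_zero _).mpr hκ)
      ((_root_.map_ne_zero _).mpr hκ))]
    simp only [map_zpow₀]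
    rw [← h1, mul_comm]
    congr 1
    refine Finset.prod_congr rfl fun a _ => ?_
    rw [zpow_mul, zpow_natCast]
  rw [← Finset.prod_erase_mul _ _ (Finset.mem_univ (0 : H))] at h2
  have h3 : K4M.dx (zz h) (bc F W (0 : H)) ^ ((2 * Fintype.card H : ℕ) * e 0) =
      (1 : F) := by
    have : K4M.dx (zz h) (bc F W ((0 : H) : W.Point)) = -1 := dx_zero h
    rw [this, zpow_mul, zpow_natCast, pow_mul, neg_one_sq, one_pow, one_zpow]
  rw [h3, mul_one] at h2
  have h4 : ∏ a ∈ Finset.univ.erase (0 : H), (X - algebraMap k F (xc (a : W.Point))) ^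
      ((2 * Fintype.card H : ℕ) * e a) =
      algebraMap k F ((∏ a : H, δ a ^ e a) / (κ * κ)) := by
    rw [← h2]
    refine Finset.prod_congr rfl fun a ha => ?_
    rw [Finset.mem_erase] at ha
    rw [dx_ne h fun h0 => ha.1 (Subtype.ext h0)]
  have h5 := deg_zero h _ _ _ (div_ne_zero (Finset.prod_ne_zero_iff.mpr fun a _ =>
    zpow_ne_zero _ (hδ0 a)) (mul_ne_zero hκ hκ)) h4
  rw [← Finset.mul_sum] at h5
  have hN : ((2 * Fintype.card H : ℕ) : ℤ) ≠ 0 := by
    have : 0 < Fintype.card H := Fintype.card_pos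
    omega
  have h6 := (mul_eq_zero.mp h5).resolve_left hN
  rw [← Finset.sum_erase_add _ _ (Finset.mem_univ (0 : H)), h6, zero_add] at he
  exact he

/-- **the Siegel functions of a finite group of points are independent** -/
theorem indep (hPar : Par F W) (h : Gen W X Y) {e : H → ℤ} (he : ∑ a, e a = 0) {κ : k}
    (hκ : κ ≠ 0) (hp : SP H e (zz h) = algebraMap k F κ) : e = 0 := by
  have key : ∀ b : H, e (-b) = 0 := by
    intro b
    obtain ⟨X', Y', h', hz⟩ := gen_add h b
    have e1 : SP H (fun a => e (a - b)) (zz h') = algebraMap k F κ := by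
      rw [← hp]
      unfold SP
      refine (Fintype.prod_equiv (Equiv.addRight b) _ _ fun a => ?_).symm
      simp only [Equiv.coe_addRight]
      rw [add_sub_cancel_right, hz, AddSubgroup.coe_add, map_add, add_sub_add_right_eq_sub]
    have e2 : ∑ a : H, e (a - b) = 0 := by
      rw [← he]
      exact Fintype.sum_equiv (Equiv.subRight b) _ _ fun a => rfl
    have := e_zero hPar h' e2 hκ e1
    rwa [zero_sub] at this
  funext a
  have := key (-a)
  rwa [neg_neg] at this

/-- the same, written out -/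
theorem indep' (hPar : Par F W) (h : Gen W X Y) {e : H → ℤ} (he : ∑ a, e a = 0) {κ : k}
    (hκ : κ ≠ 0) (hp : ∏ a : H, ∏ c ∈ Finset.univ.erase (0 : H),
      K4M.dx (zz h - bc F W a) (bc F W c) ^ e a = algebraMap k F κ) : e = 0 := by
  refine indep hPar h he hκ ?_
  rw [← hp]
  unfold SP Q
  refine Finset.prod_congr rfl fun a _ => ?_
  rw [Finset.prod_zpow]

end

end Pool.Agent.GK
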