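import Pool.Agent.Lib_helper76.UEG.TAB
import Pool.Agent.Lib_helper76.UE5.U4

/-!
# The functions supported on the multiples of the point of order nine, `b = 12`, `c = 4`
-/

set_option autoImplicit false
set_option linter.unusedSectionVars false
set_option linter.unusedSimpArgs false
set_option linter.unusedVariables false

namespace Pool.Agent.N9H

open WeierstrassCurve.Affine Polynomial Pool.Agent.UEG
open Pool.Agent.TN (Wt)

variable {k : Type*} [Field k] {F : Type*} [Field F] [Algebra k F] {x y : F}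

/-- the basis of the functions supported on the multiples -/
def uF (x y : F) : Fin 8 → F := ![x, x - 12, x - 4, x - 6, y, y - 4 * x, y - 2 * x, y - 3 * x]

/-- the abscissae of the multiples -/
def px (k : Type*) [Field k] : Fin 8 → k := ![0, 12, 4, 6, 6, 4, 12, 0]

/-- the ordinates of the multiples -/
def py (k : Type*) [Field k] : Fin 8 → k := ![0, 48, 8, 18, 12, 16, 0, 12]

section lines

variable (hu : ∀ j, uF x y j ≠ 0) (he : y ^ 2 - 3 * x * y - 12 * y = x ^ 3 - 12 * x ^ 2)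

include hu he in
lemma l117 : IsMon k (uF x y) (y - (algebraMap k F 0 * x + algebraMap k F 0)) := by
  have M4 : IsMon k (uF x y) y := isMon_u (u := uF x y) 4
  have e : (y - (algebraMap k F 0 * x + algebraMap k F 0)) = y := by
    simp only [map_neg, map_zero, map_one, map_ofNat]
    ring
  rw [e]
  exact M4

include hu he in
lemma l126 : IsMon k (uF x y) (y - (algebraMap k F 4 * x + algebraMap k F 0)) := by
  have M5 : IsMon k (uF x y) (y - 4 * x) := isMon_u (u := uF x y) 5
  have e : (y - (algebraMap k F 4 * x + algebraMap k F 0)) = (y - 4 * x) := by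
    simp only [map_neg, map_zero, map_one, map_ofNat]
    ring
  rw [e]
  exact M5

include hu he in
lemma l135 : IsMon k (uF x y) (y - (algebraMap k F 2 * x + algebraMap k F 0)) := by
  have M6 : IsMon k (uF x y) (y - 2 * x) := isMon_u (u := uF x y) 6
  have e : (y - (algebraMap k F 2 * x + algebraMap k F 0)) = (y - 2 * x) := by
    simp only [map_neg, map_zero, map_one, map_ofNat]
    ring
  rw [e]
  exact M6

include hu he in
lemma l144 : IsMon k (uF x y) (y - (algebraMap k F 3 * x + algebraMap k F 0)) := by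
  have M7 : IsMon k (uF x y) (y - 3 * x) := isMon_u (u := uF x y) 7
  have e : (y - (algebraMap k F 3 * x + algebraMap k F 0)) = (y - 3 * x) := by
    simp only [map_neg, map_zero, map_one, map_ofNat]
    ring
  rw [e]
  exact M7

include hu he in
lemma l225 : IsMon k (uF x y) (y - (algebraMap k F 6 * x + algebraMap k F (-24))) := by
  have M1 : IsMon k (uF x y) (x - 12) := isMon_u (u := uF x y) 1
  have M2 : IsMon k (uF x y) (x - 4) := isMon_u (u := uF x y) 2
  have M4 : IsMon k (uF x y) y := isMon_u (u := uF x y) 4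
  have M5 : IsMon k (uF x y) (y - 4 * x) := isMon_u (u := uF x y) 5
  have M6 : IsMon k (uF x y) (y - 2 * x) := isMon_u (u := uF x y) 6
  have N2 : (x - 4) ≠ 0 := hu 2
  have N4 : y ≠ 0 := hu 4
  have e : (y - (algebraMap k F 6 * x + algebraMap k F (-24))) =
      (x - 12) * (y - 4 * x) * (y - 2 * x) * ((x - 4) * y)⁻¹ := by
    rw [eq_mul_inv_iff_mul_eq₀ (mul_ne_zero N2 N4)]
    simp only [map_neg, map_zero, map_one, map_ofNat]
    linear_combination (8) * he
  rw [e]
  exact (((M1).mul hu M5).mul hu M6).mul hu ((M2).mul hu M4).inv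

include hu he in
lemma l234 : IsMon k (uF x y) (y - (algebraMap k F 5 * x + algebraMap k F (-12))) := by
  have M1 : IsMon k (uF x y) (x - 12) := isMon_u (u := uF x y) 1
  have M3 : IsMon k (uF x y) (x - 6) := isMon_u (u := uF x y) 3
  have M4 : IsMon k (uF x y) y := isMon_u (u := uF x y) 4
  have M6 : IsMon k (uF x y) (y - 2 * x) := isMon_u (u := uF x y) 6
  have M7 : IsMon k (uF x y) (y - 3 * x) := isMon_u (u := uF x y) 7
  have N3 : (x - 6) ≠ 0 := hu 3
  have N4 : y ≠ 0 := hu 4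
  have e : (y - (algebraMap k F 5 * x + algebraMap k F (-12))) =
      (x - 12) * (y - 2 * x) * (y - 3 * x) * ((x - 6) * y)⁻¹ := by
    rw [eq_mul_inv_iff_mul_eq₀ (mul_ne_zero N3 N4)]
    simp only [map_neg, map_zero, map_one, map_ofNat]
    linear_combination (6) * he
  rw [e]
  exact (((M1).mul hu M6).mul hu M7).mul hu ((M3).mul hu M4).inv

include hu he in
lemma l288 : IsMon k (uF x y) (y - (algebraMap k F 3 * x + algebraMap k F 12)) := by
  have M0 : IsMon k (uF x y) x := isMon_u (u := uF x y) 0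
  have M1 : IsMon k (uF x y) (x - 12) := isMon_u (u := uF x y) 1
  have M4 : IsMon k (uF x y) y := isMon_u (u := uF x y) 4
  have N4 : y ≠ 0 := hu 4
  have e : (y - (algebraMap k F 3 * x + algebraMap k F 12)) =
      x * x * (x - 12) * (y)⁻¹ := by
    rw [eq_mul_inv_iff_mul_eq₀ N4]
    simp only [map_neg, map_zero, map_one, map_ofNat]
    linear_combination (1) * he
  rw [e]
  exact (((M0).mul hu M0).mul hu M1).mul hu (M4).inv

include hu he in
lemma l333 : IsMon k (uF x y) (y - (algebraMap k F 3 * x + algebraMap k F (-4))) := by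
  have M1 : IsMon k (uF x y) (x - 12) := isMon_u (u := uF x y) 1
  have M2 : IsMon k (uF x y) (x - 4) := isMon_u (u := uF x y) 2
  have M3 : IsMon k (uF x y) (x - 6) := isMon_u (u := uF x y) 3
  have M4 : IsMon k (uF x y) y := isMon_u (u := uF x y) 4
  have M5 : IsMon k (uF x y) (y - 4 * x) := isMon_u (u := uF x y) 5
  have M6 : IsMon k (uF x y) (y - 2 * x) := isMon_u (u := uF x y) 6
  have M7 : IsMon k (uF x y) (y - 3 * x) := isMon_u (u := uF x y) 7
  have N3 : (x - 6) ≠ 0 := hu 3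
  have N4 : y ≠ 0 := hu 4
  have N5 : (y - 4 * x) ≠ 0 := hu 5
  have e : (y - (algebraMap k F 3 * x + algebraMap k F (-4))) =
      (x - 12) * (x - 4) * (y - 2 * x) * (y - 2 * x) * (y - 3 * x) * ((x - 6) * (x - 6) * y * (y - 4 * x))⁻¹ := by
    rw [eq_mul_inv_iff_mul_eq₀ (mul_ne_zero (mul_ne_zero (mul_ne_zero N3 N3) N4) N5)]
    simp only [map_neg, map_zero, map_one, map_ofNat]
    linear_combination ((-12) * x ^ 2 + 4 * x * y + 48 * x + (-12) * y) * he
  rw [e]
  exact (((((M1).mul hu M2).mul hu M6).mul hu M6).mul hu M7).mul hu ((((M3).mul hu M3).mul hu M4).mul hu M5).inv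

include hu he in
lemma l378 : IsMon k (uF x y) (y - (algebraMap k F (-1) * x + algebraMap k F 12)) := by
  have M0 : IsMon k (uF x y) x := isMon_u (u := uF x y) 0
  have M1 : IsMon k (uF x y) (x - 12) := isMon_u (u := uF x y) 1
  have M2 : IsMon k (uF x y) (x - 4) := isMon_u (u := uF x y) 2
  have M5 : IsMon k (uF x y) (y - 4 * x) := isMon_u (u := uF x y) 5
  have N5 : (y - 4 * x) ≠ 0 := hu 5
  have e : (y - (algebraMap k F (-1) * x + algebraMap k F 12)) =
      x * (x - 12) * (x - 4) * ((y - 4 * x))⁻¹ := by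
    rw [eq_mul_inv_iff_mul_eq₀ N5]
    simp only [map_neg, map_zero, map_one, map_ofNat]
    linear_combination (1) * he
  rw [e]
  exact (((M0).mul hu M1).mul hu M2).mul hu (M5).inv

include hu he in
lemma l468 : IsMon k (uF x y) (y - (algebraMap k F 1 * x + algebraMap k F 12)) := by
  have M0 : IsMon k (uF x y) x := isMon_u (u := uF x y) 0
  have M2 : IsMon k (uF x y) (x - 4) := isMon_u (u := uF x y) 2
  have M3 : IsMon k (uF x y) (x - 6) := isMon_u (u := uF x y) 3
  have M6 : IsMon k (uF x y) (y - 2 * x) := isMon_u (u := uF x y) 6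
  have N6 : (y - 2 * x) ≠ 0 := hu 6
  have e : (y - (algebraMap k F 1 * x + algebraMap k F 12)) =
      x * (x - 4) * (x - 6) * ((y - 2 * x))⁻¹ := by
    rw [eq_mul_inv_iff_mul_eq₀ N6]
    simp only [map_neg, map_zero, map_one, map_ofNat]
    linear_combination (1) * he
  rw [e]
  exact (((M0).mul hu M2).mul hu M3).mul hu (M6).inv

include hu he in
lemma l477 : IsMon k (uF x y) (y - (algebraMap k F (-3) * x + algebraMap k F 36)) := by
  have M1 : IsMon k (uF x y) (x - 12) := isMon_u (u := uF x y) 1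
  have M2 : IsMon k (uF x y) (x - 4) := isMon_u (u := uF x y) 2
  have M3 : IsMon k (uF x y) (x - 6) := isMon_u (u := uF x y) 3
  have M4 : IsMon k (uF x y) y := isMon_u (u := uF x y) 4
  have M5 : IsMon k (uF x y) (y - 4 * x) := isMon_u (u := uF x y) 5
  have M6 : IsMon k (uF x y) (y - 2 * x) := isMon_u (u := uF x y) 6
  have N5 : (y - 4 * x) ≠ 0 := hu 5
  have N6 : (y - 2 * x) ≠ 0 := hu 6
  have e : (y - (algebraMap k F (-3) * x + algebraMap k F 36)) =
      (x - 12) * (x - 4) * (x - 6) * y * ((y - 4 * x) * (y - 2 * x))⁻¹ := by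
    rw [eq_mul_inv_iff_mul_eq₀ (mul_ne_zero N5 N6)]
    simp only [map_neg, map_zero, map_one, map_ofNat]
    linear_combination (y + (-24)) * he
  rw [e]
  exact ((((M1).mul hu M2).mul hu M3).mul hu M4).mul hu ((M5).mul hu M6).inv

include hu he in
lemma l558 : IsMon k (uF x y) (y - (algebraMap k F 0 * x + algebraMap k F 12)) := by
  have M0 : IsMon k (uF x y) x := isMon_u (u := uF x y) 0
  have M3 : IsMon k (uF x y) (x - 6) := isMon_u (u := uF x y) 3
  have M7 : IsMon k (uF x y) (y - 3 * x) := isMon_u (u := uF x y) 7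
  have N7 : (y - 3 * x) ≠ 0 := hu 7
  have e : (y - (algebraMap k F 0 * x + algebraMap k F 12)) =
      x * (x - 6) * (x - 6) * ((y - 3 * x))⁻¹ := by
    rw [eq_mul_inv_iff_mul_eq₀ N7]
    simp only [map_neg, map_zero, map_one, map_ofNat]
    linear_combination (1) * he
  rw [e]
  exact (((M0).mul hu M3).mul hu M3).mul hu (M7).inv

include hu he in
lemma l567 : IsMon k (uF x y) (y - (algebraMap k F (-2) * x + algebraMap k F 24)) := by
  have M2 : IsMon k (uF x y) (x - 4) := isMon_u (u := uF x y) 2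
  have M3 : IsMon k (uF x y) (x - 6) := isMon_u (u := uF x y) 3
  have M4 : IsMon k (uF x y) y := isMon_u (u := uF x y) 4
  have M6 : IsMon k (uF x y) (y - 2 * x) := isMon_u (u := uF x y) 6
  have M7 : IsMon k (uF x y) (y - 3 * x) := isMon_u (u := uF x y) 7
  have N6 : (y - 2 * x) ≠ 0 := hu 6
  have N7 : (y - 3 * x) ≠ 0 := hu 7
  have e : (y - (algebraMap k F (-2) * x + algebraMap k F 24)) =
      (x - 4) * (x - 6) * (x - 6) * y * ((y - 2 * x) * (y - 3 * x))⁻¹ := by
    rw [eq_mul_inv_iff_mul_eq₀ (mul_ne_zero N6 N7)]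
    simp only [map_neg, map_zero, map_one, map_ofNat]
    linear_combination (y + (-12)) * he
  rw [e]
  exact ((((M2).mul hu M3).mul hu M3).mul hu M4).mul hu ((M6).mul hu M7).inv

include hu he in
lemma l666 : IsMon k (uF x y) (y - (algebraMap k F 0 * x + algebraMap k F 16)) := by
  have M1 : IsMon k (uF x y) (x - 12) := isMon_u (u := uF x y) 1
  have M2 : IsMon k (uF x y) (x - 4) := isMon_u (u := uF x y) 2
  have M3 : IsMon k (uF x y) (x - 6) := isMon_u (u := uF x y) 3
  have M4 : IsMon k (uF x y) y := isMon_u (u := uF x y) 4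
  have M5 : IsMon k (uF x y) (y - 4 * x) := isMon_u (u := uF x y) 5
  have M6 : IsMon k (uF x y) (y - 2 * x) := isMon_u (u := uF x y) 6
  have M7 : IsMon k (uF x y) (y - 3 * x) := isMon_u (u := uF x y) 7
  have N1 : (x - 12) ≠ 0 := hu 1
  have N6 : (y - 2 * x) ≠ 0 := hu 6
  have N7 : (y - 3 * x) ≠ 0 := hu 7
  have e : (y - (algebraMap k F 0 * x + algebraMap k F 16)) =
      (x - 4) * (x - 4) * (x - 6) * (x - 6) * y * (y - 4 * x) * ((x - 12) * (y - 2 * x) * (y - 2 * x) * (y - 3 * x))⁻¹ := by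
    rw [eq_mul_inv_iff_mul_eq₀ (mul_ne_zero (mul_ne_zero (mul_ne_zero N1 N6) N6) N7)]
    simp only [map_neg, map_zero, map_one, map_ofNat]
    linear_combination ((-4) * x ^ 2 * y + x * y ^ 2 + 44 * x * y + (-192) * x + (-12) * y ^ 2 + 48 * y) * he
  rw [e]
  exact ((((((M2).mul hu M2).mul hu M3).mul hu M3).mul hu M4).mul hu M5).mul hu ((((M1).mul hu M6).mul hu M6).mul hu M7).inv

end lines

section table

variable [CharZero k]

lemma r11 : LineOK (12 : k) 4 0 0 0 0 0 0 := by
  exact ⟨by norm_num, Or.inr ⟨rfl, rfl, by norm_num, by norm_num⟩⟩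

lemma r12 : LineOK (12 : k) 4 0 0 12 48 4 0 := by
  exact ⟨by norm_num, Or.inl ⟨by norm_num, by norm_num⟩⟩

lemma r13 : LineOK (12 : k) 4 0 0 4 8 2 0 := by
  exact ⟨by norm_num, Or.inl ⟨by norm_num, by norm_num⟩⟩

lemma r14 : LineOK (12 : k) 4 0 0 6 18 3 0 := by
  exact ⟨by norm_num, Or.inl ⟨by norm_num, by norm_num⟩⟩

lemma r15 : LineOK (12 : k) 4 0 0 6 12 2 0 := by
  exact ⟨by norm_num, Or.inl ⟨by norm_num, by norm_num⟩⟩

lemma r16 : LineOK (12 : k) 4 0 0 4 16 4 0 := by
  exact ⟨by norm_num, Or.inl ⟨by norm_num, by norm_num⟩⟩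

lemma r17 : LineOK (12 : k) 4 0 0 12 0 0 0 := by
  exact ⟨by norm_num, Or.inl ⟨by norm_num, by norm_num⟩⟩

lemma r22 : LineOK (12 : k) 4 12 48 12 48 6 (-24) := by
  exact ⟨by norm_num, Or.inr ⟨rfl, rfl, by norm_num, by norm_num⟩⟩

lemma r23 : LineOK (12 : k) 4 12 48 4 8 5 (-12) := by
  exact ⟨by norm_num, Or.inl ⟨by norm_num, by norm_num⟩⟩

lemma r24 : LineOK (12 : k) 4 12 48 6 18 5 (-12) := by
  exact ⟨by norm_num, Or.inl ⟨by norm_num, by norm_num⟩⟩

lemma r25 : LineOK (12 : k) 4 12 48 6 12 6 (-24) := by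
  exact ⟨by norm_num, Or.inl ⟨by norm_num, by norm_num⟩⟩

lemma r26 : LineOK (12 : k) 4 12 48 4 16 4 0 := by
  exact ⟨by norm_num, Or.inl ⟨by norm_num, by norm_num⟩⟩

lemma r28 : LineOK (12 : k) 4 12 48 0 12 3 12 := by
  exact ⟨by norm_num, Or.inl ⟨by norm_num, by norm_num⟩⟩

lemma r33 : LineOK (12 : k) 4 4 8 4 8 3 (-4) := by
  exact ⟨by norm_num, Or.inr ⟨rfl, rfl, by norm_num, by norm_num⟩⟩

lemma r34 : LineOK (12 : k) 4 4 8 6 18 5 (-12) := by
  exact ⟨by norm_num, Or.inl ⟨by norm_num, by norm_num⟩⟩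

lemma r35 : LineOK (12 : k) 4 4 8 6 12 2 0 := by
  exact ⟨by norm_num, Or.inl ⟨by norm_num, by norm_num⟩⟩

lemma r37 : LineOK (12 : k) 4 4 8 12 0 (-1) 12 := by
  exact ⟨by norm_num, Or.inl ⟨by norm_num, by norm_num⟩⟩

lemma r38 : LineOK (12 : k) 4 4 8 0 12 (-1) 12 := by
  exact ⟨by norm_num, Or.inl ⟨by norm_num, by norm_num⟩⟩

lemma r44 : LineOK (12 : k) 4 6 18 6 18 3 0 := by
  exact ⟨by norm_num, Or.inr ⟨rfl, rfl, by norm_num, by norm_num⟩⟩

lemma r46 : LineOK (12 : k) 4 6 18 4 16 1 12 := by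
  exact ⟨by norm_num, Or.inl ⟨by norm_num, by norm_num⟩⟩

lemma r47 : LineOK (12 : k) 4 6 18 12 0 (-3) 36 := by
  exact ⟨by norm_num, Or.inl ⟨by norm_num, by norm_num⟩⟩

lemma r48 : LineOK (12 : k) 4 6 18 0 12 1 12 := by
  exact ⟨by norm_num, Or.inl ⟨by norm_num, by norm_num⟩⟩

lemma r55 : LineOK (12 : k) 4 6 12 6 12 0 12 := by
  exact ⟨by norm_num, Or.inr ⟨rfl, rfl, by norm_num, by norm_num⟩⟩

lemma r56 : LineOK (12 : k) 4 6 12 4 16 (-2) 24 := by
  exact ⟨by norm_num, Or.inl ⟨by norm_num, by norm_num⟩⟩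

lemma r57 : LineOK (12 : k) 4 6 12 12 0 (-2) 24 := by
  exact ⟨by norm_num, Or.inl ⟨by norm_num, by norm_num⟩⟩

lemma r58 : LineOK (12 : k) 4 6 12 0 12 0 12 := by
  exact ⟨by norm_num, Or.inl ⟨by norm_num, by norm_num⟩⟩

lemma r66 : LineOK (12 : k) 4 4 16 4 16 0 16 := by
  exact ⟨by norm_num, Or.inr ⟨rfl, rfl, by norm_num, by norm_num⟩⟩

lemma r67 : LineOK (12 : k) 4 4 16 12 0 (-2) 24 := by
  exact ⟨by norm_num, Or.inl ⟨by norm_num, by norm_num⟩⟩

lemma r68 : LineOK (12 : k) 4 4 16 0 12 1 12 := by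
  exact ⟨by norm_num, Or.inl ⟨by norm_num, by norm_num⟩⟩

lemma r77 : LineOK (12 : k) 4 12 0 12 0 (-3) 36 := by
  exact ⟨by norm_num, Or.inr ⟨rfl, rfl, by norm_num, by norm_num⟩⟩

lemma r78 : LineOK (12 : k) 4 12 0 0 12 (-1) 12 := by
  exact ⟨by norm_num, Or.inl ⟨by norm_num, by norm_num⟩⟩

lemma r88 : LineOK (12 : k) 4 0 12 0 12 3 12 := by
  exact ⟨by norm_num, Or.inr ⟨rfl, rfl, by norm_num, by norm_num⟩⟩

end table

variable [DecidableEq k] [CharZero k] {hb : (12 : k) ≠ 0}

/-- the multiples -/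
lemma mem9 (h9 : (9 : ℕ) • P0 (4 : k) hb = 0) {a a' : k}
    (h : inH (AddSubgroup.zmultiples (P0 (4 : k) hb)) a a') : ∃ i, a = px k i ∧ a' = py k i := by
  obtain ⟨h1, h2⟩ := h
  obtain ⟨n, hn, hn'⟩ := mem_zm (by norm_num : 0 < 9) h9 h2
  obtain ⟨n2, e2⟩ := two_P0 (c := (4 : k)) hb
  obtain ⟨n3, e3⟩ := three_P0 (c := (4 : k)) hb
  have hc : (4 : k) ≠ 0 := by norm_num
  have hd : (12 : k) = 3 * 4 := by norm_num
  obtain ⟨n4, e4⟩ := four_P0 hb hc hd
  have e1 : (1 : ℕ) • P0 (4 : k) hb = .some 0 0 (ns0 hb) := by rw [one_nsmul]; rfl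
  interval_cases n
  · rw [zero_nsmul] at hn'
    exact absurd hn'.symm (Point.some_ne_zero _)
  · rw [e1] at hn'
    simp only [Point.some.injEq] at hn'
    exact ⟨0, by rw [← hn'.1]; rfl, by rw [← hn'.2]; rfl⟩
  · rw [e2] at hn'
    simp only [Point.some.injEq] at hn'
    exact ⟨1, by rw [← hn'.1]; rfl, by rw [← hn'.2]; show _ = (48 : k); norm_num⟩
  · rw [e3] at hn'
    simp only [Point.some.injEq] at hn'
    exact ⟨2, by rw [← hn'.1]; rfl, by rw [← hn'.2]; show _ = (8 : k); norm_num⟩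
  · rw [e4] at hn'
    simp only [Point.some.injEq] at hn'
    exact ⟨3, by rw [← hn'.1]; show _ = (6 : k); norm_num, by rw [← hn'.2]; show _ = (18 : k); norm_num⟩
  · obtain ⟨g1, g2⟩ := mem_neg hb h9 (by norm_num : 5 + 4 = 9) hn' e4
    exact ⟨4, by rw [g1]; show _ = (6 : k); norm_num, by rw [g2]; show _ = (12 : k); norm_num⟩
  · obtain ⟨g1, g2⟩ := mem_neg hb h9 (by norm_num : 6 + 3 = 9) hn' e3
    exact ⟨5, by rw [g1]; rfl, by rw [g2]; show _ = (16 : k); norm_num⟩
  · obtain ⟨g1, g2⟩ := mem_neg hb h9 (by norm_num : 7 + 2 = 9) hn' e2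
    exact ⟨6, by rw [g1]; rfl, by rw [g2]; show _ = (0 : k); norm_num⟩
  · obtain ⟨g1, g2⟩ := mem_neg hb h9 (by norm_num : 8 + 1 = 9) hn' e1
    exact ⟨7, by rw [g1]; rfl, by rw [g2]; show _ = (12 : k); norm_num⟩

/-- the basis consists of functions supported on the multiples -/
lemma isUn_uF (h : UEG.Gen (Wt (12 : k) 4) x y) (j : Fin 8) :
    IsUn (AddSubgroup.zmultiples (P0 (4 : k) hb)) x y (uF x y j) := by
  have m1 := inH_one (c := (4 : k)) hb
  have m2 := inH_two (c := (4 : k)) hb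
  have m3 := inH_three (c := (4 : k)) hb
  have hc : (4 : k) ≠ 0 := by norm_num
  have hd : (12 : k) = 3 * 4 := by norm_num
  have m4 := inH_four (c := (4 : k)) hb hc hd
  have e48 : (12 : k) * 4 = 48 := by norm_num
  have e8 : (12 : k) - 4 = 8 := by norm_num
  have e6 : (3 : k) * (3 - 1) = 6 := by norm_num
  have e18 : (3 : k) ^ 2 * (4 + 1 - 3) = 18 := by norm_num
  rw [e48] at m2
  rw [e8] at m3
  rw [e6, e18] at m4
  fin_cases j
  · have := isUn_x h m1
    rwa [map_zero, sub_zero] at this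
  · have := isUn_x h m2
    rwa [map_ofNat] at this
  · have := isUn_x h m3
    rwa [map_ofNat] at this
  · have := isUn_x h m4
    rwa [map_ofNat] at this
  · have := isUn_line h m1 m1 (r11 (k := k))
    show IsUn _ _ _ y
    simpa using this
  · have := isUn_line h m1 m2 (r12 (k := k))
    rwa [map_zero, add_zero, map_ofNat] at this
  · have := isUn_line h m1 m3 (r13 (k := k))
    rwa [map_zero, add_zero, map_ofNat] at this
  · have := isUn_line h m1 m4 (r14 (k := k))
    rwa [map_zero, add_zero, map_ofNat] at this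

/-- **the functions supported on the multiples of the point of order nine** -/
theorem isUn9 (h9 : (9 : ℕ) • P0 (4 : k) hb = 0) (h : UEG.Gen (Wt (12 : k) 4) x y) (f : F) :
    IsUn (AddSubgroup.zmultiples (P0 (4 : k) hb)) x y f ↔ IsMon k (uF x y) f := by
  have hg := UE4.of_UEG h
  have hun := isUn_uF (hb := hb) h
  have hu : ∀ j, uF x y j ≠ 0 := fun j => (hun j).1
  have he : y ^ 2 - 3 * x * y - 12 * y = x ^ 3 - 12 * x ^ 2 := by
    have := hg.eq
    rw [map_ofNat, map_ofNat] at this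
    linear_combination this
  have M0 : IsMon k (uF x y) x := isMon_u (u := uF x y) 0
  have M1 : IsMon k (uF x y) (x - 12) := isMon_u (u := uF x y) 1
  have M2 : IsMon k (uF x y) (x - 4) := isMon_u (u := uF x y) 2
  have M3 : IsMon k (uF x y) (x - 6) := isMon_u (u := uF x y) 3
  refine isUn_tab h hu hun (px k) (py k) (fun a a' ha => mem9 h9 ha) ?_ ?_ f
  · intro i
    fin_cases i

    · show IsMon k _ (x - algebraMap k F 0)
      rw [map_zero, sub_zero]; exact M0
    · show IsMon k _ (x - algebraMap k F 12)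
      rw [map_ofNat]; exact M1
    · show IsMon k _ (x - algebraMap k F 4)
      rw [map_ofNat]; exact M2
    · show IsMon k _ (x - algebraMap k F 6)
      rw [map_ofNat]; exact M3
    · show IsMon k _ (x - algebraMap k F 6)
      rw [map_ofNat]; exact M3
    · show IsMon k _ (x - algebraMap k F 4)
      rw [map_ofNat]; exact M2
    · show IsMon k _ (x - algebraMap k F 12)
      rw [map_ofNat]; exact M1
    · show IsMon k _ (x - algebraMap k F 0)
      rw [map_zero, sub_zero]; exact M0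
  · intro i j hij
    fin_cases i <;> fin_cases j
    · exact Or.inr ⟨_, _, r11, l117 hu he⟩
    · exact Or.inr ⟨_, _, r12, l126 hu he⟩
    · exact Or.inr ⟨_, _, r13, l135 hu he⟩
    · exact Or.inr ⟨_, _, r14, l144 hu he⟩
    · exact Or.inr ⟨_, _, r15, l135 hu he⟩
    · exact Or.inr ⟨_, _, r16, l126 hu he⟩
    · exact Or.inr ⟨_, _, r17, l117 hu he⟩
    · exact Or.inl ⟨rfl, by show (0 : k) = -12 - (1 - 4) * 0 + 12; norm_num⟩
    · exact absurd hij (by decide)
    · exact Or.inr ⟨_, _, r22, l225 hu he⟩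
    · exact Or.inr ⟨_, _, r23, l234 hu he⟩
    · exact Or.inr ⟨_, _, r24, l234 hu he⟩
    · exact Or.inr ⟨_, _, r25, l225 hu he⟩
    · exact Or.inr ⟨_, _, r26, l126 hu he⟩
    · exact Or.inl ⟨rfl, by show (48 : k) = -0 - (1 - 4) * 12 + 12; norm_num⟩
    · exact Or.inr ⟨_, _, r28, l288 hu he⟩
    · exact absurd hij (by decide)
    · exact absurd hij (by decide)
    · exact Or.inr ⟨_, _, r33, l333 hu he⟩
    · exact Or.inr ⟨_, _, r34, l234 hu he⟩
    · exact Or.inr ⟨_, _, r35, l135 hu he⟩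
    · exact Or.inl ⟨rfl, by show (8 : k) = -16 - (1 - 4) * 4 + 12; norm_num⟩
    · exact Or.inr ⟨_, _, r37, l378 hu he⟩
    · exact Or.inr ⟨_, _, r38, l378 hu he⟩
    · exact absurd hij (by decide)
    · exact absurd hij (by decide)
    · exact absurd hij (by decide)
    · exact Or.inr ⟨_, _, r44, l144 hu he⟩
    · exact Or.inl ⟨rfl, by show (18 : k) = -12 - (1 - 4) * 6 + 12; norm_num⟩
    · exact Or.inr ⟨_, _, r46, l468 hu he⟩
    · exact Or.inr ⟨_, _, r47, l477 hu he⟩
    · exact Or.inr ⟨_, _, r48, l468 hu he⟩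
    · exact absurd hij (by decide)
    · exact absurd hij (by decide)
    · exact absurd hij (by decide)
    · exact absurd hij (by decide)
    · exact Or.inr ⟨_, _, r55, l558 hu he⟩
    · exact Or.inr ⟨_, _, r56, l567 hu he⟩
    · exact Or.inr ⟨_, _, r57, l567 hu he⟩
    · exact Or.inr ⟨_, _, r58, l558 hu he⟩
    · exact absurd hij (by decide)
    · exact absurd hij (by decide)
    · exact absurd hij (by decide)
    · exact absurd hij (by decide)
    · exact absurd hij (by decide)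
    · exact Or.inr ⟨_, _, r66, l666 hu he⟩
    · exact Or.inr ⟨_, _, r67, l567 hu he⟩
    · exact Or.inr ⟨_, _, r68, l468 hu he⟩
    · exact absurd hij (by decide)
    · exact absurd hij (by decide)
    · exact absurd hij (by decide)
    · exact absurd hij (by decide)
    · exact absurd hij (by decide)
    · exact absurd hij (by decide)
    · exact Or.inr ⟨_, _, r77, l477 hu he⟩
    · exact Or.inr ⟨_, _, r78, l378 hu he⟩
    · exact absurd hij (by decide)
    · exact absurd hij (by decide)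
    · exact absurd hij (by decide)
    · exact absurd hij (by decide)
    · exact absurd hij (by decide)
    · exact absurd hij (by decide)
    · exact absurd hij (by decide)
    · exact Or.inr ⟨_, _, r88, l288 hu he⟩

end Pool.Agent.N9H
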