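import Pool.Agent.Lib_helper40.MC.P2
import Pool.Agent.Lib_helper76.UE9.T9
import Pool.Agent.Lib_helper87.FAM.NineU
import Pool.Agent.Lib_helper72.K8.Sh
import Pool.Agent.Lib_helper2.K4N.Q9X

set_option autoImplicit false
set_option linter.unusedSectionVars false

/-!
# The special curve with a point of order nine
-/

open scoped TensorProduct WithZero

namespace Pool.Agent.FK4

open Pool.Agent.MK4 WeierstrassCurve.Affine Pool.Agent.KC72 Pool.Agent.MC
open Pool.Agent.TN (Wt Gen)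
open Pool.Agent.UEG (P0)

variable {k : Type*} [Field k] [DecidableEq k] [CharZero k] {W : WeierstrassCurve.Affine k}
  {F : Type*} [Field F] [Algebra k F] {X Y : F}

/-- the eight functions and the constants `2`, `3` -/
def G9s (x y : F) : Fin 10 → F :=
  ![x, x - 12, x - 4, x - 6, y, y - 4 * x, y - 2 * x, y - 3 * x, 2, 3]

/-- monomials in the eight functions -/
def M9s (x y : F) (n : Fin 8 → ℤ) : F := ∏ j, N9H.uF x y j ^ n j

lemma supp9 {hb : (12 : k) ≠ 0} {x y : F} (hO : addOrderOf (P0 (4 : k) hb) = 9)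
    (h : Generic (Wt (12 : k) 4) x y) (f : F) :
    Supp (AddSubgroup.zmultiples (P0 (4 : k) hb)) x y f ↔
      ∃ (c : k) (n : Fin 8 → ℤ), c ≠ 0 ∧ f = algebraMap k F c * M9s x y n := by
  rw [supp_iff]
  exact N9H.isUn9 (by rw [← hO]; exact addOrderOf_nsmul_eq_zero _) h.toU f

/-- the clause `Line` for a point of order nine -/
theorem line9 (hg : Generic W X Y) {P : W.Point} {x y : F} {b c : k} (hb : b ≠ 0) (eb : b = 12)
    (ec : c = 4) (hO : addOrderOf (P0 c hb) = 9) (h : Generic (Wt b c) x y)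
    (hS : Same (AddSubgroup.zmultiples P) X Y (AddSubgroup.zmultiples (P0 c hb)) x y)
    {R : RCert} {L' : List Tm} (hR : ROkX R [L']) (hn : R.n = 10) (hr : R.r = 8)
    {cls : List (Mo × Mo)} (hcl : sameC R.cls cls = true)
    (hM : ∀ (n : Fin 8 → ℤ) (s : k), M9s x y n = algebraMap k F s → n = 0)
    (hs : Sols (List.ofFn (G9s x y)) cls)
    (hU : ∀ f : F,
      (∃ (c : k) (n : Fin 8 → ℤ), c ≠ 0 ∧ f = algebraMap k F c * M9s x y n) →
      (∃ (c : k) (n : Fin 8 → ℤ), c ≠ 0 ∧ 1 - f = algebraMap k F c * M9s x y n) →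
      (∃ c : k, f = algebraMap k F c) ∨ ∃ p ∈ cls, TN.Orb (ev (List.ofFn (G9s x y)) p.1) f)
    {L : List Tm} (hL : okT 10 cls L = true) (hD : chkD 10 cls L = true)
    (hLL : L.map (fun t => (oo cls (t.c, t.s), t.u)) =
      L'.map (fun t => (oo R.cls (t.c, t.s), t.u))) {ξ : HK F} (hξ : ξ = zt (List.ofFn (G9s x y)) cls L)
    (hun : Unram k ξ) (hnz : RegNonZero k X Y ξ) : Line P X Y := by
  subst eb ec
  have hs9 := supp9 hO h
  have hunit := N9H.isUn_uF (hb := hb) h.toU
  refine line_rcert hg hS hR (n := 10) (r := 8) hn hr hcl (G := G9s x y) (by norm_num)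
    ?_ ?_ ?_ ?_ hs (fun f h1 h2 => hU f ((hs9 f).mp h1) ((hs9 _).mp h2)) hL hD hLL hξ hun hnz
  · intro i
    have h2 : Supp (AddSubgroup.zmultiples (P0 (4 : k) hb)) x y (2 : F) := by
      have := supp_const (k := k) (H := AddSubgroup.zmultiples (P0 (4 : k) hb)) (X := x) (Y := y)
        (two_ne_zero (α := k))
      rwa [map_ofNat] at this
    have h3 : Supp (AddSubgroup.zmultiples (P0 (4 : k) hb)) x y (3 : F) := by
      have := supp_const (k := k) (H := AddSubgroup.zmultiples (P0 (4 : k) hb)) (X := x) (Y := y)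
        (three_ne_zero (α := k))
      rwa [map_ofNat] at this
    fin_cases i
    · exact supp_iff.mpr (hunit 0)
    · exact supp_iff.mpr (hunit 1)
    · exact supp_iff.mpr (hunit 2)
    · exact supp_iff.mpr (hunit 3)
    · exact supp_iff.mpr (hunit 4)
    · exact supp_iff.mpr (hunit 5)
    · exact supp_iff.mpr (hunit 6)
    · exact supp_iff.mpr (hunit 7)
    · exact h2
    · exact h3
  · intro i hi'
    fin_cases i
    · simp at hi'
    · simp at hi'
    · simp at hi'
    · simp at hi'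
    · simp at hi'
    · simp at hi'
    · simp at hi'
    · simp at hi'
    · exact ⟨2, (map_ofNat _ 2).symm⟩
    · exact ⟨3, (map_ofNat _ 3).symm⟩
  · intro e c _ he
    apply hM e c
    rw [← he]
    unfold M9s
    refine Finset.prod_congr rfl fun i _ => ?_
    congr 1
    fin_cases i <;> rfl
  · intro e h0 he
    have z0 := h0 0 (by norm_num)
    have z1 := h0 1 (by norm_num)
    have z2 := h0 2 (by norm_num)
    have z3 := h0 3 (by norm_num)
    have z4 := h0 4 (by norm_num)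
    have z5 := h0 5 (by norm_num)
    have z6 := h0 6 (by norm_num)
    have z7 := h0 7 (by norm_num)
    have h1 : algebraMap k F (2 ^ e 8 * 3 ^ e 9) = 1 := by
      rw [← he, map_mul, map_zpow₀, map_zpow₀, map_ofNat, map_ofNat]
      simp only [Fin.prod_univ_succ, Fin.prod_univ_zero, mul_one]
      have e0 : ∀ z : F, z ^ (0 : ℤ) = 1 := fun z => zpow_zero z
      show _ = G9s x y 0 ^ e 0 * (G9s x y 1 ^ e 1 * (G9s x y 2 ^ e 2 * (G9s x y 3 ^ e 3 *
        (G9s x y 4 ^ e 4 * (G9s x y 5 ^ e 5 * (G9s x y 6 ^ e 6 * (G9s x y 7 ^ e 7 *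
        (G9s x y 8 ^ e 8 * G9s x y 9 ^ e 9))))))))
      rw [z0, z1, z2, z3, z4, z5, z6, z7, e0, e0, e0, e0, e0, e0, e0, e0]
      simp only [one_mul]
      rfl
    rw [← map_one (algebraMap k F)] at h1
    obtain ⟨g1, g2⟩ := K8.two_three ((algebraMap k F).injective h1)
    funext i
    fin_cases i
    · exact z0
    · exact z1
    · exact z2
    · exact z3
    · exact z4
    · exact z5
    · exact z6
    · exact z7
    · exact g1
    · exact g2

/-- the special curve -/
theorem line9' (hg : Generic W X Y) {P : W.Point} (h9 : To9 P X Y)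
    {R : RCert} {L' : List Tm} (hR : ROkX R [L']) (hn : R.n = 10) (hr : R.r = 8)
    {cls : List (Mo × Mo)} (hcl : sameC R.cls cls = true)
    (hM : ∀ {x y : F}, Gen (12 : k) 4 x y → ∀ (n : Fin 8 → ℤ) (s : k),
      M9s x y n = algebraMap k F s → n = 0)
    (hs : ∀ {x y : F}, Gen (12 : k) 4 x y → Sols (List.ofFn (G9s x y)) cls)
    (hU : ∀ {x y : F}, Gen (12 : k) 4 x y → ∀ f : F,
      (∃ (c : k) (n : Fin 8 → ℤ), c ≠ 0 ∧ f = algebraMap k F c * M9s x y n) →
      (∃ (c : k) (n : Fin 8 → ℤ), c ≠ 0 ∧ 1 - f = algebraMap k F c * M9s x y n) →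
      (∃ c : k, f = algebraMap k F c) ∨ ∃ p ∈ cls, TN.Orb (ev (List.ofFn (G9s x y)) p.1) f)
    {L : List Tm} (hL : okT 10 cls L = true) (hD : chkD 10 cls L = true)
    (hLL : L.map (fun t => (oo cls (t.c, t.s), t.u)) =
      L'.map (fun t => (oo R.cls (t.c, t.s), t.u)))
    (hξ : ∀ {x y : F}, Gen (12 : k) 4 x y → K4N.xi9 x y = zt (List.ofFn (G9s x y)) cls L)
    (hun : ∀ {x y : F}, Gen (12 : k) 4 x y → Unram k (K4N.xi9 x y)) : Line P X Y := by
  obtain ⟨x, y, hG, hO, hS, htop⟩ := h9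
  have eb : UE9.bb (2 : k) = 12 := by unfold UE9.bb; norm_num
  have ec : UE9.cc (2 : k) = 4 := by unfold UE9.cc; norm_num
  have hgen : Gen (12 : k) 4 x y := by
    have := UE4.of_UEG hG.toU
    rwa [eb, ec] at this
  refine line9 hg bb9 eb ec hO hG hS.toSame hR hn hr hcl (hM hgen) (hs hgen) (hU hgen) hL hD
    hLL (hξ hgen) (hun hgen) ?_
  intro φ ht
  exact K4N.rz_xi9 φ hgen (htop ht)

end Pool.Agent.FK4
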