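import Pool.Agent.Lib_helper24.FAM.Cl
import Pool.Agent.Lib_helper76.UE7.S7
import Pool.Agent.Lib_helper76.FAM.Tate
import Pool.Agent.Lib_helper72.K7.J

set_option autoImplicit false

/-!
# Points of order seven: the unit equation and the closed elements for independent parameters
-/

open scoped TensorProduct WithZero

namespace Pool.Agent.FK4

open Pool.Agent.MK4 WeierstrassCurve.Affine
open Pool.Agent.TN (Wt)
open Pool.Agent.UEG (P0)

variable {k : Type*} [Field k] [DecidableEq k] [CharZero k] {W : WeierstrassCurve.Affine k}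
  {F : Type*} [Field F] [Algebra k F] {X Y : F}

/-- only constants for independent parameters -/
theorem onlyConst7 {t : k} {x y : F} (hb : K7.bb t ≠ 0) (hind : Indep t (t - 1))
    (hO : addOrderOf (P0 (K7.cc t) hb) = 7) (h : Generic (Wt (K7.bb t) (K7.cc t)) x y) :
    OnlyConst (AddSubgroup.zmultiples (P0 (K7.cc t) hb)) x y := by
  intro z hz hc
  rw [sp7 hb hO h] at hz
  rw [← TN.KC_eq]
  exact K7.closed7 (t_ne hb) (t_ne_one hb) hind (gen7 h) hz hc

/-- the generic part, together with the data of the Tate normal form -/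
theorem seven_gen (hg : Generic W X Y) (P : W.Point) (h : addOrderOf P = 7) :
    ∃ (t : k) (x y : F) (hb : K7.bb t ≠ 0), t ≠ 0 ∧ t ≠ 1 ∧
      Tate P X Y (t ^ 3 - t ^ 2) (t ^ 2 - t) x y ∧ Generic (Wt (K7.bb t) (K7.cc t)) x y ∧
      addOrderOf (P0 (K7.cc t) hb) = 7 ∧
      SameS (AddSubgroup.zmultiples P) X Y (AddSubgroup.zmultiples (P0 (K7.cc t) hb)) x y ∧
      (IntermediateField.adjoin k {X, Y} = ⊤ → IntermediateField.adjoin k {x, y} = ⊤) ∧
      (Indep t (t - 1) →
        UnitEqS (AddSubgroup.zmultiples P) X Y ∧ ClosedIn (AddSubgroup.zmultiples P) X Y ⊥) := by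
  obtain ⟨t, x, y, hb, ht, ht1, hT, hG, hO, hS, htop⟩ := tate7 hg P h
  refine ⟨t, x, y, hb, ht, ht1, hT, hG, hO, hS, htop, fun hind => ⟨?_, ?_⟩⟩
  · exact hS.unitEqS.mpr (unitEqS7 hb hind hO hG)
  · exact closedIn_bot hg (hS.toSame.onlyConst.mpr (onlyConst7 hb hind hO hG))

/-- **points of order seven**, given the three special curves -/
theorem seven_of (hg : Generic W X Y) (P : W.Point) (h : addOrderOf P = 7)
    (hL : ∀ (t : k) (x y : F) (hb : K7.bb t ≠ 0), Generic (Wt (K7.bb t) (K7.cc t)) x y →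
      addOrderOf (P0 (K7.cc t) hb) = 7 →
      SameS (AddSubgroup.zmultiples P) X Y (AddSubgroup.zmultiples (P0 (K7.cc t) hb)) x y →
      (IntermediateField.adjoin k {X, Y} = ⊤ → IntermediateField.adjoin k {x, y} = ⊤) →
      (t = 2 ∨ t = -1 ∨ 2 * t = 1) → Line P X Y) : Seven P X Y := by
  obtain ⟨t, x, y, hb, -, -, hT, hG, hO, hS, htop, hI⟩ := seven_gen hg P h
  exact ⟨t, x, y, hT, hI, hL t x y hb hG hO hS htop⟩

end Pool.Agent.FK4
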