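import Pool.Agent.Lib_helper87.FAM.Siegel
import Pool.Agent.Lib_helper87.FAM.T12

/-!
# The Siegel numbers of the multiples of a point of order twelve
-/

set_option autoImplicit false
set_option linter.unusedSectionVars false
set_option linter.unusedSimpArgs false
set_option linter.unusedVariables false
set_option linter.unreachableTactic false
set_option linter.unusedTactic false

namespace Pool.Agent.GK

open WeierstrassCurve.Affine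
open K4M (dx ps pc ph)
open Pool.Agent.TN (Wt)
open Pool.Agent.UEG (P0 two_P0 three_P0 four_P0 five_P0 six_P0 negY_wt)

lemma prod_twelve {M : Type*} [CommMonoid M] (f : Fin 12 → M) :
    ∏ i, f i = f 0 * f 1 * f 2 * f 3 * f 4 * f 5 * f 6 * f 7 * f 8 * f 9 * f 10 * f 11 := by
  simp only [Fin.prod_univ_castSucc, Fin.prod_univ_zero, one_mul]
  rfl

lemma sum_twelve {M : Type*} [AddCommMonoid M] (f : Fin 12 → M) :
    ∑ i, f i = f 0 + f 1 + f 2 + f 3 + f 4 + f 5 + f 6 + f 7 + f 8 + f 9 + f 10 + f 11 := by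
  simp only [Fin.sum_univ_castSucc, Fin.sum_univ_zero, zero_add]
  rfl

section mo

variable {k : Type*} [Field k]

/-- monomials -/
def mo5 (t0 t1 t2 t3 t4 : k) (a b c d e : ℤ) : k := t0 ^ a * t1 ^ b * t2 ^ c * t3 ^ d * t4 ^ e

lemma mo5_mul {t0 t1 t2 t3 t4 : k} (ht0 : t0 ≠ 0) (ht1 : t1 ≠ 0) (ht2 : t2 ≠ 0) (ht3 : t3 ≠ 0) (ht4 : t4 ≠ 0)
    (a b c d e a' b' c' d' e' : ℤ) :
    mo5 t0 t1 t2 t3 t4 a b c d e * mo5 t0 t1 t2 t3 t4 a' b' c' d' e' =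
      mo5 t0 t1 t2 t3 t4 (a + a') (b + b') (c + c') (d + d') (e + e') := by
  unfold mo5
  rw [zpow_add₀ ht0, zpow_add₀ ht1, zpow_add₀ ht2, zpow_add₀ ht3, zpow_add₀ ht4]
  ring

lemma mo5_zpow {t0 t1 t2 t3 t4 : k} (a b c d e n : ℤ) :
    mo5 t0 t1 t2 t3 t4 a b c d e ^ n = mo5 t0 t1 t2 t3 t4 (a * n) (b * n) (c * n) (d * n) (e * n) := by
  unfold mo5
  simp only [mul_zpow, ← zpow_mul]

lemma mo5_sq {t0 t1 t2 t3 t4 : k} (ht0 : t0 ≠ 0) (ht1 : t1 ≠ 0) (ht2 : t2 ≠ 0) (ht3 : t3 ≠ 0) (ht4 : t4 ≠ 0)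
    (a b c d e : ℤ) :
    mo5 t0 t1 t2 t3 t4 a b c d e ^ 2 = mo5 t0 t1 t2 t3 t4 (a + a) (b + b) (c + c) (d + d) (e + e) := by
  rw [sq, mo5_mul ht0 ht1 ht2 ht3 ht4]

end mo

lemma some_eq12 {k : Type*} [Field k] [DecidableEq k] {W : WeierstrassCurve.Affine k} {P : W.Point}
    {x y x' y' : k} (h : ∃ h, P = .some x y h) (hx : x = x') (hy : y = y') :
    ∃ h, P = .some x' y' h := by
  subst hx hy
  exact h

variable {k : Type*} [Field k] [DecidableEq k] {b c : k}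

/-- the Siegel numbers for a point of order twelve -/
lemma gam12 (hb : b ≠ 0) {x2 x3 x4 x5 x6 y2 y3 y4 y5 y6 p1 p2 p3 p4 p5 p6 : k}
    (q2 : ∃ h, (2 : ℕ) • P0 c hb = .some x2 y2 h)
    (q3 : ∃ h, (3 : ℕ) • P0 c hb = .some x3 y3 h)
    (q4 : ∃ h, (4 : ℕ) • P0 c hb = .some x4 y4 h)
    (q5 : ∃ h, (5 : ℕ) • P0 c hb = .some x5 y5 h)
    (q6 : ∃ h, (6 : ℕ) • P0 c hb = .some x6 y6 h)
    (g1 : 2 * 0 + (1 - c) * 0 - b = p1) (n1 : p1 ≠ 0)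
    (g2 : 2 * y2 + (1 - c) * x2 - b = p2) (n2 : p2 ≠ 0)
    (g3 : 2 * y3 + (1 - c) * x3 - b = p3) (n3 : p3 ≠ 0)
    (g4 : 2 * y4 + (1 - c) * x4 - b = p4) (n4 : p4 ≠ 0)
    (g5 : 2 * y5 + (1 - c) * x5 - b = p5) (n5 : p5 ≠ 0)
    (g6 : 2 * y6 + (1 - c) * x6 - b = 0)
    (k6 : 3 * x6 ^ 2 - 2 * b * x6 - (1 - c) * y6 = p6)
    (h12 : 0 ≠ x2)
    (h13 : 0 ≠ x3)
    (h14 : 0 ≠ x4)
    (h15 : 0 ≠ x5)
    (h16 : 0 ≠ x6)
    (h23 : x2 ≠ x3)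
    (h24 : x2 ≠ x4)
    (h25 : x2 ≠ x5)
    (h26 : x2 ≠ x6)
    (h34 : x3 ≠ x4)
    (h35 : x3 ≠ x5)
    (h36 : x3 ≠ x6)
    (h45 : x4 ≠ x5)
    (h46 : x4 ≠ x6)
    (h56 : x5 ≠ x6)
    (hO : addOrderOf (P0 c hb) = 12) [Fintype (AddSubgroup.zmultiples (P0 c hb))] :
    gam _ (mz (P0 c hb) 12 1) = -(p1 ^ 2 * (0 - x2) ^ 2 * (0 - x3) ^ 2 * (0 - x4) ^ 2 * (0 - x5) ^ 2 * (0 - x6)) ∧
    gam _ (mz (P0 c hb) 12 2) = -(p2 ^ 2 * (x2 - 0) ^ 2 * (x2 - x3) ^ 2 * (x2 - x4) ^ 2 * (x2 - x5) ^ 2 * (x2 - x6)) ∧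
    gam _ (mz (P0 c hb) 12 3) = -(p3 ^ 2 * (x3 - 0) ^ 2 * (x3 - x2) ^ 2 * (x3 - x4) ^ 2 * (x3 - x5) ^ 2 * (x3 - x6)) ∧
    gam _ (mz (P0 c hb) 12 4) = -(p4 ^ 2 * (x4 - 0) ^ 2 * (x4 - x2) ^ 2 * (x4 - x3) ^ 2 * (x4 - x5) ^ 2 * (x4 - x6)) ∧
    gam _ (mz (P0 c hb) 12 5) = -(p5 ^ 2 * (x5 - 0) ^ 2 * (x5 - x2) ^ 2 * (x5 - x3) ^ 2 * (x5 - x4) ^ 2 * (x5 - x6)) ∧
    gam _ (mz (P0 c hb) 12 6) = -(p6 * (x6 - 0) ^ 2 * (x6 - x2) ^ 2 * (x6 - x3) ^ 2 * (x6 - x4) ^ 2 * (x6 - x5) ^ 2) ∧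
    gam _ (mz (P0 c hb) 12 7) = -(p5 ^ 2 * (x5 - 0) ^ 2 * (x5 - x2) ^ 2 * (x5 - x3) ^ 2 * (x5 - x4) ^ 2 * (x5 - x6)) ∧
    gam _ (mz (P0 c hb) 12 8) = -(p4 ^ 2 * (x4 - 0) ^ 2 * (x4 - x2) ^ 2 * (x4 - x3) ^ 2 * (x4 - x5) ^ 2 * (x4 - x6)) ∧
    gam _ (mz (P0 c hb) 12 9) = -(p3 ^ 2 * (x3 - 0) ^ 2 * (x3 - x2) ^ 2 * (x3 - x4) ^ 2 * (x3 - x5) ^ 2 * (x3 - x6)) ∧
    gam _ (mz (P0 c hb) 12 10) = -(p2 ^ 2 * (x2 - 0) ^ 2 * (x2 - x3) ^ 2 * (x2 - x4) ^ 2 * (x2 - x5) ^ 2 * (x2 - x6)) ∧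
    gam _ (mz (P0 c hb) 12 11) = -(p1 ^ 2 * (0 - x2) ^ 2 * (0 - x3) ^ 2 * (0 - x4) ^ 2 * (0 - x5) ^ 2 * (0 - x6)) := by
  have q1 := m1 (c := c) hb
  obtain ⟨h7, e7⟩ := mn (x' := x5) (y' := -y5 - (1 - c) * x5 + b) hb hO (i := 5) (j := 7) (by norm_num) q5 rfl (by ring)
  obtain ⟨h8, e8⟩ := mn (x' := x4) (y' := -y4 - (1 - c) * x4 + b) hb hO (i := 4) (j := 8) (by norm_num) q4 rfl (by ring)
  obtain ⟨h9, e9⟩ := mn (x' := x3) (y' := -y3 - (1 - c) * x3 + b) hb hO (i := 3) (j := 9) (by norm_num) q3 rfl (by ring)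
  obtain ⟨h10, e10⟩ := mn (x' := x2) (y' := -y2 - (1 - c) * x2 + b) hb hO (i := 2) (j := 10) (by norm_num) q2 rfl (by ring)
  obtain ⟨h11, e11⟩ := mn (x' := 0) (y' := -0 - (1 - c) * 0 + b) hb hO (i := 1) (j := 11) (by norm_num) q1 rfl (by ring)
  obtain ⟨h1, e1⟩ := q1
  obtain ⟨h2, e2⟩ := q2
  obtain ⟨h3, e3⟩ := q3
  obtain ⟨h4, e4⟩ := q4
  obtain ⟨h5, e5⟩ := q5
  obtain ⟨h6, e6⟩ := q6
  have e0 : (0 : ℕ) • P0 c hb = 0 := zero_nsmul _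
  have v1 : pc (.some (0) (0) h1 : (Wt b c).Point) = p1 := by
    rw [pc_of_ne _ (by rw [g1]; exact n1), g1]
  have v2 : pc (.some (x2) (y2) h2 : (Wt b c).Point) = p2 := by
    rw [pc_of_ne _ (by rw [g2]; exact n2), g2]
  have v3 : pc (.some (x3) (y3) h3 : (Wt b c).Point) = p3 := by
    rw [pc_of_ne _ (by rw [g3]; exact n3), g3]
  have v4 : pc (.some (x4) (y4) h4 : (Wt b c).Point) = p4 := by
    rw [pc_of_ne _ (by rw [g4]; exact n4), g4]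
  have v5 : pc (.some (x5) (y5) h5 : (Wt b c).Point) = p5 := by
    rw [pc_of_ne _ (by rw [g5]; exact n5), g5]
  have v6 : pc (.some (x6) (y6) h6 : (Wt b c).Point) = p6 := by
    rw [pc_of_eq _ g6, k6]
  have v7 : pc (.some (x5) (-y5 - (1 - c) * x5 + b) h7 : (Wt b c).Point) = -p5 := by
    rw [pc_of_ne _ (by intro h; apply n5; linear_combination -h - g5)]; linear_combination -g5
  have v8 : pc (.some (x4) (-y4 - (1 - c) * x4 + b) h8 : (Wt b c).Point) = -p4 := by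
    rw [pc_of_ne _ (by intro h; apply n4; linear_combination -h - g4)]; linear_combination -g4
  have v9 : pc (.some (x3) (-y3 - (1 - c) * x3 + b) h9 : (Wt b c).Point) = -p3 := by
    rw [pc_of_ne _ (by intro h; apply n3; linear_combination -h - g3)]; linear_combination -g3
  have v10 : pc (.some (x2) (-y2 - (1 - c) * x2 + b) h10 : (Wt b c).Point) = -p2 := by
    rw [pc_of_ne _ (by intro h; apply n2; linear_combination -h - g2)]; linear_combination -g2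
  have v11 : pc (.some (0) (-0 - (1 - c) * 0 + b) h11 : (Wt b c).Point) = -p1 := by
    rw [pc_of_ne _ (by intro h; apply n1; linear_combination -h - g1)]; linear_combination -g1
  refine ⟨?_, ?_, ?_, ?_, ?_, ?_, ?_, ?_, ?_, ?_, ?_⟩
  · unfold gam
    rw [prod_mz hO (by norm_num), prod_twelve]
    show dl ((1 : ℕ) • P0 c hb) ((0 : ℕ) • P0 c hb) *
      dl ((1 : ℕ) • P0 c hb) ((1 : ℕ) • P0 c hb) *
      dl ((1 : ℕ) • P0 c hb) ((2 : ℕ) • P0 c hb) *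
      dl ((1 : ℕ) • P0 c hb) ((3 : ℕ) • P0 c hb) *
      dl ((1 : ℕ) • P0 c hb) ((4 : ℕ) • P0 c hb) *
      dl ((1 : ℕ) • P0 c hb) ((5 : ℕ) • P0 c hb) *
      dl ((1 : ℕ) • P0 c hb) ((6 : ℕ) • P0 c hb) *
      dl ((1 : ℕ) • P0 c hb) ((7 : ℕ) • P0 c hb) *
      dl ((1 : ℕ) • P0 c hb) ((8 : ℕ) • P0 c hb) *
      dl ((1 : ℕ) • P0 c hb) ((9 : ℕ) • P0 c hb) *
      dl ((1 : ℕ) • P0 c hb) ((10 : ℕ) • P0 c hb) *
      dl ((1 : ℕ) • P0 c hb) ((11 : ℕ) • P0 c hb) = _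
    rw [e0, e1, e2, e3, e4, e5, e6, e7, e8, e9, e10, e11]
    simp only [dl_some, dl_zero, if_pos, if_neg h12, if_neg h12.symm, if_neg h13, if_neg h13.symm, if_neg h14, if_neg h14.symm, if_neg h15, if_neg h15.symm, if_neg h16, if_neg h16.symm, if_neg h23, if_neg h23.symm, if_neg h24, if_neg h24.symm, if_neg h25, if_neg h25.symm, if_neg h26, if_neg h26.symm, if_neg h34, if_neg h34.symm, if_neg h35, if_neg h35.symm, if_neg h36, if_neg h36.symm, if_neg h45, if_neg h45.symm, if_neg h46, if_neg h46.symm, if_neg h56, if_neg h56.symm,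
      v1, v2, v3, v4, v5, v6, v7, v8, v9, v10, v11]
    ring
  · unfold gam
    rw [prod_mz hO (by norm_num), prod_twelve]
    show dl ((2 : ℕ) • P0 c hb) ((0 : ℕ) • P0 c hb) *
      dl ((2 : ℕ) • P0 c hb) ((1 : ℕ) • P0 c hb) *
      dl ((2 : ℕ) • P0 c hb) ((2 : ℕ) • P0 c hb) *
      dl ((2 : ℕ) • P0 c hb) ((3 : ℕ) • P0 c hb) *
      dl ((2 : ℕ) • P0 c hb) ((4 : ℕ) • P0 c hb) *
      dl ((2 : ℕ) • P0 c hb) ((5 : ℕ) • P0 c hb) *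
      dl ((2 : ℕ) • P0 c hb) ((6 : ℕ) • P0 c hb) *
      dl ((2 : ℕ) • P0 c hb) ((7 : ℕ) • P0 c hb) *
      dl ((2 : ℕ) • P0 c hb) ((8 : ℕ) • P0 c hb) *
      dl ((2 : ℕ) • P0 c hb) ((9 : ℕ) • P0 c hb) *
      dl ((2 : ℕ) • P0 c hb) ((10 : ℕ) • P0 c hb) *
      dl ((2 : ℕ) • P0 c hb) ((11 : ℕ) • P0 c hb) = _
    rw [e0, e1, e2, e3, e4, e5, e6, e7, e8, e9, e10, e11]
    simp only [dl_some, dl_zero, if_pos, if_neg h12, if_neg h12.symm, if_neg h13, if_neg h13.symm, if_neg h14, if_neg h14.symm, if_neg h15, if_neg h15.symm, if_neg h16, if_neg h16.symm, if_neg h23, if_neg h23.symm, if_neg h24, if_neg h24.symm, if_neg h25, if_neg h25.symm, if_neg h26, if_neg h26.symm, if_neg h34, if_neg h34.symm, if_neg h35, if_neg h35.symm, if_neg h36, if_neg h36.symm, if_neg h45, if_neg h45.symm, if_neg h46, if_neg h46.symm, if_neg h56, if_neg h56.symm,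
      v1, v2, v3, v4, v5, v6, v7, v8, v9, v10, v11]
    ring
  · unfold gam
    rw [prod_mz hO (by norm_num), prod_twelve]
    show dl ((3 : ℕ) • P0 c hb) ((0 : ℕ) • P0 c hb) *
      dl ((3 : ℕ) • P0 c hb) ((1 : ℕ) • P0 c hb) *
      dl ((3 : ℕ) • P0 c hb) ((2 : ℕ) • P0 c hb) *
      dl ((3 : ℕ) • P0 c hb) ((3 : ℕ) • P0 c hb) *
      dl ((3 : ℕ) • P0 c hb) ((4 : ℕ) • P0 c hb) *
      dl ((3 : ℕ) • P0 c hb) ((5 : ℕ) • P0 c hb) *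
      dl ((3 : ℕ) • P0 c hb) ((6 : ℕ) • P0 c hb) *
      dl ((3 : ℕ) • P0 c hb) ((7 : ℕ) • P0 c hb) *
      dl ((3 : ℕ) • P0 c hb) ((8 : ℕ) • P0 c hb) *
      dl ((3 : ℕ) • P0 c hb) ((9 : ℕ) • P0 c hb) *
      dl ((3 : ℕ) • P0 c hb) ((10 : ℕ) • P0 c hb) *
      dl ((3 : ℕ) • P0 c hb) ((11 : ℕ) • P0 c hb) = _
    rw [e0, e1, e2, e3, e4, e5, e6, e7, e8, e9, e10, e11]
    simp only [dl_some, dl_zero, if_pos, if_neg h12, if_neg h12.symm, if_neg h13, if_neg h13.symm, if_neg h14, if_neg h14.symm, if_neg h15, if_neg h15.symm, if_neg h16, if_neg h16.symm, if_neg h23, if_neg h23.symm, if_neg h24, if_neg h24.symm, if_neg h25, if_neg h25.symm, if_neg h26, if_neg h26.symm, if_neg h34, if_neg h34.symm, if_neg h35, if_neg h35.symm, if_neg h36, if_neg h36.symm, if_neg h45, if_neg h45.symm, if_neg h46, if_neg h46.symm, if_neg h56, if_neg h56.symm,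
      v1, v2, v3, v4, v5, v6, v7, v8, v9, v10, v11]
    ring
  · unfold gam
    rw [prod_mz hO (by norm_num), prod_twelve]
    show dl ((4 : ℕ) • P0 c hb) ((0 : ℕ) • P0 c hb) *
      dl ((4 : ℕ) • P0 c hb) ((1 : ℕ) • P0 c hb) *
      dl ((4 : ℕ) • P0 c hb) ((2 : ℕ) • P0 c hb) *
      dl ((4 : ℕ) • P0 c hb) ((3 : ℕ) • P0 c hb) *
      dl ((4 : ℕ) • P0 c hb) ((4 : ℕ) • P0 c hb) *
      dl ((4 : ℕ) • P0 c hb) ((5 : ℕ) • P0 c hb) *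
      dl ((4 : ℕ) • P0 c hb) ((6 : ℕ) • P0 c hb) *
      dl ((4 : ℕ) • P0 c hb) ((7 : ℕ) • P0 c hb) *
      dl ((4 : ℕ) • P0 c hb) ((8 : ℕ) • P0 c hb) *
      dl ((4 : ℕ) • P0 c hb) ((9 : ℕ) • P0 c hb) *
      dl ((4 : ℕ) • P0 c hb) ((10 : ℕ) • P0 c hb) *
      dl ((4 : ℕ) • P0 c hb) ((11 : ℕ) • P0 c hb) = _
    rw [e0, e1, e2, e3, e4, e5, e6, e7, e8, e9, e10, e11]
    simp only [dl_some, dl_zero, if_pos, if_neg h12, if_neg h12.symm, if_neg h13, if_neg h13.symm, if_neg h14, if_neg h14.symm, if_neg h15, if_neg h15.symm, if_neg h16, if_neg h16.symm, if_neg h23, if_neg h23.symm, if_neg h24, if_neg h24.symm, if_neg h25, if_neg h25.symm, if_neg h26, if_neg h26.symm, if_neg h34, if_neg h34.symm, if_neg h35, if_neg h35.symm, if_neg h36, if_neg h36.symm, if_neg h45, if_neg h45.symm, if_neg h46, if_neg h46.symm, if_neg h56, if_neg h56.symm,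
      v1, v2, v3, v4, v5, v6, v7, v8, v9, v10, v11]
    ring
  · unfold gam
    rw [prod_mz hO (by norm_num), prod_twelve]
    show dl ((5 : ℕ) • P0 c hb) ((0 : ℕ) • P0 c hb) *
      dl ((5 : ℕ) • P0 c hb) ((1 : ℕ) • P0 c hb) *
      dl ((5 : ℕ) • P0 c hb) ((2 : ℕ) • P0 c hb) *
      dl ((5 : ℕ) • P0 c hb) ((3 : ℕ) • P0 c hb) *
      dl ((5 : ℕ) • P0 c hb) ((4 : ℕ) • P0 c hb) *
      dl ((5 : ℕ) • P0 c hb) ((5 : ℕ) • P0 c hb) *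
      dl ((5 : ℕ) • P0 c hb) ((6 : ℕ) • P0 c hb) *
      dl ((5 : ℕ) • P0 c hb) ((7 : ℕ) • P0 c hb) *
      dl ((5 : ℕ) • P0 c hb) ((8 : ℕ) • P0 c hb) *
      dl ((5 : ℕ) • P0 c hb) ((9 : ℕ) • P0 c hb) *
      dl ((5 : ℕ) • P0 c hb) ((10 : ℕ) • P0 c hb) *
      dl ((5 : ℕ) • P0 c hb) ((11 : ℕ) • P0 c hb) = _
    rw [e0, e1, e2, e3, e4, e5, e6, e7, e8, e9, e10, e11]
    simp only [dl_some, dl_zero, if_pos, if_neg h12, if_neg h12.symm, if_neg h13, if_neg h13.symm, if_neg h14, if_neg h14.symm, if_neg h15, if_neg h15.symm, if_neg h16, if_neg h16.symm, if_neg h23, if_neg h23.symm, if_neg h24, if_neg h24.symm, if_neg h25, if_neg h25.symm, if_neg h26, if_neg h26.symm, if_neg h34, if_neg h34.symm, if_neg h35, if_neg h35.symm, if_neg h36, if_neg h36.symm, if_neg h45, if_neg h45.symm, if_neg h46, if_neg h46.symm, if_neg h56, if_neg h56.symm,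
      v1, v2, v3, v4, v5, v6, v7, v8, v9, v10, v11]
    ring
  · unfold gam
    rw [prod_mz hO (by norm_num), prod_twelve]
    show dl ((6 : ℕ) • P0 c hb) ((0 : ℕ) • P0 c hb) *
      dl ((6 : ℕ) • P0 c hb) ((1 : ℕ) • P0 c hb) *
      dl ((6 : ℕ) • P0 c hb) ((2 : ℕ) • P0 c hb) *
      dl ((6 : ℕ) • P0 c hb) ((3 : ℕ) • P0 c hb) *
      dl ((6 : ℕ) • P0 c hb) ((4 : ℕ) • P0 c hb) *
      dl ((6 : ℕ) • P0 c hb) ((5 : ℕ) • P0 c hb) *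
      dl ((6 : ℕ) • P0 c hb) ((6 : ℕ) • P0 c hb) *
      dl ((6 : ℕ) • P0 c hb) ((7 : ℕ) • P0 c hb) *
      dl ((6 : ℕ) • P0 c hb) ((8 : ℕ) • P0 c hb) *
      dl ((6 : ℕ) • P0 c hb) ((9 : ℕ) • P0 c hb) *
      dl ((6 : ℕ) • P0 c hb) ((10 : ℕ) • P0 c hb) *
      dl ((6 : ℕ) • P0 c hb) ((11 : ℕ) • P0 c hb) = _
    rw [e0, e1, e2, e3, e4, e5, e6, e7, e8, e9, e10, e11]
    simp only [dl_some, dl_zero, if_pos, if_neg h12, if_neg h12.symm, if_neg h13, if_neg h13.symm, if_neg h14, if_neg h14.symm, if_neg h15, if_neg h15.symm, if_neg h16, if_neg h16.symm, if_neg h23, if_neg h23.symm, if_neg h24, if_neg h24.symm, if_neg h25, if_neg h25.symm, if_neg h26, if_neg h26.symm, if_neg h34, if_neg h34.symm, if_neg h35, if_neg h35.symm, if_neg h36, if_neg h36.symm, if_neg h45, if_neg h45.symm, if_neg h46, if_neg h46.symm, if_neg h56, if_neg h56.symm,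
      v1, v2, v3, v4, v5, v6, v7, v8, v9, v10, v11]
    ring
  · unfold gam
    rw [prod_mz hO (by norm_num), prod_twelve]
    show dl ((7 : ℕ) • P0 c hb) ((0 : ℕ) • P0 c hb) *
      dl ((7 : ℕ) • P0 c hb) ((1 : ℕ) • P0 c hb) *
      dl ((7 : ℕ) • P0 c hb) ((2 : ℕ) • P0 c hb) *
      dl ((7 : ℕ) • P0 c hb) ((3 : ℕ) • P0 c hb) *
      dl ((7 : ℕ) • P0 c hb) ((4 : ℕ) • P0 c hb) *
      dl ((7 : ℕ) • P0 c hb) ((5 : ℕ) • P0 c hb) *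
      dl ((7 : ℕ) • P0 c hb) ((6 : ℕ) • P0 c hb) *
      dl ((7 : ℕ) • P0 c hb) ((7 : ℕ) • P0 c hb) *
      dl ((7 : ℕ) • P0 c hb) ((8 : ℕ) • P0 c hb) *
      dl ((7 : ℕ) • P0 c hb) ((9 : ℕ) • P0 c hb) *
      dl ((7 : ℕ) • P0 c hb) ((10 : ℕ) • P0 c hb) *
      dl ((7 : ℕ) • P0 c hb) ((11 : ℕ) • P0 c hb) = _
    rw [e0, e1, e2, e3, e4, e5, e6, e7, e8, e9, e10, e11]
    simp only [dl_some, dl_zero, if_pos, if_neg h12, if_neg h12.symm, if_neg h13, if_neg h13.symm, if_neg h14, if_neg h14.symm, if_neg h15, if_neg h15.symm, if_neg h16, if_neg h16.symm, if_neg h23, if_neg h23.symm, if_neg h24, if_neg h24.symm, if_neg h25, if_neg h25.symm, if_neg h26, if_neg h26.symm, if_neg h34, if_neg h34.symm, if_neg h35, if_neg h35.symm, if_neg h36, if_neg h36.symm, if_neg h45, if_neg h45.symm, if_neg h46, if_neg h46.symm, if_neg h56, if_neg h56.symm,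
      v1, v2, v3, v4, v5, v6, v7, v8, v9, v10, v11]
    ring
  · unfold gam
    rw [prod_mz hO (by norm_num), prod_twelve]
    show dl ((8 : ℕ) • P0 c hb) ((0 : ℕ) • P0 c hb) *
      dl ((8 : ℕ) • P0 c hb) ((1 : ℕ) • P0 c hb) *
      dl ((8 : ℕ) • P0 c hb) ((2 : ℕ) • P0 c hb) *
      dl ((8 : ℕ) • P0 c hb) ((3 : ℕ) • P0 c hb) *
      dl ((8 : ℕ) • P0 c hb) ((4 : ℕ) • P0 c hb) *
      dl ((8 : ℕ) • P0 c hb) ((5 : ℕ) • P0 c hb) *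
      dl ((8 : ℕ) • P0 c hb) ((6 : ℕ) • P0 c hb) *
      dl ((8 : ℕ) • P0 c hb) ((7 : ℕ) • P0 c hb) *
      dl ((8 : ℕ) • P0 c hb) ((8 : ℕ) • P0 c hb) *
      dl ((8 : ℕ) • P0 c hb) ((9 : ℕ) • P0 c hb) *
      dl ((8 : ℕ) • P0 c hb) ((10 : ℕ) • P0 c hb) *
      dl ((8 : ℕ) • P0 c hb) ((11 : ℕ) • P0 c hb) = _
    rw [e0, e1, e2, e3, e4, e5, e6, e7, e8, e9, e10, e11]
    simp only [dl_some, dl_zero, if_pos, if_neg h12, if_neg h12.symm, if_neg h13, if_neg h13.symm, if_neg h14, if_neg h14.symm, if_neg h15, if_neg h15.symm, if_neg h16, if_neg h16.symm, if_neg h23, if_neg h23.symm, if_neg h24, if_neg h24.symm, if_neg h25, if_neg h25.symm, if_neg h26, if_neg h26.symm, if_neg h34, if_neg h34.symm, if_neg h35, if_neg h35.symm, if_neg h36, if_neg h36.symm, if_neg h45, if_neg h45.symm, if_neg h46, if_neg h46.symm, if_neg h56, if_neg h56.symm,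
      v1, v2, v3, v4, v5, v6, v7, v8, v9, v10, v11]
    ring
  · unfold gam
    rw [prod_mz hO (by norm_num), prod_twelve]
    show dl ((9 : ℕ) • P0 c hb) ((0 : ℕ) • P0 c hb) *
      dl ((9 : ℕ) • P0 c hb) ((1 : ℕ) • P0 c hb) *
      dl ((9 : ℕ) • P0 c hb) ((2 : ℕ) • P0 c hb) *
      dl ((9 : ℕ) • P0 c hb) ((3 : ℕ) • P0 c hb) *
      dl ((9 : ℕ) • P0 c hb) ((4 : ℕ) • P0 c hb) *
      dl ((9 : ℕ) • P0 c hb) ((5 : ℕ) • P0 c hb) *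
      dl ((9 : ℕ) • P0 c hb) ((6 : ℕ) • P0 c hb) *
      dl ((9 : ℕ) • P0 c hb) ((7 : ℕ) • P0 c hb) *
      dl ((9 : ℕ) • P0 c hb) ((8 : ℕ) • P0 c hb) *
      dl ((9 : ℕ) • P0 c hb) ((9 : ℕ) • P0 c hb) *
      dl ((9 : ℕ) • P0 c hb) ((10 : ℕ) • P0 c hb) *
      dl ((9 : ℕ) • P0 c hb) ((11 : ℕ) • P0 c hb) = _
    rw [e0, e1, e2, e3, e4, e5, e6, e7, e8, e9, e10, e11]
    simp only [dl_some, dl_zero, if_pos, if_neg h12, if_neg h12.symm, if_neg h13, if_neg h13.symm, if_neg h14, if_neg h14.symm, if_neg h15, if_neg h15.symm, if_neg h16, if_neg h16.symm, if_neg h23, if_neg h23.symm, if_neg h24, if_neg h24.symm, if_neg h25, if_neg h25.symm, if_neg h26, if_neg h26.symm, if_neg h34, if_neg h34.symm, if_neg h35, if_neg h35.symm, if_neg h36, if_neg h36.symm, if_neg h45, if_neg h45.symm, if_neg h46, if_neg h46.symm, if_neg h56, if_neg h56.symm,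
      v1, v2, v3, v4, v5, v6, v7, v8, v9, v10, v11]
    ring
  · unfold gam
    rw [prod_mz hO (by norm_num), prod_twelve]
    show dl ((10 : ℕ) • P0 c hb) ((0 : ℕ) • P0 c hb) *
      dl ((10 : ℕ) • P0 c hb) ((1 : ℕ) • P0 c hb) *
      dl ((10 : ℕ) • P0 c hb) ((2 : ℕ) • P0 c hb) *
      dl ((10 : ℕ) • P0 c hb) ((3 : ℕ) • P0 c hb) *
      dl ((10 : ℕ) • P0 c hb) ((4 : ℕ) • P0 c hb) *
      dl ((10 : ℕ) • P0 c hb) ((5 : ℕ) • P0 c hb) *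
      dl ((10 : ℕ) • P0 c hb) ((6 : ℕ) • P0 c hb) *
      dl ((10 : ℕ) • P0 c hb) ((7 : ℕ) • P0 c hb) *
      dl ((10 : ℕ) • P0 c hb) ((8 : ℕ) • P0 c hb) *
      dl ((10 : ℕ) • P0 c hb) ((9 : ℕ) • P0 c hb) *
      dl ((10 : ℕ) • P0 c hb) ((10 : ℕ) • P0 c hb) *
      dl ((10 : ℕ) • P0 c hb) ((11 : ℕ) • P0 c hb) = _
    rw [e0, e1, e2, e3, e4, e5, e6, e7, e8, e9, e10, e11]
    simp only [dl_some, dl_zero, if_pos, if_neg h12, if_neg h12.symm, if_neg h13, if_neg h13.symm, if_neg h14, if_neg h14.symm, if_neg h15, if_neg h15.symm, if_neg h16, if_neg h16.symm, if_neg h23, if_neg h23.symm, if_neg h24, if_neg h24.symm, if_neg h25, if_neg h25.symm, if_neg h26, if_neg h26.symm, if_neg h34, if_neg h34.symm, if_neg h35, if_neg h35.symm, if_neg h36, if_neg h36.symm, if_neg h45, if_neg h45.symm, if_neg h46, if_neg h46.symm, if_neg h56, if_neg h56.symm,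
      v1, v2, v3, v4, v5, v6, v7, v8, v9, v10, v11]
    ring
  · unfold gam
    rw [prod_mz hO (by norm_num), prod_twelve]
    show dl ((11 : ℕ) • P0 c hb) ((0 : ℕ) • P0 c hb) *
      dl ((11 : ℕ) • P0 c hb) ((1 : ℕ) • P0 c hb) *
      dl ((11 : ℕ) • P0 c hb) ((2 : ℕ) • P0 c hb) *
      dl ((11 : ℕ) • P0 c hb) ((3 : ℕ) • P0 c hb) *
      dl ((11 : ℕ) • P0 c hb) ((4 : ℕ) • P0 c hb) *
      dl ((11 : ℕ) • P0 c hb) ((5 : ℕ) • P0 c hb) *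
      dl ((11 : ℕ) • P0 c hb) ((6 : ℕ) • P0 c hb) *
      dl ((11 : ℕ) • P0 c hb) ((7 : ℕ) • P0 c hb) *
      dl ((11 : ℕ) • P0 c hb) ((8 : ℕ) • P0 c hb) *
      dl ((11 : ℕ) • P0 c hb) ((9 : ℕ) • P0 c hb) *
      dl ((11 : ℕ) • P0 c hb) ((10 : ℕ) • P0 c hb) *
      dl ((11 : ℕ) • P0 c hb) ((11 : ℕ) • P0 c hb) = _
    rw [e0, e1, e2, e3, e4, e5, e6, e7, e8, e9, e10, e11]
    simp only [dl_some, dl_zero, if_pos, if_neg h12, if_neg h12.symm, if_neg h13, if_neg h13.symm, if_neg h14, if_neg h14.symm, if_neg h15, if_neg h15.symm, if_neg h16, if_neg h16.symm, if_neg h23, if_neg h23.symm, if_neg h24, if_neg h24.symm, if_neg h25, if_neg h25.symm, if_neg h26, if_neg h26.symm, if_neg h34, if_neg h34.symm, if_neg h35, if_neg h35.symm, if_neg h36, if_neg h36.symm, if_neg h45, if_neg h45.symm, if_neg h46, if_neg h46.symm, if_neg h56, if_neg h56.symm,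
      v1, v2, v3, v4, v5, v6, v7, v8, v9, v10, v11]
    ring

end Pool.Agent.GK
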