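import Pool.Agent.Lib_helper87.FAM.Siegel12a

/-!
# The Siegel numbers of the multiples of a point of order twelve
-/

set_option autoImplicit false
set_option linter.unusedSectionVars false
set_option linter.unusedSimpArgs false
set_option linter.unusedVariables false
set_option linter.unreachableTactic false
set_option linter.unusedTactic false

namespace Pool.Agent.GK

open WeierstrassCurve.Affine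
open K4M (dx ps pc ph)
open Pool.Agent.TN (Wt)
open Pool.Agent.UEG (P0 two_P0 three_P0 four_P0 five_P0 six_P0 negY_wt)

variable {k : Type*} [Field k] [DecidableEq k] {b c : k}

/-- the square of a product -/
lemma sqm12 (p a b c d h : k) :
    -(p ^ 2 * a ^ 2 * b ^ 2 * c ^ 2 * d ^ 2 * h) * -(p ^ 2 * a ^ 2 * b ^ 2 * c ^ 2 * d ^ 2 * h) =
      (p * p) ^ 2 * (a * a) ^ 2 * (b * b) ^ 2 * (c * c) ^ 2 * (d * d) ^ 2 * (h * h) := by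
  ring

/-- the square of a product -/
lemma sqm12' (p a b c d h : k) :
    -(p * a ^ 2 * b ^ 2 * c ^ 2 * d ^ 2 * h ^ 2) * -(p * a ^ 2 * b ^ 2 * c ^ 2 * d ^ 2 * h ^ 2) =
      p * p * (a * a) ^ 2 * (b * b) ^ 2 * (c * c) ^ 2 * (d * d) ^ 2 * (h * h) ^ 2 := by
  ring

/-- the Siegel numbers for a point of order twelve are independent -/
theorem siegel12_core (hb : b ≠ 0) {x2 x3 x4 x5 x6 y2 y3 y4 y5 y6 p1 p2 p3 p4 p5 p6 t0 t1 t2 t3 t4 : k}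
    (q2 : ∃ h, (2 : ℕ) • P0 c hb = .some x2 y2 h)
    (q3 : ∃ h, (3 : ℕ) • P0 c hb = .some x3 y3 h)
    (q4 : ∃ h, (4 : ℕ) • P0 c hb = .some x4 y4 h)
    (q5 : ∃ h, (5 : ℕ) • P0 c hb = .some x5 y5 h)
    (q6 : ∃ h, (6 : ℕ) • P0 c hb = .some x6 y6 h)
    (g1 : 2 * 0 + (1 - c) * 0 - b = p1) (n1 : p1 ≠ 0)
    (g2 : 2 * y2 + (1 - c) * x2 - b = p2) (n2 : p2 ≠ 0)
    (g3 : 2 * y3 + (1 - c) * x3 - b = p3) (n3 : p3 ≠ 0)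
    (g4 : 2 * y4 + (1 - c) * x4 - b = p4) (n4 : p4 ≠ 0)
    (g5 : 2 * y5 + (1 - c) * x5 - b = p5) (n5 : p5 ≠ 0)
    (g6 : 2 * y6 + (1 - c) * x6 - b = 0)
    (k6 : 3 * x6 ^ 2 - 2 * b * x6 - (1 - c) * y6 = p6)
    (h12 : 0 ≠ x2)
    (h13 : 0 ≠ x3)
    (h14 : 0 ≠ x4)
    (h15 : 0 ≠ x5)
    (h16 : 0 ≠ x6)
    (h23 : x2 ≠ x3)
    (h24 : x2 ≠ x4)
    (h25 : x2 ≠ x5)
    (h26 : x2 ≠ x6)
    (h34 : x3 ≠ x4)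
    (h35 : x3 ≠ x5)
    (h36 : x3 ≠ x6)
    (h45 : x4 ≠ x5)
    (h46 : x4 ≠ x6)
    (h56 : x5 ≠ x6)
    (hO : addOrderOf (P0 c hb) = 12) [Fintype (AddSubgroup.zmultiples (P0 c hb))]
    (ht0 : t0 ≠ 0) (ht1 : t1 ≠ 0) (ht2 : t2 ≠ 0) (ht3 : t3 ≠ 0) (ht4 : t4 ≠ 0) (nh : p6 ≠ 0)
    (s1 : p1 * p1 = mo5 t0 t1 t2 t3 t4 2 (-8) 2 2 2)
    (s2 : p2 * p2 = mo5 t0 t1 t2 t3 t4 4 (-14) 4 2 4)
    (s3 : p3 * p3 = mo5 t0 t1 t2 t3 t4 6 (-12) 6 0 2)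
    (s4 : p4 * p4 = mo5 t0 t1 t2 t3 t4 8 (-10) 4 2 0)
    (s5 : p5 * p5 = mo5 t0 t1 t2 t3 t4 10 (-16) 2 2 2)
    (s6 : p6 * p6 = mo5 t0 t1 t2 t3 t4 12 (-12) 0 0 4)
    (s12 : (0 - x2) * (0 - x2) = mo5 t0 t1 t2 t3 t4 2 (-8) 2 2 2)
    (s13 : (0 - x3) * (0 - x3) = mo5 t0 t1 t2 t3 t4 2 (-6) 2 0 2)
    (s14 : (0 - x4) * (0 - x4) = mo5 t0 t1 t2 t3 t4 2 (-4) 2 2 0)
    (s15 : (0 - x5) * (0 - x5) = mo5 t0 t1 t2 t3 t4 2 (-10) 2 2 2)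
    (s16 : (0 - x6) * (0 - x6) = mo5 t0 t1 t2 t3 t4 2 (-2) 0 0 2)
    (s23 : (x2 - x3) * (x2 - x3) = mo5 t0 t1 t2 t3 t4 4 (-8) 4 0 2)
    (s24 : (x2 - x4) * (x2 - x4) = mo5 t0 t1 t2 t3 t4 4 (-8) 4 2 0)
    (s25 : (x2 - x5) * (x2 - x5) = mo5 t0 t1 t2 t3 t4 4 (-10) 2 2 2)
    (s26 : (x2 - x6) * (x2 - x6) = mo5 t0 t1 t2 t3 t4 4 (-8) 0 0 4)
    (s34 : (x3 - x4) * (x3 - x4) = mo5 t0 t1 t2 t3 t4 6 (-6) 4 0 0)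
    (s35 : (x3 - x5) * (x3 - x5) = mo5 t0 t1 t2 t3 t4 6 (-10) 2 0 2)
    (s36 : (x3 - x6) * (x3 - x6) = mo5 t0 t1 t2 t3 t4 6 (-6) 0 0 2)
    (s45 : (x4 - x5) * (x4 - x5) = mo5 t0 t1 t2 t3 t4 8 (-10) 2 2 0)
    (s46 : (x4 - x6) * (x4 - x6) = mo5 t0 t1 t2 t3 t4 8 (-4) 0 0 0)
    (s56 : (x5 - x6) * (x5 - x6) = mo5 t0 t1 t2 t3 t4 10 (-10) 0 0 2)
    (hind : ∀ l m n o p : ℤ, mo5 t0 t1 t2 t3 t4 (2 * l) (2 * m) (2 * n) (2 * o) (2 * p) = 1 →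
      l = 0 ∧ m = 0 ∧ n = 0 ∧ o = 0 ∧ p = 0) :
    SiegelIndep (AddSubgroup.zmultiples (P0 c hb)) := by
  intro e e0 ee es ep
  obtain ⟨G1, G2, G3, G4, G5, G6, G7, G8, G9, G10, G11⟩ := gam12 hb q2 q3 q4 q5 q6
    g1 n1 g2 n2 g3 n3 g4 n4 g5 n5 g6 k6
    h12 h13 h14 h15 h16 h23 h24 h25 h26 h34 h35 h36 h45 h46 h56 hO
  rw [prod_mz hO (by norm_num), prod_twelve] at ep
  rw [sum_mz hO (by norm_num), sum_twelve] at es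
  have v1 : e (mz _ 12 11) = e (mz _ 12 1) := even_mz hO ee (by decide)
  have v2 : e (mz _ 12 10) = e (mz _ 12 2) := even_mz hO ee (by decide)
  have v3 : e (mz _ 12 9) = e (mz _ 12 3) := even_mz hO ee (by decide)
  have v4 : e (mz _ 12 8) = e (mz _ 12 4) := even_mz hO ee (by decide)
  have v5 : e (mz _ 12 7) = e (mz _ 12 5) := even_mz hO ee (by decide)
  have v0 : e (mz (P0 c hb) 12 0) = 0 := by rw [zero_mz, e0]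
  set X1 := e (mz _ 12 1) with hX1
  set X2 := e (mz _ 12 2) with hX2
  set X3 := e (mz _ 12 3) with hX3
  set X4 := e (mz _ 12 4) with hX4
  set X5 := e (mz _ 12 5) with hX5
  set X6 := e (mz _ 12 6) with hX6
  rw [v0, v1, v2, v3, v4, v5] at es ep
  rw [G1, G2, G3, G4, G5, G6, G7, G8, G9, G10, G11, zpow_zero, one_mul] at ep
  have E1 : -(p1 ^ 2 * (0 - x2) ^ 2 * (0 - x3) ^ 2 * (0 - x4) ^ 2 * (0 - x5) ^ 2 * (0 - x6)) * -(p1 ^ 2 * (0 - x2) ^ 2 * (0 - x3) ^ 2 * (0 - x4) ^ 2 * (0 - x5) ^ 2 * (0 - x6)) = mo5 t0 t1 t2 t3 t4 22 (-74) 20 16 18 := by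
    calc _ = (p1 * p1) ^ 2 * ((0 - x2) * (0 - x2)) ^ 2 * ((0 - x3) * (0 - x3)) ^ 2 * ((0 - x4) * (0 - x4)) ^ 2 * ((0 - x5) * (0 - x5)) ^ 2 * ((0 - x6) * (0 - x6)) := sqm12 _ _ _ _ _ _
      _ = _ := by
        rw [s1, s12, s13, s14, s15, s16]
        simp only [mo5_sq ht0 ht1 ht2 ht3 ht4, mo5_mul ht0 ht1 ht2 ht3 ht4]
        norm_num
  have E2 : -(p2 ^ 2 * (x2 - 0) ^ 2 * (x2 - x3) ^ 2 * (x2 - x4) ^ 2 * (x2 - x5) ^ 2 * (x2 - x6)) * -(p2 ^ 2 * (x2 - 0) ^ 2 * (x2 - x3) ^ 2 * (x2 - x4) ^ 2 * (x2 - x5) ^ 2 * (x2 - x6)) = mo5 t0 t1 t2 t3 t4 40 (-104) 32 16 24 := by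
    calc _ = (p2 * p2) ^ 2 * ((x2 - 0) * (x2 - 0)) ^ 2 * ((x2 - x3) * (x2 - x3)) ^ 2 * ((x2 - x4) * (x2 - x4)) ^ 2 * ((x2 - x5) * (x2 - x5)) ^ 2 * ((x2 - x6) * (x2 - x6)) := sqm12 _ _ _ _ _ _
      _ = _ := by
        rw [show (x2 - 0) * (x2 - 0) = (0 - x2) * (0 - x2) by ring, s2, s12, s23, s24, s25, s26]
        simp only [mo5_sq ht0 ht1 ht2 ht3 ht4, mo5_mul ht0 ht1 ht2 ht3 ht4]
        norm_num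
  have E3 : -(p3 ^ 2 * (x3 - 0) ^ 2 * (x3 - x2) ^ 2 * (x3 - x4) ^ 2 * (x3 - x5) ^ 2 * (x3 - x6)) * -(p3 ^ 2 * (x3 - 0) ^ 2 * (x3 - x2) ^ 2 * (x3 - x4) ^ 2 * (x3 - x5) ^ 2 * (x3 - x6)) = mo5 t0 t1 t2 t3 t4 54 (-90) 36 0 18 := by
    calc _ = (p3 * p3) ^ 2 * ((x3 - 0) * (x3 - 0)) ^ 2 * ((x3 - x2) * (x3 - x2)) ^ 2 * ((x3 - x4) * (x3 - x4)) ^ 2 * ((x3 - x5) * (x3 - x5)) ^ 2 * ((x3 - x6) * (x3 - x6)) := sqm12 _ _ _ _ _ _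
      _ = _ := by
        rw [show (x3 - 0) * (x3 - 0) = (0 - x3) * (0 - x3) by ring, show (x3 - x2) * (x3 - x2) = (x2 - x3) * (x2 - x3) by ring, s3, s13, s23, s34, s35, s36]
        simp only [mo5_sq ht0 ht1 ht2 ht3 ht4, mo5_mul ht0 ht1 ht2 ht3 ht4]
        norm_num
  have E4 : -(p4 ^ 2 * (x4 - 0) ^ 2 * (x4 - x2) ^ 2 * (x4 - x3) ^ 2 * (x4 - x5) ^ 2 * (x4 - x6)) * -(p4 ^ 2 * (x4 - 0) ^ 2 * (x4 - x2) ^ 2 * (x4 - x3) ^ 2 * (x4 - x5) ^ 2 * (x4 - x6)) = mo5 t0 t1 t2 t3 t4 64 (-80) 32 16 0 := by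
    calc _ = (p4 * p4) ^ 2 * ((x4 - 0) * (x4 - 0)) ^ 2 * ((x4 - x2) * (x4 - x2)) ^ 2 * ((x4 - x3) * (x4 - x3)) ^ 2 * ((x4 - x5) * (x4 - x5)) ^ 2 * ((x4 - x6) * (x4 - x6)) := sqm12 _ _ _ _ _ _
      _ = _ := by
        rw [show (x4 - 0) * (x4 - 0) = (0 - x4) * (0 - x4) by ring, show (x4 - x2) * (x4 - x2) = (x2 - x4) * (x2 - x4) by ring, show (x4 - x3) * (x4 - x3) = (x3 - x4) * (x3 - x4) by ring, s4, s14, s24, s34, s45, s46]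
        simp only [mo5_sq ht0 ht1 ht2 ht3 ht4, mo5_mul ht0 ht1 ht2 ht3 ht4]
        norm_num
  have E5 : -(p5 ^ 2 * (x5 - 0) ^ 2 * (x5 - x2) ^ 2 * (x5 - x3) ^ 2 * (x5 - x4) ^ 2 * (x5 - x6)) * -(p5 ^ 2 * (x5 - 0) ^ 2 * (x5 - x2) ^ 2 * (x5 - x3) ^ 2 * (x5 - x4) ^ 2 * (x5 - x6)) = mo5 t0 t1 t2 t3 t4 70 (-122) 20 16 18 := by
    calc _ = (p5 * p5) ^ 2 * ((x5 - 0) * (x5 - 0)) ^ 2 * ((x5 - x2) * (x5 - x2)) ^ 2 * ((x5 - x3) * (x5 - x3)) ^ 2 * ((x5 - x4) * (x5 - x4)) ^ 2 * ((x5 - x6) * (x5 - x6)) := sqm12 _ _ _ _ _ _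
      _ = _ := by
        rw [show (x5 - 0) * (x5 - 0) = (0 - x5) * (0 - x5) by ring, show (x5 - x2) * (x5 - x2) = (x2 - x5) * (x2 - x5) by ring, show (x5 - x3) * (x5 - x3) = (x3 - x5) * (x3 - x5) by ring, show (x5 - x4) * (x5 - x4) = (x4 - x5) * (x4 - x5) by ring, s5, s15, s25, s35, s45, s56]
        simp only [mo5_sq ht0 ht1 ht2 ht3 ht4, mo5_mul ht0 ht1 ht2 ht3 ht4]
        norm_num
  have E6 : -(p6 * (x6 - 0) ^ 2 * (x6 - x2) ^ 2 * (x6 - x3) ^ 2 * (x6 - x4) ^ 2 * (x6 - x5) ^ 2) * -(p6 * (x6 - 0) ^ 2 * (x6 - x2) ^ 2 * (x6 - x3) ^ 2 * (x6 - x4) ^ 2 * (x6 - x5) ^ 2) = mo5 t0 t1 t2 t3 t4 72 (-72) 0 0 24 := by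
    calc _ = (p6 * p6) * ((x6 - 0) * (x6 - 0)) ^ 2 * ((x6 - x2) * (x6 - x2)) ^ 2 * ((x6 - x3) * (x6 - x3)) ^ 2 * ((x6 - x4) * (x6 - x4)) ^ 2 * ((x6 - x5) * (x6 - x5)) ^ 2 := sqm12' _ _ _ _ _ _
      _ = _ := by
        rw [show (x6 - 0) * (x6 - 0) = (0 - x6) * (0 - x6) by ring, show (x6 - x2) * (x6 - x2) = (x2 - x6) * (x2 - x6) by ring, show (x6 - x3) * (x6 - x3) = (x3 - x6) * (x3 - x6) by ring, show (x6 - x4) * (x6 - x4) = (x4 - x6) * (x4 - x6) by ring, show (x6 - x5) * (x6 - x5) = (x5 - x6) * (x5 - x6) by ring, s6, s16, s26, s36, s46, s56]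
        simp only [mo5_sq ht0 ht1 ht2 ht3 ht4, mo5_mul ht0 ht1 ht2 ht3 ht4]
        norm_num
  have hH : -(p6 * (x6 - 0) ^ 2 * (x6 - x2) ^ 2 * (x6 - x3) ^ 2 * (x6 - x4) ^ 2 * (x6 - x5) ^ 2) ≠ 0 := by
    refine neg_ne_zero.mpr ?_
    refine mul_ne_zero (mul_ne_zero (mul_ne_zero (mul_ne_zero (mul_ne_zero (nh) (pow_ne_zero 2 (sub_ne_zero.mpr h16.symm))) (pow_ne_zero 2 (sub_ne_zero.mpr h26.symm))) (pow_ne_zero 2 (sub_ne_zero.mpr h36.symm))) (pow_ne_zero 2 (sub_ne_zero.mpr h46.symm))) (pow_ne_zero 2 (sub_ne_zero.mpr h56.symm))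
  generalize -(p1 ^ 2 * (0 - x2) ^ 2 * (0 - x3) ^ 2 * (0 - x4) ^ 2 * (0 - x5) ^ 2 * (0 - x6)) = H1 at ep E1
  generalize -(p2 ^ 2 * (x2 - 0) ^ 2 * (x2 - x3) ^ 2 * (x2 - x4) ^ 2 * (x2 - x5) ^ 2 * (x2 - x6)) = H2 at ep E2
  generalize -(p3 ^ 2 * (x3 - 0) ^ 2 * (x3 - x2) ^ 2 * (x3 - x4) ^ 2 * (x3 - x5) ^ 2 * (x3 - x6)) = H3 at ep E3
  generalize -(p4 ^ 2 * (x4 - 0) ^ 2 * (x4 - x2) ^ 2 * (x4 - x3) ^ 2 * (x4 - x5) ^ 2 * (x4 - x6)) = H4 at ep E4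
  generalize -(p5 ^ 2 * (x5 - 0) ^ 2 * (x5 - x2) ^ 2 * (x5 - x3) ^ 2 * (x5 - x4) ^ 2 * (x5 - x6)) = H5 at ep E5
  generalize -(p6 * (x6 - 0) ^ 2 * (x6 - x2) ^ 2 * (x6 - x3) ^ 2 * (x6 - x4) ^ 2 * (x6 - x5) ^ 2) = H6 at ep E6 hH
  have hy : X6 = 2 * (-X1 - X2 - X3 - X4 - X5) := by omega
  rw [half H6 hH hy] at ep
  have F : (H1 * H1) ^ X1 * (H2 * H2) ^ X2 * (H3 * H3) ^ X3 * (H4 * H4) ^ X4 * (H5 * H5) ^ X5 * (H6 * H6) ^ (-X1 - X2 - X3 - X4 - X5) = 1 := by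
    simp only [mul_zpow]
    rw [← ep]
    ring
  rw [E1, E2, E3, E4, E5, E6] at F
  simp only [mo5_zpow, mo5_mul ht0 ht1 ht2 ht3 ht4] at F
  have K := hind (11 * X1 + 20 * X2 + 27 * X3 + 32 * X4 + 35 * X5 + 36 * (-X1 - X2 - X3 - X4 - X5)) ((-37) * X1 + (-52) * X2 + (-45) * X3 + (-40) * X4 + (-61) * X5 + (-36) * (-X1 - X2 - X3 - X4 - X5)) (10 * X1 + 16 * X2 + 18 * X3 + 16 * X4 + 10 * X5 + 0 * (-X1 - X2 - X3 - X4 - X5)) (8 * X1 + 8 * X2 + 0 * X3 + 8 * X4 + 8 * X5 + 0 * (-X1 - X2 - X3 - X4 - X5)) (9 * X1 + 12 * X2 + 9 * X3 + 0 * X4 + 9 * X5 + 12 * (-X1 - X2 - X3 - X4 - X5)) (by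
    rw [← F]; congr 1 <;> ring)
  obtain ⟨K0, K1, K2, K3, K4⟩ := K
  have z1 : X1 = 0 := by omega
  have z2 : X2 = 0 := by omega
  have z3 : X3 = 0 := by omega
  have z4 : X4 = 0 := by omega
  have z5 : X5 = 0 := by omega
  have z6 : X6 = 0 := by omega
  funext a
  obtain ⟨i, rfl⟩ := (mz_bij hO (by norm_num)).2 a
  show e _ = 0
  fin_cases i
  · exact v0
  · exact z1
  · exact z2
  · exact z3
  · exact z4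
  · exact z5
  · exact z6
  · exact v5.trans z5
  · exact v4.trans z4
  · exact v3.trans z3
  · exact v2.trans z2
  · exact v1.trans z1

end Pool.Agent.GK
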