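import Pool.Agent.Lib_helper87.FAM.TwelveS
import Pool.Agent.Lib_helper40.MC.P

set_option autoImplicit false
set_option linter.unusedSectionVars false

/-!
# The special curve with a point of order twelve and `t = 2/3`: the clause `Line`
-/

open scoped TensorProduct WithZero

namespace Pool.Agent.FK4

open Pool.Agent.MK4 WeierstrassCurve.Affine Pool.Agent.KC72 Pool.Agent.MC
open Pool.Agent.TN (Wt Gen)
open Pool.Agent.UEG (P0)

variable {k : Type*} [Field k] [DecidableEq k] [CharZero k] {W : WeierstrassCurve.Affine k}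
  {F : Type*} [Field F] [Algebra k F] {X Y : F}

/-- the clause `Line` for a point of order twelve, from a modular certificate -/
theorem line12r (hg : Generic W X Y) {P : W.Point} {t : k} (ht : t ≠ 0) (h1 : 1 - t ≠ 0)
    (h2 : 2 * t - 1 ≠ 0) (hv : 2 * t ^ 2 - 2 * t + 1 ≠ 0) (hw : 3 * t ^ 2 - 3 * t + 1 ≠ 0)
    {hb : UE12.bb t ≠ 0} {x y : F} (hO : addOrderOf (P0 (UE12.cc t) hb) = 12)
    (h : Generic (Wt (UE12.bb t) (UE12.cc t)) x y)
    (hS : Same (AddSubgroup.zmultiples P) X Y (AddSubgroup.zmultiples (P0 (UE12.cc t) hb)) x y)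
    {R : RCert} {L' : List Tm} (hR : ROkX R [L']) {n : ℕ} (hn : R.n = n) (hr : R.r = 11)
    {cls : List (Mo × Mo)} (hcl : sameC R.cls cls = true) {G : Fin n → F} (h11 : 11 ≤ n)
    (hG : ∀ j : Fin 11, G (Fin.castLE h11 j) = UE12B.uF t x y j)
    (hk : ∀ i : Fin n, 11 ≤ i.val → ∃ c : k, c ≠ 0 ∧ G i = algebraMap k F c)
    (hc : ∀ e : Fin n → ℤ, (∀ i : Fin n, i.val < 11 → e i = 0) → ∏ i, G i ^ e i = 1 → e = 0)
    (hs : Sols (List.ofFn G) cls)
    (hU : ∀ f : F,
      (∃ (c : k) (n : Fin 11 → ℤ), c ≠ 0 ∧ f = algebraMap k F c * ∏ j, UE12B.uF t x y j ^ n j) →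
      (∃ (c : k) (n : Fin 11 → ℤ), c ≠ 0 ∧
        1 - f = algebraMap k F c * ∏ j, UE12B.uF t x y j ^ n j) →
      (∃ c : k, f = algebraMap k F c) ∨ ∃ p ∈ cls, TN.Orb (ev (List.ofFn G) p.1) f)
    {L : List Tm} (hL : okT n cls L = true) (hD : chkD n cls L = true)
    (hLL : L.map (fun t => (oo cls (t.c, t.s), t.u)) = L'.map (fun t => (oo R.cls (t.c, t.s), t.u)))
    {ξ : HK F} (hξ : ξ = KC72.zt (List.ofFn G) cls L)
    (hun : Unram k ξ) (hnz : RegNonZero k X Y ξ) : Line P X Y := by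
  have hs12 := supp12 ht h1 h2 hv hw hO h
  refine line_rcert hg hS hR (n := n) (r := 11) hn hr hcl (G := G) h11
    ?_ ?_ ?_ hc hs (fun f h1 h2 => hU f ((hs12 f).mp h1) ((hs12 _).mp h2)) hL hD hLL hξ hun hnz
  · intro i
    by_cases hi : i.val < 11
    · have e : G i = UE12B.uF t x y ⟨i.val, hi⟩ := by rw [← hG]; rfl
      rw [e, hs12]
      refine ⟨1, Pi.single ⟨i.val, hi⟩ 1, one_ne_zero, ?_⟩
      rw [map_one, one_mul, Finset.prod_eq_single (⟨i.val, hi⟩ : Fin 11)]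
      · rw [Pi.single_eq_same, zpow_one]
      · intro j _ hj
        rw [Pi.single_eq_of_ne hj, zpow_zero]
      · intro hj; exact absurd (Finset.mem_univ _) hj
    · obtain ⟨c, hc0, e⟩ := hk i (not_lt.mp hi)
      rw [e]
      exact supp_const hc0
  · intro i hi
    obtain ⟨c, -, e⟩ := hk i hi
    exact ⟨c, e⟩
  · intro e c _ he
    simp only [hG] at he
    exact UE12B.const12 ht h1 h2 hv hw hO h.toU he

section twothirds

/-- the functions for `t = 2/3` -/
def G12s (x y : F) : Fin 14 → F :=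
  ![x, x - 10 / 3, x - 2, x - 10 / 9, x - 10, x + 2 / 3, y, y - 2 * x, y - 2 / 3 * x,
    y - 10 / 3 * x, y + 2 * x, 2, 3, 5]

/-- monomials in the eleven functions for `t = 2/3` -/
def M12s (x y : F) (n : Fin 11 → ℤ) : F :=
  ∏ j, (![x, x - 10 / 3, x - 2, x - 10 / 9, x - 10, x + 2 / 3, y, y - 2 * x, y - 2 / 3 * x,
    y - 10 / 3 * x, y + 2 * x] : Fin 11 → F) j ^ n j

lemma uF12s (x y : F) : UE12B.uF (2 / 3 : k) x y =
    ![x, x - 10 / 3, x - 2, x - 10 / 9, x - 10, x + 2 / 3, y, y - 2 * x, y - 2 / 3 * x,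
      y - 10 / 3 * x, y + 2 * x] := by
  have e1 : UE12.bb (2 / 3 : k) = 10 / 3 := by unfold UE12.bb UE12.cc; norm_num
  have e2 : UE12.cc (2 / 3 : k) = 2 := by unfold UE12.cc; norm_num
  have e3 : UE12.x4 (2 / 3 : k) = 10 / 9 := by unfold UE12.x4; norm_num
  have e4 : UE12.x5 (2 / 3 : k) = 10 := by unfold UE12.x5; norm_num
  have e5 : UE12.x6 (2 / 3 : k) = -(2 / 3) := by unfold UE12.x6; norm_num
  have e6 : UE12.s3 (2 / 3 : k) = 2 / 3 := by unfold UE12.s3; norm_num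
  have e7 : UE12.s4 (2 / 3 : k) = 10 / 3 := by unfold UE12.s4; norm_num
  have e8 : UE12.s5 (2 / 3 : k) = -2 := by unfold UE12.s5; norm_num
  unfold UE12B.uF
  rw [e1, e2, e3, e4, e5, e6, e7, e8]
  simp only [map_neg, map_div₀, map_ofNat, sub_neg_eq_add, neg_mul]

/-- **the clause `Line` for `t = 2/3`**, from the certificate, the solutions of the unit equation
and the class -/
theorem line12a_of (hg : Generic W X Y) {P : W.Point} (h12 : To12t (2 / 3 : k) P X Y)
    {R : RCert} {L' : List Tm} (hR : ROkX R [L']) (hn : R.n = 14) (hr : R.r = 11)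
    {cls : List (Mo × Mo)} (hcl : sameC R.cls cls = true)
    (hs : ∀ {x y : F}, Gen (10 / 3 : k) 2 x y → Sols (List.ofFn (G12s x y)) cls)
    (hU : ∀ {x y : F}, Gen (10 / 3 : k) 2 x y → ∀ f : F,
      (∃ (c : k) (n : Fin 11 → ℤ), c ≠ 0 ∧ f = algebraMap k F c * M12s x y n) →
      (∃ (c : k) (n : Fin 11 → ℤ), c ≠ 0 ∧ 1 - f = algebraMap k F c * M12s x y n) →
      (∃ c : k, f = algebraMap k F c) ∨ ∃ p ∈ cls, TN.Orb (ev (List.ofFn (G12s x y)) p.1) f)
    {L : List Tm} (hL : okT 14 cls L = true) (hD : chkD 14 cls L = true)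
    (hLL : L.map (fun t => (oo cls (t.c, t.s), t.u)) = L'.map (fun t => (oo R.cls (t.c, t.s), t.u)))
    {ξ : F → F → HK F}
    (hξ : ∀ {x y : F}, Gen (10 / 3 : k) 2 x y → ξ x y = KC72.zt (List.ofFn (G12s x y)) cls L)
    (hun : ∀ {x y : F}, Gen (10 / 3 : k) 2 x y → Unram k (ξ x y))
    (hnz : ∀ {x y : F} (φ : k →+* ℝ), Gen (10 / 3 : k) 2 x y →
      IntermediateField.adjoin k {x, y} = ⊤ → RegNe φ (ξ x y)) : Line P X Y := by
  obtain ⟨hb, x, y, hG, hO, hS, htop⟩ := h12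
  have hgen : Gen (10 / 3 : k) 2 x y := by
    have := UE4.of_UEG hG.toU
    have e1 : UE12.bb (2 / 3 : k) = 10 / 3 := by unfold UE12.bb UE12.cc; norm_num
    have e2 : UE12.cc (2 / 3 : k) = 2 := by unfold UE12.cc; norm_num
    rwa [e1, e2] at this
  have h5k : (5 : k) ≠ 0 := by norm_num
  refine line12r hg (t := 2 / 3) (by norm_num) (by norm_num) (by norm_num) (by norm_num)
    (by norm_num) hO hG hS.toSame hR hn hr hcl (G := G12s x y) (by norm_num) ?_ ?_ ?_ (hs hgen) ?_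
    hL hD hLL (hξ hgen) (hun hgen) (fun φ ht => hnz φ hgen (htop ht))
  · intro j
    rw [uF12s]
    fin_cases j <;> rfl
  · intro i hi
    fin_cases i <;> first | (exfalso; revert hi; decide) | skip
    · exact ⟨2, two_ne_zero, (map_ofNat (algebraMap k F) 2).symm⟩
    · exact ⟨3, three_ne_zero, (map_ofNat (algebraMap k F) 3).symm⟩
    · exact ⟨5, h5k, (map_ofNat (algebraMap k F) 5).symm⟩
  · intro e he hp
    have e0 := he 0 (by decide)
    have e1 := he 1 (by decide)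
    have e2 := he 2 (by decide)
    have e3 := he 3 (by decide)
    have e4 := he 4 (by decide)
    have e5 := he 5 (by decide)
    have e6 := he 6 (by decide)
    have e7 := he 7 (by decide)
    have e8 := he 8 (by decide)
    have e9 := he 9 (by decide)
    have e10 := he 10 (by decide)
    rw [Fin.prod_univ_castSucc, Fin.prod_univ_castSucc, Fin.prod_univ_castSucc,
      Fin.prod_univ_castSucc, Fin.prod_univ_castSucc, Fin.prod_univ_castSucc,
      Fin.prod_univ_eight] at hp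
    have hp' : G12s x y 0 ^ e 0 * G12s x y 1 ^ e 1 * G12s x y 2 ^ e 2 * G12s x y 3 ^ e 3 *
      G12s x y 4 ^ e 4 * G12s x y 5 ^ e 5 * G12s x y 6 ^ e 6 * G12s x y 7 ^ e 7 *
      G12s x y 8 ^ e 8 * G12s x y 9 ^ e 9 * G12s x y 10 ^ e 10 *
      (2 : F) ^ e 11 * (3 : F) ^ e 12 * (5 : F) ^ e 13 = 1 := hp
    rw [e0, e1, e2, e3, e4, e5, e6, e7, e8, e9, e10] at hp'
    simp only [zpow_zero, one_mul] at hp'
    have h2 : (2 : k) ^ e 11 * 3 ^ e 12 * 5 ^ e 13 = 1 := by
      apply (algebraMap k F).injective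
      rw [map_mul, map_mul, map_zpow₀, map_zpow₀, map_zpow₀, map_ofNat, map_ofNat, map_ofNat,
        map_one]
      exact hp'
    obtain ⟨h3, h4, h5⟩ := two_three_five h2
    funext i
    fin_cases i <;> assumption
  · intro f h1 h2
    rw [uF12s] at h1 h2
    exact hU hgen f h1 h2

end twothirds

end Pool.Agent.FK4
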