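import Pool.Agent.Lib_helper87.FAM.ClsC
import Pool.Agent.Lib_helper87.FAM.ClsC0
import Pool.Agent.Lib_helper87.FAM.S12
import Pool.Agent.Lib_helper87.FAM.T12t

set_option autoImplicit false
set_option linter.unusedSectionVars false

/-!
# The special curves with a point of order twelve
-/

open scoped TensorProduct WithZero

namespace Pool.Agent.FK4

open Pool.Agent.MK4 WeierstrassCurve.Affine Pool.Agent.KC72
open Pool.Agent.TN (Wt Gen)
open Pool.Agent.UEG (P0)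

variable {k : Type*} [Field k] [DecidableEq k] [CharZero k] {W : WeierstrassCurve.Affine k}
  {F : Type*} [Field F] [Algebra k F] {X Y : F}

lemma supp12 {t : k} (ht : t ≠ 0) (h1 : 1 - t ≠ 0) (h2 : 2 * t - 1 ≠ 0)
    (hv : 2 * t ^ 2 - 2 * t + 1 ≠ 0) (hw : 3 * t ^ 2 - 3 * t + 1 ≠ 0) {hb : UE12.bb t ≠ 0}
    {x y : F} (hO : addOrderOf (P0 (UE12.cc t) hb) = 12)
    (h : Generic (Wt (UE12.bb t) (UE12.cc t)) x y) (f : F) :
    Supp (AddSubgroup.zmultiples (P0 (UE12.cc t) hb)) x y f ↔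
      ∃ (c : k) (n : Fin 11 → ℤ), c ≠ 0 ∧
        f = algebraMap k F c * ∏ j, UE12B.uF t x y j ^ n j := by
  rw [supp_iff]
  exact UE12B.supp12 ht h1 h2 hv hw hO h.toU f

/-- the class and the closed elements for a point of order twelve -/
theorem cls12_cert (hg : Generic W X Y) {P : W.Point} {t : k} (ht : t ≠ 0) (h1 : 1 - t ≠ 0)
    (h2 : 2 * t - 1 ≠ 0) (hv : 2 * t ^ 2 - 2 * t + 1 ≠ 0) (hw : 3 * t ^ 2 - 3 * t + 1 ≠ 0)
    {hb : UE12.bb t ≠ 0} {x y : F} (hO : addOrderOf (P0 (UE12.cc t) hb) = 12)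
    (h : Generic (Wt (UE12.bb t) (UE12.cc t)) x y)
    (hS : Same (AddSubgroup.zmultiples P) X Y (AddSubgroup.zmultiples (P0 (UE12.cc t) hb)) x y)
    (C : Cert) (hC : Ok C) {n : ℕ} (hn : C.n = n) (hr : C.r = 11) {cls : List (Mo × Mo)}
    (hcl : C.cls = cls) {G : Fin n → F} (h11 : 11 ≤ n)
    (hG : ∀ j : Fin 11, G (Fin.castLE h11 j) = UE12B.uF t x y j)
    (hk : ∀ i : Fin n, 11 ≤ i.val → ∃ c : k, c ≠ 0 ∧ G i = algebraMap k F c)
    (hc : ∀ e : Fin n → ℤ, (∀ i : Fin n, i.val < 11 → e i = 0) → ∏ i, G i ^ e i = 1 → e = 0)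
    (hs : Sols (List.ofFn G) cls)
    (hU : ∀ f : F,
      (∃ (c : k) (n : Fin 11 → ℤ), c ≠ 0 ∧ f = algebraMap k F c * ∏ j, UE12B.uF t x y j ^ n j) →
      (∃ (c : k) (n : Fin 11 → ℤ), c ≠ 0 ∧
        1 - f = algebraMap k F c * ∏ j, UE12B.uF t x y j ^ n j) →
      (∃ c : k, f = algebraMap k F c) ∨ ∃ p ∈ cls, TN.Orb (ev (List.ofFn G) p.1) f)
    {L : List Tm} (hL : okT n cls L = true) (hD : chkD n cls L = true) {a : ℤ} (ha : a ≠ 0)
    (hX : chkX C a L = true) {ξ : HK F} (hξ : ξ = zt (List.ofFn G) cls L)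
    (hun : Unram k ξ) :
    IsCls (AddSubgroup.zmultiples P) X Y ξ ∧
      ClosedIn (AddSubgroup.zmultiples P) X Y (Submodule.span ℚ {ξ}) := by
  have hs12 := supp12 ht h1 h2 hv hw hO h
  refine cls_cert hg hS C hC (n := n) (r := 11) hn hr hcl (G := G) h11
    ?_ ?_ ?_ hc hs (fun f h1 h2 => hU f ((hs12 f).mp h1) ((hs12 _).mp h2)) hL hD ha hX hξ hun
  · intro i
    by_cases hi : i.val < 11
    · have e : G i = UE12B.uF t x y ⟨i.val, hi⟩ := by rw [← hG]; rfl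
      rw [e, hs12]
      refine ⟨1, Pi.single ⟨i.val, hi⟩ 1, one_ne_zero, ?_⟩
      rw [map_one, one_mul, Finset.prod_eq_single (⟨i.val, hi⟩ : Fin 11)]
      · rw [Pi.single_eq_same, zpow_one]
      · intro j _ hj
        rw [Pi.single_eq_of_ne hj, zpow_zero]
      · intro hj; exact absurd (Finset.mem_univ _) hj
    · obtain ⟨c, hc0, e⟩ := hk i (not_lt.mp hi)
      rw [e]
      exact supp_const hc0
  · intro i hi
    obtain ⟨c, -, e⟩ := hk i hi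
    exact ⟨c, e⟩
  · intro e c _ he
    simp only [hG] at he
    exact UE12B.const12 ht h1 h2 hv hw hO h.toU he

/-- the clause `Line` for a point of order twelve -/
theorem line12 (hg : Generic W X Y) {P : W.Point} {t : k} (ht : t ≠ 0) (h1 : 1 - t ≠ 0)
    (h2 : 2 * t - 1 ≠ 0) (hv : 2 * t ^ 2 - 2 * t + 1 ≠ 0) (hw : 3 * t ^ 2 - 3 * t + 1 ≠ 0)
    {hb : UE12.bb t ≠ 0} {x y : F} (hO : addOrderOf (P0 (UE12.cc t) hb) = 12)
    (h : Generic (Wt (UE12.bb t) (UE12.cc t)) x y)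
    (hS : Same (AddSubgroup.zmultiples P) X Y (AddSubgroup.zmultiples (P0 (UE12.cc t) hb)) x y)
    (C : Cert) (hC : Ok C) {n : ℕ} (hn : C.n = n) (hr : C.r = 11) {cls : List (Mo × Mo)}
    (hcl : C.cls = cls) {G : Fin n → F} (h11 : 11 ≤ n)
    (hG : ∀ j : Fin 11, G (Fin.castLE h11 j) = UE12B.uF t x y j)
    (hk : ∀ i : Fin n, 11 ≤ i.val → ∃ c : k, c ≠ 0 ∧ G i = algebraMap k F c)
    (hc : ∀ e : Fin n → ℤ, (∀ i : Fin n, i.val < 11 → e i = 0) → ∏ i, G i ^ e i = 1 → e = 0)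
    (hs : Sols (List.ofFn G) cls)
    (hU : ∀ f : F,
      (∃ (c : k) (n : Fin 11 → ℤ), c ≠ 0 ∧ f = algebraMap k F c * ∏ j, UE12B.uF t x y j ^ n j) →
      (∃ (c : k) (n : Fin 11 → ℤ), c ≠ 0 ∧
        1 - f = algebraMap k F c * ∏ j, UE12B.uF t x y j ^ n j) →
      (∃ c : k, f = algebraMap k F c) ∨ ∃ p ∈ cls, TN.Orb (ev (List.ofFn G) p.1) f)
    {L : List Tm} (hL : okT n cls L = true) (hD : chkD n cls L = true) {a : ℤ} (ha : a ≠ 0)
    (hX : chkX C a L = true) {ξ : HK F} (hξ : ξ = zt (List.ofFn G) cls L)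
    (hun : Unram k ξ) (hnz : RegNonZero k X Y ξ) : Line P X Y :=
  let q := cls12_cert hg ht h1 h2 hv hw hO h hS C hC hn hr hcl h11 hG hk hc hs hU hL hD ha hX hξ hun
  ⟨ξ, q.1, q.2, hnz⟩

end Pool.Agent.FK4
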